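import Pool.Agent.Lib.MP_47914d_nt.Sn.Spec

section
/-!
Module AN: upper bound for the first large Taylor coefficient.
-/
set_option autoImplicit false

open Complex Filter Topology Finset
open scoped Real

namespace Pool.Agent.Lib.MP_47914d_nt.Sn

namespace An

/-- `F` is the Taylor series of `f` at `0`. -/
def IsSer (f : ℂ → ℂ) (F : PowerSeries ℂ) : Prop :=
  ∀ᶠ u in 𝓝 (0 : ℂ), HasSum (fun n => PowerSeries.coeff n F * u ^ n) (f u)

/-- The formal multilinear series of a power series. -/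
noncomputable def fms (F : PowerSeries ℂ) : FormalMultilinearSeries ℂ ℂ ℂ :=
  FormalMultilinearSeries.ofScalars ℂ (fun n => PowerSeries.coeff n F)

lemma isSer_iff (f : ℂ → ℂ) (F : PowerSeries ℂ) : IsSer f F ↔ HasFPowerSeriesAt f (fms F) 0 := by
  rw [hasFPowerSeriesAt_iff, IsSer]
  simp [fms, FormalMultilinearSeries.coeff_ofScalars, mul_comm]

lemma IsSer.unique {f : ℂ → ℂ} {F G : PowerSeries ℂ} (h1 : IsSer f F) (h2 : IsSer f G) :
    F = G := by
  have h := HasFPowerSeriesAt.eq_formalMultilinearSeries ((isSer_iff f F).1 h1)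
    ((isSer_iff f G).1 h2)
  ext n
  have h3 := congrArg (fun p : FormalMultilinearSeries ℂ ℂ ℂ => p.coeff n) h
  simpa [fms, FormalMultilinearSeries.coeff_ofScalars] using h3

lemma IsSer.congr {f g : ℂ → ℂ} {F : PowerSeries ℂ} (h1 : IsSer f F) (h2 : f =ᶠ[𝓝 0] g) :
    IsSer g F := by
  filter_upwards [h1, h2] with u h3 h4
  rwa [← h4]

lemma IsSer.mul {f g : ℂ → ℂ} {F G : PowerSeries ℂ} (h1 : IsSer f F) (h2 : IsSer g G) :
    IsSer (fun u => f u * g u) (F * G) := by
  filter_upwards [h1, h2] with u h3 h4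
  have hF : Summable fun n => ‖PowerSeries.coeff n F * u ^ n‖ := h3.summable.norm
  have hG : Summable fun n => ‖PowerSeries.coeff n G * u ^ n‖ := h4.summable.norm
  have h5 := tsum_mul_tsum_eq_tsum_sum_antidiagonal_of_summable_norm hF hG
  have h6 := (summable_norm_sum_mul_antidiagonal_of_summable_norm hF hG).of_norm
  have h7 : (fun n => PowerSeries.coeff n (F * G) * u ^ n) = fun n =>
      ∑ kl ∈ antidiagonal n, PowerSeries.coeff kl.1 F * u ^ kl.1 *
        (PowerSeries.coeff kl.2 G * u ^ kl.2) := by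
    funext n
    rw [PowerSeries.coeff_mul, Finset.sum_mul]
    refine Finset.sum_congr rfl fun kl hkl => ?_
    have h8 : kl.1 + kl.2 = n := by simpa using hkl
    rw [← h8, pow_add]
    ring
  rw [h7, ← h3.tsum_eq, ← h4.tsum_eq, h5]
  exact h6.hasSum

lemma IsSer.add {f g : ℂ → ℂ} {F G : PowerSeries ℂ} (h1 : IsSer f F) (h2 : IsSer g G) :
    IsSer (fun u => f u + g u) (F + G) := by
  filter_upwards [h1, h2] with u h3 h4
  have := h3.add h4
  simpa [add_mul] using this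

lemma IsSer.const (c : ℂ) : IsSer (fun _ => c) (PowerSeries.C c) := by
  refine Filter.Eventually.of_forall fun u => ?_
  have h := hasSum_single (f := fun n => PowerSeries.coeff n (PowerSeries.C c) * u ^ n) 0 (by
    intro n hn
    simp [PowerSeries.coeff_C, hn])
  simpa using h

lemma IsSer.pow {f : ℂ → ℂ} {F : PowerSeries ℂ} (h1 : IsSer f F) (k : ℕ) :
    IsSer (fun u => f u ^ k) (F ^ k) := by
  induction k with
  | zero => simpa using IsSer.const 1
  | succ k ih =>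
    have := ih.mul h1
    simpa [pow_succ] using this

lemma IsSer.sum {ι : Type*} (s : Finset ι) (f : ι → ℂ → ℂ) (F : ι → PowerSeries ℂ)
    (h : ∀ i ∈ s, IsSer (f i) (F i)) : IsSer (fun u => ∑ i ∈ s, f i u) (∑ i ∈ s, F i) := by
  classical
  induction s using Finset.induction_on with
  | empty => simpa using IsSer.const 0
  | insert a s ha ih =>
    have h1 := (h a (Finset.mem_insert_self a s)).add
      (ih fun i hi => h i (Finset.mem_insert_of_mem hi))
    simpa [Finset.sum_insert ha] using h1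

lemma IsSer.rescale {f : ℂ → ℂ} {F : PowerSeries ℂ} (h1 : IsSer f F) (c : ℂ) :
    IsSer (fun u => f (c * u)) (PowerSeries.rescale c F) := by
  have h2 : Tendsto (fun u : ℂ => c * u) (𝓝 0) (𝓝 0) := by
    have : Tendsto (fun u : ℂ => c * u) (𝓝 0) (𝓝 (c * 0)) :=
      (continuous_const_mul c).tendsto 0
    simpa using this
  filter_upwards [h2.eventually h1] with u h3
  refine h3.congr_fun ?_ |> fun h => h
  intro n
  rw [PowerSeries.coeff_rescale]; ring

/-- The Taylor series. -/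
noncomputable def ser (f : ℂ → ℂ) : PowerSeries ℂ :=
  PowerSeries.mk fun n => iteratedDeriv n f 0 / n.factorial

lemma isSer_ser {f : ℂ → ℂ} (h : AnalyticAt ℂ f 0) : IsSer f (ser f) := by
  rw [isSer_iff]
  have h1 := h.hasFPowerSeriesAt
  have h2 : fms (ser f) = FormalMultilinearSeries.ofScalars ℂ fun n =>
      iteratedDeriv n f 0 / n.factorial := by
    unfold fms ser
    simp
  rw [h2]
  exact h1


/-! ### Growth of theta functions -/

/-- The period pair `(1, w)`. -/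
noncomputable def pp (w : ℂ) (hw : 0 < w.im) : PeriodPair where
  ω₁ := 1
  ω₂ := w
  indep := by
    rw [LinearIndependent.pair_iff]
    intro s t h
    have h1 := congrArg Complex.im h
    have h2 := congrArg Complex.re h
    simp at h1 h2
    have ht : t = 0 := by
      rcases h1 with h1 | h1
      · exact h1
      · exact absurd h1 hw.ne'
    subst ht
    simp at h2
    exact ⟨h2, rfl⟩

/-- A continuous doubly periodic function is bounded. -/
lemma bounded_of_periodic (w : ℂ) (hw : 0 < w.im) (g : ℂ → ℝ) (hc : Continuous g)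
    (h1 : ∀ u, g (u + 1) = g u) (h2 : ∀ u, g (u + w) = g u) : ∃ M : ℝ, ∀ u, g u ≤ M := by
  have hp1 : Function.Periodic g 1 := h1
  have hp2 : Function.Periodic g w := h2
  have hper : ∀ z : ℂ, ∀ l ∈ (pp w hw).lattice, g (z + l) = g z := by
    intro z l hl
    obtain ⟨m, n, rfl⟩ := PeriodPair.mem_lattice.1 hl
    have e1 : (pp w hw).ω₁ = 1 := rfl
    have e2 : (pp w hw).ω₂ = w := rfl
    rw [e1, e2]
    have h3 := (hp1.int_mul m) z
    have h4 := (hp2.int_mul n) (z + m * 1)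
    rw [← add_assoc, h4, h3]
  have hcomp := IsZLattice.isCompact_range_of_periodic (pp w hw).lattice g hc hper
  obtain ⟨M, hM⟩ := hcomp.bddAbove
  exact ⟨M, fun u => hM (Set.mem_range_self u)⟩

/-- Growth of theta functions of weight two. -/
lemma growth (w : ℂ) (hw : 0 < w.im) (A : ℂ → ℂ) (hA : Continuous A)
    (h1 : ∀ u, A (u + 1) = A u) (h2 : ∀ u, A (u + w) = cexp (-(4 * π * I * u)) * A u) :
    ∃ M : ℝ, 0 < M ∧ ∀ u, ‖A u‖ ≤ M * Real.exp (2 * π / w.im * u.im ^ 2 + 2 * π * |u.im|) := by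
  obtain ⟨M, hM⟩ := bounded_of_periodic w hw
    (fun u => ‖A u‖ * Real.exp (-(2 * π / w.im * u.im ^ 2 - 2 * π * u.im)))
    (by fun_prop) (by intro u; simp [h1]) (by
      intro u
      rw [h2, norm_mul, Complex.norm_exp]
      have e1 : (-(4 * π * I * u) : ℂ).re = 4 * π * u.im := by simp
      rw [e1, mul_comm (Real.exp _) ‖A u‖, mul_assoc, ← Real.exp_add]
      congr 2
      simp only [Complex.add_im]
      field_simp
      ring)
  refine ⟨max M 1, by positivity, fun u => ?_⟩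
  have h3 := hM u
  have h4 : ‖A u‖ ≤ M * Real.exp (2 * π / w.im * u.im ^ 2 - 2 * π * u.im) := by
    have := mul_le_mul_of_nonneg_right h3
      (Real.exp_nonneg (2 * π / w.im * u.im ^ 2 - 2 * π * u.im))
    rwa [mul_assoc, ← Real.exp_add, neg_add_cancel, Real.exp_zero, mul_one] at this
  refine h4.trans ?_
  have h5 : 2 * π / w.im * u.im ^ 2 - 2 * π * u.im ≤
      2 * π / w.im * u.im ^ 2 + 2 * π * |u.im| := by
    have := neg_abs_le u.im
    nlinarith [Real.pi_pos]
  calc M * Real.exp (2 * π / w.im * u.im ^ 2 - 2 * π * u.im)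
      ≤ max M 1 * Real.exp (2 * π / w.im * u.im ^ 2 - 2 * π * u.im) := by
        gcongr; exact le_max_left _ _
    _ ≤ max M 1 * Real.exp (2 * π / w.im * u.im ^ 2 + 2 * π * |u.im|) := by
        gcongr

/-- The second theta function. -/
noncomputable def A2 (w : ℂ) (A : ℂ → ℂ) (u : ℂ) : ℂ := cexp (2 * π * I * w * (u ^ 2 - u)) * A (w * u)

lemma A2_one (w : ℂ) (A : ℂ → ℂ) (h2 : ∀ u, A (u + w) = cexp (-(4 * π * I * u)) * A u) (u : ℂ) :
    A2 w A (u + 1) = A2 w A u := by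
  unfold A2
  rw [mul_add, mul_one, h2, ← mul_assoc, ← Complex.exp_add]
  congr 2
  ring

lemma A2_diff (w : ℂ) (A : ℂ → ℂ) (h : Differentiable ℂ A) : Differentiable ℂ (A2 w A) := by
  unfold A2
  have h1 : Differentiable ℂ fun u : ℂ => A (w * u) :=
    h.comp (differentiable_id.const_mul w)
  exact Differentiable.mul (by fun_prop) h1

/-- reduction of the real part -/
lemma red (f : ℂ → ℂ) (h1 : ∀ u, f (u + 1) = f u) (u : ℂ) :
    ∃ v : ℂ, v.im = u.im ∧ 0 ≤ v.re ∧ v.re ≤ 1 ∧ f v = f u := by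
  have hp : Function.Periodic f 1 := h1
  refine ⟨u - (⌊u.re⌋ : ℤ) * 1, by simp, ?_, ?_, hp.sub_int_mul_eq _⟩
  · simp only [mul_one, Complex.sub_re, Complex.intCast_re]
    linarith [Int.floor_le u.re]
  · simp only [mul_one, Complex.sub_re, Complex.intCast_re]
    linarith [Int.lt_floor_add_one u.re]

lemma growth_line (w : ℂ) (hw : 0 < w.im) (A : ℂ → ℂ) (hA : Differentiable ℂ A)
    (h1 : ∀ u, A (u + 1) = A u) (h2 : ∀ u, A (u + w) = cexp (-(4 * π * I * u)) * A u) :
    ∃ K : ℝ, 1 ≤ K ∧ ∀ R : ℝ, 1 ≤ R → ∀ u : ℂ, |u.im| = R →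
      ‖A u‖ ≤ Real.exp (K * R ^ 2) ∧ ‖A2 w A u‖ ≤ Real.exp (K * R ^ 2) := by
  obtain ⟨M, hM, hg⟩ := growth w hw A hA.continuous h1 h2
  set a : ℝ := 2 * π / w.im with ha
  have ha0 : 0 < a := by positivity
  have hpi := Real.pi_pos
  set W : ℝ := ‖w‖ with hW
  have hW0 : 0 ≤ W := norm_nonneg _
  -- bound with `‖u‖`
  have hg2 : ∀ u : ℂ, ‖A u‖ ≤ Real.exp (M + a * ‖u‖ ^ 2 + 2 * π * ‖u‖) := by
    intro u
    have hi : |u.im| ≤ ‖u‖ := Complex.abs_im_le_norm u
    have hi2 : u.im ^ 2 ≤ ‖u‖ ^ 2 := by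
      rw [← sq_abs u.im]; gcongr
    have hMe : M ≤ Real.exp M := by linarith [Real.add_one_le_exp M]
    calc ‖A u‖ ≤ M * Real.exp (a * u.im ^ 2 + 2 * π * |u.im|) := hg u
      _ ≤ Real.exp M * Real.exp (a * ‖u‖ ^ 2 + 2 * π * ‖u‖) := by gcongr
      _ = Real.exp (M + a * ‖u‖ ^ 2 + 2 * π * ‖u‖) := by rw [← Real.exp_add]; ring_nf
  have hnorm : ∀ v : ℂ, ∀ R : ℝ, 1 ≤ R → |v.im| = R → 0 ≤ v.re → v.re ≤ 1 → ‖v‖ ≤ 2 * R := by
    intro v R hR hv h3 h4
    have := Complex.norm_le_abs_re_add_abs_im v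
    rw [abs_of_nonneg h3, hv] at this
    linarith
  have hK0 : (0 : ℝ) ≤ M + 4 * a + 4 * π + (4 * a * W ^ 2 + 4 * π * W) + 12 * π * W := by
    positivity
  refine ⟨1 + M + 4 * a + 4 * π + (4 * a * W ^ 2 + 4 * π * W) + 12 * π * W, by linarith,
    fun R hR u hu => ?_⟩
  have hR2 : R ≤ R ^ 2 := by nlinarith
  have hR1 : (1 : ℝ) ≤ R ^ 2 := by nlinarith
  constructor
  · obtain ⟨v, hv1, hv2, hv3, hv4⟩ := red A h1 u
    rw [← hv4]
    have hvn := hnorm v R hR (by rw [hv1, hu]) hv2 hv3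
    refine (hg2 v).trans (Real.exp_le_exp.2 ?_)
    have e1 : ‖v‖ ^ 2 ≤ 4 * R ^ 2 := by
      have := norm_nonneg v
      nlinarith
    have e2 : M ≤ M * R ^ 2 := by nlinarith
    have e3 : a * ‖v‖ ^ 2 ≤ 4 * a * R ^ 2 := by nlinarith
    have e4 : 2 * π * ‖v‖ ≤ 4 * π * R ^ 2 := by nlinarith
    have e5 : 0 ≤ (1 + (4 * a * W ^ 2 + 4 * π * W) + 12 * π * W) * R ^ 2 := by positivity
    nlinarith
  · obtain ⟨v, hv1, hv2, hv3, hv4⟩ := red (A2 w A) (A2_one w A h2) u
    rw [← hv4]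
    have hvn := hnorm v R hR (by rw [hv1, hu]) hv2 hv3
    have hv0 := norm_nonneg v
    have e1 : ‖v‖ ^ 2 ≤ 4 * R ^ 2 := by nlinarith
    have e0 : ‖cexp (2 * π * I * w * (v ^ 2 - v))‖ ≤ Real.exp (12 * π * W * R ^ 2) := by
      rw [Complex.norm_exp]
      refine Real.exp_le_exp.2 ?_
      refine (Complex.re_le_norm _).trans ?_
      have e6 : ‖v ^ 2 - v‖ ≤ 6 * R ^ 2 := by
        refine (norm_sub_le _ _).trans ?_
        rw [norm_pow]
        linarith
      calc ‖2 * π * I * w * (v ^ 2 - v)‖ = 2 * π * W * ‖v ^ 2 - v‖ := by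
            rw [norm_mul, norm_mul, norm_mul, norm_mul]
            simp [abs_of_pos hpi, hW]
        _ ≤ 2 * π * W * (6 * R ^ 2) := by gcongr
        _ = 12 * π * W * R ^ 2 := by ring
    have e7 : ‖w * v‖ = W * ‖v‖ := norm_mul _ _
    have e8 := hg2 (w * v)
    rw [e7] at e8
    unfold A2
    rw [norm_mul]
    calc ‖cexp (2 * π * I * w * (v ^ 2 - v))‖ * ‖A (w * v)‖
        ≤ Real.exp (12 * π * W * R ^ 2) *
          Real.exp (M + a * (W * ‖v‖) ^ 2 + 2 * π * (W * ‖v‖)) := by gcongr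
      _ = Real.exp (12 * π * W * R ^ 2 + (M + a * (W * ‖v‖) ^ 2 + 2 * π * (W * ‖v‖))) := by
        rw [← Real.exp_add]
      _ ≤ _ := by
        refine Real.exp_le_exp.2 ?_
        have e2 : M ≤ M * R ^ 2 := by nlinarith
        have e3 : a * (W * ‖v‖) ^ 2 ≤ 4 * a * W ^ 2 * R ^ 2 := by
          have : a * (W * ‖v‖) ^ 2 = a * W ^ 2 * ‖v‖ ^ 2 := by ring
          rw [this]
          have : 4 * a * W ^ 2 * R ^ 2 = a * W ^ 2 * (4 * R ^ 2) := by ring
          rw [this]
          gcongr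
        have e4 : 2 * π * (W * ‖v‖) ≤ 4 * π * W * R ^ 2 := by
          have : 2 * π * (W * ‖v‖) = 2 * π * W * ‖v‖ := by ring
          rw [this]
          have : 4 * π * W * R ^ 2 = 2 * π * W * (2 * R ^ 2) := by ring
          rw [this]
          gcongr
          linarith
        have e5 : 0 ≤ (1 + 4 * a + 4 * π) * R ^ 2 := by positivity
        nlinarith


/-! ### The auxiliary function -/

/-- The auxiliary function. -/
noncomputable def GG (w : ℂ) (A B : ℂ → ℂ) (L : ℕ) (p : ℕ → ℕ → ℤ) (u : ℂ) : ℂ :=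
  ∑ i ∈ range (L + 1), ∑ j ∈ range (L + 1),
    (p i j : ℂ) * ((A u ^ i * B u ^ (L - i)) * (A2 w A u ^ j * A2 w B u ^ (L - j)))

lemma GG_diff (w : ℂ) (A B : ℂ → ℂ) (hA : Differentiable ℂ A) (hB : Differentiable ℂ B) (L : ℕ)
    (p : ℕ → ℕ → ℤ) : Differentiable ℂ (GG w A B L p) := by
  have h1 := A2_diff w A hA
  have h2 := A2_diff w B hB
  unfold GG
  fun_prop

lemma GG_one (w : ℂ) (A B : ℂ → ℂ) (hA1 : ∀ u, A (u + 1) = A u)
    (hA2 : ∀ u, A (u + w) = cexp (-(4 * π * I * u)) * A u) (hB1 : ∀ u, B (u + 1) = B u)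
    (hB2 : ∀ u, B (u + w) = cexp (-(4 * π * I * u)) * B u) (L : ℕ)
    (p : ℕ → ℕ → ℤ) (u : ℂ) : GG w A B L p (u + 1) = GG w A B L p u := by
  unfold GG
  rw [hA1, hB1, A2_one w A hA2, A2_one w B hB2]

lemma GG_bound (w : ℂ) (A B : ℂ → ℂ) (L : ℕ) (p : ℕ → ℕ → ℤ) (P0 E : ℝ)
    (hp : ∀ i j, |(p i j : ℝ)| ≤ P0) (u : ℂ) (h1 : ‖A u‖ ≤ E)
    (h2 : ‖B u‖ ≤ E) (h3 : ‖A2 w A u‖ ≤ E) (h4 : ‖A2 w B u‖ ≤ E) :
    ‖GG w A B L p u‖ ≤ (L + 1) ^ 2 * P0 * E ^ (2 * L) := by
  have hE : 0 ≤ E := (norm_nonneg _).trans h1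
  have hP : 0 ≤ P0 := (abs_nonneg _).trans (hp 0 0)
  unfold GG
  have key : ∀ i ∈ range (L + 1), ∀ j ∈ range (L + 1),
      ‖(p i j : ℂ) * ((A u ^ i * B u ^ (L - i)) * (A2 w A u ^ j * A2 w B u ^ (L - j)))‖ ≤
        P0 * E ^ (2 * L) := by
    intro i hi j hj
    rw [Finset.mem_range] at hi hj
    have e1 : ‖A u ^ i * B u ^ (L - i)‖ ≤ E ^ L := by
      rw [norm_mul, norm_pow, norm_pow]
      calc ‖A u‖ ^ i * ‖B u‖ ^ (L - i) ≤ E ^ i * E ^ (L - i) := by gcongr
        _ = E ^ L := by rw [← pow_add]; congr 1; omega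
    have e2 : ‖A2 w A u ^ j * A2 w B u ^ (L - j)‖ ≤ E ^ L := by
      rw [norm_mul, norm_pow, norm_pow]
      calc ‖A2 w A u‖ ^ j * ‖A2 w B u‖ ^ (L - j) ≤ E ^ j * E ^ (L - j) := by gcongr
        _ = E ^ L := by rw [← pow_add]; congr 1; omega
    have e3 : ‖(p i j : ℂ)‖ ≤ P0 := by
      rw [Complex.norm_intCast]; exact hp i j
    rw [norm_mul, norm_mul]
    calc ‖(p i j : ℂ)‖ * (‖A u ^ i * B u ^ (L - i)‖ * ‖A2 w A u ^ j * A2 w B u ^ (L - j)‖)
        ≤ P0 * (E ^ L * E ^ L) := by gcongr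
      _ = P0 * E ^ (2 * L) := by rw [← pow_add]; ring_nf
  calc ‖∑ i ∈ range (L + 1), ∑ j ∈ range (L + 1),
      (p i j : ℂ) * ((A u ^ i * B u ^ (L - i)) * (A2 w A u ^ j * A2 w B u ^ (L - j)))‖
      ≤ ∑ i ∈ range (L + 1), ∑ j ∈ range (L + 1), P0 * E ^ (2 * L) := by
        refine (norm_sum_le _ _).trans (Finset.sum_le_sum fun i hi => ?_)
        exact (norm_sum_le _ _).trans (Finset.sum_le_sum fun j hj => key i hi j hj)
    _ = (L + 1) ^ 2 * P0 * E ^ (2 * L) := by
        simp only [Finset.sum_const, Finset.card_range, nsmul_eq_mul]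
        push_cast
        ring

/-- The multiplier. -/
noncomputable def DD (w : ℂ) (B : ℂ → ℂ) (L : ℕ) (u : ℂ) : ℂ := B u ^ L * A2 w B u ^ L

lemma DD_diff (w : ℂ) (B : ℂ → ℂ) (hB : Differentiable ℂ B) (L : ℕ) :
    Differentiable ℂ (DD w B L) := by
  have h2 := A2_diff w B hB
  unfold DD
  fun_prop

lemma DD_coeff (w : ℂ) (B : ℂ → ℂ) (hB : Differentiable ℂ B) (L : ℕ) (E : ℝ)
    (h : ∀ u : ℂ, ‖u‖ = 1 → ‖B u‖ ≤ E ∧ ‖A2 w B u‖ ≤ E) (n : ℕ) :
    ‖PowerSeries.coeff n (ser (DD w B L))‖ ≤ E ^ (2 * L) := by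
  have hE : 0 ≤ E := (norm_nonneg _).trans (h 1 (by simp)).1
  have h1 : ‖iteratedDeriv n (DD w B L) 0‖ ≤ n.factorial * E ^ (2 * L) / 1 ^ n := by
    refine Complex.norm_iteratedDeriv_le_of_forall_mem_sphere_norm_le n one_pos
      (DD_diff w B hB L).diffContOnCl fun z hz => ?_
    have hz1 : ‖z‖ = 1 := by simpa using hz
    unfold DD
    rw [norm_mul, norm_pow, norm_pow]
    calc ‖B z‖ ^ L * ‖A2 w B z‖ ^ L ≤ E ^ L * E ^ L := by
          gcongr
          · exact (h z hz1).1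
          · exact (h z hz1).2
      _ = E ^ (2 * L) := by rw [← pow_add]; ring_nf
  have h2 : PowerSeries.coeff n (ser (DD w B L)) = iteratedDeriv n (DD w B L) 0 / n.factorial := by
    simp [ser]
  rw [h2, norm_div, Complex.norm_natCast, div_le_iff₀ (by positivity)]
  rw [one_pow, div_one] at h1
  linarith

lemma DD_zero (w : ℂ) (B : ℂ → ℂ) (L : ℕ) :
    PowerSeries.coeff 0 (ser (DD w B L)) = B 0 ^ (2 * L) := by
  have h2 : PowerSeries.coeff 0 (ser (DD w B L)) = iteratedDeriv 0 (DD w B L) 0 / (0).factorial := by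
    simp [ser]
  rw [h2, iteratedDeriv_zero]
  simp [DD, A2]
  rw [← pow_add]; ring_nf

lemma rescale_C' (a c : ℂ) : PowerSeries.rescale a (PowerSeries.C c) = PowerSeries.C c := by
  ext n
  rw [PowerSeries.coeff_rescale, PowerSeries.coeff_C]
  by_cases hn : n = 0
  · subst hn; simp
  · simp [hn]

lemma rescale_gamS (L : ℕ) (p : ℕ → ℕ → ℤ) (β w Ω : ℂ) :
    PowerSeries.rescale Ω (gamS L p β w) = ∑ i ∈ range (L + 1), ∑ j ∈ range (L + 1),
      PowerSeries.C (p i j : ℂ) * PowerSeries.rescale Ω (phi β) ^ i *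
        PowerSeries.rescale w (PowerSeries.rescale Ω (phi β)) ^ j := by
  unfold gamS
  rw [map_sum]
  refine Finset.sum_congr rfl fun i _ => ?_
  rw [map_sum]
  refine Finset.sum_congr rfl fun j _ => ?_
  rw [map_mul, map_mul, map_pow, map_pow, rescale_C', PowerSeries.rescale_rescale,
    PowerSeries.rescale_rescale, mul_comm w Ω]

lemma ser_GG {w β Ω : ℂ} {A B : ℂ → ℂ} (h : EllW w β Ω A B) (L : ℕ) (p : ℕ → ℕ → ℤ) :
    ser (GG w A B L p) = PowerSeries.rescale Ω (gamS L p β w) * ser (DD w B L) := by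
  have h1 : IsSer (GG w A B L p) (ser (GG w A B L p)) :=
    isSer_ser ((GG_diff w A B h.dA h.dB L p).analyticAt 0)
  have h2 : IsSer (DD w B L) (ser (DD w B L)) :=
    isSer_ser ((DD_diff w B h.dB L).analyticAt 0)
  have h3 : IsSer (fun u => A u / B u) (PowerSeries.rescale Ω (phi β)) := by
    filter_upwards [h.ser] with u hu
    have : (fun n => PowerSeries.coeff n (PowerSeries.rescale Ω (phi β)) * u ^ n) =
        fun n => PowerSeries.coeff n (phi β) * (Ω * u) ^ n := by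
      funext n
      rw [PowerSeries.coeff_rescale, mul_pow]; ring
    rw [this]; exact hu
  have h4 := h3.rescale w
  have h5 : IsSer (fun u => ∑ i ∈ range (L + 1), ∑ j ∈ range (L + 1),
      (p i j : ℂ) * (A u / B u) ^ i * (A (w * u) / B (w * u)) ^ j)
      (PowerSeries.rescale Ω (gamS L p β w)) := by
    rw [rescale_gamS]
    refine IsSer.sum _ _ _ fun i _ => IsSer.sum _ _ _ fun j _ => ?_
    exact ((IsSer.const _).mul (h3.pow i)).mul (h4.pow j)
  have h6 := h5.mul h2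
  refine h1.unique (h6.congr ?_)
  have hB0 : ∀ᶠ u in 𝓝 (0 : ℂ), B u ≠ 0 :=
    h.dB.continuous.continuousAt.eventually_ne h.B0
  have hB1 : ∀ᶠ u in 𝓝 (0 : ℂ), B (w * u) ≠ 0 := by
    have hc : ContinuousAt (fun u : ℂ => B (w * u)) 0 :=
      (h.dB.continuous.comp (continuous_const_mul w)).continuousAt
    refine hc.eventually_ne ?_
    simpa using h.B0
  filter_upwards [hB0, hB1] with u hu1 hu2
  unfold GG DD
  rw [Finset.sum_mul]
  refine Finset.sum_congr rfl fun i hi => ?_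
  rw [Finset.sum_mul]
  refine Finset.sum_congr rfl fun j hj => ?_
  rw [Finset.mem_range] at hi hj
  have e1 : (A u / B u) ^ i * B u ^ L = A u ^ i * B u ^ (L - i) := by
    have : B u ^ L = B u ^ i * B u ^ (L - i) := by rw [← pow_add]; congr 1; omega
    rw [this, div_pow]
    field_simp
  have e2 : (A (w * u) / B (w * u)) ^ j * A2 w B u ^ L = A2 w A u ^ j * A2 w B u ^ (L - j) := by
    have h7 : A2 w B u ^ L = A2 w B u ^ j * A2 w B u ^ (L - j) := by
      rw [← pow_add]; congr 1; omega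
    have h8 : (A (w * u) / B (w * u)) * A2 w B u = A2 w A u := by
      unfold A2
      field_simp
    rw [h7, ← mul_assoc, ← mul_pow, h8]
  rw [← e1, ← e2]
  ring

lemma coeff_GG {w β Ω : ℂ} {A B : ℂ → ℂ} (h : EllW w β Ω A B) (L : ℕ) (p : ℕ → ℕ → ℤ) (t : ℕ) :
    iteratedDeriv t (GG w A B L p) 0 / t.factorial =
      ∑ s ∈ range (t + 1), Ω ^ s * gam L p β w s * PowerSeries.coeff (t - s) (ser (DD w B L)) := by
  have h1 : PowerSeries.coeff t (ser (GG w A B L p)) =
      iteratedDeriv t (GG w A B L p) 0 / t.factorial := by simp [ser]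
  rw [← h1, ser_GG h, PowerSeries.coeff_mul, Finset.Nat.sum_antidiagonal_eq_sum_range_succ_mk]
  refine Finset.sum_congr rfl fun s _ => ?_
  simp only [PowerSeries.coeff_rescale, gam]


lemma rpow_bound (K : ℝ) (hK : 0 ≤ K) (x : ℝ) (hx0 : 0 ≤ x) (hx : x ≤ Real.exp K) {s T : ℕ}
    (hs : s ≤ T) : x ^ s ≤ Real.exp (K * T) := by
  calc x ^ s ≤ Real.exp K ^ s := by gcongr
    _ = Real.exp (K * s) := by rw [← Real.exp_nat_mul]; ring_nf
    _ ≤ Real.exp (K * T) := by
      refine Real.exp_le_exp.2 ?_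
      have : (s : ℝ) ≤ T := by exact_mod_cast hs
      gcongr

/-- sum of the first coefficients -/
lemma sum_bound (K ε : ℝ) (hK : 0 ≤ K) (L T t : ℕ) (ht : t ≤ T) (Ω : ℂ)
    (g D : ℕ → ℂ) (hΩ : ‖Ω‖ ≤ Real.exp K) (hD : ∀ n, ‖D n‖ ≤ Real.exp (2 * K * L))
    (hg : ∀ s < t, ‖g s‖ ≤ ε) :
    ‖∑ s ∈ range t, Ω ^ s * g s * D (T - s)‖ ≤ t * (Real.exp (K * T + 2 * K * L) * ε) := by
  refine (norm_sum_le _ _).trans ?_
  have : ∀ s ∈ range t, ‖Ω ^ s * g s * D (T - s)‖ ≤ Real.exp (K * T + 2 * K * L) * ε := by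
    intro s hs
    rw [Finset.mem_range] at hs
    rw [norm_mul, norm_mul, norm_pow]
    have h1 := rpow_bound K hK ‖Ω‖ (norm_nonneg _) hΩ (s := s) (T := T) (by omega)
    have h2 := hg s hs
    have hε : 0 ≤ ε := (norm_nonneg _).trans h2
    calc ‖Ω‖ ^ s * ‖g s‖ * ‖D (T - s)‖ ≤ Real.exp (K * T) * ε * Real.exp (2 * K * L) := by
          gcongr
          exact hD _
      _ = _ := by rw [Real.exp_add]; ring
  refine (Finset.sum_le_sum this).trans ?_
  simp

theorem main (hS : SpecSchw) : SpecAn := by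
  intro w β Ω A B hw h
  obtain ⟨K1, hK1, hA⟩ := growth_line w hw A h.dA h.A1 h.Aw
  obtain ⟨K2, hK2, hB⟩ := growth_line w hw B h.dB h.B1 h.Bw
  -- bound on the unit circle
  obtain ⟨M3, hM3⟩ : ∃ M : ℝ, ∀ u : ℂ, ‖u‖ = 1 → ‖B u‖ ≤ M ∧ ‖A2 w B u‖ ≤ M := by
    have hc : IsCompact (Metric.sphere (0 : ℂ) 1) := isCompact_sphere _ _
    obtain ⟨M, hM⟩ := hc.exists_bound_of_continuousOn (f := B) h.dB.continuous.continuousOn
    obtain ⟨M', hM'⟩ := hc.exists_bound_of_continuousOn (f := A2 w B)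
      (A2_diff w B h.dB).continuous.continuousOn
    refine ⟨max M M', fun u hu => ⟨(hM u ?_).trans (le_max_left _ _),
      (hM' u ?_).trans (le_max_right _ _)⟩⟩ <;> simpa using hu
  set K : ℝ := K1 + K2 + |M3| + ‖Ω‖ + ‖Ω⁻¹‖ + ‖(B 0)⁻¹‖ with hKdef
  have n1 := norm_nonneg Ω
  have n2 := norm_nonneg Ω⁻¹
  have n3 := norm_nonneg (B 0)⁻¹
  have n4 := abs_nonneg M3
  have hK : 1 ≤ K := by linarith
  have hK0 : 0 ≤ K := by linarith
  have hexp : ∀ x : ℝ, x ≤ K → x ≤ Real.exp K := fun x hx =>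
    hx.trans (by linarith [Real.add_one_le_exp K])
  have hΩ : ‖Ω‖ ≤ Real.exp K := hexp _ (by linarith)
  have hΩ' : ‖Ω⁻¹‖ ≤ Real.exp K := hexp _ (by linarith)
  have hB0 : ‖(B 0)⁻¹‖ ≤ Real.exp K := hexp _ (by linarith)
  have hM3' : M3 ≤ Real.exp K := hexp _ (by linarith [le_abs_self M3])
  have hD : ∀ L : ℕ, ∀ n, ‖PowerSeries.coeff n (ser (DD w B L))‖ ≤ Real.exp (2 * K * L) := by
    intro L n
    refine (DD_coeff w B h.dB L (Real.exp K) (fun u hu =>
      ⟨(hM3 u hu).1.trans hM3', (hM3 u hu).2.trans hM3'⟩) n).trans (le_of_eq ?_)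
    rw [← Real.exp_nat_mul]
    push_cast
    ring_nf
  refine ⟨4 * K + 40, by linarith, ?_⟩
  intro L T p P0 ε R hP0 hε hR hp hg
  have hT0 : (0 : ℝ) ≤ T := Nat.cast_nonneg _
  have hL0 : (0 : ℝ) ≤ L := Nat.cast_nonneg _
  set E1 : ℝ := Real.exp (K * T + 2 * K * L) with hE1
  set ε' : ℝ := T * (E1 * ε) with hε'
  have hE1p : 0 < E1 := Real.exp_pos _
  have hε'0 : 0 ≤ ε' := by positivity
  set G := GG w A B L p with hG
  -- values on the lines
  have hM : ∀ u : ℂ, |u.im| = R → ‖G u‖ ≤ (L + 1) ^ 2 * P0 * Real.exp (2 * K * L * R ^ 2) := by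
    intro u hu
    have e1 : ∀ K' : ℝ, K' ≤ K → Real.exp (K' * R ^ 2) ≤ Real.exp (K * R ^ 2) := by
      intro K' hK'
      refine Real.exp_le_exp.2 ?_
      gcongr
    have e2 := e1 K1 (by linarith)
    have e3 := e1 K2 (by linarith)
    have := GG_bound w A B L p P0 (Real.exp (K * R ^ 2)) hp u ((hA R hR u hu).1.trans e2)
      ((hB R hR u hu).1.trans e3) ((hA R hR u hu).2.trans e2) ((hB R hR u hu).2.trans e3)
    refine this.trans (le_of_eq ?_)
    congr 1
    rw [← Real.exp_nat_mul]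
    push_cast
    ring_nf
  -- Taylor coefficients
  have hcoef : ∀ t < T, ‖iteratedDeriv t G 0 / t.factorial‖ ≤ ε' := by
    intro t ht
    rw [hG, coeff_GG h L p t, Finset.sum_range_succ]
    have ht' : (t : ℝ) + 1 ≤ T := by exact_mod_cast ht
    have b1 : ‖∑ s ∈ range t, Ω ^ s * gam L p β w s *
        PowerSeries.coeff (t - s) (ser (DD w B L))‖ ≤ t * (Real.exp (K * t + 2 * K * L) * ε) :=
      sum_bound K ε hK0 L t t le_rfl Ω (fun s => gam L p β w s)
        (fun n => PowerSeries.coeff n (ser (DD w B L))) hΩ (hD L) (fun s hs => hg s (by omega))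
    have b2 : ‖Ω ^ t * gam L p β w t * PowerSeries.coeff (t - t) (ser (DD w B L))‖ ≤ E1 * ε := by
      rw [norm_mul, norm_mul, norm_pow]
      have h1 := rpow_bound K hK0 ‖Ω‖ (norm_nonneg _) hΩ (s := t) (T := T) (by omega)
      calc ‖Ω‖ ^ t * ‖gam L p β w t‖ * ‖PowerSeries.coeff (t - t) (ser (DD w B L))‖
          ≤ Real.exp (K * T) * ε * Real.exp (2 * K * L) := by
            gcongr
            · exact hg t ht
            · exact hD L _
        _ = E1 * ε := by rw [hE1, Real.exp_add]; ring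
    have b3 : Real.exp (K * t + 2 * K * L) ≤ E1 := by
      refine Real.exp_le_exp.2 ?_
      have : (t : ℝ) ≤ T := by linarith
      gcongr
    calc _ ≤ _ := norm_add_le _ _
      _ ≤ t * (Real.exp (K * t + 2 * K * L) * ε) + E1 * ε := add_le_add b1 b2
      _ ≤ t * (E1 * ε) + E1 * ε := by gcongr
      _ = (t + 1) * (E1 * ε) := by ring
      _ ≤ T * (E1 * ε) := by gcongr
  -- Schwarz
  have hSch := hS G T R ((L + 1) ^ 2 * P0 * Real.exp (2 * K * L * R ^ 2)) ε'
    (GG_diff w A B h.dA h.dB L p) (GG_one w A B h.A1 h.Aw h.B1 h.Bw L p) hR hε'0 hM hcoef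
  -- the coefficient of index `T`
  have hco := coeff_GG h L p T
  rw [Finset.sum_range_succ, Nat.sub_self, DD_zero] at hco
  have b1 : ‖∑ s ∈ range T, Ω ^ s * gam L p β w s *
      PowerSeries.coeff (T - s) (ser (DD w B L))‖ ≤ T * (Real.exp (K * T + 2 * K * L) * ε) :=
    sum_bound K ε hK0 L T T le_rfl Ω (fun s => gam L p β w s)
      (fun n => PowerSeries.coeff n (ser (DD w B L))) hΩ (hD L) hg
  rw [← hE1, ← hε'] at b1
  set Sg : ℂ := ∑ s ∈ range T, Ω ^ s * gam L p β w s *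
      PowerSeries.coeff (T - s) (ser (DD w B L)) with hSg
  have hgam : gam L p β w T = (Ω⁻¹) ^ T * ((B 0)⁻¹) ^ (2 * L) *
      (iteratedDeriv T G 0 / T.factorial - Sg) := by
    rw [hG, hco]
    have hO : (Ω⁻¹) ^ T * Ω ^ T = 1 := by
      rw [← mul_pow, inv_mul_cancel₀ h.Om, one_pow]
    have hBB : ((B 0)⁻¹) ^ (2 * L) * B 0 ^ (2 * L) = 1 := by
      rw [← mul_pow, inv_mul_cancel₀ h.B0, one_pow]
    rw [add_sub_cancel_left]
    calc gam L p β w T = ((Ω⁻¹) ^ T * Ω ^ T) * (((B 0)⁻¹) ^ (2 * L) * B 0 ^ (2 * L)) *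
        gam L p β w T := by rw [hO, hBB]; ring
      _ = _ := by ring
  have c1 : ‖(Ω⁻¹) ^ T‖ ≤ Real.exp (K * T) := by
    rw [norm_pow]
    exact rpow_bound K hK0 _ (norm_nonneg _) hΩ' le_rfl
  have c2 : ‖((B 0)⁻¹) ^ (2 * L)‖ ≤ Real.exp (2 * K * L) := by
    rw [norm_pow]
    refine (rpow_bound K hK0 _ (norm_nonneg _) hB0 (T := 2 * L) le_rfl).trans (le_of_eq ?_)
    push_cast; ring_nf
  have c3 : ‖gam L p β w T‖ ≤ E1 * (‖iteratedDeriv T G 0 / T.factorial‖ + ε') := by
    rw [hgam, norm_mul, norm_mul]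
    calc ‖(Ω⁻¹) ^ T‖ * ‖((B 0)⁻¹) ^ (2 * L)‖ * ‖iteratedDeriv T G 0 / T.factorial - Sg‖
        ≤ Real.exp (K * T) * Real.exp (2 * K * L) *
          (‖iteratedDeriv T G 0 / T.factorial‖ + ε') := by
          gcongr
          exact (norm_sub_le _ _).trans (by gcongr)
      _ = _ := by rw [hE1, Real.exp_add]
  refine c3.trans ?_
  have hpi := Real.pi_pos
  have hpi4 := Real.pi_le_four
  have hT1 : (T : ℝ) ≤ Real.exp T := by linarith [Real.add_one_le_exp (T : ℝ)]
  have hL1 : (L : ℝ) + 1 ≤ Real.exp L := Real.add_one_le_exp _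
  have hL2 : ((L : ℝ) + 1) ^ 2 ≤ Real.exp (2 * L) := by
    calc ((L : ℝ) + 1) ^ 2 ≤ Real.exp L ^ 2 := by gcongr
      _ = Real.exp (2 * L) := by rw [← Real.exp_nat_mul]; push_cast; ring_nf
  -- first term
  have hR2 : (1 : ℝ) ≤ R ^ 2 := by nlinarith
  have d1 : E1 * (Real.exp (10 * T) * (((L + 1) ^ 2 * P0 * Real.exp (2 * K * L * R ^ 2)) *
      Real.exp (-(π * R * T)))) ≤ Real.exp ((4 * K + 40) * (T + L + 1)) *
        (P0 * Real.exp ((4 * K + 40) * L * R ^ 2 - π * R * T)) := by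
    calc E1 * (Real.exp (10 * T) * (((L + 1) ^ 2 * P0 * Real.exp (2 * K * L * R ^ 2)) *
      Real.exp (-(π * R * T))))
        ≤ E1 * (Real.exp (10 * T) * ((Real.exp (2 * L) * P0 * Real.exp (2 * K * L * R ^ 2)) *
          Real.exp (-(π * R * T)))) := by gcongr
      _ = P0 * Real.exp (K * T + 2 * K * L + 10 * T + 2 * L + 2 * K * L * R ^ 2 - π * R * T) := by
          rw [hE1, sub_eq_add_neg, Real.exp_add _ (-(π * R * T)), Real.exp_add _ (2 * K * L * R ^ 2),
            Real.exp_add _ (2 * (L : ℝ)), Real.exp_add _ (10 * (T : ℝ))]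
          ring
      _ ≤ P0 * Real.exp ((4 * K + 40) * (T + L + 1) +
          ((4 * K + 40) * L * R ^ 2 - π * R * T)) := by
          gcongr ?_ * Real.exp ?_
          have i1 : 0 ≤ K * T := by positivity
          have i2 : 0 ≤ K * L := by positivity
          have i3 : 0 ≤ K * L * R ^ 2 := by positivity
          have i4 : 0 ≤ (L : ℝ) * R ^ 2 := by positivity
          nlinarith
      _ = _ := by rw [Real.exp_add]; ring
  -- second term
  have d2 : E1 * (Real.exp (10 * T) * (ε' * Real.exp (π * R * T)) + ε') ≤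
      Real.exp ((4 * K + 40) * (T + L + 1)) * (ε * Real.exp ((4 * K + 40) * T * R)) := by
    have j1 : (1 : ℝ) ≤ Real.exp (10 * T) * Real.exp (π * R * T) := by
      rw [← Real.exp_add]
      refine Real.one_le_exp ?_
      positivity
    have j2 : Real.exp (10 * T) * (ε' * Real.exp (π * R * T)) + ε' ≤
        2 * (Real.exp (10 * T) * Real.exp (π * R * T)) * ε' := by nlinarith
    have j3 : ε' ≤ Real.exp T * (E1 * ε) := by
      rw [hε']; gcongr
    have j4 : (2 : ℝ) ≤ Real.exp 1 := by linarith [Real.add_one_le_exp (1 : ℝ)]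
    calc E1 * (Real.exp (10 * T) * (ε' * Real.exp (π * R * T)) + ε')
        ≤ E1 * (2 * (Real.exp (10 * T) * Real.exp (π * R * T)) * ε') := by gcongr
      _ ≤ E1 * (Real.exp 1 * (Real.exp (10 * T) * Real.exp (π * R * T)) *
          (Real.exp T * (E1 * ε))) := by gcongr
      _ = ε * Real.exp (K * T + 2 * K * L + (K * T + 2 * K * L) + 1 + 10 * T + π * R * T + T) := by
          rw [hE1, Real.exp_add _ (T : ℝ), Real.exp_add _ (π * R * T),
            Real.exp_add _ (10 * (T : ℝ)), Real.exp_add _ (1 : ℝ),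
            Real.exp_add (K * T + 2 * K * L) (K * T + 2 * K * L)]
          ring
      _ ≤ ε * Real.exp ((4 * K + 40) * (T + L + 1) + (4 * K + 40) * T * R) := by
          gcongr ?_ * Real.exp ?_
          have i1 : 0 ≤ K * T := by positivity
          have i2 : 0 ≤ K * L := by positivity
          have i3 : 0 ≤ K * T * R := by positivity
          have i4 : π * R * T ≤ 4 * R * T := by gcongr
          have i5 : 0 ≤ (T : ℝ) * R := by positivity
          nlinarith
      _ = _ := by rw [Real.exp_add]; ring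
  calc E1 * (‖iteratedDeriv T G 0 / T.factorial‖ + ε')
      ≤ E1 * (Real.exp (10 * T) * ((L + 1) ^ 2 * P0 * Real.exp (2 * K * L * R ^ 2) *
          Real.exp (-(π * R * T)) + ε' * Real.exp (π * R * T)) + ε') := by gcongr
    _ = E1 * (Real.exp (10 * T) * (((L + 1) ^ 2 * P0 * Real.exp (2 * K * L * R ^ 2)) *
        Real.exp (-(π * R * T)))) +
        E1 * (Real.exp (10 * T) * (ε' * Real.exp (π * R * T)) + ε') := by ring
    _ ≤ _ := add_le_add d1 d2
    _ = _ := by ring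

end An

theorem specAn (hS : SpecSchw) : SpecAn := An.main hS

end Pool.Agent.Lib.MP_47914d_nt.Sn
end

section
/-!
Module BETA: the algebraic parameter.
-/
set_option autoImplicit false

open Complex Filter Topology Polynomial Finset
open scoped Real

namespace Pool.Agent.Lib.MP_47914d_nt.Sn

namespace Beta

/-- `P` is majorised by a polynomial with value at most `b` at one -/
def Maj (P : ℤ[X]) (b : ℝ) : Prop :=
  ∃ Q : ℝ[X], (∀ k, |(P.coeff k : ℝ)| ≤ Q.coeff k) ∧ Q.eval 1 ≤ b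

lemma coeff_le_eval {Q : ℝ[X]} (h : ∀ k, 0 ≤ Q.coeff k) (k : ℕ) : Q.coeff k ≤ Q.eval 1 := by
  rw [eval_eq_sum, Polynomial.sum_def]
  simp only [one_pow, mul_one]
  by_cases hk : k ∈ Q.support
  · exact Finset.single_le_sum (f := fun i => Q.coeff i) (fun i _ => h i) hk
  · rw [Polynomial.notMem_support_iff.1 hk]
    exact Finset.sum_nonneg fun i _ => h i

lemma eval_nonneg {Q : ℝ[X]} (h : ∀ k, 0 ≤ Q.coeff k) : 0 ≤ Q.eval 1 :=
  (h 0).trans (coeff_le_eval h 0)

lemma Maj.coeff_le {P : ℤ[X]} {b : ℝ} (h : Maj P b) (k : ℕ) : |(P.coeff k : ℝ)| ≤ b := by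
  obtain ⟨Q, h1, h2⟩ := h
  exact (h1 k).trans ((coeff_le_eval (fun k => (abs_nonneg _).trans (h1 k)) k).trans h2)

lemma Maj.nonneg {P : ℤ[X]} {b : ℝ} (h : Maj P b) : 0 ≤ b := (abs_nonneg _).trans (h.coeff_le 0)

lemma Maj.mono {P : ℤ[X]} {b b' : ℝ} (h : Maj P b) (hb : b ≤ b') : Maj P b' := by
  obtain ⟨Q, h1, h2⟩ := h
  exact ⟨Q, h1, h2.trans hb⟩

lemma Maj.add {P P' : ℤ[X]} {b b' : ℝ} (h : Maj P b) (h' : Maj P' b') :
    Maj (P + P') (b + b') := by
  obtain ⟨Q, h1, h2⟩ := h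
  obtain ⟨Q', h1', h2'⟩ := h'
  refine ⟨Q + Q', fun k => ?_, ?_⟩
  · rw [coeff_add, coeff_add, Int.cast_add]
    exact (abs_add_le _ _).trans (add_le_add (h1 k) (h1' k))
  · rw [eval_add]
    exact add_le_add h2 h2'

lemma Maj.mul {P P' : ℤ[X]} {b b' : ℝ} (h : Maj P b) (h' : Maj P' b') :
    Maj (P * P') (b * b') := by
  have hb := h.nonneg
  obtain ⟨Q, h1, h2⟩ := h
  obtain ⟨Q', h1', h2'⟩ := h'
  have n1 : ∀ k, 0 ≤ Q.coeff k := fun k => (abs_nonneg _).trans (h1 k)
  have n1' : ∀ k, 0 ≤ Q'.coeff k := fun k => (abs_nonneg _).trans (h1' k)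
  refine ⟨Q * Q', fun k => ?_, ?_⟩
  · rw [coeff_mul, coeff_mul, Int.cast_sum]
    refine (Finset.abs_sum_le_sum_abs _ _).trans (Finset.sum_le_sum fun i _ => ?_)
    rw [Int.cast_mul, abs_mul]
    exact mul_le_mul (h1 _) (h1' _) (abs_nonneg _) (n1 _)
  · rw [eval_mul]
    exact mul_le_mul h2 h2' (eval_nonneg n1') hb

lemma Maj.const (c : ℤ) : Maj (C c) |(c : ℝ)| := by
  refine ⟨C |(c : ℝ)|, fun k => ?_, by simp⟩
  rw [coeff_C, coeff_C]
  split_ifs
  · exact le_rfl
  · simp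

lemma Maj.var : Maj X 1 := by
  refine ⟨X, fun k => ?_, by simp⟩
  rw [coeff_X, coeff_X]
  split_ifs <;> simp

lemma Maj.pow {P : ℤ[X]} {b : ℝ} (h : Maj P b) (n : ℕ) : Maj (P ^ n) (b ^ n) := by
  induction n with
  | zero =>
    have := Maj.const 1
    simpa using this
  | succ n ih =>
    rw [pow_succ, pow_succ]
    exact ih.mul h

lemma Maj.sum {ι : Type} (s : Finset ι) (P : ι → ℤ[X]) (b : ι → ℝ) (h : ∀ i ∈ s, Maj (P i) (b i)) :
    Maj (∑ i ∈ s, P i) (∑ i ∈ s, b i) := by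
  classical
  induction s using Finset.induction_on with
  | empty =>
    have := Maj.const 0
    simpa using this
  | insert a s ha ih =>
    rw [Finset.sum_insert ha, Finset.sum_insert ha]
    exact (h a (Finset.mem_insert_self _ _)).add
      (ih fun i hi => h i (Finset.mem_insert_of_mem hi))

/-- numerator -/
noncomputable def U : ℤ[X] := C 256 * (C 1 + C (-3) * X) ^ 3

/-- denominator -/
noncomputable def W : ℤ[X] := X ^ 2 * (C 1 + C (-4) * X)

lemma majU : Maj U (2 ^ 14) := by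
  have h := (Maj.const 256).mul (((Maj.const 1).add ((Maj.const (-3)).mul Maj.var)).pow 3)
  exact h.mono (by norm_num)

lemma majW : Maj W (2 ^ 14) := by
  have h := (Maj.var.pow 2).mul ((Maj.const 1).add ((Maj.const (-4)).mul Maj.var))
  exact h.mono (by norm_num)

lemma degU : U.natDegree ≤ 3 := by
  unfold U
  compute_degree

lemma degW : W.natDegree ≤ 3 := by
  unfold W
  compute_degree

/-- the polynomial of `β` -/
noncomputable def G (F : ℤ[X]) : ℤ[X] :=
  ∑ i ∈ range (F.natDegree + 1), C (F.coeff i) * (U ^ i * W ^ (F.natDegree - i))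

lemma G_eval_zero (F : ℤ[X]) : (G F).eval 0 = F.leadingCoeff * 256 ^ F.natDegree := by
  unfold G
  rw [eval_finsetSum, Finset.sum_range_succ]
  have hW : W.eval 0 = 0 := by simp [W]
  have hU : U.eval 0 = 256 := by simp [U]
  rw [Finset.sum_eq_zero]
  · simp [hU]
  · intro i hi
    have hi' := Finset.mem_range.1 hi
    have : F.natDegree - i ≠ 0 := by omega
    simp [hW, this]

lemma G_aeval (F : ℤ[X]) (η β : ℂ) (hF : aeval η F = 0)
    (h : η * β ^ 2 * (1 - 4 * β) = 256 * (1 - 3 * β) ^ 3) : aeval β (G F) = 0 := by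
  have hU : aeval β U = η * aeval β W := by
    simp only [U, W, map_mul, map_pow, map_add, aeval_X, aeval_C]
    simp only [algebraMap_int_eq, eq_intCast]
    push_cast
    linear_combination -h
  have h1 : aeval β (G F) = (aeval β W) ^ F.natDegree * aeval η F := by
    unfold G
    rw [map_sum, aeval_eq_sum_range (p := F), Finset.mul_sum]
    refine Finset.sum_congr rfl fun i hi => ?_
    have hi' := Finset.mem_range.1 hi
    obtain ⟨k, hk⟩ : ∃ k, F.natDegree = i + k := ⟨F.natDegree - i, by omega⟩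
    have e1 : i + k - i = k := by omega
    rw [map_mul, map_mul, map_pow, map_pow, hU, hk, e1, aeval_C, pow_add, mul_pow,
      Algebra.smul_def]
    ring
  rw [h1, hF, mul_zero]

lemma exp_bound (D : ℕ) (hD : 2 ≤ D) : Real.exp D * ((2 : ℝ) ^ 14) ^ D * 2 ^ D ≤
    Real.exp ((D ^ 5 : ℕ) : ℝ) := by
  have h2 : (2 : ℝ) ≤ Real.exp 1 := by
    have := Real.add_one_le_exp (1 : ℝ)
    linarith
  have h3 : ∀ n : ℕ, (2 : ℝ) ^ n ≤ Real.exp n := by
    intro n
    have : Real.exp (n : ℝ) = Real.exp 1 ^ n := by rw [← Real.exp_nat_mul, mul_one]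
    rw [this]
    exact pow_le_pow_left₀ (by norm_num) h2 n
  have h4 : ((2 : ℝ) ^ 14) ^ D ≤ Real.exp ((14 * D : ℕ) : ℝ) := by
    rw [← pow_mul]
    exact h3 _
  calc Real.exp D * ((2 : ℝ) ^ 14) ^ D * 2 ^ D
      ≤ Real.exp D * Real.exp ((14 * D : ℕ) : ℝ) * Real.exp D := by
        gcongr
        exact h3 D
    _ = Real.exp ((16 * D : ℕ) : ℝ) := by
        rw [← Real.exp_add, ← Real.exp_add]
        congr 1
        push_cast
        ring
    _ ≤ Real.exp ((D ^ 5 : ℕ) : ℝ) := by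
        refine Real.exp_le_exp.2 (Nat.cast_le.2 ?_)
        have : 2 ^ 4 ≤ D ^ 4 := Nat.pow_le_pow_left hD 4
        calc 16 * D ≤ D ^ 4 * D := Nat.mul_le_mul_right _ this
          _ = D ^ 5 := by ring

theorem alg : ∃ c : ℕ, ∀ D : ℕ, 2 ≤ D → ∀ η β : ℂ, AlgB η D →
    η * β ^ 2 * (1 - 4 * β) = 256 * (1 - 3 * β) ^ 3 → AlgB β (D ^ c) := by
  refine ⟨5, fun D hD η β hη h => ?_⟩
  obtain ⟨F, hF0, hF, hdeg, hcoef⟩ := hη
  refine ⟨G F, ?_, G_aeval F η β hF h, ?_, ?_⟩
  · intro h0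
    have h1 := G_eval_zero F
    rw [h0, eval_zero] at h1
    have : F.leadingCoeff * 256 ^ F.natDegree ≠ 0 :=
      mul_ne_zero (leadingCoeff_ne_zero.2 hF0) (pow_ne_zero _ (by norm_num))
    exact this h1.symm
  · have h1 : (G F).natDegree ≤ 3 * F.natDegree := by
      unfold G
      refine natDegree_sum_le_of_forall_le _ _ fun i hi => ?_
      have hi' := Finset.mem_range.1 hi
      refine natDegree_mul_le.trans ?_
      rw [natDegree_C, zero_add]
      refine natDegree_mul_le.trans ?_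
      have a1 := natDegree_pow_le_of_le i degU
      have a2 := natDegree_pow_le_of_le (F.natDegree - i) degW
      calc (U ^ i).natDegree + (W ^ (F.natDegree - i)).natDegree
          ≤ i * 3 + (F.natDegree - i) * 3 := add_le_add a1 a2
        _ = 3 * F.natDegree := by
          rw [← add_mul]
          have : i + (F.natDegree - i) = F.natDegree := by omega
          rw [this, mul_comm]
    have h2 : 2 ^ 4 ≤ D ^ 4 := Nat.pow_le_pow_left hD 4
    calc (G F).natDegree ≤ 3 * F.natDegree := h1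
      _ ≤ 16 * D := by omega
      _ ≤ D ^ 4 * D := Nat.mul_le_mul_right _ h2
      _ = D ^ 5 := by ring
  · intro k
    have hm : Maj (G F) (∑ i ∈ range (F.natDegree + 1), Real.exp D * ((2 : ℝ) ^ 14) ^ D) := by
      unfold G
      refine Maj.sum _ _ _ fun i hi => ?_
      have hi' := Finset.mem_range.1 hi
      refine ((Maj.const (F.coeff i)).mul ((majU.pow i).mul (majW.pow (F.natDegree - i)))).mono ?_
      refine mul_le_mul (hcoef i) ?_ (by positivity) (Real.exp_nonneg _)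
      rw [← pow_add]
      exact pow_le_pow_right₀ (by norm_num) (by omega)
    refine (hm.coeff_le k).trans ?_
    rw [Finset.sum_const, Finset.card_range, nsmul_eq_mul]
    refine le_trans ?_ (exp_bound D hD)
    rw [mul_comm]
    refine mul_le_mul_of_nonneg_left ?_ (by positivity)
    have : F.natDegree + 1 ≤ 2 ^ D := lt_of_le_of_lt hdeg Nat.lt_two_pow_self
    exact_mod_cast this

lemma prod_ge (s : Multiset ℂ) (z : ℂ) (m : ℝ) (hm : 0 ≤ m) (h : ∀ a ∈ s, m ≤ ‖z - a‖) :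
    m ^ (Multiset.card s) ≤ ‖(s.map (fun a => z - a)).prod‖ := by
  induction s using Multiset.induction_on with
  | empty => simp
  | cons a s ih =>
    rw [Multiset.card_cons, Multiset.map_cons, Multiset.prod_cons, norm_mul, pow_succ, mul_comm]
    exact mul_le_mul (h a (Multiset.mem_cons_self a s))
      (ih fun b hb => h b (Multiset.mem_cons_of_mem hb)) (pow_nonneg hm _) (norm_nonneg _)

/-- a polynomial with a small value has a close root -/
theorem exists_close_root (P : ℂ[X]) (hP : P ≠ 0) (hd : P.natDegree ≠ 0) (z : ℂ) :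
    ∃ ζ : ℂ, P.eval ζ = 0 ∧ ‖P.leadingCoeff‖ * ‖z - ζ‖ ^ P.natDegree ≤ ‖P.eval z‖ := by
  classical
  have hsp := IsAlgClosed.splits P
  have hcard : Multiset.card P.roots = P.natDegree := hsp.natDegree_eq_card_roots.symm
  have hne : P.roots.toFinset.Nonempty := by
    rw [Multiset.toFinset_nonempty]
    intro h0
    rw [h0] at hcard
    exact hd hcard.symm
  obtain ⟨ζ, hζ, hmin⟩ := Finset.exists_min_image P.roots.toFinset (fun a => ‖z - a‖) hne
  rw [Multiset.mem_toFinset, mem_roots hP] at hζ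
  refine ⟨ζ, hζ, ?_⟩
  have h1 : P.eval z = P.leadingCoeff * (P.roots.map (fun a => z - a)).prod := by
    conv_lhs => rw [hsp.eq_prod_roots]
    rw [eval_mul, eval_C, eval_multiset_prod, Multiset.map_map]
    simp
  rw [h1, norm_mul, ← hcard]
  refine mul_le_mul_of_nonneg_left ?_ (norm_nonneg _)
  exact prod_ge P.roots z _ (norm_nonneg _) fun a ha => hmin a (Multiset.mem_toFinset.2 ha)

theorem near : ∀ η₀ β₀ : ℂ, η₀ ≠ 1728 → η₀ * β₀ ^ 2 * (1 - 4 * β₀) = 256 * (1 - 3 * β₀) ^ 3 →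
    ∃ C r : ℝ, 0 < C ∧ 0 < r ∧ ∀ η : ℂ, ‖η - η₀‖ < r →
      ∃ β : ℂ, η * β ^ 2 * (1 - 4 * β) = 256 * (1 - 3 * β) ^ 3 ∧ ‖β - β₀‖ ^ 3 ≤ C * ‖η - η₀‖ := by
  intro η₀ β₀ hη₀ h₀
  have hm : 0 < ‖η₀ - 1728‖ := norm_pos_iff.2 (sub_ne_zero.2 hη₀)
  set m := ‖η₀ - 1728‖ with hmd
  set w := ‖β₀ ^ 2 * (1 - 4 * β₀)‖ with hw
  have hw0 : 0 ≤ w := norm_nonneg _
  refine ⟨(w + 1) / m, m / 2, by positivity, by positivity, fun η hη => ?_⟩
  have hlow : m / 2 ≤ ‖η - 1728‖ := by
    have h1 : η₀ - 1728 = (η - 1728) - (η - η₀) := by ring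
    have h2 : m ≤ ‖η - 1728‖ + ‖η - η₀‖ := by
      rw [hmd, h1]
      exact norm_sub_le _ _
    linarith
  have hη1 : η ≠ 1728 := by
    rintro rfl
    rw [sub_self, norm_zero] at hlow
    linarith
  have hlc : (6912 - 4 * η : ℂ) ≠ 0 := by
    intro h
    apply hη1
    linear_combination (-1 / 4 : ℂ) * h
  set P : ℂ[X] := C (6912 - 4 * η) * X ^ 3 + C (η - 6912) * X ^ 2 + C 2304 * X + C (-256) with hP
  have hdeg : P.natDegree = 3 := natDegree_cubic hlc
  have hlead : P.leadingCoeff = 6912 - 4 * η := leadingCoeff_cubic hlc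
  have hP0 : P ≠ 0 := by
    intro h
    rw [h] at hdeg
    simp at hdeg
  obtain ⟨β, hβ, hclose⟩ := exists_close_root P hP0 (by rw [hdeg]; norm_num) β₀
  rw [hdeg, hlead] at hclose
  have heval : ∀ z, P.eval z = η * z ^ 2 * (1 - 4 * z) - 256 * (1 - 3 * z) ^ 3 := by
    intro z
    simp only [hP, eval_add, eval_mul, eval_C, eval_pow, eval_X]
    ring
  refine ⟨β, ?_, ?_⟩
  · rw [heval] at hβ
    exact sub_eq_zero.1 hβ
  · have h1 : P.eval β₀ = (η - η₀) * (β₀ ^ 2 * (1 - 4 * β₀)) := by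
      rw [heval]
      linear_combination h₀
    have h2 : (6912 - 4 * η : ℂ) = -4 * (η - 1728) := by ring
    rw [h1, h2, norm_mul, norm_mul, ← hw, norm_neg] at hclose
    have h3 : ‖(4 : ℂ)‖ = 4 := by norm_num
    rw [h3, norm_sub_rev β₀ β] at hclose
    have h4 : 2 * m * ‖β - β₀‖ ^ 3 ≤ ‖η - η₀‖ * w := by
      refine le_trans ?_ hclose
      refine mul_le_mul_of_nonneg_right ?_ (by positivity)
      linarith
    have h5 : m * ‖β - β₀‖ ^ 3 ≤ ‖η - η₀‖ * (w + 1) := by
      have a1 : 0 ≤ m * ‖β - β₀‖ ^ 3 := by positivity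
      have a2 : 0 ≤ ‖η - η₀‖ := norm_nonneg _
      nlinarith
    rw [div_mul_eq_mul_div, le_div_iff₀ hm]
    linarith

end Beta

/-- BETA -/
theorem specBeta : SpecBeta := ⟨Beta.alg, Beta.near⟩

end Pool.Agent.Lib.MP_47914d_nt.Sn
end

section
/-!
Module LIOU of the theorem over Liouville fields: Liouville inequality, uniform in the polynomial.
-/
set_option autoImplicit false

open Polynomial

namespace Pool.Agent.Lib.MP_47914d_nt.Sn

/-- Liouville inequality with explicit dependence on degrees and sizes, uniform in the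
polynomial. -/
theorem liou_gen (n : ℕ) (P : MvPolynomial (Fin n) ℤ) (T : ℕ) (hT0 : P.totalDegree ≤ T) (S : ℝ)
    (hS0 : 0 ≤ S) (hS : (coefSum P : ℝ) ≤ Real.exp S) (B : ℕ) (hB : 1 ≤ B)
    (d : Fin n → ℕ) (α : Fin n → ℂ) (hα : ∀ i, AlgD (α i) (d i) B) :
      MvPolynomial.aeval α P = 0 ∨
        Real.exp (-((n * T * B + T * B + S) * ((∏ i, d i : ℕ) : ℝ))) ≤
          ‖MvPolynomial.aeval α P‖ := by
  set D := P.totalDegree with hD
  by_cases hv : MvPolynomial.aeval α P = 0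
  · exact Or.inl hv
  right
  choose F hF0 hFα hFdeg hFlc hFroots using hα
  -- the number field
  set K := IntermediateField.adjoin ℚ (Set.range α) with hK
  have hint : ∀ i, IsIntegral ℚ (α i) := by
    intro i
    refine IsAlgebraic.isIntegral ?_
    refine ⟨(F i).map (Int.castRingHom ℚ), ?_, ?_⟩
    · exact (Polynomial.map_ne_zero_iff (RingHom.injective_int _)).2 (hF0 i)
    · have : aeval (α i) ((F i).map (Int.castRingHom ℚ)) = aeval (α i) (F i) := by
        rw [← algebraMap_int_eq, aeval_map_algebraMap]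
      rw [this, hFα i]
  have hfd : FiniteDimensional ℚ K := by
    refine IntermediateField.finiteDimensional_adjoin ?_
    rintro x ⟨i, rfl⟩
    exact hint i
  -- generators in K
  let β : Fin n → K := fun i => ⟨α i, IntermediateField.subset_adjoin _ _ ⟨i, rfl⟩⟩
  have hβF : ∀ i, aeval (β i) (F i) = 0 := by
    intro i
    have h : (algebraMap K ℂ) (aeval (β i) (F i)) = aeval (α i) (F i) := by
      rw [← aeval_algebraMap_apply]; rfl
    rw [hFα i] at h
    exact (map_eq_zero _).1 h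
  set L : ℤ := ∏ i, (F i).leadingCoeff with hL
  have hL0 : L ≠ 0 := Finset.prod_ne_zero_iff.2 fun i _ => leadingCoeff_ne_zero.2 (hF0 i)
  have hLβ : ∀ i, IsIntegral ℤ ((L : K) * β i) := by
    intro i
    have h1 : IsIntegral ℤ ((F i).leadingCoeff • β i) := isIntegral_leadingCoeff_smul _ _ (hβF i)
    have h2 : (L : K) * β i = ((∏ j ∈ Finset.univ.erase i, (F j).leadingCoeff : ℤ) : K) *
        ((F i).leadingCoeff • β i) := by
      rw [hL, ← Finset.mul_prod_erase _ _ (Finset.mem_univ i), zsmul_eq_mul]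
      push_cast
      ring
    rw [h2]
    refine IsIntegral.mul ?_ h1
    exact isIntegral_algebraMap (R := ℤ) (A := K) (x := _)
  set y : K := (L : K) ^ D * MvPolynomial.aeval β P with hy
  have hyint : IsIntegral ℤ y := isIntegral_pow_mul_aeval P β L hLβ
  have hyval : ∀ σ : K →ₐ[ℚ] ℂ, σ y = (L : ℂ) ^ D * MvPolynomial.aeval (fun i => σ (β i)) P := by
    intro σ
    rw [hy, map_mul, map_pow, map_intCast]
    congr 1
    rw [MvPolynomial.aeval_def, MvPolynomial.aeval_def, MvPolynomial.eval₂_eq', MvPolynomial.eval₂_eq',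
      map_sum]
    refine Finset.sum_congr rfl fun m _ => ?_
    rw [map_mul, map_prod]
    simp
  have hyα : (K.val) y = (L : ℂ) ^ D * MvPolynomial.aeval α P := hyval K.val
  have hy0 : y ≠ 0 := by
    intro h
    rw [h, map_zero] at hyα
    have : (L : ℂ) ^ D ≠ 0 := pow_ne_zero _ (Int.cast_ne_zero.2 hL0)
    exact hv ((mul_eq_zero.1 hyα.symm).resolve_left this)
  -- norm
  have hnorm : (algebraMap ℚ ℂ) (Algebra.norm ℚ y) = ∏ σ : K →ₐ[ℚ] ℂ, σ y :=
    Algebra.norm_eq_prod_embeddings ℚ ℂ y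
  have hnint : IsIntegral ℤ (Algebra.norm ℚ y) := Algebra.isIntegral_norm ℚ hyint
  obtain ⟨N, hN⟩ := IsIntegrallyClosed.isIntegral_iff.1 hnint
  have hN0 : N ≠ 0 := by
    rintro rfl
    rw [map_zero] at hN
    exact hy0 (Algebra.norm_eq_zero_iff.1 hN.symm)
  have hprod : 1 ≤ ∏ σ : K →ₐ[ℚ] ℂ, ‖σ y‖ := by
    rw [← norm_prod, ← hnorm, ← hN]
    have : ‖(algebraMap ℚ ℂ) ((algebraMap ℤ ℚ) N)‖ = |(N : ℝ)| := by
      simp
    rw [this]
    exact_mod_cast Int.one_le_abs hN0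
  -- bounds
  have hσF : ∀ (σ : K →ₐ[ℚ] ℂ) (i : Fin n), σ (β i) ∈ (F i).aroots ℂ := by
    intro σ i
    rw [mem_aroots]
    refine ⟨hF0 i, ?_⟩
    have h : aeval (σ (β i)) (F i) = σ (aeval (β i) (F i)) := by
      rw [aeval_def, aeval_def, ← AlgHom.coe_toRingHom, hom_eval₂]
      congr 1
      exact RingHom.ext_int _ _
    rw [h, hβF i, map_zero]
  have hBpos : (0 : ℝ) < B := by exact_mod_cast (by omega : 0 < B)
  have hexp1 : (1 : ℝ) ≤ Real.exp B := Real.one_le_exp hBpos.le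
  have hLle : ‖(L : ℂ)‖ ≤ Real.exp (n * B) := by
    have h1 : ‖(L : ℂ)‖ = ∏ i, |((F i).leadingCoeff : ℝ)| := by
      rw [hL]
      push_cast
      rw [norm_prod]
      exact Finset.prod_congr rfl fun i _ => by rw [Complex.norm_intCast]
    rw [h1]
    calc ∏ i, |((F i).leadingCoeff : ℝ)| ≤ ∏ _i : Fin n, Real.exp B :=
          Finset.prod_le_prod (fun i _ => abs_nonneg _) fun i _ => hFlc i
      _ = Real.exp (n * B) := by
          rw [Finset.prod_const, Finset.card_univ, Fintype.card_fin, ← Real.exp_nat_mul]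
  set M : ℝ := n * T * B + T * B + S with hMdef
  have hDT : (D : ℝ) ≤ T := by exact_mod_cast hT0
  have hM0 : 0 ≤ M := by positivity
  have hM : ∀ σ : K →ₐ[ℚ] ℂ, ‖σ y‖ ≤ Real.exp M := by
    intro σ
    rw [hyval σ, norm_mul, norm_pow]
    have h1 := norm_aeval_le_coefSum P (fun i => σ (β i)) hexp1
      (fun i => hFroots i _ (hσF σ i))
    calc ‖(L : ℂ)‖ ^ D * ‖MvPolynomial.aeval (fun i => σ (β i)) P‖
        ≤ Real.exp (n * B) ^ D * (Real.exp S * Real.exp B ^ D) := by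
          refine mul_le_mul (pow_le_pow_left₀ (norm_nonneg _) hLle _) (h1.trans ?_)
            (norm_nonneg _) (by positivity)
          exact mul_le_mul_of_nonneg_right hS (by positivity)
      _ ≤ Real.exp M := by
          rw [← Real.exp_nat_mul, ← Real.exp_nat_mul, ← Real.exp_add, ← Real.exp_add]
          refine Real.exp_le_exp.2 ?_
          rw [hMdef]
          have e1 : (D : ℝ) * (n * B) ≤ T * (n * B) := by gcongr
          have e2 : (D : ℝ) * B ≤ T * B := by gcongr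
          nlinarith
  have hcard : Fintype.card (K →ₐ[ℚ] ℂ) ≤ ∏ i, d i := by
    classical
    let T : Fin n → Finset ℂ := fun i => ((F i).aroots ℂ).toFinset
    have hT : ∀ i, (T i).card ≤ d i := by
      intro i
      refine (Multiset.toFinset_card_le _).trans ?_
      refine (card_roots' _).trans ?_
      exact natDegree_map_le.trans (hFdeg i)
    let ι : (K →ₐ[ℚ] ℂ) → Fintype.piFinset T := fun σ =>
      ⟨fun i => σ (β i), Fintype.mem_piFinset.2 fun i => Multiset.mem_toFinset.2 (hσF σ i)⟩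
    have hι : Function.Injective ι := by
      intro σ τ hστ
      refine IntermediateField.algHom_ext_of_eq_adjoin ℚ hK ?_
      rintro x ⟨i, rfl⟩
      exact congrFun (congrArg Subtype.val hστ) i
    calc Fintype.card (K →ₐ[ℚ] ℂ) ≤ Fintype.card (Fintype.piFinset T) :=
          Fintype.card_le_of_injective ι hι
      _ = ∏ i, (T i).card := by rw [Fintype.card_coe, Fintype.card_piFinset]
      _ ≤ ∏ i : Fin n, d i := Finset.prod_le_prod' fun i _ => hT i
  -- conclusion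
  classical
  have hsplit : ∏ σ : K →ₐ[ℚ] ℂ, ‖σ y‖ =
      ‖(K.val) y‖ * ∏ σ ∈ Finset.univ.erase K.val, ‖σ y‖ :=
    (Finset.mul_prod_erase Finset.univ (fun σ : K →ₐ[ℚ] ℂ => ‖σ y‖) (Finset.mem_univ K.val)).symm
  have hrest : ∏ σ ∈ Finset.univ.erase K.val, ‖σ y‖ ≤ Real.exp M ^ ((∏ i, d i) - 1) := by
    calc ∏ σ ∈ Finset.univ.erase K.val, ‖σ y‖
        ≤ ∏ _σ ∈ Finset.univ.erase K.val, Real.exp M :=
          Finset.prod_le_prod (fun _ _ => norm_nonneg _) fun σ _ => hM σ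
      _ = Real.exp M ^ (Finset.univ.erase K.val).card := by rw [Finset.prod_const]
      _ ≤ Real.exp M ^ ((∏ i, d i) - 1) := by
          refine pow_le_pow_right₀ (Real.one_le_exp hM0) ?_
          rw [Finset.card_erase_of_mem (Finset.mem_univ _), Finset.card_univ]
          exact Nat.sub_le_sub_right hcard 1
  have hval : ‖(K.val) y‖ ≤ Real.exp M * ‖MvPolynomial.aeval α P‖ := by
    rw [hyα, norm_mul, norm_pow]
    refine mul_le_mul_of_nonneg_right ?_ (norm_nonneg _)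
    refine (pow_le_pow_left₀ (norm_nonneg _) hLle _).trans ?_
    rw [← Real.exp_nat_mul]
    refine Real.exp_le_exp.2 ?_
    rw [hMdef]
    have e1 : (D : ℝ) * (n * B) ≤ T * (n * B) := by gcongr
    have e2 : (0 : ℝ) ≤ T * B := by positivity
    nlinarith
  have hBn : 1 ≤ ∏ i, d i := by
    refine le_trans ?_ hcard
    exact Fintype.card_pos_iff.2 ⟨K.val⟩
  have hfin : 1 ≤ Real.exp (M * ((∏ i, d i : ℕ) : ℝ)) * ‖MvPolynomial.aeval α P‖ := by
    calc (1 : ℝ) ≤ ‖(K.val) y‖ * ∏ σ ∈ Finset.univ.erase K.val, ‖σ y‖ := by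
          rw [← hsplit]; exact hprod
      _ ≤ (Real.exp M * ‖MvPolynomial.aeval α P‖) * Real.exp M ^ ((∏ i, d i) - 1) :=
          mul_le_mul hval hrest (Finset.prod_nonneg fun _ _ => norm_nonneg _) (by positivity)
      _ = (Real.exp M ^ ((∏ i, d i) - 1) * Real.exp M) *
          ‖MvPolynomial.aeval α P‖ := by ring
      _ = Real.exp (M * ((∏ i, d i : ℕ) : ℝ)) * ‖MvPolynomial.aeval α P‖ := by
          rw [← pow_succ, Nat.sub_add_cancel hBn, ← Real.exp_nat_mul]
          congr 2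
          ring
  rw [Real.exp_neg]
  exact (inv_le_iff_one_le_mul₀' (Real.exp_pos _)).2 hfin

/-- All zeros of a polynomial with coefficients at most `exp D` are at most `exp (D + 1)`. -/
theorem algB_algD {x : ℂ} {D : ℕ} (h : AlgB x D) : AlgD x D (D + 1) := by
  obtain ⟨F, hF0, hFx, hdeg, hco⟩ := h
  refine ⟨F, hF0, hFx, hdeg, ?_, ?_⟩
  · refine (hco _).trans (Real.exp_le_exp.2 ?_)
    push_cast
    linarith
  · intro r hr
    rw [mem_aroots] at hr
    have hroot := hr.2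
    have hlc : (1 : ℝ) ≤ ‖((F.leadingCoeff : ℤ) : ℂ)‖ := by
      rw [Complex.norm_intCast]
      exact_mod_cast Int.one_le_abs (leadingCoeff_ne_zero.2 hF0)
    have hexp : Real.exp D + 1 ≤ Real.exp ((D + 1 : ℕ) : ℝ) := by
      push_cast
      rw [Real.exp_add]
      have h1 : (1 : ℝ) ≤ Real.exp D := Real.one_le_exp (Nat.cast_nonneg _)
      have h2 : (2 : ℝ) ≤ Real.exp 1 := by linarith [Real.add_one_le_exp (1 : ℝ)]
      nlinarith
    refine le_trans ?_ hexp
    by_contra hcon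
    push Not at hcon
    have hr1 : 1 < ‖r‖ := by
      have := Real.exp_pos (D : ℝ)
      linarith
    -- expand
    have hsum : aeval r F = ∑ i ∈ Finset.range (F.natDegree + 1), ((F.coeff i : ℤ) : ℂ) * r ^ i := by
      rw [aeval_eq_sum_range]
      refine Finset.sum_congr rfl fun i _ => ?_
      rw [zsmul_eq_mul]
    rw [hsum, Finset.sum_range_succ] at hroot
    have h3 : ((F.coeff F.natDegree : ℤ) : ℂ) * r ^ F.natDegree =
        - ∑ i ∈ Finset.range F.natDegree, ((F.coeff i : ℤ) : ℂ) * r ^ i := by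
      linear_combination hroot
    have h4 : ‖((F.coeff F.natDegree : ℤ) : ℂ) * r ^ F.natDegree‖ ≤
        ∑ i ∈ Finset.range F.natDegree, Real.exp D * ‖r‖ ^ i := by
      rw [h3, norm_neg]
      refine (norm_sum_le _ _).trans (Finset.sum_le_sum fun i _ => ?_)
      rw [norm_mul, norm_pow, Complex.norm_intCast]
      exact mul_le_mul_of_nonneg_right (hco i) (by positivity)
    rw [norm_mul, norm_pow, ← Finset.mul_sum] at h4
    have h5 : (∑ i ∈ Finset.range F.natDegree, ‖r‖ ^ i) * (‖r‖ - 1) = ‖r‖ ^ F.natDegree - 1 :=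
      geom_sum_mul _ _
    have h6 : ‖r‖ ^ F.natDegree ≤ Real.exp D * ∑ i ∈ Finset.range F.natDegree, ‖r‖ ^ i := by
      refine le_trans ?_ h4
      have : (1 : ℝ) * ‖r‖ ^ F.natDegree ≤
          ‖((F.coeff F.natDegree : ℤ) : ℂ)‖ * ‖r‖ ^ F.natDegree :=
        mul_le_mul_of_nonneg_right hlc (by positivity)
      linarith
    have h7 : 0 < ‖r‖ ^ F.natDegree := by positivity
    have h8 : 0 ≤ ∑ i ∈ Finset.range F.natDegree, ‖r‖ ^ i :=
      Finset.sum_nonneg fun i _ => by positivity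
    have h9 : Real.exp D * ∑ i ∈ Finset.range F.natDegree, ‖r‖ ^ i ≤
        (‖r‖ - 1) * ∑ i ∈ Finset.range F.natDegree, ‖r‖ ^ i :=
      mul_le_mul_of_nonneg_right (by linarith) h8
    nlinarith

theorem specLiou : SpecLiou := by
  refine ⟨6, fun D N S hD hS α β hα hβ P hP hPS => ?_⟩
  have h := liou_gen 2 P N hP S hS hPS (D + 1) (by omega) (fun _ => D) ![α, β] (by
    intro i
    fin_cases i
    · exact algB_algD hα
    · exact algB_algD hβ)
  rcases h with h | h
  · exact Or.inl h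
  right
  refine le_trans (Real.exp_le_exp.2 (neg_le_neg ?_)) h
  have hprod : ((∏ _i : Fin 2, D : ℕ) : ℝ) = (D : ℝ) ^ 2 := by
    simp
  rw [hprod]
  have hD2 : (2 : ℝ) ≤ D := by exact_mod_cast hD
  have hN0 : (0 : ℝ) ≤ N := Nat.cast_nonneg _
  have h1 : ((3 : ℝ) * (D + 1)) * D ^ 2 ≤ D ^ 6 := by
    have e1 : (3 : ℝ) * (D + 1) ≤ D ^ 4 := by
      nlinarith [mul_self_nonneg ((D : ℝ) ^ 2 - 4), sq_nonneg ((D : ℝ) - 2)]
    calc ((3 : ℝ) * (D + 1)) * (D : ℝ) ^ 2 ≤ (D : ℝ) ^ 4 * (D : ℝ) ^ 2 := by gcongr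
      _ = (D : ℝ) ^ 6 := by ring
  have h2 : (D : ℝ) ^ 2 ≤ D ^ 6 := pow_le_pow_right₀ (by linarith) (by norm_num)
  have h3 : (0 : ℝ) ≤ (D : ℝ) ^ 6 := by positivity
  push_cast
  calc (2 * (N : ℝ) * (D + 1) + N * (D + 1) + S) * (D : ℝ) ^ 2
      = (3 * ((D : ℝ) + 1) * (D : ℝ) ^ 2) * N + (D : ℝ) ^ 2 * S := by ring
    _ ≤ (D : ℝ) ^ 6 * N + (D : ℝ) ^ 6 * S := by gcongr
    _ ≤ (D : ℝ) ^ 6 * (N + S + 1) := by nlinarith

end Pool.Agent.Lib.MP_47914d_nt.Sn
end

section
/-!
MP_47914d_nt, project Sn, module ROOT (helper42): zeros of polynomials whose coefficients are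
algebraic numbers of bounded size.

Method: `a_k ξ_k` multiplies the vector `u` of the monomials in the `ξ_k` (all exponents `< H`) and
`ζ` (exponent `< d`) by an integer matrix with bounded entries. The same holds for `Λ` and `Λ ζ`,
where `Λ ≠ 0` is a denominator times the leading coefficient. Siegel's lemma gives an integral
relation between the first rows of the matrices of `Λ ^ (m - j) (Λ ζ) ^ j`, hence between the
powers of `ζ`.
-/
set_option autoImplicit false

open Complex Polynomial Finset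

namespace Pool.Agent.Lib.MP_47914d_nt.Sn
namespace Root

/-- `z * u i` is an integral combination of the `u j` with coefficients bounded by `B`. -/
def IB {ι : Type} [Fintype ι] (u : ι → ℂ) (B : ℝ) (z : ℂ) : Prop :=
  ∀ i, ∃ c : ι → ℤ, (∀ j, |(c j : ℝ)| ≤ B) ∧ z * u i = ∑ j, (c j : ℂ) * u j

section Basic

variable {ι : Type} [Fintype ι] {u : ι → ℂ} {B B' : ℝ} {z z' : ℂ}

lemma IB.mono (h : IB u B z) (hB : B ≤ B') : IB u B' z := by
  intro i
  obtain ⟨c, h1, h2⟩ := h i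
  exact ⟨c, fun j => (h1 j).trans hB, h2⟩

lemma IB.const (a : ℤ) (hB : |(a : ℝ)| ≤ B) : IB u B (a : ℂ) := by
  classical
  intro i
  refine ⟨Pi.single i a, ?_, ?_⟩
  · intro j
    by_cases h : j = i
    · subst h; simpa using hB
    · rw [Pi.single_eq_of_ne h]
      simpa using (abs_nonneg _).trans hB
  · rw [Finset.sum_eq_single i]
    · simp
    · intro j _ hj
      rw [Pi.single_eq_of_ne hj]; simp
    · intro h; exact absurd (Finset.mem_univ i) h

lemma IB.add (h : IB u B z) (h' : IB u B' z') : IB u (B + B') (z + z') := by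
  intro i
  obtain ⟨c, h1, h2⟩ := h i
  obtain ⟨c', h1', h2'⟩ := h' i
  refine ⟨fun j => c j + c' j, ?_, ?_⟩
  · intro j
    push_cast
    exact (abs_add_le _ _).trans (add_le_add (h1 j) (h1' j))
  · rw [add_mul, h2, h2', ← Finset.sum_add_distrib]
    apply Finset.sum_congr rfl
    intro j _
    push_cast; ring

lemma IB.mul (h : IB u B z) (h' : IB u B' z') (hB : 0 ≤ B) (hB' : 0 ≤ B') :
    IB u (Fintype.card ι * B * B') (z * z') := by
  classical
  intro i
  obtain ⟨c', h1', h2'⟩ := h' i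
  choose c h1 h2 using h
  refine ⟨fun k => ∑ j, c' j * c j k, ?_, ?_⟩
  · intro k
    push_cast
    refine (Finset.abs_sum_le_sum_abs _ _).trans ?_
    calc ∑ j, |(c' j : ℝ) * (c j k : ℝ)| ≤ ∑ _j : ι, B' * B := by
          apply Finset.sum_le_sum
          intro j _
          rw [abs_mul]
          exact mul_le_mul (h1' j) (h1 j k) (abs_nonneg _) hB'
      _ = Fintype.card ι * B * B' := by
          rw [Finset.sum_const, Finset.card_univ, nsmul_eq_mul]; ring
  · rw [mul_assoc, h2', Finset.mul_sum]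
    have : ∀ j, z * ((c' j : ℂ) * u j) = ∑ k, (c' j : ℂ) * (c j k : ℂ) * u k := by
      intro j
      rw [mul_left_comm, h2 j, Finset.mul_sum]
      apply Finset.sum_congr rfl
      intro k _
      ring
    rw [Finset.sum_congr rfl (fun j _ => this j), Finset.sum_comm]
    apply Finset.sum_congr rfl
    intro k _
    push_cast
    rw [Finset.sum_mul]

lemma IB.pow (h : IB u B z) (hB : 0 ≤ B) (k : ℕ) :
    IB u ((Fintype.card ι * B) ^ k) (z ^ k) := by
  induction k with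
  | zero =>
    rw [pow_zero, pow_zero]
    have := IB.const (u := u) (B := 1) 1 (by simp)
    simpa using this
  | succ k ih =>
    rw [pow_succ, pow_succ]
    have := ih.mul h (by positivity) hB
    convert this using 1
    ring

lemma IB.tensor {κ : Type} [Fintype κ] (v : κ → ℂ) (h : IB u B z) (hB : 0 ≤ B) :
    IB (fun x : ι × κ => u x.1 * v x.2) B z := by
  classical
  rintro ⟨i, k⟩
  obtain ⟨c, h1, h2⟩ := h i
  refine ⟨fun x => if x.2 = k then c x.1 else 0, ?_, ?_⟩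
  · rintro ⟨j, l⟩
    dsimp only
    split_ifs
    · exact h1 j
    · simpa using hB
  · dsimp only
    rw [← mul_assoc, h2, Fintype.sum_prod_type, Finset.sum_mul]
    apply Finset.sum_congr rfl
    intro j _
    rw [Finset.sum_eq_single k]
    · simp; ring
    · intro l _ hl
      rw [if_neg hl]; simp
    · intro h; exact absurd (Finset.mem_univ k) h

lemma IB.tensor' {κ : Type} [Fintype κ] (v : κ → ℂ) (h : IB u B z) (hB : 0 ≤ B) :
    IB (fun x : κ × ι => v x.1 * u x.2) B z := by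
  classical
  rintro ⟨k, i⟩
  obtain ⟨c, h1, h2⟩ := h i
  refine ⟨fun x => if x.1 = k then c x.2 else 0, ?_, ?_⟩
  · rintro ⟨l, j⟩
    dsimp only
    split_ifs
    · exact h1 j
    · simpa using hB
  · dsimp only
    rw [mul_left_comm, h2, Fintype.sum_prod_type, Finset.mul_sum, Finset.sum_eq_single k]
    · apply Finset.sum_congr rfl
      intro j _
      simp; ring
    · intro l _ hl
      apply Finset.sum_eq_zero
      intro j _
      rw [if_neg hl]; simp
    · intro h; exact absurd (Finset.mem_univ k) h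

end Basic

attribute [local instance] Matrix.seminormedAddCommGroup in
/-- The Siegel lemma step. -/
lemma final {ι : Type} [Fintype ι] (u : ι → ℂ) (i0 : ι) (h0 : u i0 = 1) {Λ z : ℂ} (hΛ : Λ ≠ 0)
    {B : ℝ} (hB : 1 ≤ B) (h1 : IB u B Λ) (h2 : IB u B (Λ * z)) :
    ∃ F : ℤ[X], F ≠ 0 ∧ aeval z F = 0 ∧ F.natDegree ≤ 2 * Fintype.card ι ∧
      ∀ i, |(F.coeff i : ℝ)| ≤
        2 * Fintype.card ι * (Fintype.card ι * B) ^ (2 * Fintype.card ι) := by
  classical
  set n := Fintype.card ι with hn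
  have hn0 : 0 < n := Fintype.card_pos_iff.2 ⟨i0⟩
  have hnR : (1 : ℝ) ≤ n := by exact_mod_cast hn0
  have hB0 : 0 ≤ B := by linarith
  have hnB : (1 : ℝ) ≤ n * B := by nlinarith
  have hT : ∀ j : Fin (2 * n), ∃ c : ι → ℤ, (∀ k, |(c k : ℝ)| ≤ (n * B) ^ (2 * n)) ∧
      Λ ^ (2 * n - 1 - (j : ℕ)) * (Λ * z) ^ (j : ℕ) = ∑ k, (c k : ℂ) * u k := by
    intro j
    have hj := j.isLt
    have h3 := (h1.pow hB0 (2 * n - 1 - (j : ℕ))).mul (h2.pow hB0 (j : ℕ)) (by positivity)
      (by positivity)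
    obtain ⟨c, h4, h5⟩ := h3 i0
    refine ⟨c, fun k => (h4 k).trans ?_, ?_⟩
    · rw [← hn, mul_assoc, ← pow_add]
      have e1 : 2 * n - 1 - (j : ℕ) + (j : ℕ) = 2 * n - 1 := by omega
      rw [e1]
      calc (n : ℝ) * (n * B) ^ (2 * n - 1) ≤ (n * B) * (n * B) ^ (2 * n - 1) := by
            apply mul_le_mul_of_nonneg_right _ (by positivity)
            nlinarith
        _ = (n * B) ^ (2 * n) := by
            rw [← pow_succ']
            congr 1
            omega
    · rw [h0, mul_one] at h5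
      exact h5
  choose T hT1 hT2 using hT
  let A : Matrix ι (Fin (2 * n)) ℤ := fun b j => T j b
  have hcard : Fintype.card ι < Fintype.card (Fin (2 * n)) := by
    rw [Fintype.card_fin]; omega
  obtain ⟨t, ht0, ht1, ht2⟩ := Int.Matrix.exists_ne_zero_int_vec_norm_le A hcard hn0
  have hAnorm : ‖A‖ ≤ (n * B) ^ (2 * n) := by
    rw [Matrix.norm_le_iff (by positivity)]
    intro b j
    rw [Int.norm_eq_abs]
    exact hT1 j b
  have ht3 : ‖t‖ ≤ 2 * n * (n * B) ^ (2 * n) := by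
    refine ht2.trans ?_
    rw [Fintype.card_fin, ← hn]
    have e1 : ((n : ℝ) / ((2 * n : ℕ) - (n : ℝ))) = 1 := by
      push_cast
      have : (2 * (n : ℝ) - n) = n := by ring
      rw [this]
      exact div_self (by linarith)
    rw [e1, Real.rpow_one]
    push_cast
    apply mul_le_mul_of_nonneg_left _ (by positivity)
    apply max_le _ hAnorm
    exact one_le_pow₀ hnB
  let F : ℤ[X] := ∑ j : Fin (2 * n), Polynomial.C (t j) * Polynomial.X ^ (j : ℕ)
  have hcoef : ∀ i : ℕ, F.coeff i = if h : i < 2 * n then t ⟨i, h⟩ else 0 := by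
    intro i
    simp only [F, Polynomial.finsetSum_coeff, Polynomial.coeff_C_mul, Polynomial.coeff_X_pow]
    split_ifs with h
    · rw [Finset.sum_eq_single ⟨i, h⟩]
      · simp
      · intro j _ hj
        rw [if_neg, mul_zero]
        intro h'
        exact hj (Fin.ext h'.symm)
      · intro h'; exact absurd (Finset.mem_univ _) h'
    · apply Finset.sum_eq_zero
      intro j _
      rw [if_neg, mul_zero]
      have := j.isLt
      omega
  refine ⟨F, ?_, ?_, ?_, ?_⟩
  · intro hF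
    apply ht0
    funext j
    have := hcoef j
    rw [hF, dif_pos j.isLt, Polynomial.coeff_zero] at this
    exact this.symm
  · have hΛm : Λ ^ (2 * n - 1) * aeval z F = 0 := by
      have e1 : aeval z F = ∑ j : Fin (2 * n), (t j : ℂ) * z ^ (j : ℕ) := by
        simp [F, map_sum]
      rw [e1, Finset.mul_sum]
      have e2 : ∀ j : Fin (2 * n), Λ ^ (2 * n - 1) * ((t j : ℂ) * z ^ (j : ℕ)) =
          ∑ k, (t j : ℂ) * (T j k : ℂ) * u k := by
        intro j
        have hj := j.isLt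
        have e3 : Λ ^ (2 * n - 1) = Λ ^ (2 * n - 1 - (j : ℕ)) * Λ ^ (j : ℕ) := by
          rw [← pow_add]; congr 1; omega
        calc Λ ^ (2 * n - 1) * ((t j : ℂ) * z ^ (j : ℕ)) =
            (t j : ℂ) * (Λ ^ (2 * n - 1 - (j : ℕ)) * (Λ * z) ^ (j : ℕ)) := by
              rw [e3, mul_pow]; ring
          _ = _ := by
              rw [hT2 j, Finset.mul_sum]
              apply Finset.sum_congr rfl
              intro k _
              ring
      rw [Finset.sum_congr rfl (fun j _ => e2 j), Finset.sum_comm]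
      apply Finset.sum_eq_zero
      intro k _
      rw [← Finset.sum_mul]
      have e4 : ∑ j, T j k * t j = 0 := congrFun ht1 k
      have e5 : ∑ j, (t j : ℂ) * (T j k : ℂ) = 0 := by
        have : ((∑ j, T j k * t j : ℤ) : ℂ) = 0 := by rw [e4]; simp
        push_cast at this
        rw [← this]
        apply Finset.sum_congr rfl
        intro j _
        ring
      rw [e5, zero_mul]
    exact (mul_eq_zero.1 hΛm).resolve_left (pow_ne_zero _ hΛ)
  · rw [Polynomial.natDegree_le_iff_coeff_eq_zero]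
    intro i hi
    rw [hcoef, dif_neg (by omega)]
  · intro i
    rw [hcoef]
    split_ifs with h
    · refine le_trans ?_ ht3
      rw [← Int.norm_eq_abs]
      exact norm_le_pi_norm t _
    · simp only [Int.cast_zero, abs_zero]
      positivity

/-- The relation of exact degree `H` satisfied by a number with `AlgB ξ H`. -/
lemma algB_rel {ξ : ℂ} {H : ℕ} (h : AlgB ξ H) : ∃ (a : ℤ) (f : Fin H → ℤ), a ≠ 0 ∧
    |(a : ℝ)| ≤ Real.exp H ∧ (∀ j, |(f j : ℝ)| ≤ Real.exp H) ∧
    (a : ℂ) * ξ ^ H = ∑ j, (f j : ℂ) * ξ ^ (j : ℕ) := by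
  obtain ⟨F, hF, h1, h2, h3⟩ := h
  let G : ℤ[X] := F * Polynomial.X ^ (H - F.natDegree)
  have hG : ∀ j, G.coeff j = if H - F.natDegree ≤ j then F.coeff (j - (H - F.natDegree)) else 0 :=
    fun j => Polynomial.coeff_mul_X_pow' F (H - F.natDegree) j
  have hGb : ∀ j, |(G.coeff j : ℝ)| ≤ Real.exp H := by
    intro j
    rw [hG]
    split_ifs
    · exact h3 _
    · simp only [Int.cast_zero, abs_zero]; positivity
  have hGH : G.coeff H = F.leadingCoeff := by
    rw [hG, if_pos (by omega), Polynomial.leadingCoeff]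
    congr 1
    omega
  have hdeg : G.natDegree ≤ H := by
    rw [Polynomial.natDegree_le_iff_coeff_eq_zero]
    intro i hi
    rw [hG]
    split_ifs
    · apply Polynomial.coeff_eq_zero_of_natDegree_lt
      omega
    · rfl
  refine ⟨G.coeff H, fun j => -G.coeff j, ?_, hGb H, ?_, ?_⟩
  · rw [hGH]
    exact Polynomial.leadingCoeff_ne_zero.2 hF
  · intro j
    push_cast
    rw [abs_neg]
    exact hGb j
  · have h4 : aeval ξ G = 0 := by
      simp only [G, map_mul, h1, zero_mul]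
    rw [Polynomial.aeval_eq_sum_range' (n := H + 1) (by omega), Finset.sum_range_succ] at h4
    simp only [zsmul_eq_mul] at h4
    rw [← Fin.sum_univ_eq_sum_range (fun j => (G.coeff j : ℂ) * ξ ^ j)] at h4
    have h5 : (G.coeff H : ℂ) * ξ ^ H = -∑ j : Fin H, (G.coeff j : ℂ) * ξ ^ (j : ℕ) := by
      linear_combination h4
    rw [h5, ← Finset.sum_neg_distrib]
    apply Finset.sum_congr rfl
    intro j _
    push_cast; ring

lemma ib_powers {ξ : ℂ} {H : ℕ} (h : AlgB ξ H) : ∃ a : ℤ, a ≠ 0 ∧ |(a : ℝ)| ≤ Real.exp H ∧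
    IB (fun j : Fin H => ξ ^ (j : ℕ)) (Real.exp H) ((a : ℂ) * ξ) := by
  classical
  obtain ⟨a, f, h1, h2, h3, h4⟩ := algB_rel h
  refine ⟨a, h1, h2, ?_⟩
  intro i
  by_cases hi : (i : ℕ) + 1 < H
  · refine ⟨Pi.single ⟨i + 1, hi⟩ a, ?_, ?_⟩
    · intro j
      by_cases hj : j = ⟨i + 1, hi⟩
      · subst hj; simpa using h2
      · rw [Pi.single_eq_of_ne hj]
        simp only [Int.cast_zero, abs_zero]; positivity
    · rw [Finset.sum_eq_single ⟨i + 1, hi⟩]
      · simp only [Pi.single_eq_same]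
        ring
      · intro j _ hj
        rw [Pi.single_eq_of_ne hj]; simp
      · intro h; exact absurd (Finset.mem_univ _) h
  · refine ⟨f, h3, ?_⟩
    have hi' : (i : ℕ) + 1 = H := by have := i.isLt; omega
    rw [← h4]
    conv_rhs => rw [← hi', pow_succ]
    ring

/-- The vector of monomials. -/
lemma exists_u (H : ℕ) (hH : 1 ≤ H) (B : ℝ) (hB : 0 ≤ B) : ∀ (N : ℕ) (ξ : Fin N → ℂ)
    (a : Fin N → ℤ), (∀ k, IB (fun j : Fin H => ξ k ^ (j : ℕ)) B ((a k : ℂ) * ξ k)) →
    ∃ (ι : Type) (_ : Fintype ι) (u : ι → ℂ) (i0 : ι), u i0 = 1 ∧ Fintype.card ι = H ^ N ∧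
      ∀ k, IB u B ((a k : ℂ) * ξ k) := by
  intro N
  induction N with
  | zero =>
    intro ξ a _
    exact ⟨Unit, inferInstance, fun _ => 1, (), rfl, by simp, fun k => k.elim0⟩
  | succ N ih =>
    intro ξ a h
    obtain ⟨ι, hι, u, i0, h1, h2, h3⟩ := ih (fun k => ξ k.succ) (fun k => a k.succ)
      (fun k => h k.succ)
    refine ⟨ι × Fin H, inferInstance, fun x => u x.1 * ξ 0 ^ (x.2 : ℕ), (i0, ⟨0, hH⟩), ?_, ?_, ?_⟩
    · simp [h1]
    · rw [Fintype.card_prod, h2, Fintype.card_fin, pow_succ]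
    · intro k
      refine Fin.cases ?_ ?_ k
      · exact (h 0).tensor' u hB
      · intro k
        exact (h3 k).tensor (fun j : Fin H => ξ 0 ^ (j : ℕ)) hB

/-! ### growth -/

lemma le_two_pow (n : ℕ) : n ≤ 2 ^ n := Nat.lt_two_pow_self.le

lemma growth_mul (N c1 c2 H : ℕ) (hH : 2 ≤ H) {n : ℕ} (hn : n ≤ H ^ N) :
    (n : ℝ) * Real.exp ((H : ℝ) ^ c1) * Real.exp ((H : ℝ) ^ c2) ≤
      Real.exp ((H : ℝ) ^ (N + c1 + c2 + 2)) := by
  have hH' : (2 : ℝ) ≤ H := by exact_mod_cast hH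
  have hH1 : (1 : ℝ) ≤ H := by linarith
  have h1 : (n : ℝ) ≤ Real.exp ((H : ℝ) ^ N) := by
    have : (n : ℝ) ≤ (H : ℝ) ^ N := by exact_mod_cast hn
    exact this.trans ((by linarith : (H : ℝ) ^ N ≤ (H : ℝ) ^ N + 1).trans (Real.add_one_le_exp _))
  calc (n : ℝ) * Real.exp ((H : ℝ) ^ c1) * Real.exp ((H : ℝ) ^ c2)
      ≤ Real.exp ((H : ℝ) ^ N) * Real.exp ((H : ℝ) ^ c1) * Real.exp ((H : ℝ) ^ c2) := by
        gcongr
    _ = Real.exp ((H : ℝ) ^ N + (H : ℝ) ^ c1 + (H : ℝ) ^ c2) := by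
        rw [Real.exp_add, Real.exp_add]
    _ ≤ _ := by
        apply Real.exp_le_exp.2
        have e1 : (H : ℝ) ^ N ≤ (H : ℝ) ^ (N + c1 + c2) := pow_le_pow_right₀ hH1 (by omega)
        have e2 : (H : ℝ) ^ c1 ≤ (H : ℝ) ^ (N + c1 + c2) := pow_le_pow_right₀ hH1 (by omega)
        have e3 : (H : ℝ) ^ c2 ≤ (H : ℝ) ^ (N + c1 + c2) := pow_le_pow_right₀ hH1 (by omega)
        have e4 : (H : ℝ) ^ (N + c1 + c2 + 2) = (H : ℝ) ^ (N + c1 + c2) * (H : ℝ) ^ 2 := by
          rw [pow_add]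
        have e5 : (4 : ℝ) ≤ (H : ℝ) ^ 2 := by nlinarith
        have e6 : 0 < (H : ℝ) ^ (N + c1 + c2) := by positivity
        rw [e4]
        nlinarith

lemma growth_add (c1 c2 H : ℕ) (hH : 2 ≤ H) :
    Real.exp ((H : ℝ) ^ c1) + Real.exp ((H : ℝ) ^ c2) ≤ Real.exp ((H : ℝ) ^ (c1 + c2 + 1)) := by
  have hH' : (2 : ℝ) ≤ H := by exact_mod_cast hH
  have hH1 : (1 : ℝ) ≤ H := by linarith
  have e1 : (H : ℝ) ^ c1 ≤ (H : ℝ) ^ (c1 + c2) := pow_le_pow_right₀ hH1 (by omega)
  have e2 : (H : ℝ) ^ c2 ≤ (H : ℝ) ^ (c1 + c2) := pow_le_pow_right₀ hH1 (by omega)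
  have e3 : 1 ≤ (H : ℝ) ^ (c1 + c2) := one_le_pow₀ hH1
  have e4 : (H : ℝ) ^ (c1 + c2) + 1 ≤ (H : ℝ) ^ (c1 + c2 + 1) := by
    rw [pow_succ]; nlinarith
  have e5 : (2 : ℝ) ≤ Real.exp 1 := by
    have := Real.add_one_le_exp (1 : ℝ)
    linarith
  calc Real.exp ((H : ℝ) ^ c1) + Real.exp ((H : ℝ) ^ c2)
      ≤ Real.exp ((H : ℝ) ^ (c1 + c2)) + Real.exp ((H : ℝ) ^ (c1 + c2)) :=
        add_le_add (Real.exp_le_exp.2 e1) (Real.exp_le_exp.2 e2)
    _ ≤ Real.exp ((H : ℝ) ^ (c1 + c2)) * Real.exp 1 := by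
        have := Real.exp_pos ((H : ℝ) ^ (c1 + c2))
        nlinarith
    _ = Real.exp ((H : ℝ) ^ (c1 + c2) + 1) := by rw [Real.exp_add]
    _ ≤ _ := Real.exp_le_exp.2 e4

lemma growth_mono {c1 c2 H : ℕ} (hH : 2 ≤ H) (h : c1 ≤ c2) :
    Real.exp ((H : ℝ) ^ c1) ≤ Real.exp ((H : ℝ) ^ c2) := by
  have hH' : (2 : ℝ) ≤ H := by exact_mod_cast hH
  exact Real.exp_le_exp.2 (pow_le_pow_right₀ (by linarith) h)

/-- The data of the numbers `ξ`. -/
structure Dat (N H : ℕ) (ξ : Fin N → ℂ) (a : Fin N → ℤ) (ι : Type) [Fintype ι] (u : ι → ℂ) :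
    Prop where
  hH : 2 ≤ H
  card : Fintype.card ι = H ^ N
  ha : ∀ k, |(a k : ℝ)| ≤ Real.exp H
  hu : ∀ k, IB u (Real.exp H) ((a k : ℂ) * ξ k)

lemma abs_prod_le {N H : ℕ} (a : Fin N → ℤ) (ha : ∀ k, |(a k : ℝ)| ≤ Real.exp H)
    (s : Finset (Fin N)) (hH : 2 ≤ H) (r : ℕ) :
    |(((∏ k ∈ s, a k) ^ r : ℤ) : ℝ)| ≤ Real.exp ((H : ℝ) ^ (r + N + 1)) := by
  have hH' : (2 : ℝ) ≤ H := by exact_mod_cast hH
  push_cast
  rw [abs_pow, Finset.abs_prod]
  have h1 : ∏ k ∈ s, |(a k : ℝ)| ≤ Real.exp (N * H) := by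
    calc ∏ k ∈ s, |(a k : ℝ)| ≤ ∏ _k ∈ s, Real.exp H :=
          Finset.prod_le_prod (fun k _ => abs_nonneg _) (fun k _ => ha k)
      _ = Real.exp (s.card * H) := by
          rw [Finset.prod_const, ← Real.exp_nat_mul]
      _ ≤ Real.exp (N * H) := by
          apply Real.exp_le_exp.2
          have : s.card ≤ N := by
            simpa using Finset.card_le_univ s
          have : (s.card : ℝ) ≤ N := by exact_mod_cast this
          nlinarith
  calc (∏ k ∈ s, |(a k : ℝ)|) ^ r ≤ Real.exp (N * H) ^ r :=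
        pow_le_pow_left₀ (Finset.prod_nonneg fun k _ => abs_nonneg _) h1 r
    _ = Real.exp (r * (N * H)) := by rw [← Real.exp_nat_mul]
    _ ≤ _ := by
        apply Real.exp_le_exp.2
        have e1 : (r : ℝ) ≤ (H : ℝ) ^ r := by
          have : r ≤ H ^ r := (le_two_pow r).trans (Nat.pow_le_pow_left hH r)
          exact_mod_cast this
        have e2 : (N : ℝ) ≤ (H : ℝ) ^ N := by
          have : N ≤ H ^ N := (le_two_pow N).trans (Nat.pow_le_pow_left hH N)
          exact_mod_cast this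
        calc (r : ℝ) * (N * H) ≤ (H : ℝ) ^ r * ((H : ℝ) ^ N * H) := by gcongr
          _ = (H : ℝ) ^ (r + N + 1) := by rw [pow_succ, pow_add]; ring

/-- Values of integral polynomials, multiplied by a denominator. -/
def Claim (N : ℕ) (p : MvPolynomial (Fin N) ℤ) (q c : ℕ) : Prop :=
  ∀ (H : ℕ) (ξ : Fin N → ℂ) (a : Fin N → ℤ) (ι : Type) [Fintype ι] (u : ι → ℂ),
    Dat N H ξ a ι u → IB u (Real.exp ((H : ℝ) ^ c))
      ((((∏ k, a k) ^ q : ℤ) : ℂ) * MvPolynomial.aeval ξ p)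

lemma Claim.mono {N : ℕ} {p : MvPolynomial (Fin N) ℤ} {q c q' : ℕ} (h : Claim N p q c)
    (hq : q ≤ q') : Claim N p q' (N + (q' - q + N + 1) + c + 2) := by
  intro H ξ a ι _ u hD
  have h1 := h H ξ a ι u hD
  have h2 : IB u (Real.exp ((H : ℝ) ^ (q' - q + N + 1))) (((∏ k, a k) ^ (q' - q) : ℤ) : ℂ) :=
    IB.const _ (abs_prod_le a hD.ha _ hD.hH _)
  have h3 := h2.mul h1 (by positivity) (by positivity)
  have h4 := h3.mono (growth_mul N (q' - q + N + 1) c H hD.hH hD.card.le)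
  have e : (((∏ k, a k) ^ (q' - q) : ℤ) : ℂ) *
      ((((∏ k, a k) ^ q : ℤ) : ℂ) * MvPolynomial.aeval ξ p) =
      (((∏ k, a k) ^ q' : ℤ) : ℂ) * MvPolynomial.aeval ξ p := by
    rw [← mul_assoc, ← Int.cast_mul, ← pow_add, Nat.sub_add_cancel hq]
  rw [e] at h4
  exact h4

lemma claim (N : ℕ) (p : MvPolynomial (Fin N) ℤ) : ∃ q c : ℕ, Claim N p q c := by
  induction p using MvPolynomial.induction_on with
  | C b =>
    refine ⟨0, b.natAbs, ?_⟩
    intro H ξ a ι _ u hD
    rw [pow_zero, Int.cast_one, one_mul, MvPolynomial.aeval_C]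
    apply IB.const b
    have h1 : b.natAbs ≤ H ^ b.natAbs := (le_two_pow _).trans (Nat.pow_le_pow_left hD.hH _)
    have h2 : |(b : ℝ)| = (b.natAbs : ℝ) := by
      rw [← Int.cast_abs, Int.abs_eq_natAbs]; simp
    have h3 : (b.natAbs : ℝ) ≤ (H : ℝ) ^ b.natAbs := by exact_mod_cast h1
    rw [h2]
    have := Real.add_one_le_exp ((H : ℝ) ^ b.natAbs)
    linarith
  | add p1 p2 h1 h2 =>
    obtain ⟨q1, c1, h1⟩ := h1
    obtain ⟨q2, c2, h2⟩ := h2
    have h1' := h1.mono (Nat.le_add_right q1 q2)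
    have h2' := h2.mono (Nat.le_add_left q2 q1)
    refine ⟨q1 + q2, (N + (q1 + q2 - q1 + N + 1) + c1 + 2) +
      (N + (q1 + q2 - q2 + N + 1) + c2 + 2) + 1, ?_⟩
    intro H ξ a ι _ u hD
    have h3 := (h1' H ξ a ι u hD).add (h2' H ξ a ι u hD)
    rw [← mul_add, ← map_add] at h3
    exact h3.mono (growth_add _ _ H hD.hH)
  | mul_X p k h =>
    obtain ⟨q, c, h⟩ := h
    refine ⟨q + 1, N + c + (N + (1 + N + 1) + 1 + 2) + 2, ?_⟩
    intro H ξ a ι _ u hD
    have h1 := h H ξ a ι u hD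
    -- the factor `A X_k`
    have h2 : IB u (Real.exp ((H : ℝ) ^ (1 + N + 1)))
        (((∏ j ∈ Finset.univ.erase k, a j) ^ 1 : ℤ) : ℂ) :=
      IB.const _ (abs_prod_le a hD.ha _ hD.hH _)
    have h3 : IB u (Real.exp ((H : ℝ) ^ 1)) ((a k : ℂ) * ξ k) := by
      rw [pow_one]; exact hD.hu k
    have h4 := (h2.mul h3 (by positivity) (by positivity)).mono
      (growth_mul N (1 + N + 1) 1 H hD.hH hD.card.le)
    have h5 := (h1.mul h4 (by positivity) (by positivity)).mono
      (growth_mul N c _ H hD.hH hD.card.le)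
    have e : (((∏ k, a k) ^ q : ℤ) : ℂ) * MvPolynomial.aeval ξ p *
        ((((∏ j ∈ Finset.univ.erase k, a j) ^ 1 : ℤ) : ℂ) * ((a k : ℂ) * ξ k)) =
        (((∏ k, a k) ^ (q + 1) : ℤ) : ℂ) * MvPolynomial.aeval ξ (p * MvPolynomial.X k) := by
      rw [map_mul, MvPolynomial.aeval_X, pow_one, pow_succ, Int.cast_mul,
        ← Finset.mul_prod_erase Finset.univ a (Finset.mem_univ k), Int.cast_mul]
      ring
    rw [e] at h5
    exact h5

/-- uniform version for finitely many polynomials -/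
lemma claim_fin (N : ℕ) (P : ℕ → MvPolynomial (Fin N) ℤ) (d : ℕ) :
    ∃ q c : ℕ, ∀ i ≤ d, Claim N (P i) q c := by
  choose q c h using fun i => claim N (P i)
  let Q := ∑ i ∈ Finset.range (d + 1), q i
  let c' : ℕ → ℕ := fun i => N + (Q - q i + N + 1) + c i + 2
  refine ⟨Q, ∑ i ∈ Finset.range (d + 1), c' i, ?_⟩
  intro i hi
  have hmem : i ∈ Finset.range (d + 1) := Finset.mem_range.2 (by omega)
  have hq : q i ≤ Q := Finset.single_le_sum (f := q) (fun _ _ => Nat.zero_le _) hmem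
  have hc : c' i ≤ ∑ i ∈ Finset.range (d + 1), c' i :=
    Finset.single_le_sum (f := c') (fun _ _ => Nat.zero_le _) hmem
  intro H ξ a ι _ u hD
  exact ((h i).mono hq H ξ a ι u hD).mono (growth_mono hD.hH hc)

end Root

open Root in
theorem specRoot : SpecRoot := by
  classical
  intro N P
  let P' : (MvPolynomial (Fin N) ℤ)[X] := MvPolynomial.optionEquivLeft ℤ (Fin N) P
  obtain ⟨q, c, hclaim⟩ := claim_fin N (fun i => P'.coeff i) P'.natDegree
  refine ⟨2 * (N + P'.natDegree + 1) + c + 2, ?_⟩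
  intro H hH ξ hξ ζ hζ hy
  have hH' : (2 : ℝ) ≤ H := by exact_mod_cast hH
  have hH1 : (1 : ℝ) ≤ H := by linarith
  -- the polynomial in one variable
  let p : ℂ[X] := P'.map (MvPolynomial.aeval ξ : MvPolynomial (Fin N) ℤ →ₐ[ℤ] ℂ).toRingHom
  have hpeval : ∀ y : ℂ, MvPolynomial.aeval (fun o : Option (Fin N) => o.elim y ξ) P = p.eval y := by
    intro y
    have : (MvPolynomial.aeval (fun o : Option (Fin N) => o.elim y ξ) :
        MvPolynomial (Option (Fin N)) ℤ →ₐ[ℤ] ℂ).toRingHom =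
        ((Polynomial.eval₂RingHom
          (MvPolynomial.aeval ξ : MvPolynomial (Fin N) ℤ →ₐ[ℤ] ℂ).toRingHom y).comp
          (MvPolynomial.optionEquivLeft ℤ (Fin N) : _ ≃ₐ[ℤ] _).toRingEquiv.toRingHom) := by
      apply MvPolynomial.ringHom_ext
      · intro r
        simp
      · intro o
        cases o with
        | none => simp [MvPolynomial.optionEquivLeft_X_none]
        | some k => simp [MvPolynomial.optionEquivLeft_X_some]
    have h2 := RingHom.congr_fun this P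
    simp only [p, Polynomial.eval_map]
    exact h2
  have hp0 : p ≠ 0 := by
    obtain ⟨y, hy⟩ := hy
    intro h
    apply hy
    rw [hpeval, h, Polynomial.eval_zero]
  have hpz : p.eval ζ = 0 := by rw [← hpeval]; exact hζ
  set d := p.natDegree with hd
  have hdP : d ≤ P'.natDegree := Polynomial.natDegree_map_le
  have hd1 : 1 ≤ d := by
    by_contra hcon
    have h0 : p.natDegree = 0 := by omega
    rw [Polynomial.eq_C_of_natDegree_eq_zero h0] at hpz hp0
    rw [Polynomial.eval_C] at hpz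
    rw [hpz, Polynomial.C_0] at hp0
    exact hp0 rfl
  have hlead : p.coeff d ≠ 0 := Polynomial.leadingCoeff_ne_zero.2 hp0
  have hcoef : ∀ i, p.coeff i = MvPolynomial.aeval ξ (P'.coeff i) := by
    intro i
    simp only [p, Polynomial.coeff_map]
    rfl
  -- the vector of the monomials
  choose a ha0 ha1 ha2 using fun k => ib_powers (hξ k)
  obtain ⟨ι, hι, u, i0, hu1, hcard, hu2⟩ := exists_u H (by omega) (Real.exp H) (by positivity) N ξ a ha2
  have hD : Dat N H ξ a ι u := ⟨hH, hcard, ha1, hu2⟩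
  let A : ℂ := (((∏ k, a k) ^ q : ℤ) : ℂ)
  have hA0 : A ≠ 0 := by
    have : (∏ k, a k) ^ q ≠ 0 := pow_ne_zero _ (Finset.prod_ne_zero_iff.2 fun k _ => ha0 k)
    exact Int.cast_ne_zero.2 this
  have hAi : ∀ i ≤ d, IB u (Real.exp ((H : ℝ) ^ c)) (A * p.coeff i) := by
    intro i hi
    rw [hcoef]
    exact hclaim i (hi.trans hdP) H ξ a ι u hD
  let Λ : ℂ := A * p.coeff d
  have hΛ : Λ ≠ 0 := mul_ne_zero hA0 hlead
  let w : ι × Fin d → ℂ := fun x => u x.1 * ζ ^ (x.2 : ℕ)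
  have hw1 : IB w (Real.exp ((H : ℝ) ^ c)) Λ :=
    (hAi d le_rfl).tensor (fun j : Fin d => ζ ^ (j : ℕ)) (by positivity)
  have hw2 : IB w (Real.exp ((H : ℝ) ^ c)) (Λ * ζ) := by
    rintro ⟨i, j⟩
    by_cases hj : (j : ℕ) + 1 < d
    · obtain ⟨c1, h1, h2⟩ := hw1 (i, ⟨j + 1, hj⟩)
      refine ⟨c1, h1, ?_⟩
      rw [← h2]
      simp only [w]
      rw [pow_succ]; ring
    · have hj' : (j : ℕ) + 1 = d := by have := j.isLt; omega
      -- `Λ ζ ^ d = - ∑ A p_l ζ ^ l`
      choose c1 h1 h2 using fun l : Fin d => hAi l l.isLt.le i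
      refine ⟨fun x => -c1 x.2 x.1, ?_, ?_⟩
      · rintro ⟨i', l⟩
        push_cast
        rw [abs_neg]
        exact h1 l i'
      · have e1 : p.coeff d * ζ ^ d = -∑ l : Fin d, p.coeff l * ζ ^ (l : ℕ) := by
          have h3 := hpz
          rw [Polynomial.eval_eq_sum_range, ← hd, Finset.sum_range_succ,
            ← Fin.sum_univ_eq_sum_range (fun l => p.coeff l * ζ ^ l)] at h3
          linear_combination h3
        have e0 : ζ ^ d = ζ ^ (j : ℕ) * ζ := by rw [← pow_succ, hj']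
        calc Λ * ζ * w (i, j) = A * (p.coeff d * ζ ^ d) * u i := by
              rw [e0]
              simp only [w, Λ]
              ring
          _ = -∑ l : Fin d, (A * p.coeff l * u i) * ζ ^ (l : ℕ) := by
              rw [e1, mul_neg, neg_mul, Finset.mul_sum, Finset.sum_mul]
              congr 1
              apply Finset.sum_congr rfl
              intro l _
              ring
          _ = _ := by
              rw [Fintype.sum_prod_type, Finset.sum_comm, ← Finset.sum_neg_distrib]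
              apply Finset.sum_congr rfl
              intro l _
              rw [h2 l, Finset.sum_mul, ← Finset.sum_neg_distrib]
              apply Finset.sum_congr rfl
              intro i' _
              simp only [w]
              push_cast
              ring
  have hw0 : w (i0, ⟨0, hd1⟩) = 1 := by simp [w, hu1]
  have hB1 : (1 : ℝ) ≤ Real.exp ((H : ℝ) ^ c) := Real.one_le_exp (by positivity)
  obtain ⟨F, hF0, hF1, hF2, hF3⟩ := final w (i0, ⟨0, hd1⟩) hw0 hΛ hB1 hw1 hw2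
  have hcard2 : Fintype.card (ι × Fin d) = H ^ N * d := by
    rw [Fintype.card_prod, hcard, Fintype.card_fin]
  set n := Fintype.card (ι × Fin d) with hn
  -- final estimates
  have hnm : 2 * n ≤ H ^ (N + P'.natDegree + 1) := by
    rw [hcard2]
    have h1 : d ≤ H ^ P'.natDegree :=
      hdP.trans ((le_two_pow _).trans (Nat.pow_le_pow_left hH _))
    calc 2 * (H ^ N * d) ≤ H * (H ^ N * H ^ P'.natDegree) := by gcongr
      _ = H ^ (N + P'.natDegree + 1) := by rw [pow_succ, pow_add]; ring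
  have hnmR : (2 : ℝ) * n ≤ (H : ℝ) ^ (N + P'.natDegree + 1) := by exact_mod_cast hnm
  set m : ℝ := (H : ℝ) ^ (N + P'.natDegree + 1) with hm
  have hm1 : 1 ≤ m := one_le_pow₀ hH1
  refine ⟨F, hF0, hF1, ?_, ?_⟩
  · refine hF2.trans (hnm.trans (Nat.pow_le_pow_right (by omega) (by omega)))
  · intro i
    refine (hF3 i).trans ?_
    have hn1 : (n : ℝ) ≤ m := by
      have : (0 : ℝ) ≤ n := Nat.cast_nonneg _
      linarith
    have hn0 : (0 : ℝ) ≤ n := Nat.cast_nonneg _
    have e1 : (2 : ℝ) * n ≤ Real.exp m := by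
      have := Real.add_one_le_exp m
      linarith
    have e2 : (n : ℝ) * Real.exp ((H : ℝ) ^ c) ≤ Real.exp (m + (H : ℝ) ^ c) := by
      rw [Real.exp_add]
      apply mul_le_mul_of_nonneg_right _ (by positivity)
      have := Real.add_one_le_exp m
      linarith
    have e3 : ((n : ℝ) * Real.exp ((H : ℝ) ^ c)) ^ (2 * n) ≤
        Real.exp (m * (m + (H : ℝ) ^ c)) := by
      calc _ ≤ Real.exp (m + (H : ℝ) ^ c) ^ (2 * n) :=
            pow_le_pow_left₀ (by positivity) e2 _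
        _ = Real.exp ((2 * n : ℕ) * (m + (H : ℝ) ^ c)) := by rw [← Real.exp_nat_mul]
        _ ≤ _ := by
            apply Real.exp_le_exp.2
            push_cast
            exact mul_le_mul_of_nonneg_right hnmR (by positivity)
    calc 2 * (n : ℝ) * (n * Real.exp ((H : ℝ) ^ c)) ^ (2 * n)
        ≤ Real.exp m * Real.exp (m * (m + (H : ℝ) ^ c)) :=
          mul_le_mul e1 e3 (by positivity) (by positivity)
      _ = Real.exp (m + m * (m + (H : ℝ) ^ c)) := by rw [Real.exp_add]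
      _ ≤ _ := by
          apply Real.exp_le_exp.2
          push_cast
          have f1 : (1 : ℝ) ≤ (H : ℝ) ^ c := one_le_pow₀ hH1
          have f2 : m ≤ m ^ 2 * (H : ℝ) ^ c := by nlinarith [mul_le_mul hm1 f1 (by norm_num) (by linarith)]
          have f3 : m * m ≤ m ^ 2 * (H : ℝ) ^ c := by nlinarith
          have f4 : m * (H : ℝ) ^ c ≤ m ^ 2 * (H : ℝ) ^ c := by
            apply mul_le_mul_of_nonneg_right _ (by positivity)
            nlinarith
          have f5 : m ^ 2 * (H : ℝ) ^ c * 4 ≤ (H : ℝ) ^ (2 * (N + P'.natDegree + 1) + c + 2) := by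
            have : (H : ℝ) ^ (2 * (N + P'.natDegree + 1) + c + 2) = m ^ 2 * (H : ℝ) ^ c * (H : ℝ) ^ 2 := by
              rw [hm, ← pow_mul, ← pow_add, ← pow_add]
              congr 1
              ring
            rw [this]
            apply mul_le_mul_of_nonneg_left _ (by positivity)
            nlinarith
          have f6 : 0 ≤ m ^ 2 * (H : ℝ) ^ c := by positivity
          linarith [mul_add m m ((H : ℝ) ^ c)]

end Pool.Agent.Lib.MP_47914d_nt.Sn
end
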