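import Pool.Agent.Lib.MP_47914d_nt.Sn.Spec
import Pool.Agent.Lib.MP_47914d_nt.JFormula

/-!
Module APPR of the theorem over Liouville fields: numbers algebraic over `ℚ(x)` are approximated
by algebraic numbers of bounded size when `x` is.
-/

set_option autoImplicit false

open Polynomial Filter Topology

namespace Pool.Agent.Lib.MP_47914d_nt.Sn

namespace Appr

lemma algB_mono {x : ℂ} {D E : ℕ} (h : AlgB x D) (hDE : D ≤ E) : AlgB x E := by
  obtain ⟨F, h1, h2, h3, h4⟩ := h
  refine ⟨F, h1, h2, h3.trans hDE, fun i => (h4 i).trans (Real.exp_le_exp.2 ?_)⟩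
  exact_mod_cast hDE

lemma differentiable_aeval (N : ℕ) (s : ℂ) (P : MvPolynomial (Option (Fin N)) ℤ) :
    Differentiable ℂ (fun ξ : Fin N → ℂ =>
      MvPolynomial.aeval (fun o : Option (Fin N) => o.elim s ξ) P) := by
  induction P using MvPolynomial.induction_on with
  | C a => simp
  | add p q hp hq =>
    simp only [map_add]
    exact hp.add hq
  | mul_X p o hp =>
    simp only [map_mul, MvPolynomial.aeval_X]
    refine hp.mul ?_
    cases o with
    | none => exact differentiable_const _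
    | some i => exact differentiable_apply i

/-- The polynomial in the distinguished variable. -/
lemma aeval_optionEquivLeft (N : ℕ) (ξ : Fin N → ℂ) (y : ℂ)
    (P : MvPolynomial (Option (Fin N)) ℤ) :
    ((MvPolynomial.optionEquivLeft ℤ (Fin N) P).map
      (MvPolynomial.aeval ξ : MvPolynomial (Fin N) ℤ →ₐ[ℤ] ℂ).toRingHom).eval y =
      MvPolynomial.aeval (fun o : Option (Fin N) => o.elim y ξ) P := by
  induction P using MvPolynomial.induction_on with
  | C a =>
    rw [MvPolynomial.optionEquivLeft_C]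
    simp
  | add p q hp hq => simp only [map_add, Polynomial.map_add, Polynomial.eval_add, hp, hq]
  | mul_X p o hp =>
    rw [map_mul, Polynomial.map_mul, Polynomial.eval_mul, hp, map_mul]
    congr 1
    cases o with
    | none => simp [MvPolynomial.optionEquivLeft_X_none]
    | some i => simp [MvPolynomial.optionEquivLeft_X_some]

lemma aeval_int_ne_zero {N : ℕ} {x : Fin N → ℂ} (hx : AlgebraicIndependent ℚ x)
    {a : MvPolynomial (Fin N) ℤ} (ha : a ≠ 0) : MvPolynomial.aeval x a ≠ 0 := by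
  intro h
  rw [algebraicIndependent_iff] at hx
  have h1 := hx (MvPolynomial.map (Int.castRingHom ℚ) a) (by
    rw [← algebraMap_int_eq, MvPolynomial.aeval_map_algebraMap]
    exact h)
  exact ha (MvPolynomial.map_injective _ (RingHom.injective_int _) (by rw [h1, map_zero]))

lemma pow_card_le_prod_map {ι : Type*} (S : Multiset ι) (f : ι → ℝ) (t : ℝ) (ht : 0 ≤ t)
    (h : ∀ z ∈ S, t ≤ f z) : t ^ Multiset.card S ≤ (S.map f).prod := by
  induction S using Multiset.induction_on with
  | empty => simp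
  | cons z S ih =>
    rw [Multiset.card_cons, Multiset.map_cons, Multiset.prod_cons, pow_succ']
    exact mul_le_mul (h z (Multiset.mem_cons_self z S))
      (ih fun y hy => h y (Multiset.mem_cons_of_mem hy)) (by positivity)
      (ht.trans (h z (Multiset.mem_cons_self z S)))

lemma norm_multiset_prod (S : Multiset ℂ) : ‖S.prod‖ = (S.map fun z => ‖z‖).prod := by
  induction S using Multiset.induction_on with
  | empty => simp
  | cons z S ih => simp [ih]

end Appr

open Appr in
theorem specAppr (hroot : SpecRoot) : SpecAppr := by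
  classical
  intro N x hx s hs
  -- an integral relation
  obtain ⟨P, hP0, hPs⟩ : ∃ P : MvPolynomial (Option (Fin N)) ℤ, P ≠ 0 ∧
      MvPolynomial.aeval (fun o : Option (Fin N) => o.elim s x) P = 0 := by
    by_contra hcon
    push Not at hcon
    exact hs (algebraicIndependent_of_int _ hcon)
  obtain ⟨c₀, hc₀⟩ := hroot N P
  set Q := MvPolynomial.optionEquivLeft ℤ (Fin N) P with hQ
  have hQ0 : Q ≠ 0 := by
    rw [hQ]
    exact (map_ne_zero_iff _ (MvPolynomial.optionEquivLeft ℤ (Fin N)).injective).2 hP0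
  set a := Q.leadingCoeff with ha
  have ha0 : a ≠ 0 := leadingCoeff_ne_zero.2 hQ0
  have hax : MvPolynomial.aeval x a ≠ 0 := aeval_int_ne_zero hx ha0
  set n := Q.natDegree with hn
  -- the specialised polynomials
  let ev : (Fin N → ℂ) → (MvPolynomial (Fin N) ℤ →+* ℂ) := fun ξ =>
    (MvPolynomial.aeval ξ : MvPolynomial (Fin N) ℤ →ₐ[ℤ] ℂ).toRingHom
  have hev : ∀ ξ y, (Q.map (ev ξ)).eval y =
      MvPolynomial.aeval (fun o : Option (Fin N) => o.elim y ξ) P :=
    fun ξ y => aeval_optionEquivLeft N ξ y P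
  have hn1 : 1 ≤ n := by
    by_contra hcon
    have hn0 : Q.natDegree = 0 := by omega
    have h1 := hev x s
    rw [hPs] at h1
    rw [eq_C_of_natDegree_eq_zero hn0, Polynomial.map_C, eval_C] at h1
    apply hax
    rw [ha, leadingCoeff, hn0]
    exact h1
  -- Lipschitz bound and lower bound for the leading coefficient
  obtain ⟨C, hC⟩ := ((differentiable_aeval N s P) x).hasFDerivAt.isBigO_sub.bound
  have hcont : Continuous fun ξ : Fin N → ℂ => MvPolynomial.aeval ξ a := by
    have h1 := (differentiable_aeval N 0 (MvPolynomial.rename some a)).continuous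
    refine h1.congr fun ξ => ?_
    rw [MvPolynomial.aeval_rename]
    rfl
  have hlow : ∀ᶠ ξ in 𝓝 x, ‖MvPolynomial.aeval x a‖ / 2 < ‖MvPolynomial.aeval ξ a‖ := by
    have h1 : Tendsto (fun ξ : Fin N → ℂ => ‖MvPolynomial.aeval ξ a‖) (𝓝 x)
        (𝓝 ‖MvPolynomial.aeval x a‖) := (hcont.norm).tendsto x
    exact h1.eventually (lt_mem_nhds (by
      have := norm_pos_iff.2 hax
      linarith))
  obtain ⟨r₁, hr₁, hball⟩ := Metric.eventually_nhds_iff.1 (hC.and hlow)
  set A : ℝ := ‖MvPolynomial.aeval x a‖ / 2 with hA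
  have hApos : 0 < A := by
    have := norm_pos_iff.2 hax
    rw [hA]; linarith
  set C' : ℝ := (|C| + 1) / A with hC'
  have hC'pos : 0 < C' := by positivity
  obtain ⟨m, hm⟩ := exists_nat_ge C'
  refine ⟨c₀ + n + m, by omega, min r₁ (1 / C'), by positivity, ?_⟩
  intro H hH ξ hξ δ hδ hδ0 hclose
  have hdist : ‖ξ - x‖ ≤ δ := by
    rw [pi_norm_le_iff_of_nonneg hδ0]
    intro i
    rw [Pi.sub_apply, norm_sub_rev]
    exact hclose i
  have hdist' : dist ξ x < r₁ := by
    rw [dist_eq_norm]
    exact lt_of_le_of_lt hdist (lt_of_lt_of_le hδ (min_le_left _ _))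
  obtain ⟨hb1, hb2⟩ := hball hdist'
  have hval : ‖MvPolynomial.aeval (fun o : Option (Fin N) => o.elim s ξ) P‖ ≤ (|C| + 1) * δ := by
    rw [hPs, sub_zero] at hb1
    refine hb1.trans ?_
    calc C * ‖ξ - x‖ ≤ |C| * ‖ξ - x‖ := mul_le_mul_of_nonneg_right (le_abs_self _) (norm_nonneg _)
      _ ≤ (|C| + 1) * δ := by gcongr; linarith
  -- the specialised polynomial
  set G := Q.map (ev ξ) with hG
  have haξ : ev ξ Q.leadingCoeff ≠ 0 := by
    intro h
    have h2 : MvPolynomial.aeval ξ a = 0 := h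
    rw [h2, norm_zero] at hb2
    linarith
  have hGdeg : G.natDegree = n := natDegree_map_of_leadingCoeff_ne_zero _ haξ
  have hGlead : G.leadingCoeff = MvPolynomial.aeval ξ a :=
    leadingCoeff_map_of_leadingCoeff_ne_zero _ haξ
  have hG0 : G ≠ 0 := by
    intro h
    rw [h, natDegree_zero] at hGdeg
    omega
  have hsplit : G.Splits := IsAlgClosed.splits G
  have hGs : ‖G.eval s‖ = ‖MvPolynomial.aeval ξ a‖ * (G.roots.map fun ζ => ‖s - ζ‖).prod := by
    rw [hsplit.eval_eq_prod_roots, norm_mul, hGlead, norm_multiset_prod, Multiset.map_map]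
    rfl
  have hcardG : Multiset.card G.roots = n := by
    rw [← hGdeg, hsplit.natDegree_eq_card_roots]
  obtain ⟨ζ, hζ, hζn⟩ : ∃ ζ ∈ G.roots, ‖s - ζ‖ ^ n ≤ C' * δ := by
    have hne : G.roots.toFinset.Nonempty := by
      have h1 : G.roots ≠ 0 := by
        intro h
        rw [h, Multiset.card_zero] at hcardG
        omega
      obtain ⟨z, hz⟩ := Multiset.exists_mem_of_ne_zero h1
      exact ⟨z, Multiset.mem_toFinset.2 hz⟩
    obtain ⟨ζ, hζ, hmin⟩ := Finset.exists_min_image G.roots.toFinset (fun ζ => ‖s - ζ‖) hne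
    refine ⟨ζ, Multiset.mem_toFinset.1 hζ, ?_⟩
    have h1 : ‖s - ζ‖ ^ n ≤ (G.roots.map fun ζ => ‖s - ζ‖).prod := by
      rw [← hcardG]
      exact pow_card_le_prod_map G.roots (fun z => ‖s - z‖) _ (norm_nonneg _)
        fun z hz => hmin z (Multiset.mem_toFinset.2 hz)
    have h2 : A * ‖s - ζ‖ ^ n ≤ (|C| + 1) * δ := by
      calc A * ‖s - ζ‖ ^ n ≤ ‖MvPolynomial.aeval ξ a‖ * (G.roots.map fun ζ => ‖s - ζ‖).prod :=
            mul_le_mul hb2.le h1 (by positivity) (norm_nonneg _)
        _ = ‖G.eval s‖ := hGs.symm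
        _ ≤ (|C| + 1) * δ := by rw [hG, hev]; exact hval
    rw [hC', div_mul_eq_mul_div, le_div_iff₀ hApos]
    linarith
  have hζ1 : ‖s - ζ‖ ≤ 1 := by
    by_contra hcon
    push Not at hcon
    have h1 : 1 < ‖s - ζ‖ ^ n := one_lt_pow₀ hcon (by omega)
    have h2 : C' * δ < 1 := by
      have := lt_of_lt_of_le hδ (min_le_right _ _)
      rw [lt_div_iff₀ hC'pos] at this
      linarith
    linarith
  refine ⟨ζ, algB_mono (hc₀ H hH ξ hξ ζ ?_ ?_) (Nat.pow_le_pow_right (by omega) (by omega)), ?_⟩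
  · rw [← hev]
    exact (mem_roots'.1 hζ).2
  · by_contra hcon
    push Not at hcon
    apply hG0
    refine Polynomial.funext fun y => ?_
    rw [eval_zero, hG, hev, hcon y]
  · calc ‖s - ζ‖ ^ (c₀ + n + m) ≤ ‖s - ζ‖ ^ n :=
          pow_le_pow_of_le_one (norm_nonneg _) hζ1 (by omega)
      _ ≤ C' * δ := hζn
      _ ≤ ((c₀ + n + m : ℕ) : ℝ) * δ := by
          refine mul_le_mul_of_nonneg_right (hm.trans ?_) hδ0
          push_cast
          have : (0 : ℝ) ≤ c₀ + n := by positivity
          linarith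

end Pool.Agent.Lib.MP_47914d_nt.Sn
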