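import Pool.Agent.Lib.MP_47914d_nt.Sn.Spec
import Pool.Agent.Lib.MP_47914d_nt.DerExt

section
/-!
Module LAT: the elliptic function `φ` of the parameter `β` (MP_47914d_nt).
-/
set_option autoImplicit false

open Complex Filter Topology Polynomial Finset
open scoped Real

namespace Pool.Agent.Lib.MP_47914d_nt.Sn

namespace Lat

/-! ### Power series solutions -/

/-- An analytic solution of the differential equation is given by the formal solution. -/
lemma ser_of_ode (hT : SpecTay) (β : ℂ) (f : ℂ → ℂ) (hf : AnalyticAt ℂ f 0) (h0 : f 0 = 0)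
    (hode : ∀ᶠ v in 𝓝 (0 : ℂ), deriv f v ^ 2 = 4 * f v * (1 + f v + β * f v ^ 2))
    (hne : ¬ ∀ᶠ v in 𝓝 (0 : ℂ), f v = 0) :
    ∀ᶠ v in 𝓝 (0 : ℂ), HasSum (fun n => PowerSeries.coeff n (phi β) * v ^ n) (f v) := by
  have hf' : AnalyticAt ℂ (deriv f) 0 := hf.deriv
  have hf'' : AnalyticAt ℂ (deriv (deriv f)) 0 := hf'.deriv
  -- the derivative vanishes at zero
  have hd0 : deriv f 0 = 0 := by
    have h1 := hode.self_of_nhds
    rw [h0] at h1
    simpa using h1
  -- second order equation
  have hprod : ∀ᶠ v in 𝓝 (0 : ℂ), deriv f v *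
      (deriv (deriv f) v - (2 + 4 * f v + 6 * β * f v ^ 2)) = 0 := by
    have h1 : ∀ᶠ v in 𝓝 (0 : ℂ), ∀ᶠ u in 𝓝 v,
        deriv f u ^ 2 = 4 * f u * (1 + f u + β * f u ^ 2) := hode.eventually_nhds
    filter_upwards [h1, hf.eventually_analyticAt] with v hv hav
    have hdv : HasDerivAt f (deriv f v) v := hav.differentiableAt.hasDerivAt
    have hddv : HasDerivAt (deriv f) (deriv (deriv f) v) v :=
      hav.deriv.differentiableAt.hasDerivAt
    have e1 : HasDerivAt (fun u => deriv f u ^ 2) (2 * deriv f v * deriv (deriv f) v) v := by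
      simpa using hddv.fun_pow 2
    have e2 : HasDerivAt (fun u => 4 * f u * (1 + f u + β * f u ^ 2))
        (4 * deriv f v * (1 + f v + β * f v ^ 2) +
          4 * f v * (deriv f v + β * (2 * f v * deriv f v))) v := by
      have h2 : HasDerivAt (fun u => 4 * f u) (4 * deriv f v) v := hdv.const_mul 4
      have h3 : HasDerivAt (fun u => f u ^ 2) (2 * f v * deriv f v) v := by
        simpa using hdv.fun_pow 2
      have h4 : HasDerivAt (fun u => 1 + f u + β * f u ^ 2)
          (deriv f v + β * (2 * f v * deriv f v)) v := (hdv.const_add 1).add (h3.const_mul β)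
      exact h2.mul h4
    have e3 := (e1.congr_of_eventuallyEq (hv.mono fun u hu => hu.symm)).unique e2
    linear_combination (1 / 2) * e3
  have hnd : ¬ ∀ᶠ v in 𝓝 (0 : ℂ), deriv f v = 0 := by
    intro h
    apply hne
    have h1 : taylor 0 (deriv f) = taylor 0 (fun _ => 0) :=
      (taylor_eq 0 _ _ hf' analyticAt_const).2 h
    have h2 : taylor 0 f = taylor 0 (fun _ => 0) := by
      ext n
      rcases Nat.eq_zero_or_pos n with rfl | hn
      · simp [taylor, h0]
      · obtain ⟨m, rfl⟩ := Nat.exists_eq_succ_of_ne_zero hn.ne'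
        have h3 := congrArg (PowerSeries.coeff m) h1
        rw [taylor_deriv, PowerSeries.coeff_derivative] at h3
        rw [taylor_const] at h3 ⊢
        simp only [map_zero, mul_eq_zero] at h3 ⊢
        rcases h3 with h3 | h3
        · exact h3
        · exact absurd h3 (Nat.cast_add_one_ne_zero m)
    exact (taylor_eq 0 _ _ hf analyticAt_const).1 h2
  have hana : AnalyticAt ℂ (fun v => deriv (deriv f) v - (2 + 4 * f v + 6 * β * f v ^ 2)) 0 := by
    fun_prop
  have hsec : ∀ᶠ v in 𝓝 (0 : ℂ), deriv (deriv f) v = 2 + 4 * f v + 6 * β * f v ^ 2 := by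
    rcases hf'.eventually_eq_zero_or_eventually_ne_zero with h | h
    · exact absurd h hnd
    · rcases hana.eventually_eq_zero_or_eventually_ne_zero with h' | h'
      · filter_upwards [h'] with v hv
        linear_combination hv
      · exfalso
        have h1 : ∀ᶠ v in 𝓝[≠] (0 : ℂ), deriv f v *
            (deriv (deriv f) v - (2 + 4 * f v + 6 * β * f v ^ 2)) = 0 :=
          hprod.filter_mono nhdsWithin_le_nhds
        obtain ⟨v, h2, h3, h4⟩ := (h1.and (h.and h')).exists
        exact mul_ne_zero h3 h4 h2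
  -- the formal solution
  have hT' : taylor 0 f = phi β := by
    apply hT.uniq
    · simp [taylor, h0]
    · simp [taylor, hd0]
    · rw [← taylor_deriv, ← taylor_deriv, (taylor_eq 0 _ _ hf'' (by fun_prop)).2 hsec]
      have e1 : taylor 0 (fun v => 2 + 4 * f v + 6 * β * f v ^ 2) =
          taylor 0 (fun v => (2 + 4 * f v) + (6 * β) * (f v * f v)) := by
        congr 1; funext v; ring
      rw [e1, taylor_add 0 (fun v => 2 + 4 * f v) (fun v => (6 * β) * (f v * f v))
        (by fun_prop) (by fun_prop),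
        taylor_add 0 (fun _ => 2) (fun v => 4 * f v) (by fun_prop) (by fun_prop),
        taylor_mul 0 (fun _ => 4) f (by fun_prop) hf,
        taylor_mul 0 (fun _ => 6 * β) (fun v => f v * f v) (by fun_prop) (by fun_prop),
        taylor_mul 0 f f hf hf, taylor_const, taylor_const, taylor_const]
      have e2 : PowerSeries.C (2 : ℂ) = 2 := map_ofNat PowerSeries.C 2
      have e4 : PowerSeries.C (4 : ℂ) = 4 := map_ofNat PowerSeries.C 4
      rw [e2, e4]
      ring
  -- convergence
  have h1 := hf.hasFPowerSeriesAt.eventually_hasSum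
  filter_upwards [h1] with v hv
  rw [zero_add] at hv
  have h2 : (fun n => PowerSeries.coeff n (phi β) * v ^ n) = fun n =>
      (FormalMultilinearSeries.ofScalars ℂ (fun n => iteratedDeriv n f 0 / (n.factorial : ℂ)) n)
        fun _ => v := by
    funext n
    rw [← hT', taylor, PowerSeries.coeff_mk, FormalMultilinearSeries.ofScalars_apply_eq,
      smul_eq_mul]
  rw [h2]
  exact hv

/-! ### Weierstrass functions -/

variable (L : PeriodPair)

lemma hasDerivAt_wp {z : ℂ} (hz : z ∉ L.lattice) :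
    HasDerivAt L.weierstrassP (L.derivWeierstrassP z) z := by
  have h1 : AnalyticAt ℂ L.weierstrassP z := L.analyticOnNhd_weierstrassP z hz
  have h2 := h1.differentiableAt.hasDerivAt
  rwa [L.deriv_weierstrassP] at h2

lemma eventually_notMem {z : ℂ} (hz : z ∉ L.lattice) : ∀ᶠ u in 𝓝 z, u ∉ L.lattice :=
  L.isClosed_lattice.isOpen_compl.mem_nhds hz

lemma eventually_sub_notMem {z p : ℂ} (hz : z - p ∉ L.lattice) :
    ∀ᶠ u in 𝓝 z, u - p ∉ L.lattice := by
  have h1 : ContinuousAt (fun u : ℂ => u - p) z := by fun_prop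
  exact h1.eventually (eventually_notMem L hz)

/-- the value of the constant `K` -/
lemma constK (hW : SpecWei) {e p K : ℂ} (h3 : 4 * e ^ 3 - L.g₂ * e - L.g₃ = 0)
    (hiff : ∀ u, u ∉ L.lattice → (L.weierstrassP u = e ↔ u - p ∈ L.lattice))
    (hK0 : K ≠ 0) (hK : ∀ u, u ∉ L.lattice → u - p ∉ L.lattice →
      (L.weierstrassP u - e) * (L.weierstrassP (u - p) - e) = K) :
    4 * K = 12 * e ^ 2 - L.g₂ := by
  obtain ⟨a, ha0, haK⟩ : ∃ a : ℂ, a ≠ 0 ∧ a ^ 2 ≠ K := by
    by_cases h : K = 1
    · exact ⟨2, two_ne_zero, by rw [h]; norm_num⟩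
    · exact ⟨1, one_ne_zero, by rw [one_pow]; exact fun h' => h h'.symm⟩
  obtain ⟨u, hu, hua⟩ := hW.surj L (e + a)
  have hup : u - p ∉ L.lattice := by
    intro h
    have h1 := (hiff u hu).2 h
    rw [hua] at h1
    exact ha0 (by linear_combination h1)
  have hX := hasDerivAt_wp L hu
  have hY : HasDerivAt (fun u => L.weierstrassP (u - p)) (L.derivWeierstrassP (u - p)) u :=
    (hasDerivAt_wp L hup).comp_sub_const u p
  have hXY : HasDerivAt (fun u => (L.weierstrassP u - e) * (L.weierstrassP (u - p) - e))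
      (L.derivWeierstrassP u * (L.weierstrassP (u - p) - e) +
        (L.weierstrassP u - e) * L.derivWeierstrassP (u - p)) u :=
    (hX.sub_const e).mul (hY.sub_const e)
  have hc : HasDerivAt (fun u => (L.weierstrassP u - e) * (L.weierstrassP (u - p) - e)) 0 u := by
    refine (hasDerivAt_const u K).congr_of_eventuallyEq ?_
    filter_upwards [eventually_notMem L hu, eventually_sub_notMem L hup] with w hw hw'
    exact hK w hw hw'
  have hd := hXY.unique hc
  have s1 := L.derivWeierstrassP_sq u hu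
  have s2 := L.derivWeierstrassP_sq (u - p) hup
  have hk := hK u hu hup
  set X := L.weierstrassP u - e with hXdef
  set Y := L.weierstrassP (u - p) - e with hYdef
  set X' := L.derivWeierstrassP u with hX'
  set Y' := L.derivWeierstrassP (u - p) with hY'
  have e1 : L.weierstrassP u = X + e := by rw [hXdef]; ring
  have e2 : L.weierstrassP (u - p) = Y + e := by rw [hYdef]; ring
  rw [e1] at s1
  rw [e2] at s2
  have hXa : X = a := by rw [hXdef, hua]; ring
  have hX0 : X ≠ 0 := by rw [hXa]; exact ha0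
  have hY0 : Y ≠ 0 := by
    intro h; rw [h, mul_zero] at hk; exact hK0 hk.symm
  have hne : X ≠ Y := by
    intro h
    apply haK
    rw [← hk, ← h, hXa]; ring
  have hmul : X * Y * ((X - Y) * (4 * K - (12 * e ^ 2 - L.g₂))) = 0 := by
    have t1 : (X' * Y) ^ 2 = (X * Y') ^ 2 := by
      have : X' * Y = -(X * Y') := by linear_combination hd
      rw [this]; ring
    have t2 : (4 * X ^ 3 + 12 * e * X ^ 2 + (12 * e ^ 2 - L.g₂) * X) * Y ^ 2 =
        X ^ 2 * (4 * Y ^ 3 + 12 * e * Y ^ 2 + (12 * e ^ 2 - L.g₂) * Y) := by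
      linear_combination t1 - Y ^ 2 * s1 + X ^ 2 * s2 + (- Y ^ 2 + X ^ 2) * h3
    rw [← hk]
    linear_combination t2
  have h4 := (mul_eq_zero.1 hmul).resolve_left (mul_ne_zero hX0 hY0)
  have h5 := (mul_eq_zero.1 h4).resolve_left (sub_ne_zero.2 hne)
  linear_combination h5

/-- the period pair `1, τ` -/
noncomputable def pair (τ : ℂ) (hτ : 0 < τ.im) : PeriodPair where
  ω₁ := 1
  ω₂ := τ
  indep := by
    rw [LinearIndependent.pair_iff]
    intro s t h
    have h1 := congrArg Complex.im h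
    have h2 := congrArg Complex.re h
    simp only [Complex.add_im, Complex.real_smul, Complex.mul_im, Complex.ofReal_re,
      Complex.ofReal_im, Complex.one_im, Complex.one_re, Complex.zero_im, zero_mul, mul_zero,
      add_zero, zero_add] at h1
    have ht : t = 0 := by
      rcases mul_eq_zero.1 h1 with h | h
      · exact h
      · exact absurd h hτ.ne'
    subst ht
    simp only [Complex.add_re, Complex.real_smul, Complex.mul_re, Complex.ofReal_re,
      Complex.ofReal_im, Complex.zero_re, zero_mul, sub_zero, add_zero, mul_one] at h2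
    exact ⟨h2, rfl⟩

/-- twice the zero of `℘ - e` is a period -/
lemma two_mem {e p : ℂ} (hp : p ∉ L.lattice) (hpe : L.weierstrassP p = e)
    (hiff : ∀ u, u ∉ L.lattice → (L.weierstrassP u = e ↔ u - p ∈ L.lattice)) :
    p + p ∈ L.lattice := by
  have h1 : -p ∉ L.lattice := fun h => hp (by simpa using L.lattice.neg_mem h)
  have h2 := (hiff (-p) h1).1 (by rw [L.weierstrassP_neg, hpe])
  have h3 := L.lattice.neg_mem h2
  have h4 : -(-p - p) = p + p := by ring
  rwa [h4] at h3

lemma countable_lattice : (L.lattice : Set ℂ).Countable := by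
  have h1 : Countable L.lattice := L.latticeEquivProd.toEquiv.countable_iff.2 inferInstance
  exact Set.countable_coe_iff.1 h1

/-- the elliptic function -/
theorem ellF (hW : SpecWei) (hT : SpecTay) (β τ c : ℂ) (hβ : β ≠ 0)
    (h1 : L.ω₁ = c) (h2 : L.ω₂ = c * τ)
    (hg2 : L.g₂ = 4 * (1 / 3 - β)) (hg3 : L.g₃ = 4 * β / 3 - 8 / 27) :
    ∃ (φ : ℂ → ℂ) (S : Set ℂ), EllF β τ c φ S := by
  obtain ⟨p, hp, hpe⟩ := hW.surj L (1 / 3)
  have hcub : 4 * (1 / 3 : ℂ) ^ 3 - L.g₂ * (1 / 3) - L.g₃ = 0 := by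
    rw [hg2, hg3]; ring
  have hder : 12 * (1 / 3 : ℂ) ^ 2 - L.g₂ ≠ 0 := by
    rw [hg2]
    intro h
    apply hβ
    linear_combination (1 / 4) * h
  obtain ⟨hiff, K, hK0, hK⟩ := hW.root L (1 / 3) p hp hpe hcub hder
  have hKβ : K = β := by
    have := constK L hW hcub hiff hK0 hK
    rw [hg2] at this
    linear_combination (1 / 4) * this
  subst hKβ
  have h2p := two_mem L hp hpe hiff
  have hlat : ∀ v : ℂ, v ∈ Lat τ c ↔ v ∈ L.lattice := by
    intro v
    rw [PeriodPair.mem_lattice, h1, h2]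
    constructor
    · rintro ⟨m, n, rfl⟩
      exact ⟨m, n, by ring⟩
    · rintro ⟨m, n, rfl⟩
      exact ⟨m, n, by ring⟩
  have hsymm : ∀ v : ℂ, v - p ∈ L.lattice ↔ v + p ∈ L.lattice := by
    intro v
    constructor
    · intro h
      have := L.lattice.add_mem h h2p
      have e : v - p + (p + p) = v + p := by ring
      rwa [e] at this
    · intro h
      have := L.lattice.sub_mem h h2p
      have e : v + p - (p + p) = v - p := by ring
      rwa [e] at this
  have hneg : ∀ v : ℂ, v - p ∈ L.lattice → -v - p ∈ L.lattice := by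
    intro v h
    have h3 := L.lattice.neg_mem ((hsymm v).1 h)
    have e : -(v + p) = -v - p := by ring
    rwa [e] at h3
  set φ : ℂ → ℂ := fun v => (L.weierstrassP (v - p) - 1 / 3) / K with hφ
  set S : Set ℂ := {v | v - p ∈ L.lattice} with hS
  have hd : ∀ v, v ∉ S → HasDerivAt φ (L.derivWeierstrassP (v - p) / K) v := by
    intro v hv
    exact (((hasDerivAt_wp L hv).comp_sub_const v p).sub_const (1 / 3)).div_const K
  have hode : ∀ v, v ∉ S → deriv φ v ^ 2 = 4 * φ v * (1 + φ v + K * φ v ^ 2) := by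
    intro v hv
    rw [(hd v hv).deriv]
    have h3 := L.derivWeierstrassP_sq (v - p) hv
    rw [hg2, hg3] at h3
    simp only [hφ]
    field_simp
    rw [h3]
    ring
  have hana : ∀ v, v ∉ S → AnalyticAt ℂ φ v := by
    intro v hv
    have h3 : AnalyticAt ℂ L.weierstrassP (v - p) := L.analyticOnNhd_weierstrassP _ hv
    have h4 : AnalyticAt ℂ (fun v : ℂ => L.weierstrassP (v - p)) v :=
      h3.fun_comp (f := fun v : ℂ => v - p) (by fun_prop)
    exact (h4.sub analyticAt_const).div analyticAt_const hK0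
  have hzero : ∀ v, v ∉ S → (φ v = 0 ↔ v ∈ Lat τ c) := by
    intro v hv
    rw [hlat]
    simp only [hφ]
    rw [div_eq_zero_iff, or_iff_left hK0, sub_eq_zero, hiff _ hv]
    constructor
    · intro h
      have := L.lattice.add_mem h h2p
      have e : v - p - p + (p + p) = v := by ring
      rwa [e] at this
    · intro h
      have := L.lattice.sub_mem h h2p
      have e : v - (p + p) = v - p - p := by ring
      rwa [e] at this
  have hlatS : ∀ v ∈ Lat τ c, v ∉ S := by
    intro v hv h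
    apply hp
    have := L.lattice.sub_mem ((hlat v).1 hv) h
    have e : v - (v - p) = p := by ring
    rwa [e] at this
  have h0L : (0 : ℂ) ∈ Lat τ c := (hlat 0).2 L.lattice.zero_mem
  have h0S : (0 : ℂ) ∉ S := hlatS 0 h0L
  have hSc : IsClosed S := by
    have : Continuous fun v : ℂ => v - p := by fun_prop
    exact L.isClosed_lattice.preimage this
  have hSo : ∀ v, v ∉ S → ∀ᶠ u in 𝓝 v, u ∉ S := fun v hv => hSc.isOpen_compl.mem_nhds hv
  refine ⟨φ, S, ?_⟩
  constructor
  · have : S = (fun v : ℂ => v + p) '' (L.lattice : Set ℂ) := by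
      ext v
      constructor
      · intro h
        exact ⟨v - p, h, by ring⟩
      · rintro ⟨w, hw, rfl⟩
        change w + p - p ∈ L.lattice
        rw [add_sub_cancel_right]
        exact hw
    rw [this]
    exact (countable_lattice L).image _
  · exact hSc
  · exact hana
  · intro v hv
    exact hneg v hv
  · intro v
    simp only [hφ]
    congr 2
    rw [← L.weierstrassP_neg]
    have e : -(-v - p) = (v - p) + ((⟨p + p, h2p⟩ : L.lattice) : ℂ) := by
      change -(-v - p) = (v - p) + (p + p)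
      ring
    rw [e, L.weierstrassP_add_coe]
  · intro v ω hω hv
    have := L.lattice.add_mem hv ((hlat ω).1 hω)
    have e : v - p + ω = v + ω - p := by ring
    rwa [e] at this
  · intro v ω hω
    simp only [hφ]
    have e : v + ω - p = (v - p) + ((⟨ω, (hlat ω).1 hω⟩ : L.lattice) : ℂ) := by
      change v + ω - p = (v - p) + ω
      ring
    rw [e, L.weierstrassP_add_coe]
  · exact hode
  · exact hzero
  · exact hlatS
  · intro x
    obtain ⟨u, hu, hux⟩ := hW.surj L (1 / 3 + K * x)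
    refine ⟨u + p, ?_, ?_⟩
    · intro h
      apply hu
      change u + p - p ∈ L.lattice at h
      rwa [add_sub_cancel_right] at h
    · simp only [hφ]
      rw [add_sub_cancel_right, hux]
      field_simp
      ring
  · apply ser_of_ode hT K φ (hana 0 h0S) ((hzero 0 h0S).2 h0L)
    · filter_upwards [hSo 0 h0S] with v hv
      exact hode v hv
    · intro h
      have h3 : ∀ᶠ v in 𝓝 (0 : ℂ), v ∈ L.lattice := by
        filter_upwards [h, hSo 0 h0S] with v hv hv'
        exact (hlat v).1 ((hzero v hv').1 hv)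
      have h4 : (L.lattice : Set ℂ) ∈ 𝓝 (0 : ℂ) := h3
      have h5 : Dense ((L.lattice : Set ℂ)ᶜ) := (countable_lattice L).dense_compl ℂ
      obtain ⟨v, hv1, hv2⟩ := h5.inter_nhds_nonempty h4
      exact hv1 hv2
  · intro v hv
    have h3 : Tendsto L.weierstrassP (𝓝[≠] (v - p)) (Bornology.cobounded ℂ) := by
      apply tendsto_cobounded_of_meromorphicOrderAt_neg
      rw [L.order_weierstrassP (v - p) hv]
      decide
    have h4 : Tendsto (fun u : ℂ => u - p) (𝓝[≠] v) (𝓝[≠] (v - p)) := by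
      rw [tendsto_nhdsWithin_iff]
      constructor
      · have : Continuous fun u : ℂ => u - p := by fun_prop
        exact (this.tendsto v).mono_left nhdsWithin_le_nhds
      · filter_upwards [self_mem_nhdsWithin] with u hu
        intro h5
        exact hu (sub_left_injective (Set.mem_singleton_iff.1 h5))
    have h5 : Tendsto (fun u => ‖L.weierstrassP (u - p)‖) (𝓝[≠] v) atTop :=
      tendsto_norm_cobounded_atTop.comp (h3.comp h4)
    have h6 : Tendsto (fun u => (‖L.weierstrassP (u - p)‖ + -(1 / 3)) / ‖K‖) (𝓝[≠] v) atTop :=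
      Filter.Tendsto.atTop_div_const (norm_pos_iff.2 hK0)
        (Filter.tendsto_atTop_add_const_right _ _ h5)
    refine tendsto_atTop_mono (fun u => ?_) h6
    simp only [hφ]
    rw [norm_div]
    gcongr
    have h7 := norm_sub_norm_le (L.weierstrassP (u - p)) (1 / 3)
    have h8 : ‖(1 / 3 : ℂ)‖ = 1 / 3 := by norm_num
    rw [h8] at h7
    linarith

end Lat

theorem specLat (hW : SpecWei) (hJ : SpecJG) (hT : SpecTay) : SpecLat := by
  intro τ β hτ hj0 hj1 hβ
  have hβ0 : β ≠ 0 := by
    rintro rfl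
    norm_num at hβ
  have hβ4 : 1 - 4 * β ≠ 0 := by
    intro h
    have h1 : β = 1 / 4 := by linear_combination (-1 / 4) * h
    rw [h, h1] at hβ
    norm_num at hβ
  have hβ3 : 1 - 3 * β ≠ 0 := by
    intro h
    rw [h] at hβ
    have h1 : Jc τ * β ^ 2 * (1 - 4 * β) ≠ 0 :=
      mul_ne_zero (mul_ne_zero hj0 (pow_ne_zero 2 hβ0)) hβ4
    apply h1
    rw [hβ]; ring
  have hβ9 : 9 * β - 2 ≠ 0 := by
    intro h
    have h1 : (Jc τ - 1728) * β ^ 2 * (1 - 4 * β) = 64 * (9 * β - 2) ^ 2 := by
      linear_combination hβ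
    rw [h] at h1
    have h2 : (Jc τ - 1728) * β ^ 2 * (1 - 4 * β) ≠ 0 :=
      mul_ne_zero (mul_ne_zero (sub_ne_zero.2 hj1) (pow_ne_zero 2 hβ0)) hβ4
    apply h2
    rw [h1]; ring
  obtain ⟨hg2, hg3, hdisc, hjg⟩ := hJ.j (Lat.pair τ hτ) one_ne_zero
    (by simpa [Lat.pair] using hτ) (by simpa [Lat.pair] using hj0)
    (by simpa [Lat.pair] using hj1)
  have hq : (Lat.pair τ hτ).ω₂ / (Lat.pair τ hτ).ω₁ = τ := by simp [Lat.pair]
  rw [hq] at hjg
  set g2 := (Lat.pair τ hτ).g₂ with hg2def
  set g3 := (Lat.pair τ hτ).g₃ with hg3def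
  set g2' : ℂ := 4 * (1 / 3 - β) with hg2'
  set g3' : ℂ := 4 * β / 3 - 8 / 27 with hg3'
  have hg2'0 : g2' ≠ 0 := by
    intro h
    apply hβ3
    rw [hg2'] at h
    linear_combination (3 / 4) * h
  have hg3'0 : g3' ≠ 0 := by
    intro h
    apply hβ9
    rw [hg3'] at h
    linear_combination (27 / 4) * h
  have hjg' : Jc τ * (g2' ^ 3 - 27 * g3' ^ 2) = 1728 * g2' ^ 3 := by
    rw [hg2', hg3']
    linear_combination 16 * hβ
  have hrel : g3 ^ 2 * g2' ^ 3 = g3' ^ 2 * g2 ^ 3 := by
    have h1 : 27 * Jc τ * (g3 ^ 2 * g2' ^ 3) = 27 * Jc τ * (g3' ^ 2 * g2 ^ 3) := by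
      linear_combination (-g2' ^ 3) * hjg + g2 ^ 3 * hjg'
    exact mul_left_cancel₀ (mul_ne_zero (by norm_num) hj0) h1
  obtain ⟨c, hc⟩ := IsAlgClosed.exists_pow_nat_eq (g2' * g3 / (g3' * g2)) (n := 2) (by norm_num)
  have hc0 : c ≠ 0 := by
    rintro rfl
    have h1 : g2' * g3 / (g3' * g2) ≠ 0 :=
      div_ne_zero (mul_ne_zero hg2'0 hg3) (mul_ne_zero hg3'0 hg2)
    apply h1
    rw [← hc]; norm_num
  have hc4 : c ^ 4 * g2' = g2 := by
    have h1 : c ^ 4 = (c ^ 2) ^ 2 := by ring
    rw [h1, hc]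
    field_simp
    linear_combination hrel
  have hc6 : c ^ 6 * g3' = g3 := by
    have h1 : c ^ 6 = (c ^ 2) ^ 3 := by ring
    rw [h1, hc]
    field_simp
    linear_combination hrel
  obtain ⟨L', h1, h2, h3, h4⟩ := hJ.scale (Lat.pair τ hτ) c hc0
  have e2 : L'.g₂ = g2' := by
    have : c ^ 4 * L'.g₂ = c ^ 4 * g2' := by rw [h3, hc4]
    exact mul_left_cancel₀ (pow_ne_zero 4 hc0) this
  have e3 : L'.g₃ = g3' := by
    have : c ^ 6 * L'.g₃ = c ^ 6 * g3' := by rw [h4, hc6]
    exact mul_left_cancel₀ (pow_ne_zero 6 hc0) this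
  have h1' : L'.ω₁ = c := by rw [h1]; simp [Lat.pair]
  have h2' : L'.ω₂ = c * τ := by rw [h2]; simp [Lat.pair]
  obtain ⟨φ, S, h⟩ := Lat.ellF L' hW hT β τ c hβ0 h1' h2' e2 e3
  exact ⟨c, φ, S, hc0, h⟩

end Pool.Agent.Lib.MP_47914d_nt.Sn
end

section
/-!
Module ELLW: the elliptic function with period lattice `ℤ + ℤ w` as a quotient of theta functions
(MP_47914d_nt).
-/
set_option autoImplicit false

open Complex Filter Topology Polynomial Finset
open scoped Real

namespace Pool.Agent.Lib.MP_47914d_nt.Sn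

namespace EllWm

variable (L : PeriodPair)

/-- the numerator -/
noncomputable def num (κ e : ℂ) (b : ℂ → ℂ) (u : ℂ) : ℂ :=
  open Classical in
  if u - 1 / 2 ∈ L.lattice then κ * deriv b u ^ 2
  else κ * (b u ^ 2 * (L.weierstrassP (u - 1 / 2) - e))

lemma num_of_mem {κ e : ℂ} {b : ℂ → ℂ} {u : ℂ} (h : u - 1 / 2 ∈ L.lattice) :
    num L κ e b u = κ * deriv b u ^ 2 := by
  unfold num; rw [if_pos h]

lemma num_of_notMem {κ e : ℂ} {b : ℂ → ℂ} {u : ℂ} (h : u - 1 / 2 ∉ L.lattice) :
    num L κ e b u = κ * (b u ^ 2 * (L.weierstrassP (u - 1 / 2) - e)) := by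
  unfold num; rw [if_neg h]

/-- the zeros of `b` -/
lemma zero_b {w : ℂ} {b : ℂ → ℂ} (h1 : ∀ u, b (u + 1) = b u)
    (hw : ∀ u, b (u + w) = cexp (-(2 * π * I * u)) * b u) (hb : b (1 / 2) = 0)
    (hω1 : L.ω₁ = 1) (hω2 : L.ω₂ = w) {u : ℂ} (hu : u - 1 / 2 ∈ L.lattice) : b u = 0 := by
  obtain ⟨m, n, h⟩ := PeriodPair.mem_lattice.1 hu
  rw [hω1, hω2] at h
  have p1 : Function.Periodic b 1 := h1
  have p2 : Function.Periodic (fun u => b u = 0) w := by
    intro u
    simp only [hw, mul_eq_zero, Complex.exp_ne_zero, false_or]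
  have p1' := p1.int_mul m
  have p2' := p2.int_mul n
  have e1 : u = (1 / 2 + n * w) + m * 1 := by linear_combination -h
  rw [e1, p1']
  have h2 := p2' (1 / 2)
  simp only [eq_iff_iff] at h2
  exact h2.2 hb

lemma differentiable_num {w κ e : ℂ} {b : ℂ → ℂ} (hd : Differentiable ℂ b)
    (h1 : ∀ u, b (u + 1) = b u)
    (hw : ∀ u, b (u + w) = cexp (-(2 * π * I * u)) * b u) (hb : b (1 / 2) = 0)
    (hω1 : L.ω₁ = 1) (hω2 : L.ω₂ = w) : Differentiable ℂ (num L κ e b) := by
  intro c
  by_cases hc : c - 1 / 2 ∈ L.lattice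
  · have hbc : b c = 0 := zero_b L h1 hw hb hω1 hω2 hc
    set l : L.lattice := ⟨c - 1 / 2, hc⟩ with hl
    have hl' : (l : ℂ) = c - 1 / 2 := rfl
    have hds : DifferentiableAt ℂ (dslope b c) c := by
      have h2 := (Complex.differentiableOn_dslope (s := Set.univ) (c := c) (f := b)
        univ_mem).2 hd.differentiableOn
      exact h2.differentiableAt univ_mem
    have hex : DifferentiableAt ℂ (fun u : ℂ => L.weierstrassPExcept l (u - 1 / 2)) c := by
      have h2 : AnalyticAt ℂ (L.weierstrassPExcept (l : ℂ)) (c - 1 / 2) :=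
        L.analyticAt_weierstrassPExcept _
      exact (h2.fun_comp (f := fun u : ℂ => u - 1 / 2) (by fun_prop)).differentiableAt
    have hG : DifferentiableAt ℂ (fun u => κ * ((dslope b c u) ^ 2 + b u ^ 2 *
        (L.weierstrassPExcept l (u - 1 / 2) - 1 / (l : ℂ) ^ 2 - e))) c := by
      have hbd : DifferentiableAt ℂ b c := hd c
      fun_prop
    refine hG.congr_of_eventuallyEq ?_
    have hnear : ∀ᶠ u in 𝓝 c, u - 1 / 2 ∈ L.lattice → u = c := by
      have h2 : (((L.lattice : Set ℂ) \ {c - 1 / 2})ᶜ) ∈ 𝓝 (c - 1 / 2) :=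
        L.compl_lattice_sdiff_singleton_mem_nhds _
      have h3 : ContinuousAt (fun u : ℂ => u - 1 / 2) c := by fun_prop
      filter_upwards [h3.eventually h2] with u hu hul
      by_contra hne
      apply hu
      refine ⟨hul, ?_⟩
      intro h
      apply hne
      have h4 : u - 1 / 2 = c - 1 / 2 := h
      exact sub_left_injective h4
    filter_upwards [hnear] with u hu
    by_cases huc : u = c
    · subst huc
      rw [num_of_mem L hc, dslope_same, hbc]
      ring
    · have hul : u - 1 / 2 ∉ L.lattice := fun h => huc (hu h)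
      rw [num_of_notMem L hul, dslope_of_ne _ huc, slope_def_field, hbc]
      have h2 := L.weierstrassPExcept_add l (u - 1 / 2)
      rw [← h2, hl']
      have h3 : u - c ≠ 0 := sub_ne_zero.2 huc
      have h4 : u - 1 / 2 - (c - 1 / 2) = u - c := by ring
      rw [h4]
      field_simp
      ring
  · have hev := Lat.eventually_sub_notMem L hc
    have hG : DifferentiableAt ℂ
        (fun u => κ * (b u ^ 2 * (L.weierstrassP (u - 1 / 2) - e))) c := by
      have h2 : DifferentiableAt ℂ (fun u : ℂ => L.weierstrassP (u - 1 / 2)) c :=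
        ((Lat.hasDerivAt_wp L hc).comp_sub_const c (1 / 2)).differentiableAt
      have hbd : DifferentiableAt ℂ b c := hd c
      fun_prop
    refine hG.congr_of_eventuallyEq ?_
    filter_upwards [hev] with u hu
    rw [num_of_notMem L hu]

lemma num_one {κ e : ℂ} {b : ℂ → ℂ} (h1 : ∀ u, b (u + 1) = b u) (hω1 : L.ω₁ = 1) (u : ℂ) :
    num L κ e b (u + 1) = num L κ e b u := by
  have h1L : (1 : ℂ) ∈ L.lattice := by rw [← hω1]; exact L.ω₁_mem_lattice
  have hiff : u + 1 - 1 / 2 ∈ L.lattice ↔ u - 1 / 2 ∈ L.lattice := by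
    have e1 : u + 1 - 1 / 2 = (u - 1 / 2) + 1 := by ring
    rw [e1]
    exact Submodule.add_mem_iff_left _ h1L
  by_cases h : u - 1 / 2 ∈ L.lattice
  · rw [num_of_mem L h, num_of_mem L (hiff.2 h)]
    have h2 : deriv b (u + 1) = deriv b u := by
      rw [← deriv_comp_add_const]
      congr 1
      funext x
      exact h1 x
    rw [h2]
  · rw [num_of_notMem L h, num_of_notMem L (fun h' => h (hiff.1 h')), h1]
    have e1 : u + 1 - 1 / 2 = (u - 1 / 2) + ((⟨1, h1L⟩ : L.lattice) : ℂ) := by
      change u + 1 - 1 / 2 = (u - 1 / 2) + 1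
      ring
    rw [e1, L.weierstrassP_add_coe]

lemma num_w {w κ e : ℂ} {b : ℂ → ℂ} (hd : Differentiable ℂ b) (h1 : ∀ u, b (u + 1) = b u)
    (hw : ∀ u, b (u + w) = cexp (-(2 * π * I * u)) * b u) (hb : b (1 / 2) = 0)
    (hω1 : L.ω₁ = 1) (hω2 : L.ω₂ = w) (u : ℂ) :
    num L κ e b (u + w) = cexp (-(4 * π * I * u)) * num L κ e b u := by
  have hwL : w ∈ L.lattice := by rw [← hω2]; exact L.ω₂_mem_lattice
  have hiff : u + w - 1 / 2 ∈ L.lattice ↔ u - 1 / 2 ∈ L.lattice := by
    have e1 : u + w - 1 / 2 = (u - 1 / 2) + w := by ring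
    rw [e1]
    exact Submodule.add_mem_iff_left _ hwL
  have hexp : cexp (-(4 * π * I * u)) = cexp (-(2 * π * I * u)) ^ 2 := by
    rw [← Complex.exp_nat_mul]
    congr 1
    push_cast
    ring
  by_cases h : u - 1 / 2 ∈ L.lattice
  · rw [num_of_mem L h, num_of_mem L (hiff.2 h)]
    have h2 : deriv b (u + w) = cexp (-(2 * π * I * u)) * deriv b u := by
      rw [← deriv_comp_add_const]
      have e1 : (fun x => b (x + w)) = fun x => cexp (-(2 * π * I * x)) * b x := by
        funext x
        exact hw x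
      rw [e1]
      have e2 : HasDerivAt (fun x : ℂ => cexp (-(2 * π * I * x)))
          (cexp (-(2 * π * I * u)) * (-(2 * π * I))) u := by
        have e3 : HasDerivAt (fun x : ℂ => -(2 * π * I * x)) (-(2 * π * I)) u := by
          simpa using ((hasDerivAt_id u).const_mul (2 * π * I)).fun_neg
        exact e3.cexp
      have e4 := e2.mul (hd u).hasDerivAt
      rw [zero_b L h1 hw hb hω1 hω2 h, mul_zero, zero_add] at e4
      exact e4.deriv
    rw [h2, hexp]
    ring
  · rw [num_of_notMem L h, num_of_notMem L (fun h' => h (hiff.1 h')), hw]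
    have e1 : u + w - 1 / 2 = (u - 1 / 2) + ((⟨w, hwL⟩ : L.lattice) : ℂ) := by
      change u + w - 1 / 2 = (u - 1 / 2) + w
      ring
    rw [e1, L.weierstrassP_add_coe, hexp]
    ring

end EllWm

theorem specEllW (hW : SpecWei) (hJ : SpecJG) (hT : SpecTay) (hTh : SpecTheta) : SpecEllW := by
  intro w hw hj0 hj1
  obtain ⟨b, hbd, hb1, hbw, hbh, hb0⟩ := hTh w hw
  set L : PeriodPair := Lat.pair w hw with hL
  have hω1 : L.ω₁ = 1 := rfl
  have hω2 : L.ω₂ = w := rfl
  obtain ⟨hg2, hg3, hdisc, hjg⟩ := hJ.j L (by rw [hω1]; exact one_ne_zero)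
    (by rw [hω1, hω2, div_one]; exact hw) (by rw [hω1, hω2, div_one]; exact hj0)
    (by rw [hω1, hω2, div_one]; exact hj1)
  rw [hω1, hω2, div_one] at hjg
  have hp : (1 / 2 : ℂ) ∉ L.lattice := by
    have := L.ω₁_div_two_notMem_lattice
    rwa [hω1] at this
  have h1L : (1 : ℂ) ∈ L.lattice := by rw [← hω1]; exact L.ω₁_mem_lattice
  set e : ℂ := L.weierstrassP (1 / 2) with he
  have hder0 : L.derivWeierstrassP (1 / 2) = 0 := by
    have h1 := L.derivWeierstrassP_neg (1 / 2)
    have h2 := L.derivWeierstrassP_add_coe (-(1 / 2)) ⟨1, h1L⟩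
    have e1 : (-(1 / 2) : ℂ) + ((⟨1, h1L⟩ : L.lattice) : ℂ) = 1 / 2 := by
      change (-(1 / 2) : ℂ) + 1 = 1 / 2
      norm_num
    rw [e1, h1] at h2
    linear_combination (1 / 2) * h2
  have hcub : 4 * e ^ 3 - L.g₂ * e - L.g₃ = 0 := by
    have h1 := L.derivWeierstrassP_sq (1 / 2) hp
    rw [hder0] at h1
    rw [he]
    linear_combination -h1
  have he0 : e ≠ 0 := by
    intro h
    rw [h] at hcub
    apply hg3
    linear_combination -hcub
  have hder : 12 * e ^ 2 - L.g₂ ≠ 0 := by
    intro h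
    apply hdisc
    have e2 : L.g₂ = 12 * e ^ 2 := by linear_combination -h
    have e3 : L.g₃ = -8 * e ^ 3 := by
      rw [e2] at hcub
      linear_combination -hcub
    rw [e2, e3]
    ring
  obtain ⟨hiff, K, hK0, hK⟩ := hW.root L e (1 / 2) hp rfl hcub hder
  have hK4 := Lat.constK L hW hcub hiff hK0 hK
  obtain ⟨Ω, hΩ⟩ := IsAlgClosed.exists_pow_nat_eq (3 * e) (n := 2) (by norm_num)
  have hΩ0 : Ω ≠ 0 := by
    rintro rfl
    apply he0
    have : (3 : ℂ) * e = 0 := by rw [← hΩ]; norm_num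
    linear_combination (1 / 3) * this
  set β : ℂ := K / (9 * e ^ 2) with hβ
  set κ : ℂ := 3 * e / K with hκ
  have hneg : (0 : ℂ) - 1 / 2 ∉ L.lattice := by
    intro h
    apply hp
    have := L.lattice.neg_mem h
    simpa using this
  have hY : ∀ u, u - 1 / 2 ∉ L.lattice →
      HasDerivAt (fun u => κ * (L.weierstrassP (u - 1 / 2) - e))
        (κ * L.derivWeierstrassP (u - 1 / 2)) u := fun u hu =>
    (((Lat.hasDerivAt_wp L hu).comp_sub_const u (1 / 2)).sub_const e).const_mul κ
  have hana : AnalyticAt ℂ (fun v : ℂ => κ * (L.weierstrassP (v / Ω - 1 / 2) - e)) 0 := by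
    have h3 : AnalyticAt ℂ L.weierstrassP (0 / Ω - 1 / 2) := by
      rw [zero_div]
      exact L.analyticOnNhd_weierstrassP _ hneg
    have h4 : AnalyticAt ℂ (fun v : ℂ => L.weierstrassP (v / Ω - 1 / 2)) 0 :=
      h3.fun_comp (f := fun v : ℂ => v / Ω - 1 / 2)
        ((analyticAt_id.div analyticAt_const hΩ0).sub analyticAt_const)
    exact analyticAt_const.mul (h4.sub analyticAt_const)
  have hdivc : ContinuousAt (fun v : ℂ => v / Ω) 0 := by fun_prop
  have hdiv0 : (fun v : ℂ => v / Ω) 0 = 0 := zero_div Ω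
  have hser := Lat.ser_of_ode hT β (fun v : ℂ => κ * (L.weierstrassP (v / Ω - 1 / 2) - e)) hana
    (by
      rw [zero_div, zero_sub, L.weierstrassP_neg, ← he]
      ring)
    (by
      have h1 : ∀ᶠ v in 𝓝 (0 : ℂ), v / Ω - 1 / 2 ∉ L.lattice := by
        have h2 := Lat.eventually_sub_notMem L hneg
        rw [← hdiv0] at h2
        exact hdivc.eventually h2
      filter_upwards [h1] with v hv
      have h2 : HasDerivAt (fun v : ℂ => v / Ω) (1 / Ω) v := (hasDerivAt_id v).div_const Ω
      have h3 := (hY (v / Ω) hv).comp v h2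
      have h4 : HasDerivAt (fun v : ℂ => κ * (L.weierstrassP (v / Ω - 1 / 2) - e))
        (κ * L.derivWeierstrassP (v / Ω - 1 / 2) * (1 / Ω)) v := h3
      rw [h4.deriv]
      have h5 := L.derivWeierstrassP_sq (v / Ω - 1 / 2) hv
      set X := L.weierstrassP (v / Ω - 1 / 2) with hX
      set X' := L.derivWeierstrassP (v / Ω - 1 / 2) with hX'
      have h6 : X' ^ 2 = 4 * (X - e) ^ 3 + 12 * e * (X - e) ^ 2 + 4 * K * (X - e) := by
        rw [h5, hK4]
        linear_combination hcub
      have h7 : (κ * X' * (1 / Ω)) ^ 2 = κ ^ 2 * X' ^ 2 / Ω ^ 2 := by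
        field_simp
      rw [h7, h6, hΩ, hκ, hβ]
      field_simp
      ring)
    (by
      intro h
      have h1 : ∀ᶠ u in 𝓝 (0 : ℂ), κ * (L.weierstrassP (u - 1 / 2) - e) = 0 := by
        have hc : ContinuousAt (fun u : ℂ => Ω * u) 0 := by fun_prop
        have h2 : ∀ᶠ v in 𝓝 ((fun u : ℂ => Ω * u) 0),
            κ * (L.weierstrassP (v / Ω - 1 / 2) - e) = 0 := by
          have : (fun u : ℂ => Ω * u) 0 = 0 := mul_zero Ω
          rw [this]
          exact h
        filter_upwards [hc.eventually h2] with u hu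
        rwa [mul_div_cancel_left₀ _ hΩ0] at hu
      have hκ0 : κ ≠ 0 := div_ne_zero (mul_ne_zero (by norm_num) he0) hK0
      have h3 : ∀ᶠ v in 𝓝 (0 : ℂ), v ∈ L.lattice := by
        filter_upwards [h1, Lat.eventually_sub_notMem L hneg] with u hu hu'
        have h4 : L.weierstrassP (u - 1 / 2) = e := by
          have := (mul_eq_zero.1 hu).resolve_left hκ0
          exact sub_eq_zero.1 this
        have h5 := (hiff _ hu').1 h4
        have h6 := L.lattice.add_mem h5 h1L
        have e1 : u - 1 / 2 - 1 / 2 + 1 = u := by ring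
        rwa [e1] at h6
      have h4 : (L.lattice : Set ℂ) ∈ 𝓝 (0 : ℂ) := h3
      have h5 : Dense ((L.lattice : Set ℂ)ᶜ) := (Lat.countable_lattice L).dense_compl ℂ
      obtain ⟨v, hv1, hv2⟩ := h5.inter_nhds_nonempty h4
      exact hv1 hv2)
  have hexp : ∀ u : ℂ, cexp (-(4 * π * I * u)) = cexp (-(2 * π * I * u)) ^ 2 := by
    intro u
    rw [← Complex.exp_nat_mul]
    congr 1
    push_cast
    ring
  refine ⟨β, Ω, EllWm.num L κ e b, fun u => b u ^ 2, ?_⟩
  constructor
  · exact EllWm.differentiable_num L hbd hb1 hbw hbh hω1 hω2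
  · exact hbd.pow 2
  · exact pow_ne_zero 2 hb0
  · exact hΩ0
  · exact EllWm.num_one L hb1 hω1
  · intro u
    simp only [hb1]
  · exact EllWm.num_w L hbd hb1 hbw hbh hω1 hω2
  · intro u
    simp only [hbw, hexp]
    ring
  · have hc : ContinuousAt (fun u : ℂ => Ω * u) 0 := by fun_prop
    have h2 : ∀ᶠ v in 𝓝 ((fun u : ℂ => Ω * u) 0),
        HasSum (fun n => PowerSeries.coeff n (phi β) * v ^ n)
          (κ * (L.weierstrassP (v / Ω - 1 / 2) - e)) := by
      have : (fun u : ℂ => Ω * u) 0 = 0 := mul_zero Ω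
      rw [this]
      exact hser
    have h3 : ∀ᶠ u in 𝓝 (0 : ℂ), b u ≠ 0 := (hbd 0).continuousAt.eventually_ne hb0
    filter_upwards [hc.eventually h2, h3, Lat.eventually_sub_notMem L hneg] with u hu hbu hul
    rw [mul_div_cancel_left₀ _ hΩ0] at hu
    rw [EllWm.num_of_notMem L hul]
    have e1 : κ * (b u ^ 2 * (L.weierstrassP (u - 1 / 2) - e)) / b u ^ 2 =
        κ * (L.weierstrassP (u - 1 / 2) - e) := by
      field_simp
    rw [e1]
    exact hu
  · have e2 : L.g₂ = 12 * e ^ 2 * (1 - 3 * β) := by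
      rw [hβ]
      field_simp
      linear_combination 9 * hK4
    have e3 : L.g₃ = 4 * e ^ 3 * (9 * β - 2) := by
      rw [e2] at hcub
      linear_combination -hcub
    rw [e2, e3] at hjg
    have e4 : e ^ 6 * (Jc w * β ^ 2 * (1 - 4 * β)) = e ^ 6 * (256 * (1 - 3 * β) ^ 3) := by
      linear_combination (1 / 11664) * hjg
    exact mul_left_cancel₀ (pow_ne_zero 6 he0) e4

end Pool.Agent.Lib.MP_47914d_nt.Sn
end
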