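import Pool.Agent.Lib.MP_47914d_nt.Liouville2

/-!
Schneider's theorem over Liouville fields (MP_47914d_nt): definitions and module specifications.
-/

set_option autoImplicit false

open Complex Filter Topology Polynomial Finset
open scoped Real

namespace Pool.Agent.Lib.MP_47914d_nt.Sn

/-! ### Algebraic numbers of bounded size -/

/-- `x` is a zero of a nonzero integer polynomial of degree at most `D` with coefficients of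
absolute value at most `exp D`. -/
def AlgB (x : ℂ) (D : ℕ) : Prop :=
  ∃ F : ℤ[X], F ≠ 0 ∧ aeval x F = 0 ∧ F.natDegree ≤ D ∧ ∀ i, |(F.coeff i : ℝ)| ≤ Real.exp D

/-- LIOU: Liouville inequality, uniform in the polynomial. -/
def SpecLiou : Prop :=
  ∃ c : ℕ, ∀ (D N : ℕ) (S : ℝ), 2 ≤ D → 0 ≤ S → ∀ α β : ℂ, AlgB α D → AlgB β D →
    ∀ P : MvPolynomial (Fin 2) ℤ, P.totalDegree ≤ N → (coefSum P : ℝ) ≤ Real.exp S →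
      MvPolynomial.aeval ![α, β] P = 0 ∨
        Real.exp (-((D : ℝ) ^ c * (N + S + 1))) ≤ ‖MvPolynomial.aeval ![α, β] P‖

/-- ROOT: zeros of polynomials with coefficients of bounded size. -/
def SpecRoot : Prop :=
  ∀ (N : ℕ) (P : MvPolynomial (Option (Fin N)) ℤ), ∃ c : ℕ, ∀ H : ℕ, 2 ≤ H →
    ∀ ξ : Fin N → ℂ, (∀ i, AlgB (ξ i) H) → ∀ ζ : ℂ,
      MvPolynomial.aeval (fun o : Option (Fin N) => o.elim ζ ξ) P = 0 →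
      (∃ y : ℂ, MvPolynomial.aeval (fun o : Option (Fin N) => o.elim y ξ) P ≠ 0) →
      AlgB ζ (H ^ c)

/-- APPR: numbers algebraic over `ℚ(x)` are approximated when `x` is approximated. -/
def SpecAppr : Prop :=
  ∀ (N : ℕ) (x : Fin N → ℂ), AlgebraicIndependent ℚ x → ∀ s : ℂ,
    ¬ AlgebraicIndependent ℚ (fun o : Option (Fin N) => o.elim s x) →
    ∃ c : ℕ, 1 ≤ c ∧ ∃ r : ℝ, 0 < r ∧ ∀ H : ℕ, 2 ≤ H → ∀ ξ : Fin N → ℂ, (∀ i, AlgB (ξ i) H) →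
      ∀ δ : ℝ, δ < r → 0 ≤ δ → (∀ i, ‖x i - ξ i‖ ≤ δ) →
        ∃ ζ : ℂ, AlgB ζ (H ^ c) ∧ ‖s - ζ‖ ^ c ≤ c * δ

/-! ### The formal elliptic function -/

/-- Integral polynomials with `φ = ∑ Cp k (β) / (2 k)! * v ^ (2 k)`. -/
noncomputable def Cp : ℕ → ℤ[X]
  | 0 => 0
  | 1 => 2
  | (k + 2) => 4 * Cp (k + 1) + 6 * X * ∑ i : Fin (k + 2),
      ((2 * (k + 1)).choose (2 * (i : ℕ)) : ℤ[X]) * Cp i * Cp (k + 1 - i)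
decreasing_by
  all_goals omega

/-- The power series solution of `φ'' = 2 + 4 φ + 6 β φ ^ 2`, `φ(0) = φ'(0) = 0`. -/
noncomputable def phi (β : ℂ) : PowerSeries ℂ :=
  PowerSeries.mk fun n => if Even n then aeval β (Cp (n / 2)) / (n.factorial : ℂ) else 0

/-- The power series of `P(φ(v), φ(x v))`, `P = ∑ p i j X ^ i Y ^ j`, `i, j ≤ L`. -/
noncomputable def gamS (L : ℕ) (p : ℕ → ℕ → ℤ) (β x : ℂ) : PowerSeries ℂ :=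
  ∑ i ∈ range (L + 1), ∑ j ∈ range (L + 1),
    PowerSeries.C (p i j : ℂ) * phi β ^ i * PowerSeries.rescale x (phi β) ^ j

/-- The Taylor coefficients of `P(φ(v), φ(x v))`. -/
noncomputable def gam (L : ℕ) (p : ℕ → ℕ → ℤ) (β x : ℂ) (t : ℕ) : ℂ :=
  PowerSeries.coeff t (gamS L p β x)

/-- TAY: the formal elliptic function. -/
structure SpecTay : Prop where
  ode2 : ∀ β : ℂ, PowerSeries.derivative ℂ (PowerSeries.derivative ℂ (phi β)) =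
    2 + 4 * phi β + PowerSeries.C (6 * β) * phi β ^ 2
  ode1 : ∀ β : ℂ, PowerSeries.derivative ℂ (phi β) ^ 2 =
    4 * phi β * (1 + phi β + PowerSeries.C β * phi β ^ 2)
  uniq : ∀ (β : ℂ) (f : PowerSeries ℂ), PowerSeries.coeff 0 f = 0 → PowerSeries.coeff 1 f = 0 →
    PowerSeries.derivative ℂ (PowerSeries.derivative ℂ f) =
      2 + 4 * f + PowerSeries.C (6 * β) * f ^ 2 → f = phi β
  bound : ∀ (β : ℂ) (i n : ℕ), ‖PowerSeries.coeff n (phi β ^ i)‖ ≤ (2 * (1 + 2 * ‖β‖)) ^ n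
  poly : ∀ (L : ℕ) (P0 : ℝ) (p : ℕ → ℕ → ℤ), (∀ i j, |(p i j : ℝ)| ≤ P0) → ∀ t : ℕ,
    ∃ Q : MvPolynomial (Fin 2) ℤ, Q.totalDegree ≤ 2 * t ∧
      (coefSum Q : ℝ) ≤ (L + 1) ^ 2 * P0 * (t.factorial * (t + 1) * 6 ^ t) ∧
      ∀ β x : ℂ, MvPolynomial.aeval ![β, x] Q = t.factorial * gam L p β x t
  size : ∀ (L : ℕ) (P0 M : ℝ) (p : ℕ → ℕ → ℤ) (t : ℕ) (β x : ℂ), (∀ i j, |(p i j : ℝ)| ≤ P0) →
    1 ≤ M → ‖β‖ ≤ M → ‖x‖ ≤ M → ‖gam L p β x t‖ ≤ (L + 1) ^ 2 * P0 * (12 * M ^ 2) ^ t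
  lip : ∀ (L : ℕ) (P0 M : ℝ) (p : ℕ → ℕ → ℤ) (t : ℕ) (β x β' x' : ℂ),
    (∀ i j, |(p i j : ℝ)| ≤ P0) → 1 ≤ M → ‖β‖ ≤ M → ‖x‖ ≤ M → ‖β'‖ ≤ M → ‖x'‖ ≤ M →
    ‖gam L p β x t - gam L p β' x' t‖ ≤
      (L + 1) ^ 2 * P0 * (100 * M ^ 2) ^ t * (‖β - β'‖ + ‖x - x'‖)

/-- BETA: the algebraic parameter. -/
structure SpecBeta : Prop where
  alg : ∃ c : ℕ, ∀ D : ℕ, 2 ≤ D → ∀ η β : ℂ, AlgB η D →
    η * β ^ 2 * (1 - 4 * β) = 256 * (1 - 3 * β) ^ 3 → AlgB β (D ^ c)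
  near : ∀ η₀ β₀ : ℂ, η₀ ≠ 1728 → η₀ * β₀ ^ 2 * (1 - 4 * β₀) = 256 * (1 - 3 * β₀) ^ 3 →
    ∃ C r : ℝ, 0 < C ∧ 0 < r ∧ ∀ η : ℂ, ‖η - η₀‖ < r →
      ∃ β : ℂ, η * β ^ 2 * (1 - 4 * β) = 256 * (1 - 3 * β) ^ 3 ∧ ‖β - β₀‖ ^ 3 ≤ C * ‖η - η₀‖

/-- SIEG: the auxiliary polynomial. -/
def SpecSieg : Prop :=
  ∀ M : ℕ, 1 ≤ M → ∃ c : ℕ, ∀ D L T : ℕ, 2 ≤ D → 1 ≤ T → D ^ c * T ≤ L ^ 2 →
    ∀ β x : ℂ, ‖β‖ ≤ M → ‖x‖ ≤ M → AlgB β D → AlgB x D →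
      ∃ p : ℕ → ℕ → ℤ, (∃ i j, i ≤ L ∧ j ≤ L ∧ p i j ≠ 0) ∧
        (∀ i j, |(p i j : ℝ)| ≤ Real.exp ((D : ℝ) ^ c * T * (1 + Real.log L))) ∧
        ∀ t < T, gam L p β x t = 0

/-! ### Weierstrass functions -/

/-- WEI: values of the Weierstrass function. -/
structure SpecWei : Prop where
  surj : ∀ (L : PeriodPair) (a : ℂ), ∃ u, u ∉ L.lattice ∧ L.weierstrassP u = a
  root : ∀ (L : PeriodPair) (e p : ℂ), p ∉ L.lattice → L.weierstrassP p = e →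
    4 * e ^ 3 - L.g₂ * e - L.g₃ = 0 → 12 * e ^ 2 - L.g₂ ≠ 0 →
    (∀ u, u ∉ L.lattice → (L.weierstrassP u = e ↔ u - p ∈ L.lattice)) ∧
    ∃ K : ℂ, K ≠ 0 ∧ ∀ u, u ∉ L.lattice → u - p ∉ L.lattice →
      (L.weierstrassP u - e) * (L.weierstrassP (u - p) - e) = K

/-- JG: the Klein invariant in terms of the invariants of a period pair. -/
structure SpecJG : Prop where
  j : ∀ L : PeriodPair, L.ω₁ ≠ 0 → 0 < (L.ω₂ / L.ω₁).im → Jc (L.ω₂ / L.ω₁) ≠ 0 →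
    Jc (L.ω₂ / L.ω₁) ≠ 1728 →
    L.g₂ ≠ 0 ∧ L.g₃ ≠ 0 ∧ L.g₂ ^ 3 - 27 * L.g₃ ^ 2 ≠ 0 ∧
      Jc (L.ω₂ / L.ω₁) * (L.g₂ ^ 3 - 27 * L.g₃ ^ 2) = 1728 * L.g₂ ^ 3
  scale : ∀ (L : PeriodPair) (c : ℂ), c ≠ 0 → ∃ L' : PeriodPair, L'.ω₁ = c * L.ω₁ ∧
    L'.ω₂ = c * L.ω₂ ∧ c ^ 4 * L'.g₂ = L.g₂ ∧ c ^ 6 * L'.g₃ = L.g₃

/-- The lattice `c (ℤ + ℤ τ)`. -/
def Lat (τ c : ℂ) : Set ℂ := {v | ∃ m n : ℤ, v = c * (m + n * τ)}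

/-- An elliptic function `φ` with `φ' ^ 2 = 4 φ (1 + φ + β φ ^ 2)`, with period lattice
`c (ℤ + ℤ τ)`, analytic outside of `S`. -/
structure EllF (β τ c : ℂ) (φ : ℂ → ℂ) (S : Set ℂ) : Prop where
  count : S.Countable
  closed : IsClosed S
  ana : ∀ v, v ∉ S → AnalyticAt ℂ φ v
  neg : ∀ v, v ∈ S → -v ∈ S
  even : ∀ v, φ (-v) = φ v
  perS : ∀ v, ∀ ω ∈ Lat τ c, v ∈ S → v + ω ∈ S
  per : ∀ v, ∀ ω ∈ Lat τ c, φ (v + ω) = φ v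
  ode : ∀ v, v ∉ S → deriv φ v ^ 2 = 4 * φ v * (1 + φ v + β * φ v ^ 2)
  zero : ∀ v, v ∉ S → (φ v = 0 ↔ v ∈ Lat τ c)
  latS : ∀ v ∈ Lat τ c, v ∉ S
  surj : ∀ x : ℂ, ∃ v, v ∉ S ∧ φ v = x
  ser : ∀ᶠ v in 𝓝 (0 : ℂ), HasSum (fun n => PowerSeries.coeff n (phi β) * v ^ n) (φ v)
  pole : ∀ v ∈ S, Tendsto (fun u => ‖φ u‖) (𝓝[≠] v) atTop

/-- LAT: existence of `φ` for the parameter `β`. -/
def SpecLat : Prop :=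
  ∀ τ β : ℂ, 0 < τ.im → Jc τ ≠ 0 → Jc τ ≠ 1728 →
    Jc τ * β ^ 2 * (1 - 4 * β) = 256 * (1 - 3 * β) ^ 3 →
    ∃ (c : ℂ) (φ : ℂ → ℂ) (S : Set ℂ), c ≠ 0 ∧ EllF β τ c φ S

/-- THETA: a theta function vanishing at `1/2` and not at `0`. -/
def SpecTheta : Prop :=
  ∀ w : ℂ, 0 < w.im → ∃ b : ℂ → ℂ, Differentiable ℂ b ∧ (∀ u, b (u + 1) = b u) ∧
    (∀ u, b (u + w) = cexp (-(2 * π * I * u)) * b u) ∧ b (1 / 2) = 0 ∧ b 0 ≠ 0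

/-- `A / B` is an elliptic function with period lattice `ℤ + ℤ w`, equal to `φ(Ω u)` near `0`. -/
structure EllW (w β Ω : ℂ) (A B : ℂ → ℂ) : Prop where
  dA : Differentiable ℂ A
  dB : Differentiable ℂ B
  B0 : B 0 ≠ 0
  Om : Ω ≠ 0
  A1 : ∀ u, A (u + 1) = A u
  B1 : ∀ u, B (u + 1) = B u
  Aw : ∀ u, A (u + w) = cexp (-(4 * π * I * u)) * A u
  Bw : ∀ u, B (u + w) = cexp (-(4 * π * I * u)) * B u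
  ser : ∀ᶠ u in 𝓝 (0 : ℂ),
    HasSum (fun n => PowerSeries.coeff n (phi β) * (Ω * u) ^ n) (A u / B u)
  j : Jc w * β ^ 2 * (1 - 4 * β) = 256 * (1 - 3 * β) ^ 3

/-- ELLW: existence. -/
def SpecEllW : Prop :=
  ∀ w : ℂ, 0 < w.im → Jc w ≠ 0 → Jc w ≠ 1728 → ∃ (β Ω : ℂ) (A B : ℂ → ℂ), EllW w β Ω A B

/-! ### Analytic estimates -/

/-- SCHW: the Schwarz lemma for periodic functions with small Taylor coefficients. -/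
def SpecSchw : Prop :=
  ∀ (G : ℂ → ℂ) (T : ℕ) (R M ε : ℝ), Differentiable ℂ G → (∀ u, G (u + 1) = G u) → 1 ≤ R →
    0 ≤ ε → (∀ u : ℂ, |u.im| = R → ‖G u‖ ≤ M) →
    (∀ t < T, ‖iteratedDeriv t G 0 / t.factorial‖ ≤ ε) →
    ‖iteratedDeriv T G 0 / T.factorial‖ ≤
      Real.exp (10 * T) * (M * Real.exp (-(π * R * T)) + ε * Real.exp (π * R * T))

/-- AN: upper bound for the first large Taylor coefficient. -/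
def SpecAn : Prop :=
  ∀ (w β Ω : ℂ) (A B : ℂ → ℂ), 0 < w.im → EllW w β Ω A B → ∃ C : ℝ, 1 ≤ C ∧
    ∀ (L T : ℕ) (p : ℕ → ℕ → ℤ) (P0 ε R : ℝ), 1 ≤ P0 → 0 ≤ ε → 1 ≤ R →
      (∀ i j, |(p i j : ℝ)| ≤ P0) → (∀ t < T, ‖gam L p β w t‖ ≤ ε) →
      ‖gam L p β w T‖ ≤ Real.exp (C * (T + L + 1)) *
        (P0 * Real.exp (C * L * R ^ 2 - π * R * T) + ε * Real.exp (C * T * R))

/-! ### The zero estimate -/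

/-- ZALG: a nonzero polynomial combination in one variable (resultant). -/
def SpecZalg : Prop :=
  ∀ (P Q : MvPolynomial (Fin 2) ℂ) (d : ℕ), Irreducible P → ¬ P ∣ Q →
    P.totalDegree ≤ d → Q.totalDegree ≤ 2 * d + 1 → MvPolynomial.pderiv 1 P ≠ 0 →
    ∃ (U V : MvPolynomial (Fin 2) ℂ) (R : ℂ[X]), R ≠ 0 ∧ R.natDegree ≤ 6 * d ^ 2 ∧
      U * P + V * Q = R.toMvPolynomial (0 : Fin 2)

/-- ZERO: the zero estimate. -/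
def SpecZero : Prop :=
  ∀ (β τ c : ℂ) (φ : ℂ → ℂ) (S : Set ℂ), 0 < τ.im → c ≠ 0 → EllF β τ c φ S →
    ∀ (ξ : ℂ) (K L : ℕ) (p : ℕ → ℕ → ℤ), ξ.im ≠ 0 → ‖ξ‖ ≤ K → ‖τ‖ ≤ K → 1 ≤ K * τ.im → 1 ≤ L →
      (∃ i j, i ≤ L ∧ j ≤ L ∧ p i j ≠ 0) → (∀ t ≤ 64 * L ^ 2, gam L p β ξ t = 0) →
      QuadHeight τ (4 * L ^ 2 * K ^ 4)

/-! ### The modular side and the main theorem -/

/-- LOC: local inverse of the Klein invariant. -/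
structure SpecLoc : Prop where
  cm : ∀ w : ℂ, 0 < w.im →
    (¬ ∃ a b c : ℤ, (a ≠ 0 ∨ b ≠ 0 ∨ c ≠ 0) ∧ (a : ℂ) * w ^ 2 + (b : ℂ) * w + (c : ℂ) = 0) →
    Jc w ≠ 0 ∧ Jc w ≠ 1728
  inv : ∀ w : ℂ, 0 < w.im → Jc w ≠ 0 → Jc w ≠ 1728 → ∃ C r : ℝ, 0 < C ∧ 0 < r ∧
    ∀ η : ℂ, ‖η - Jc w‖ < r → ∃ τ : ℂ, 0 < τ.im ∧ Jc τ = η ∧ ‖τ - w‖ ≤ C * ‖η - Jc w‖

/-- QS: quantitative form of Schneider's theorem. -/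
def SpecQS : Prop :=
  ∀ w : ℂ, 0 < w.im →
    (¬ ∃ a b c : ℤ, (a ≠ 0 ∨ b ≠ 0 ∨ c ≠ 0) ∧ (a : ℂ) * w ^ 2 + (b : ℂ) * w + (c : ℂ) = 0) →
    ∃ c : ℕ, ∀ D : ℕ, 2 ≤ D → ∀ ξ η : ℂ, AlgB ξ D → AlgB η D → ∀ ε : ℝ,
      ε ≤ Real.exp (-(D : ℝ) ^ c) → ‖w - ξ‖ ≤ ε → ‖Jc w - η‖ ≤ ε →
      ∃ τ : ℂ, ‖τ - w‖ ≤ (D : ℝ) ^ c * ε ∧ QuadHeight τ (D ^ c)

end Pool.Agent.Lib.MP_47914d_nt.Sn
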