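import Mathlib
import Pool.Agent.Lib.MP_47914d_nt.Sn.Spec
import Pool.Agent.Lib.MP_47914d_nt.All4

section
/-!
Numerical part of the quantitative form of Schneider's theorem (MP_47914d_nt).
-/
set_option autoImplicit false

namespace Pool.Agent.Lib.MP_47914d_nt.Sn

lemma log_factorial_le (n : ℕ) (y : ℝ) (h : Real.log n ≤ y) :
    Real.log (n.factorial) ≤ n * y := by
  have h1 : (n.factorial : ℝ) ≤ (n : ℝ) ^ n := by exact_mod_cast Nat.factorial_le_pow n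
  calc Real.log n.factorial ≤ Real.log ((n : ℝ) ^ n) :=
        Real.log_le_log (by positivity) h1
    _ = n * Real.log n := Real.log_pow n n
    _ ≤ n * y := by gcongr

lemma exists_pow_ge (K : ℝ) : ∃ n : ℕ, ∀ d : ℝ, 2 ≤ d → K ≤ d ^ n := by
  obtain ⟨n, hn⟩ := pow_unbounded_of_one_lt K (one_lt_two)
  exact ⟨n, fun d hd => hn.le.trans (pow_le_pow_left₀ (by norm_num) hd n)⟩

lemma exists_lin_le (K : ℝ) (c : ℕ) : ∃ m : ℕ, K * (c + m) ≤ 2 ^ m := by
  obtain ⟨n1, hn1⟩ := exists_pow_ge K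
  set n := max n1 c with hn
  have h1 : K ≤ 2 ^ n := (hn1 2 le_rfl).trans (pow_le_pow_right₀ (by norm_num) (le_max_left _ _))
  have h2 : (c : ℝ) ≤ 2 ^ n := by
    have h3 : c ≤ 2 ^ n := (Nat.lt_two_pow_self).le.trans
      (Nat.pow_le_pow_right (by norm_num) (le_max_right _ _))
    exact_mod_cast h3
  refine ⟨2 * n + 4, ?_⟩
  have h3 : (n : ℝ) ≤ 2 ^ n := by exact_mod_cast (Nat.lt_two_pow_self (n := n)).le
  have h4 : (1 : ℝ) ≤ 2 ^ n := one_le_pow₀ (by norm_num)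
  have h5 : (2 : ℝ) ^ (2 * n + 4) = 16 * (2 ^ n * 2 ^ n) := by
    rw [pow_add, two_mul, pow_add]; ring
  rw [h5]
  push_cast
  have h6 : (c : ℝ) + (2 * n + 4) ≤ 7 * 2 ^ n := by linarith
  have h7 : (0 : ℝ) ≤ (c : ℝ) + (2 * n + 4) := by positivity
  calc K * ((c : ℝ) + (2 * n + 4)) ≤ 2 ^ n * ((c : ℝ) + (2 * n + 4)) := by gcongr
    _ ≤ 2 ^ n * (7 * 2 ^ n) := by gcongr
    _ ≤ 16 * (2 ^ n * 2 ^ n) := by
        have h8 : (0 : ℝ) ≤ 2 ^ n * 2 ^ n := by positivity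
        linarith

lemma core_real (CA KM A1 A2 l t x ell δ LF E0 LS S : ℝ)
    (hCA : 1 ≤ CA) (hA1 : 1 ≤ A1) (hA2 : 1 ≤ A2) (hl : 1 ≤ l) (hlt : l ≤ t)
    (htx : t ≤ x) (hell : 1 ≤ ell) (hLF : LF ≤ 5 * x * ell) (hE0 : E0 ≤ A2 * x * ell)
    (hLS : LS ≤ 2 * ell + A2 * x * ell + KM * x) (hS : S ≤ 11 * A2 * x * ell)
    (h1 : CA * (21 + 3 * CA) * A1 * A2 * ell * l ≤ 2 * t)
    (h2 : δ ≤ Real.exp (-((24 + 3 * CA) * (A1 * A2 * x * ell) + KM * x + x ^ 2 + 1))) :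
    Real.exp LF * (Real.exp (CA * (x + l + 1)) *
      (Real.exp E0 * Real.exp (CA * l * (x / (CA * l)) ^ 2 - Real.pi * (x / (CA * l)) * x) +
        Real.exp LS * δ * Real.exp (CA * x * (x / (CA * l)))) + Real.exp LS * δ) <
      Real.exp (-(A1 * (2 * x + S + 1))) := by
  have hx1 : 1 ≤ x := by linarith
  set Y : ℝ := A1 * A2 * x * ell with hY
  have hxe : x ≤ x * ell := le_mul_of_one_le_right (by linarith) hell
  have hxe0 : 0 ≤ x * ell := by positivity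
  have ha2 : x * ell ≤ A2 * (x * ell) := le_mul_of_one_le_left hxe0 hA2
  have ha20 : 0 ≤ A2 * (x * ell) := by positivity
  have ha1 : A2 * (x * ell) ≤ A1 * (A2 * (x * ell)) := le_mul_of_one_le_left ha20 hA1
  have hYe : Y = A1 * (A2 * (x * ell)) := by rw [hY]; ring
  have hYx : x ≤ Y := by rw [hYe]; linarith
  have hYxe : x * ell ≤ Y := by rw [hYe]; linarith
  have hYA : A2 * (x * ell) ≤ Y := by rw [hYe]; linarith
  have hY1 : 1 ≤ Y := by linarith
  have helle : ell ≤ x * ell := le_mul_of_one_le_left (by linarith) hx1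
  have hell' : ell ≤ Y := by linarith
  have hCAl : 0 < CA * l := by positivity
  -- the main term
  have e1 : CA * l * (x / (CA * l)) ^ 2 = x ^ 2 / (CA * l) := by
    field_simp
  have e2 : Real.pi * (x / (CA * l)) * x = Real.pi * (x ^ 2 / (CA * l)) := by
    field_simp
  have e3 : (21 + 3 * CA) * Y ≤ 2 * (x ^ 2 / (CA * l)) := by
    rw [← mul_div_assoc, le_div_iff₀ hCAl]
    have h3 : x * (CA * (21 + 3 * CA) * A1 * A2 * ell * l) ≤ x * (2 * t) := by gcongr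
    have h4 : x * (2 * t) ≤ 2 * x ^ 2 := by nlinarith
    calc (21 + 3 * CA) * Y * (CA * l) = x * (CA * (21 + 3 * CA) * A1 * A2 * ell * l) := by
          rw [hY]; ring
      _ ≤ 2 * x ^ 2 := h3.trans h4
  have hq0 : 0 ≤ x ^ 2 / (CA * l) := by positivity
  have hpi : (3 : ℝ) < Real.pi := Real.pi_gt_three
  have e4 : CA * l * (x / (CA * l)) ^ 2 - Real.pi * (x / (CA * l)) * x ≤ -((21 + 3 * CA) * Y) := by
    rw [e1, e2]
    nlinarith
  have e5 : CA * (x + l + 1) ≤ 3 * CA * Y := by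
    have : x + l + 1 ≤ 3 * Y := by linarith
    nlinarith
  have e6 : LF ≤ 5 * Y := by nlinarith
  have e7 : E0 ≤ Y := by nlinarith
  have e8 : LS ≤ 3 * Y + KM * x := by nlinarith
  have e9 : CA * x * (x / (CA * l)) ≤ x ^ 2 := by
    have : CA * x * (x / (CA * l)) = x ^ 2 / l := by field_simp
    rw [this, div_le_iff₀ (by linarith)]
    nlinarith [sq_nonneg x]
  have e10 : A1 * (2 * x + S + 1) ≤ 14 * Y := by
    have h3 : 2 * x + S + 1 ≤ 14 * (A2 * (x * ell)) := by nlinarith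
    calc A1 * (2 * x + S + 1) ≤ A1 * (14 * (A2 * (x * ell))) := by gcongr
      _ = 14 * Y := by rw [hYe]; ring
  have t1 : Real.exp LF * (Real.exp (CA * (x + l + 1)) *
      (Real.exp E0 * Real.exp (CA * l * (x / (CA * l)) ^ 2 - Real.pi * (x / (CA * l)) * x))) ≤
      Real.exp (-(15 * Y)) := by
    rw [← Real.exp_add, ← Real.exp_add, ← Real.exp_add]
    apply Real.exp_le_exp.mpr
    linarith
  have t2 : Real.exp LF * (Real.exp (CA * (x + l + 1)) *
      (Real.exp LS * δ * Real.exp (CA * x * (x / (CA * l))))) ≤ Real.exp (-(16 * Y + 1)) := by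
    calc _ = Real.exp (LF + CA * (x + l + 1) + LS + CA * x * (x / (CA * l))) * δ := by
          rw [Real.exp_add, Real.exp_add, Real.exp_add]; ring
      _ ≤ Real.exp (LF + CA * (x + l + 1) + LS + CA * x * (x / (CA * l))) *
          Real.exp (-((24 + 3 * CA) * Y + KM * x + x ^ 2 + 1)) := by gcongr
      _ ≤ _ := by
          rw [← Real.exp_add]
          apply Real.exp_le_exp.mpr
          linarith
  have t3 : Real.exp LF * (Real.exp LS * δ) ≤ Real.exp (-(16 * Y + 1)) := by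
    calc _ = Real.exp (LF + LS) * δ := by rw [Real.exp_add]; ring
      _ ≤ Real.exp (LF + LS) * Real.exp (-((24 + 3 * CA) * Y + KM * x + x ^ 2 + 1)) := by gcongr
      _ ≤ _ := by
          rw [← Real.exp_add]
          apply Real.exp_le_exp.mpr
          nlinarith [sq_nonneg x]
  have t4 : Real.exp (-(15 * Y)) + Real.exp (-(16 * Y + 1)) + Real.exp (-(16 * Y + 1)) <
      Real.exp (-(14 * Y)) := by
    have u1 : Real.exp (-(15 * Y)) ≤ Real.exp (-(14 * Y)) * Real.exp (-1) := by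
      rw [← Real.exp_add]; apply Real.exp_le_exp.mpr; linarith
    have u2 : Real.exp (-(16 * Y + 1)) ≤ Real.exp (-(14 * Y)) * Real.exp (-2) := by
      rw [← Real.exp_add]; apply Real.exp_le_exp.mpr; linarith
    have u3 : Real.exp (-1) ≤ 1 / 2 := by
      rw [Real.exp_neg, one_div]
      apply inv_anti₀ (by norm_num)
      linarith [Real.add_one_le_exp (1 : ℝ)]
    have u5 : Real.exp (-2) < 1 / 4 := by
      have : Real.exp (-2) = Real.exp (-1) * Real.exp (-1) := by rw [← Real.exp_add]; norm_num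
      rw [this]
      have u6 : Real.exp (-1) < 1 / 2 := by
        rw [Real.exp_neg, one_div]
        apply inv_strictAnti₀ (by norm_num)
        linarith [Real.add_one_lt_exp (one_ne_zero (α := ℝ))]
      nlinarith [Real.exp_pos (-1)]
    have u7 := Real.exp_pos (-(14 * Y))
    nlinarith
  calc _ = Real.exp LF * (Real.exp (CA * (x + l + 1)) *
      (Real.exp E0 * Real.exp (CA * l * (x / (CA * l)) ^ 2 - Real.pi * (x / (CA * l)) * x))) +
      Real.exp LF * (Real.exp (CA * (x + l + 1)) *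
      (Real.exp LS * δ * Real.exp (CA * x * (x / (CA * l))))) +
      Real.exp LF * (Real.exp LS * δ) := by ring
    _ ≤ Real.exp (-(15 * Y)) + Real.exp (-(16 * Y + 1)) + Real.exp (-(16 * Y + 1)) := by
        linarith
    _ < Real.exp (-(14 * Y)) := t4
    _ ≤ _ := Real.exp_le_exp.mpr (by linarith)

lemma exists_ab (CA KM : ℝ) (hCA : 1 ≤ CA) (hKM : 0 ≤ KM) (cL cS : ℕ) :
    ∃ a b : ℕ, cS ≤ a ∧ 1 ≤ a ∧ ∀ D : ℝ, 2 ≤ D → ∀ x : ℝ, D ^ (2 * a - cS) ≤ x →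
      x ≤ 64 * (D ^ a) ^ 2 →
      CA * (21 + 3 * CA) * D ^ cL * D ^ cS * (1 + Real.log (D ^ a)) * D ^ a ≤
        2 * D ^ (2 * a - cS) ∧ CA * D ^ a ≤ x ∧ D ^ a ≤ D ^ (2 * a - cS) ∧
      (24 + 3 * CA) * (D ^ cL * D ^ cS * x * (1 + Real.log (D ^ a))) + KM * x + x ^ 2 + 1 ≤
        D ^ b := by
  obtain ⟨m, hm⟩ := exists_lin_le (CA * (21 + 3 * CA)) (2 * cS + cL + 2)
  obtain ⟨a, ha⟩ : ∃ a : ℕ, a = 2 * cS + cL + 1 + m := ⟨_, rfl⟩
  obtain ⟨k, hk⟩ := exists_pow_ge (24 + 3 * CA + KM + 2)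
  obtain ⟨b0, hb0⟩ : ∃ b0 : ℕ, b0 = cL + cS + 2 * (2 * a + 6) + (a + 1) := ⟨_, rfl⟩
  refine ⟨a, k + b0, by omega, by omega, fun D hD x hx1 hx2 => ?_⟩
  have hD1 : 1 ≤ D := by linarith
  have hD0 : 0 < D := by linarith
  set ell : ℝ := 1 + Real.log (D ^ a) with hell
  have hlog : Real.log D ≤ D - 1 := Real.log_le_sub_one_of_pos hD0
  have hlog0 : 0 ≤ Real.log D := Real.log_nonneg hD1
  have hell1 : 1 ≤ ell := by
    rw [hell, Real.log_pow]; nlinarith [(Nat.cast_nonneg a : (0 : ℝ) ≤ a)]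
  have hell2 : ell ≤ (1 + a) * D := by
    rw [hell, Real.log_pow]
    nlinarith [(Nat.cast_nonneg a : (0 : ℝ) ≤ a)]
  have ha2 : ((1 + a : ℕ) : ℝ) ≤ D ^ a := by
    have h1 : 1 + a ≤ 2 ^ a := by
      have := Nat.lt_two_pow_self (n := a); omega
    have h2 : ((1 + a : ℕ) : ℝ) ≤ (2 : ℝ) ^ a := by exact_mod_cast h1
    exact h2.trans (pow_le_pow_left₀ (by norm_num) hD a)
  have hell3 : ell ≤ D ^ (a + 1) := by
    refine hell2.trans ?_
    rw [pow_succ]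
    push_cast at ha2
    gcongr
  have hm2 : (2 : ℝ) ^ m ≤ D ^ m := pow_le_pow_left₀ (by norm_num) hD m
  have hKa : CA * (21 + 3 * CA) * (1 + a) ≤ D ^ m := by
    refine le_trans (le_of_eq ?_) (hm.trans hm2)
    rw [ha]; push_cast; ring
  have hCAm : CA ≤ D ^ m := by
    refine le_trans ?_ hKa
    have h1 : (0 : ℝ) ≤ a := Nat.cast_nonneg a
    nlinarith [mul_nonneg (mul_nonneg (by linarith : (0 : ℝ) ≤ CA) (by linarith : (0 : ℝ) ≤ 21 + 3 * CA)) h1]
  have hexp : 2 * a - cS = m + (cL + cS + 1) + a := by omega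
  have hDa : 0 < D ^ a := by positivity
  have hDa1 : 1 ≤ D ^ a := one_le_pow₀ hD1
  have hDc1 : 1 ≤ D ^ (cL + cS + 1) := one_le_pow₀ hD1
  have hDm1 : 1 ≤ D ^ m := one_le_pow₀ hD1
  have hx0 : 0 ≤ x := le_trans (by positivity) hx1
  refine ⟨?_, ?_, ?_, ?_⟩
  · rw [hexp, pow_add, pow_add]
    calc CA * (21 + 3 * CA) * D ^ cL * D ^ cS * ell * D ^ a
        ≤ CA * (21 + 3 * CA) * D ^ cL * D ^ cS * ((1 + a) * D) * D ^ a := by gcongr
      _ = (CA * (21 + 3 * CA) * (1 + a)) * D ^ (cL + cS + 1) * D ^ a := by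
          rw [pow_add, pow_add, pow_one]; ring
      _ ≤ D ^ m * D ^ (cL + cS + 1) * D ^ a := by gcongr
      _ ≤ 2 * (D ^ m * D ^ (cL + cS + 1) * D ^ a) := by
          have : 0 ≤ D ^ m * D ^ (cL + cS + 1) * D ^ a := by positivity
          linarith
  · refine le_trans ?_ hx1
    rw [hexp, pow_add, pow_add]
    calc CA * D ^ a ≤ D ^ m * D ^ a := by gcongr
      _ ≤ D ^ m * D ^ (cL + cS + 1) * D ^ a := by
          gcongr
          exact le_mul_of_one_le_right (by positivity) hDc1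
  · exact pow_le_pow_right₀ hD1 (by omega)
  · have hx3 : x ≤ D ^ (2 * a + 6) := by
      refine hx2.trans ?_
      rw [pow_add, pow_mul']
      have h64 : (64 : ℝ) ≤ D ^ 6 := by
        calc (64 : ℝ) = 2 ^ 6 := by norm_num
          _ ≤ D ^ 6 := pow_le_pow_left₀ (by norm_num) hD 6
      nlinarith [sq_nonneg (D ^ a)]
    set B : ℝ := D ^ b0 with hB
    have hY : D ^ cL * D ^ cS * x * ell ≤ B := by
      calc D ^ cL * D ^ cS * x * ell ≤ D ^ cL * D ^ cS * D ^ (2 * a + 6) * D ^ (a + 1) := by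
            gcongr
        _ = D ^ (cL + cS + (2 * a + 6) + (a + 1)) := by ring
        _ ≤ B := pow_le_pow_right₀ hD1 (by omega)
    have hxB : x ≤ B := hx3.trans (pow_le_pow_right₀ hD1 (by omega))
    have hx2B : x ^ 2 ≤ B := by
      calc x ^ 2 ≤ (D ^ (2 * a + 6)) ^ 2 := by gcongr
        _ = D ^ ((2 * a + 6) * 2) := by rw [← pow_mul]
        _ ≤ B := pow_le_pow_right₀ hD1 (by omega)
    have h1B : 1 ≤ B := one_le_pow₀ hD1
    calc (24 + 3 * CA) * (D ^ cL * D ^ cS * x * ell) + KM * x + x ^ 2 + 1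
        ≤ (24 + 3 * CA) * B + KM * B + B + B := by gcongr
      _ = (24 + 3 * CA + KM + 2) * B := by ring
      _ ≤ D ^ k * B := by
          have := hk D hD
          gcongr
      _ = D ^ (k + b0) := by rw [pow_add]

end Pool.Agent.Lib.MP_47914d_nt.Sn
end

section
/-!
Quantitative form of Schneider's theorem (MP_47914d_nt): assembly.
-/
set_option autoImplicit false

open Complex Filter Topology Polynomial
open scoped Real

namespace Pool.Agent.Lib.MP_47914d_nt.Sn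

lemma AlgB.mono {x : ℂ} {D E : ℕ} (h : AlgB x D) (hDE : D ≤ E) : AlgB x E := by
  obtain ⟨F, h0, h1, h2, h3⟩ := h
  refine ⟨F, h0, h1, h2.trans hDE, fun i => (h3 i).trans (Real.exp_le_exp.mpr ?_)⟩
  exact_mod_cast hDE

lemma QuadHeight.mono {x : ℂ} {D E : ℕ} (h : QuadHeight x D) (hDE : D ≤ E) : QuadHeight x E := by
  obtain ⟨a, b, c, h0, h1, h2, h3, h4⟩ := h
  have : (D : ℤ) ≤ E := by exact_mod_cast hDE
  exact ⟨a, b, c, h0, h1.trans this, h2.trans this, h3.trans this, h4⟩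

/-- The transcendence argument. -/
lemma transc (hLiou : SpecLiou) (hTay : SpecTay) (hSieg : SpecSieg) (hAn : SpecAn)
    (w β₀ Ω : ℂ) (A B : ℂ → ℂ) (him : 0 < w.im) (hE : EllW w β₀ Ω A B) (M : ℕ) (hM : 1 ≤ M)
    (hw : ‖w‖ ≤ M) (hβ₀ : ‖β₀‖ ≤ M) :
    ∃ a b : ℕ, ∀ D : ℕ, 2 ≤ D → ∀ β ξ : ℂ, AlgB β D → AlgB ξ D → ‖β‖ ≤ M → ‖ξ‖ ≤ M →
      ‖β₀ - β‖ + ‖w - ξ‖ ≤ Real.exp (-(D : ℝ) ^ b) →
      ∃ p : ℕ → ℕ → ℤ, (∃ i j, i ≤ D ^ a ∧ j ≤ D ^ a ∧ p i j ≠ 0) ∧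
        ∀ t ≤ 64 * (D ^ a) ^ 2, gam (D ^ a) p β ξ t = 0 := by
  obtain ⟨cL, hcL⟩ := hLiou
  obtain ⟨cS, hcS⟩ := hSieg M hM
  obtain ⟨CA, hCA, hCA2⟩ := hAn w β₀ Ω A B him hE
  have hMr : (1 : ℝ) ≤ M := by exact_mod_cast hM
  obtain ⟨a, b, haS, ha1, hab⟩ := exists_ab CA (Real.log (100 * (M : ℝ) ^ 2)) hCA
    (Real.log_nonneg (by nlinarith)) cL cS
  refine ⟨a, b, fun D hD β ξ hβ hξ hβM hξM hδ => ?_⟩
  have hDr : (2 : ℝ) ≤ D := by exact_mod_cast hD
  have hDr1 : (1 : ℝ) ≤ D := by linarith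
  have hDr0 : (0 : ℝ) < D := by linarith
  set L : ℕ := D ^ a with hL
  set T : ℕ := D ^ (2 * a - cS) with hT
  have hT1 : 1 ≤ T := Nat.one_le_pow _ _ (by omega)
  have hL1 : 1 ≤ L := Nat.one_le_pow _ _ (by omega)
  have hTL : D ^ cS * T ≤ L ^ 2 := by
    rw [hT, hL, ← pow_add, ← pow_mul]
    exact Nat.pow_le_pow_right (by omega) (by omega)
  obtain ⟨p, hp0, hpb, hpz⟩ := hcS D L T hD hT1 hTL β ξ hβM hξM hβ hξ
  refine ⟨p, hp0, ?_⟩
  by_contra hcon
  push Not at hcon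
  classical
  have hex : ∃ t, gam L p β ξ t ≠ 0 := ⟨_, hcon.choose_spec.2⟩
  set T1 : ℕ := Nat.find hex with hT1d
  have hT1ne : gam L p β ξ T1 ≠ 0 := Nat.find_spec hex
  have hT1min : ∀ t < T1, gam L p β ξ t = 0 := fun t ht => by
    have := Nat.find_min hex ht
    push Not at this
    exact this
  have hTT1 : T ≤ T1 := by
    by_contra h
    exact hT1ne (hpz T1 (not_le.mp h))
  have hT1L : T1 ≤ 64 * L ^ 2 := by
    obtain ⟨t, ht1, ht2⟩ := hcon
    exact (Nat.find_min' hex ht2).trans ht1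
  -- real versions
  set l : ℝ := (D : ℝ) ^ a with hl
  have hLl : (L : ℝ) = l := by rw [hL, hl]; push_cast; rfl
  set tt : ℝ := (D : ℝ) ^ (2 * a - cS) with htt
  have hTtt : (T : ℝ) = tt := by rw [hT, htt]; push_cast; rfl
  set x : ℝ := (T1 : ℝ) with hx
  have htx : tt ≤ x := by rw [← hTtt, hx]; exact_mod_cast hTT1
  have hxl : x ≤ 64 * l ^ 2 := by rw [← hLl, hx]; exact_mod_cast hT1L
  obtain ⟨h1, h2, h3, h4⟩ := hab D hDr x htx hxl
  set ell : ℝ := 1 + Real.log l with hell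
  have hl1 : 1 ≤ l := one_le_pow₀ hDr1
  have hell1 : 1 ≤ ell := by
    have := Real.log_nonneg hl1
    linarith
  have hx1 : 1 ≤ x := by linarith
  have hT1pos : 1 ≤ T1 := hT1.trans hTT1
  have hCAl : 0 < CA * l := by positivity
  have hR : 1 ≤ x / (CA * l) := by
    rw [le_div_iff₀ hCAl]; linarith
  set P0 : ℝ := Real.exp ((D : ℝ) ^ cS * T * (1 + Real.log L)) with hP0
  have hE0 : P0 = Real.exp ((D : ℝ) ^ cS * tt * ell) := by rw [hP0, hTtt, hLl]
  have hP01 : 1 ≤ P0 := by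
    rw [hE0]
    apply Real.one_le_exp
    positivity
  set δ : ℝ := ‖β₀ - β‖ + ‖w - ξ‖ with hδd
  have hδ0 : 0 ≤ δ := by positivity
  -- sizes
  have hlogx : Real.log x ≤ 5 * ell := by
    have h5 : Real.log x ≤ Real.log (64 * l ^ 2) := Real.log_le_log (by linarith) hxl
    rw [Real.log_mul (by norm_num) (by positivity), Real.log_pow] at h5
    have h6 : Real.log 64 ≤ 5 := by
      have : (64 : ℝ) ≤ Real.exp 5 := by
        have h7 : (2.7 : ℝ) ≤ Real.exp 1 := by linarith [Real.exp_one_gt_d9]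
        have h8 : Real.exp 5 = Real.exp 1 ^ 5 := by rw [← Real.exp_nat_mul]; norm_num
        rw [h8]
        calc (64 : ℝ) ≤ 2.7 ^ 5 := by norm_num
          _ ≤ _ := pow_le_pow_left₀ (by norm_num) h7 5
      calc Real.log 64 ≤ Real.log (Real.exp 5) := Real.log_le_log (by norm_num) this
        _ = 5 := Real.log_exp 5
    have h7 := Real.log_nonneg hl1
    push_cast at h5
    linarith
  have hLF : Real.log (T1.factorial) ≤ 5 * x * ell := by
    have := log_factorial_le T1 (5 * ell) hlogx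
    calc _ ≤ (T1 : ℝ) * (5 * ell) := this
      _ = 5 * x * ell := by rw [hx]; ring
  have hfac : (0 : ℝ) < T1.factorial := by exact_mod_cast T1.factorial_pos
  have hlogl1 : Real.log (l + 1) ≤ ell := by
    have h5 : l + 1 ≤ 2 * l := by linarith
    calc Real.log (l + 1) ≤ Real.log (2 * l) := Real.log_le_log (by linarith) h5
      _ = Real.log 2 + Real.log l := Real.log_mul (by norm_num) (by linarith)
      _ ≤ 1 + Real.log l := by linarith [Real.log_two_lt_d9]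
      _ = ell := hell.symm
  have hA2 : 1 ≤ (D : ℝ) ^ cS := one_le_pow₀ hDr1
  have hA1 : 1 ≤ (D : ℝ) ^ cL := one_le_pow₀ hDr1
  have hE0x : (D : ℝ) ^ cS * tt * ell ≤ (D : ℝ) ^ cS * x * ell := by gcongr
  -- the polynomial at the first nonzero coefficient
  obtain ⟨Q, hQd, hQc, hQe⟩ := hTay.poly L P0 p hpb T1
  set S : ℝ := 2 * Real.log (l + 1) + (D : ℝ) ^ cS * tt * ell + Real.log (T1.factorial) +
    Real.log (x + 1) + x * Real.log 6 with hS
  have hlogx1 : Real.log (x + 1) ≤ x := by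
    have := Real.log_le_sub_one_of_pos (by linarith : (0 : ℝ) < x + 1)
    linarith
  have hlog6 : Real.log 6 ≤ 2 := by
    have : (6 : ℝ) ≤ Real.exp 2 := by
      have h7 : (2.7 : ℝ) ≤ Real.exp 1 := by linarith [Real.exp_one_gt_d9]
      have h8 : Real.exp 2 = Real.exp 1 ^ 2 := by rw [← Real.exp_nat_mul]; norm_num
      rw [h8]
      calc (6 : ℝ) ≤ 2.7 ^ 2 := by norm_num
        _ ≤ _ := pow_le_pow_left₀ (by norm_num) h7 2
    calc Real.log 6 ≤ Real.log (Real.exp 2) := Real.log_le_log (by norm_num) this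
      _ = 2 := Real.log_exp 2
  have hxe : x ≤ x * ell := le_mul_of_one_le_right (by linarith) hell1
  have helle : ell ≤ x * ell := le_mul_of_one_le_left (by linarith) hx1
  have hAxe : x * ell ≤ (D : ℝ) ^ cS * (x * ell) :=
    le_mul_of_one_le_left (by positivity) hA2
  have hSle : S ≤ 11 * (D : ℝ) ^ cS * x * ell := by
    have h5 : x * Real.log 6 ≤ 2 * x := by nlinarith
    have h6 : S ≤ 2 * ell + (D : ℝ) ^ cS * x * ell + 5 * x * ell + x + 2 * x := by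
      rw [hS]; linarith
    have h7 : 11 * (D : ℝ) ^ cS * x * ell = 11 * ((D : ℝ) ^ cS * (x * ell)) := by ring
    have h8 : (D : ℝ) ^ cS * x * ell = (D : ℝ) ^ cS * (x * ell) := by ring
    rw [h7]
    rw [h8] at h6
    nlinarith
  have hS0 : 0 ≤ S := by
    have h5 : 0 ≤ Real.log (l + 1) := Real.log_nonneg (by linarith)
    have h6 : 0 ≤ Real.log (T1.factorial) := Real.log_nonneg (by
      exact_mod_cast Nat.one_le_iff_ne_zero.mpr (Nat.factorial_ne_zero T1))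
    have h7 : 0 ≤ Real.log (x + 1) := Real.log_nonneg (by linarith)
    have h8 : 0 ≤ Real.log 6 := Real.log_nonneg (by norm_num)
    have h9 : 0 ≤ (D : ℝ) ^ cS * tt * ell := by positivity
    rw [hS]
    have h10 : 0 ≤ x * Real.log 6 := by positivity
    linarith
  have hexpl : Real.exp (2 * Real.log (l + 1)) = (l + 1) ^ 2 := by
    rw [show 2 * Real.log (l + 1) = Real.log ((l + 1) ^ 2) by rw [Real.log_pow]; push_cast; ring,
      Real.exp_log (by positivity)]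
  have hexpS : Real.exp S = (l + 1) ^ 2 * P0 * (T1.factorial * (x + 1) * 6 ^ T1) := by
    rw [hS, Real.exp_add, Real.exp_add, Real.exp_add, Real.exp_add, hexpl, ← hE0,
      Real.exp_log hfac, Real.exp_log (by linarith : (0 : ℝ) < x + 1)]
    have : Real.exp (x * Real.log 6) = 6 ^ T1 := by
      rw [hx, mul_comm, ← Real.rpow_def_of_pos (by norm_num), Real.rpow_natCast]
    rw [this]; ring
  have hlow := hcL D (2 * T1) S hD hS0 β ξ hβ hξ Q hQd (by
    rw [hexpS, ← hLl]; exact hQc)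
  rw [hQe β ξ] at hlow
  have hlow' : Real.exp (-((D : ℝ) ^ cL * (2 * x + S + 1))) ≤
      T1.factorial * ‖gam L p β ξ T1‖ := by
    rcases hlow with h | h
    · exfalso
      rcases mul_eq_zero.mp h with h' | h'
      · exact (Nat.factorial_ne_zero T1) (by exact_mod_cast h')
      · exact hT1ne h'
    · rw [norm_mul, Complex.norm_natCast] at h
      refine le_trans (le_of_eq ?_) h
      push_cast
      rfl
  -- the upper bound
  set LS : ℝ := 2 * Real.log (l + 1) + (D : ℝ) ^ cS * tt * ell +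
    x * Real.log (100 * (M : ℝ) ^ 2) with hLS
  have hM2 : (1 : ℝ) ≤ 100 * (M : ℝ) ^ 2 := by nlinarith
  have hexpLS : Real.exp LS = (l + 1) ^ 2 * P0 * (100 * (M : ℝ) ^ 2) ^ T1 := by
    rw [hLS, Real.exp_add, Real.exp_add, hexpl, ← hE0]
    have : Real.exp (x * Real.log (100 * (M : ℝ) ^ 2)) = (100 * (M : ℝ) ^ 2) ^ T1 := by
      rw [hx, mul_comm, ← Real.rpow_def_of_pos (by linarith), Real.rpow_natCast]
    rw [this]
  have hlip : ∀ t ≤ T1, ‖gam L p β₀ w t - gam L p β ξ t‖ ≤ Real.exp LS * δ := by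
    intro t ht
    refine (hTay.lip L P0 M p t β₀ w β ξ hpb hMr hβ₀ hw hβM hξM).trans ?_
    rw [hexpLS, ← hLl]
    have : (100 * (M : ℝ) ^ 2) ^ t ≤ (100 * (M : ℝ) ^ 2) ^ T1 := pow_le_pow_right₀ hM2 ht
    gcongr
  have hsmall : ∀ t < T1, ‖gam L p β₀ w t‖ ≤ Real.exp LS * δ := by
    intro t ht
    have := hlip t ht.le
    rwa [hT1min t ht, sub_zero] at this
  have hup := hCA2 L T1 p P0 (Real.exp LS * δ) (x / (CA * l)) hP01 (by positivity) hR hpb hsmall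
  have hup2 : ‖gam L p β ξ T1‖ ≤ Real.exp (CA * (x + l + 1)) *
      (P0 * Real.exp (CA * l * (x / (CA * l)) ^ 2 - π * (x / (CA * l)) * x) +
        Real.exp LS * δ * Real.exp (CA * x * (x / (CA * l)))) + Real.exp LS * δ := by
    have h5 : ‖gam L p β ξ T1‖ ≤ ‖gam L p β₀ w T1‖ + ‖gam L p β₀ w T1 - gam L p β ξ T1‖ := by
      have := norm_sub_norm_le (gam L p β ξ T1) (gam L p β₀ w T1)
      rw [norm_sub_rev] at this
      linarith
    have h6 := hlip T1 le_rfl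
    rw [hLl] at hup
    linarith
  have hcore := core_real CA (Real.log (100 * (M : ℝ) ^ 2)) ((D : ℝ) ^ cL) ((D : ℝ) ^ cS) l tt x
    ell δ (Real.log (T1.factorial)) ((D : ℝ) ^ cS * tt * ell) LS S hCA hA1 hA2 hl1 h3 htx hell1
    hLF hE0x (by rw [hLS]; nlinarith) hSle h1 (hδ.trans (Real.exp_le_exp.mpr (by linarith)))
  rw [Real.exp_log hfac, ← hE0] at hcore
  have hfin : (T1.factorial : ℝ) * ‖gam L p β ξ T1‖ ≤ T1.factorial *
      (Real.exp (CA * (x + l + 1)) *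
      (P0 * Real.exp (CA * l * (x / (CA * l)) ^ 2 - π * (x / (CA * l)) * x) +
        Real.exp LS * δ * Real.exp (CA * x * (x / (CA * l)))) + Real.exp LS * δ) := by
    gcongr
  linarith

end Pool.Agent.Lib.MP_47914d_nt.Sn
end

section
/-!
Quantitative form of Schneider's theorem (MP_47914d_nt): assembly.
-/
set_option autoImplicit false

open Complex Filter Topology Polynomial
open scoped Real

namespace Pool.Agent.Lib.MP_47914d_nt.Sn

theorem specQS (hLiou : SpecLiou) (hTay : SpecTay) (hBeta : SpecBeta) (hSieg : SpecSieg)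
    (hLat : SpecLat) (hEllW : SpecEllW) (hAn : SpecAn) (hZero : SpecZero) (hLoc : SpecLoc) :
    SpecQS := by
  intro w him hcm
  obtain ⟨h0, h1728⟩ := hLoc.cm w him hcm
  obtain ⟨β₀, Ω, A, B, hE⟩ := hEllW w him h0 h1728
  obtain ⟨Cl, rl, hCl, hrl, hinv⟩ := hLoc.inv w him h0 h1728
  obtain ⟨Cb, rb, hCb, hrb, hnear⟩ := hBeta.near (Jc w) β₀ h1728 hE.j
  obtain ⟨cβ, hcβ⟩ := hBeta.alg
  obtain ⟨M, hM⟩ := exists_nat_ge (max (max (‖w‖ + 1) (‖β₀‖ + 1)) (2 / w.im))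
  have hM1 : ‖w‖ + 1 ≤ M := ((le_max_left _ _).trans (le_max_left _ _)).trans hM
  have hM2 : ‖β₀‖ + 1 ≤ M := ((le_max_right _ _).trans (le_max_left _ _)).trans hM
  have hM3 : 2 / w.im ≤ M := (le_max_right _ _).trans hM
  have hMr : (1 : ℝ) ≤ M := by linarith [norm_nonneg w]
  have hMn : 1 ≤ M := by exact_mod_cast hMr
  obtain ⟨a, b, htr⟩ := transc hLiou hTay hSieg hAn w β₀ Ω A B him hE M hMn
    (by linarith) (by linarith)
  have hj0 : 0 < ‖Jc w‖ := norm_pos_iff.mpr h0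
  have hj1 : 0 < ‖Jc w - 1728‖ := norm_pos_iff.mpr (sub_ne_zero.mpr h1728)
  -- a small constant
  obtain ⟨κ, hκ0, hκ1, k1, k2, k3, k4, k5, k6, k7⟩ : ∃ κ : ℝ, 0 < κ ∧ κ ≤ 1 / 2 ∧ κ ≤ rl / 2 ∧
      κ ≤ rb / 2 ∧ κ ≤ 1 / (8 * Cb) ∧ κ ≤ 1 / Cl ∧ κ ≤ (w.im / 2) / Cl ∧ κ ≤ w.im / 2 ∧
      (κ ≤ ‖Jc w‖ / 2 ∧ κ ≤ ‖Jc w - 1728‖ / 2) := by
    refine ⟨min (1 / 2) (min (rl / 2) (min (rb / 2) (min (1 / (8 * Cb)) (min (1 / Cl)
      (min ((w.im / 2) / Cl) (min (w.im / 2) (min (‖Jc w‖ / 2) (‖Jc w - 1728‖ / 2)))))))),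
      by positivity, ?_⟩
    simp only [min_le_iff, le_refl, true_or, or_true, and_self]
  obtain ⟨K, hK0, hKe⟩ : ∃ K : ℝ, 0 ≤ K ∧ Real.exp (-K) = κ := by
    refine ⟨-Real.log κ, ?_, by rw [neg_neg, Real.exp_log hκ0]⟩
    have := Real.log_nonpos hκ0.le (by linarith)
    linarith
  obtain ⟨m1, hm1⟩ := exists_pow_ge (3 + K)
  obtain ⟨m2, hm2⟩ := exists_pow_ge (4 * (M : ℝ) ^ 4)
  obtain ⟨m3, hm3⟩ := exists_pow_ge Cl
  obtain ⟨c1, hc1⟩ : ∃ c1 : ℕ, c1 = m1 + (cβ + 1) * b := ⟨_, rfl⟩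
  obtain ⟨c2, hc2⟩ : ∃ c2 : ℕ, c2 = m2 + (cβ + 1) * a * 2 := ⟨_, rfl⟩
  refine ⟨c1 + c2 + m3, fun D hD ξ η hξ hη ε hε hwξ hjη => ?_⟩
  have hDr : (2 : ℝ) ≤ D := by exact_mod_cast hD
  have hDr1 : (1 : ℝ) ≤ D := by linarith
  have hD1 : 1 ≤ D := by omega
  have hε0 : 0 ≤ ε := (norm_nonneg _).trans hwξ
  set D1 : ℕ := D ^ (cβ + 1) with hD1d
  have hDD1 : D ≤ D1 := by
    rw [hD1d]
    exact Nat.le_self_pow (by omega) D
  have hD12 : 2 ≤ D1 := hD.trans hDD1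
  have hbig : ε ≤ Real.exp (-(3 * (D1 : ℝ) ^ b)) * κ := by
    refine hε.trans ?_
    rw [← hKe, ← Real.exp_add]
    apply Real.exp_le_exp.mpr
    have e1 : (3 + K) * (D : ℝ) ^ ((cβ + 1) * b) ≤ (D : ℝ) ^ c1 := by
      rw [hc1, pow_add]
      have := hm1 D hDr
      gcongr
    have e2 : (D : ℝ) ^ c1 ≤ (D : ℝ) ^ (c1 + c2 + m3) := pow_le_pow_right₀ hDr1 (by omega)
    have e3 : (D1 : ℝ) ^ b = (D : ℝ) ^ ((cβ + 1) * b) := by
      rw [hD1d]; push_cast; rw [← pow_mul]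
    have e4 : 1 ≤ (D : ℝ) ^ ((cβ + 1) * b) := one_le_pow₀ hDr1
    rw [e3]
    nlinarith
  have hexp1 : Real.exp (-(3 * (D1 : ℝ) ^ b)) ≤ 1 := by
    apply Real.exp_le_one_iff.mpr
    have : (0 : ℝ) ≤ (D1 : ℝ) ^ b := by positivity
    linarith
  have hεκ : ε ≤ κ := hbig.trans (by nlinarith)
  have hηw : ‖η - Jc w‖ ≤ ε := by rw [norm_sub_rev]; exact hjη
  -- the point τ
  obtain ⟨τ, hτim, hτη, hτw⟩ := hinv η (by linarith)
  have hτε : ‖τ - w‖ ≤ Cl * ε := hτw.trans (by gcongr)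
  -- the number β
  obtain ⟨β, hβη, hβ₀⟩ := hnear η (by linarith)
  have hβalg : AlgB β D1 := (hcβ D hD η β hη hβη).mono (Nat.pow_le_pow_right hD1 (by omega))
  set E : ℝ := Real.exp (-(D1 : ℝ) ^ b) with hEd
  have hE0 : 0 < E := Real.exp_pos _
  have hE1 : E ≤ 1 := by
    apply Real.exp_le_one_iff.mpr
    have : (0 : ℝ) ≤ (D1 : ℝ) ^ b := by positivity
    linarith
  have hE3 : Real.exp (-(3 * (D1 : ℝ) ^ b)) = E ^ 3 := by
    rw [hEd, ← Real.exp_nat_mul]; congr 1; push_cast; ring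
  rw [hE3] at hbig
  have hββ₀ : ‖β - β₀‖ ≤ E / 2 := by
    have e1 : ‖β - β₀‖ ^ 3 ≤ (E / 2) ^ 3 := by
      calc ‖β - β₀‖ ^ 3 ≤ Cb * ‖η - Jc w‖ := hβ₀
        _ ≤ Cb * (E ^ 3 * κ) := by gcongr; exact hηw.trans hbig
        _ ≤ Cb * (E ^ 3 * (1 / (8 * Cb))) := by gcongr
        _ = (E / 2) ^ 3 := by field_simp; ring
    exact le_of_pow_le_pow_left₀ (by norm_num) (by positivity) e1
  have hE31 : E ^ 3 ≤ E := by
    calc E ^ 3 = E * (E * E) := by ring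
      _ ≤ E * (1 * 1) := by gcongr
      _ = E := by ring
  have hwξE : ‖w - ξ‖ ≤ E / 2 := by
    refine hwξ.trans (hbig.trans ?_)
    calc E ^ 3 * κ ≤ E * (1 / 2) := by gcongr
      _ = E / 2 := by ring
  have hβM : ‖β‖ ≤ M := by
    have := norm_sub_norm_le β β₀
    linarith
  have hξM : ‖ξ‖ ≤ M := by
    have := norm_sub_norm_le ξ w
    rw [norm_sub_rev] at this
    linarith
  obtain ⟨p, hp0, hpz⟩ := htr D1 hD12 β ξ hβalg (hξ.mono hDD1) hβM hξM (by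
    rw [norm_sub_rev β₀ β]; linarith)
  -- elliptic function for τ
  have hjτ0 : Jc τ ≠ 0 := by
    rw [hτη]
    intro h
    rw [h, zero_sub, norm_neg] at hηw
    linarith [k7.1]
  have hjτ1 : Jc τ ≠ 1728 := by
    rw [hτη]
    intro h
    rw [h, norm_sub_rev] at hηw
    linarith [k7.2]
  obtain ⟨c, φ, S, hc, hF⟩ := hLat τ β hτim hjτ0 hjτ1 (by rw [hτη]; exact hβη)
  have hClκ : Cl * ε ≤ 1 := by
    calc Cl * ε ≤ Cl * (1 / Cl) := by gcongr; exact hεκ.trans k4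
      _ = 1 := by field_simp
  have hClκ2 : Cl * ε ≤ w.im / 2 := by
    calc Cl * ε ≤ Cl * ((w.im / 2) / Cl) := by gcongr; exact hεκ.trans k5
      _ = w.im / 2 := by field_simp
  have hτM : ‖τ‖ ≤ M := by
    have := norm_sub_norm_le τ w
    linarith
  have hτim2 : w.im / 2 ≤ τ.im := by
    have e1 : |(τ - w).im| ≤ ‖τ - w‖ := Complex.abs_im_le_norm _
    rw [Complex.sub_im] at e1
    have := (abs_le.mp e1).1
    linarith
  have hξim : ξ.im ≠ 0 := by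
    have e1 : |(w - ξ).im| ≤ ‖w - ξ‖ := Complex.abs_im_le_norm _
    rw [Complex.sub_im] at e1
    have e2 := (abs_le.mp e1).2
    intro h
    rw [h] at e2
    linarith
  have hMτ : (1 : ℝ) ≤ M * τ.im := by
    have e1 : 2 / w.im * (w.im / 2) = 1 := by field_simp
    calc (1 : ℝ) = 2 / w.im * (w.im / 2) := e1.symm
      _ ≤ M * τ.im := by gcongr
  have hQ := hZero β τ c φ S hτim hc hF ξ M (D1 ^ a) p hξim hξM hτM hMτ
    (Nat.one_le_pow _ _ (by omega)) hp0 hpz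
  refine ⟨τ, ?_, QuadHeight.mono hQ ?_⟩
  · refine hτε.trans ?_
    have e1 : Cl ≤ (D : ℝ) ^ (c1 + c2 + m3) :=
      (hm3 D hDr).trans (pow_le_pow_right₀ hDr1 (by omega))
    gcongr
  · have e1 : (4 * (M : ℝ) ^ 4) * (D : ℝ) ^ ((cβ + 1) * a * 2) ≤ (D : ℝ) ^ c2 := by
      rw [hc2, pow_add]
      have := hm2 D hDr
      gcongr
    have e2 : (D : ℝ) ^ c2 ≤ (D : ℝ) ^ (c1 + c2 + m3) := pow_le_pow_right₀ hDr1 (by omega)
    have e3 : ((4 * (D1 ^ a) ^ 2 * M ^ 4 : ℕ) : ℝ) =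
        (4 * (M : ℝ) ^ 4) * (D : ℝ) ^ ((cβ + 1) * a * 2) := by
      rw [hD1d]; push_cast; rw [← pow_mul, ← pow_mul]; ring
    have e4 : ((4 * (D1 ^ a) ^ 2 * M ^ 4 : ℕ) : ℝ) ≤ ((D ^ (c1 + c2 + m3) : ℕ) : ℝ) := by
      rw [e3]; push_cast; exact e1.trans e2
    exact_mod_cast e4

end Pool.Agent.Lib.MP_47914d_nt.Sn
end

section
/-!
Schneider's theorem over Liouville fields (MP_47914d_nt): final assembly.
-/
set_option autoImplicit false

open Complex Filter Topology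

namespace Pool.Agent.Lib.MP_47914d_nt.Sn

/-- Transcendence degrees. -/
lemma trdeg_step {ι : Type} (s : ι → ℂ) (N m : ℕ) (x : Fin N → ℂ)
    (hx : AlgebraicIndependent ℚ x)
    (hxs : ∀ i, IsAlgebraic (Algebra.adjoin ℚ (Set.range s)) (x i)) (hm : m ≤ N)
    (hno : ¬ ∃ w : Fin (m + 1) → ι, AlgebraicIndependent ℚ (fun k => s (w k))) :
    m = N ∧ ∀ i, ¬ AlgebraicIndependent ℚ (fun o : Option (Fin N) => o.elim (s i) x) := by
  set Ma := AlgebraicIndependent.matroid ℚ ℂ with hMa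
  have hcl : ∀ (t : Set ℂ) (y : ℂ), y ∈ Ma.closure t ↔ IsAlgebraic (Algebra.adjoin ℚ t) y := by
    intro t y
    rw [hMa, AlgebraicIndependent.matroid_closure_eq, SetLike.mem_coe, Subalgebra.mem_algebraicClosure]
  -- the rank of the range of `s`
  have hrS : Ma.eRk (Set.range s) ≤ m := by
    obtain ⟨I, hI⟩ := Ma.exists_isBasis (Set.range s) (Set.subset_univ _)
    rw [← hI.encard_eq_eRk]
    by_contra hlt
    rw [not_le] at hlt
    have h1 : ((m + 1 : ℕ) : ℕ∞) ≤ I.encard := by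
      push_cast
      exact Order.add_one_le_of_lt hlt
    obtain ⟨J, hJI, hJc⟩ := Set.exists_subset_encard_eq h1
    have hJfin : J.Finite := Set.finite_of_encard_eq_coe hJc
    have hJind : Ma.Indep J := hI.indep.subset hJI
    rw [hMa, AlgebraicIndependent.matroid_indep_iff] at hJind
    have hJn : J.ncard = m + 1 := by
      rw [Set.ncard_def, hJc]; rfl
    have := hJfin.fintype
    have hJf : Fintype.card J = m + 1 := by
      rw [← Nat.card_eq_fintype_card, ← hJn]; rfl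
    have e : Fin (m + 1) ≃ J := (Fintype.equivFinOfCardEq hJf).symm
    have hpre : ∀ k : Fin (m + 1), ∃ i, s i = e k := fun k => hI.subset (hJI (e k).2)
    choose w hw using hpre
    apply hno
    refine ⟨w, ?_⟩
    have h2 := (hJind : AlgebraicIndependent ℚ (fun y : J => id (y : ℂ))).comp e e.injective
    convert! h2 using 1
    funext k
    exact hw k
  have hxi : Ma.Indep (Set.range x) := by
    rw [hMa, AlgebraicIndependent.matroid_indep_iff]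
    exact (algebraicIndependent_subtype_range hx.injective).2 hx
  have hcard : (Set.range x).encard = N := by
    rw [← Set.image_univ, hx.injective.encard_image, Set.encard_univ, ENat.card_eq_coe_fintype_card,
      Fintype.card_fin]
  have hsub : Set.range x ⊆ Ma.closure (Set.range s) := by
    rintro _ ⟨i, rfl⟩
    rw [hcl]
    exact hxs i
  have hrX : Ma.eRk (Set.range x) = N := by rw [hxi.eRk_eq_encard, hcard]
  have hNm : N ≤ m := by
    have h1 : (N : ℕ∞) ≤ m := by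
      calc (N : ℕ∞) = Ma.eRk (Set.range x) := hrX.symm
        _ ≤ Ma.eRk (Ma.closure (Set.range s)) := Ma.eRk_mono hsub
        _ = Ma.eRk (Set.range s) := Ma.eRk_closure_eq _
        _ ≤ m := hrS
    exact_mod_cast h1
  have hmN : m = N := le_antisymm hm hNm
  refine ⟨hmN, fun i hi => ?_⟩
  set y : Option (Fin N) → ℂ := fun o => o.elim (s i) x with hy
  have hyi : Ma.Indep (Set.range y) := by
    rw [hMa, AlgebraicIndependent.matroid_indep_iff]
    exact (algebraicIndependent_subtype_range hi.injective).2 hi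
  have hcardy : (Set.range y).encard = (N + 1 : ℕ) := by
    rw [← Set.image_univ, hi.injective.encard_image, Set.encard_univ, ENat.card_eq_coe_fintype_card,
      Fintype.card_option, Fintype.card_fin]
  have hsuby : Set.range y ⊆ Ma.closure (Set.range s) := by
    rintro _ ⟨o, rfl⟩
    rcases o with _ | k
    · exact Ma.subset_closure (Set.range s) (Set.subset_univ _) ⟨i, rfl⟩
    · exact hsub ⟨k, rfl⟩
  have h1 : ((N + 1 : ℕ) : ℕ∞) ≤ m := by
    calc ((N + 1 : ℕ) : ℕ∞) = Ma.eRk (Set.range y) := by rw [hyi.eRk_eq_encard, hcardy]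
      _ ≤ Ma.eRk (Ma.closure (Set.range s)) := Ma.eRk_mono hsuby
      _ = Ma.eRk (Set.range s) := Ma.eRk_closure_eq _
      _ ≤ m := hrS
  have h2 : N + 1 ≤ m := by exact_mod_cast h1
  omega

/-- Very good simultaneous approximations by CM points. -/
lemma good_of_approx (hAppr : SpecAppr) (hQS : SpecQS) {n N : ℕ} (z : Fin n → ℂ)
    (him : ∀ i, 0 < (z i).im)
    (hcm : ∀ i, ¬ ∃ a b c : ℤ, (a ≠ 0 ∨ b ≠ 0 ∨ c ≠ 0) ∧
      (a : ℂ) * z i ^ 2 + (b : ℂ) * z i + (c : ℂ) = 0)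
    (x : Fin N → ℂ) (hx : AlgebraicIndependent ℚ x)
    (hz : ∀ i, ¬ AlgebraicIndependent ℚ (fun o : Option (Fin N) => o.elim (z i) x))
    (hj : ∀ i, ¬ AlgebraicIndependent ℚ (fun o : Option (Fin N) => o.elim (Jc (z i)) x))
    (happ : ∀ A H₀ : ℕ, ∃ H : ℕ, H₀ ≤ H ∧ ∃ ξ : Fin N → ℂ, ∀ i, AlgB (ξ i) H ∧
      ‖x i - ξ i‖ < Real.exp (-(H : ℝ) ^ A)) (s : ℕ) :
    ∃ᶠ H : ℕ in atTop, ∃ κ, Good z (s : ℝ) H κ := by
  choose c1 hc1 r1 hr1 h1 using fun i => hAppr N x hx (z i) (hz i)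
  choose c2 hc2 r2 hr2 h2 using fun i => hAppr N x hx (Jc (z i)) (hj i)
  choose c3 h3 using fun i => hQS (z i) (him i) (hcm i)
  -- common constants
  obtain ⟨e, he1, he2, he0⟩ : ∃ e : ℕ, (∀ i, c1 i ≤ e) ∧ (∀ i, c2 i ≤ e) ∧ 1 ≤ e := by
    refine ⟨(∑ i, c1 i) + (∑ i, c2 i) + 1, fun i => ?_, fun i => ?_, by omega⟩
    · have := Finset.single_le_sum (f := c1) (fun j _ => Nat.zero_le _) (Finset.mem_univ i)
      omega
    · have := Finset.single_le_sum (f := c2) (fun j _ => Nat.zero_le _) (Finset.mem_univ i)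
      omega
  obtain ⟨q, hq1, hq0⟩ : ∃ q : ℕ, (∀ i, c3 i ≤ q) ∧ 1 ≤ q := by
    refine ⟨(∑ i, c3 i) + 1, fun i => ?_, by omega⟩
    have := Finset.single_le_sum (f := c3) (fun j _ => Nat.zero_le _) (Finset.mem_univ i)
    omega
  obtain ⟨r, hr0, hrr1, hrr2⟩ : ∃ r : ℝ, 0 < r ∧ (∀ i, r ≤ r1 i) ∧ (∀ i, r ≤ r2 i) := by
    have h4 : ∃ r : ℝ, 0 < r ∧ ∀ i, r ≤ r1 i := by
      rcases isEmpty_or_nonempty (Fin n) with h | h
      · exact ⟨1, one_pos, fun i => h.elim i⟩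
      · obtain ⟨i, hi⟩ := Finite.exists_min r1
        exact ⟨r1 i, hr1 i, hi⟩
    have h5 : ∃ r : ℝ, 0 < r ∧ ∀ i, r ≤ r2 i := by
      rcases isEmpty_or_nonempty (Fin n) with h | h
      · exact ⟨1, one_pos, fun i => h.elim i⟩
      · obtain ⟨i, hi⟩ := Finite.exists_min r2
        exact ⟨r2 i, hr2 i, hi⟩
    obtain ⟨ra, hra, hra'⟩ := h4
    obtain ⟨rb, hrb, hrb'⟩ := h5
    exact ⟨min ra rb, lt_min hra hrb, fun i => (min_le_left _ _).trans (hra' i),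
      fun i => (min_le_right _ _).trans (hrb' i)⟩
  obtain ⟨k, hk⟩ := exists_pow_ge (2 * e)
  obtain ⟨k', hk'⟩ := exists_pow_ge (1 / r)
  -- exponents
  obtain ⟨B, hB⟩ : ∃ B : ℕ, B = e * q * (s + 1) + k' + 1 := ⟨_, rfl⟩
  rw [Filter.frequently_atTop]
  intro H₀
  obtain ⟨H, hH, ξ, hξ⟩ := happ (B + k) (max H₀ 2)
  have hHH₀ : H₀ ≤ H := (le_max_left _ _).trans hH
  have hH2 : 2 ≤ H := (le_max_right _ _).trans hH
  have hHr : (2 : ℝ) ≤ H := by exact_mod_cast hH2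
  have hHr1 : (1 : ℝ) ≤ H := by linarith
  set ε : ℝ := Real.exp (-(H : ℝ) ^ B) with hε
  set δ : ℝ := Real.exp (-(H : ℝ) ^ (B + k)) with hδ
  have hδ0 : 0 < δ := Real.exp_pos _
  have hε0 : 0 < ε := Real.exp_pos _
  have heR : (1 : ℝ) ≤ e := by exact_mod_cast he0
  have hHB1 : 1 ≤ (H : ℝ) ^ B := one_le_pow₀ hHr1
  -- `e δ ≤ ε ^ e`
  have hεδ : (e : ℝ) * δ ≤ ε ^ e := by
    have e1 : ε ^ e = Real.exp (-(e * (H : ℝ) ^ B)) := by
      rw [hε, ← Real.exp_nat_mul]; congr 1; ring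
    have e2 : (e : ℝ) ≤ Real.exp (e * (H : ℝ) ^ B) := by
      have := Real.add_one_le_exp (e * (H : ℝ) ^ B)
      nlinarith
    have e3 : 2 * e * (H : ℝ) ^ B ≤ (H : ℝ) ^ (B + k) := by
      rw [pow_add, mul_comm ((H : ℝ) ^ B)]
      have := hk H hHr
      gcongr
    calc (e : ℝ) * δ ≤ Real.exp (e * (H : ℝ) ^ B) * Real.exp (-(2 * e * (H : ℝ) ^ B)) := by
          rw [hδ]
          gcongr
      _ = ε ^ e := by rw [e1, ← Real.exp_add]; congr 1; ring
  have hδr : δ < r := by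
    have e1 : 1 / r ≤ (H : ℝ) ^ k' := hk' H hHr
    have e2 : (H : ℝ) ^ k' ≤ (H : ℝ) ^ (B + k) := pow_le_pow_right₀ hHr1 (by omega)
    have e3 : (H : ℝ) ^ (B + k) < Real.exp ((H : ℝ) ^ (B + k)) := by
      have := Real.add_one_le_exp ((H : ℝ) ^ (B + k))
      linarith
    rw [hδ, Real.exp_neg]
    have e4 : 1 / r < Real.exp ((H : ℝ) ^ (B + k)) := by linarith
    have := inv_strictAnti₀ (by positivity : 0 < 1 / r) e4
    rwa [one_div, inv_inv] at this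
  have hξA : ∀ i, AlgB (ξ i) H := fun i => (hξ i).1
  have hξδ : ∀ i, ‖x i - ξ i‖ ≤ δ := fun i => (hξ i).2.le
  have hε1 : ε ≤ 1 := by
    rw [hε]; apply Real.exp_le_one_iff.mpr; linarith
  -- comparison of roots
  have hroot : ∀ (c : ℕ) (t : ℝ), 1 ≤ c → c ≤ e → 0 ≤ t → t ^ c ≤ c * δ → t ≤ ε := by
    intro c t hc hce ht htc
    have e1 : t ^ c ≤ ε ^ c := by
      calc t ^ c ≤ c * δ := htc
        _ ≤ e * δ := by gcongr
        _ ≤ ε ^ e := hεδ
        _ ≤ ε ^ c := pow_le_pow_of_le_one hε0.le hε1 hce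
    exact le_of_pow_le_pow_left₀ (by omega) hε0.le e1
  -- the points
  have hpt : ∀ i, ∃ τ : ℂ, ‖τ - z i‖ ≤ ((H : ℝ) ^ e) ^ q * ε ∧ QuadHeight τ ((H ^ e) ^ q) := by
    intro i
    obtain ⟨ζ, hζ1, hζ2⟩ := h1 i H hH2 ξ hξA δ (hδr.trans_le (hrr1 i)) hδ0.le hξδ
    obtain ⟨η, hη1, hη2⟩ := h2 i H hH2 ξ hξA δ (hδr.trans_le (hrr2 i)) hδ0.le hξδ
    have hζ3 := hroot (c1 i) _ (hc1 i) (he1 i) (norm_nonneg _) hζ2
    have hη3 := hroot (c2 i) _ (hc2 i) (he2 i) (norm_nonneg _) hη2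
    have hD2 : 2 ≤ H ^ e := hH2.trans (Nat.le_self_pow (by omega) H)
    have hDr1 : (1 : ℝ) ≤ (H : ℝ) ^ e := one_le_pow₀ hHr1
    obtain ⟨τ, hτ1, hτ2⟩ := h3 i (H ^ e) hD2 ζ η
      (hζ1.mono (Nat.pow_le_pow_right (by omega) (he1 i)))
      (hη1.mono (Nat.pow_le_pow_right (by omega) (he2 i))) ε (by
        rw [hε]
        apply Real.exp_le_exp.mpr
        apply neg_le_neg
        push_cast
        rw [← pow_mul]
        apply pow_le_pow_right₀ hHr1
        rw [hB]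
        have : e * c3 i ≤ e * q * (s + 1) := by
          calc e * c3 i ≤ e * q := Nat.mul_le_mul_left _ (hq1 i)
            _ ≤ e * q * (s + 1) := Nat.le_mul_of_pos_right _ (by omega)
        omega) hζ3 hη3
    refine ⟨τ, hτ1.trans ?_, QuadHeight.mono hτ2 (Nat.pow_le_pow_right (by omega) (hq1 i))⟩
    push_cast
    have := pow_le_pow_right₀ hDr1 (hq1 i)
    gcongr
  choose κ hκ1 hκ2 using hpt
  refine ⟨(H ^ e) ^ q, ?_, κ, fun i => ⟨?_, hκ2 i⟩⟩
  · refine hHH₀.trans ?_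
    rw [← pow_mul]
    exact Nat.le_self_pow (by positivity) H
  · refine (hκ1 i).trans_lt ?_
    -- `H' ε < exp (- H' ^ s)`
    set Y : ℝ := ((H : ℝ) ^ e) ^ q with hY
    have hY1 : 1 ≤ Y := by rw [hY, ← pow_mul]; exact one_le_pow₀ hHr1
    have e1 : 2 * Y ^ (s + 1) ≤ (H : ℝ) ^ B := by
      have e2 : Y ^ (s + 1) = (H : ℝ) ^ (e * q * (s + 1)) := by
        rw [hY, pow_mul, pow_mul]
      rw [e2, hB]
      calc 2 * (H : ℝ) ^ (e * q * (s + 1)) ≤ H * (H : ℝ) ^ (e * q * (s + 1)) := by gcongr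
        _ = (H : ℝ) ^ (e * q * (s + 1) + 1) := by rw [pow_succ]; ring
        _ ≤ _ := pow_le_pow_right₀ hHr1 (by omega)
    have e3 : Y < Real.exp (Y ^ (s + 1)) := by
      have e4 : Y ≤ Y ^ (s + 1) := le_self_pow₀ hY1 (by omega)
      have := Real.add_one_le_exp (Y ^ (s + 1))
      linarith
    have e5 : Y ^ s ≤ Y ^ (s + 1) := pow_le_pow_right₀ hY1 (by omega)
    have e6 : ((((H ^ e) ^ q : ℕ) : ℝ) ^ ((s : ℕ) : ℝ)) = Y ^ s := by
      rw [Real.rpow_natCast, hY]; push_cast; rfl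
    rw [e6]
    calc Y * ε < Real.exp (Y ^ (s + 1)) * ε := by gcongr
      _ ≤ Real.exp (Y ^ (s + 1)) * Real.exp (-(2 * Y ^ (s + 1))) := by
          rw [hε]; gcongr
      _ = Real.exp (-Y ^ (s + 1)) := by rw [← Real.exp_add]; congr 1; ring
      _ ≤ Real.exp (-Y ^ s) := by gcongr

theorem main_fin (hAppr : SpecAppr) (hQS : SpecQS) {n N : ℕ} (hn : 0 < n) (z : Fin n → ℂ)
    (him : ∀ i, 0 < (z i).im)
    (hcm : ∀ i, ¬ ∃ a b c : ℤ, (a ≠ 0 ∨ b ≠ 0 ∨ c ≠ 0) ∧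
      (a : ℂ) * z i ^ 2 + (b : ℂ) * z i + (c : ℂ) = 0)
    (hne : ∀ i k, i ≠ k → ¬ ∃ a b c d : ℚ, 0 < a * d - b * c ∧
      z k * ((c : ℂ) * z i + (d : ℂ)) = (a : ℂ) * z i + (b : ℂ))
    (x : Fin N → ℂ) (hx : AlgebraicIndependent ℚ x)
    (hxs : ∀ i, IsAlgebraic (Algebra.adjoin ℚ (Set.range (ptf z))) (x i))
    (happ : ∀ A H₀ : ℕ, ∃ H : ℕ, H₀ ≤ H ∧ ∃ ξ : Fin N → ℂ, ∀ i, AlgB (ξ i) H ∧
      ‖x i - ξ i‖ < Real.exp (-(H : ℝ) ^ A)) :
    ∃ w : Fin (min n N + 1) → Fin n ⊕ Fin n, AlgebraicIndependent ℚ (fun m => ptf z (w m)) := by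
  by_contra hno
  obtain ⟨hmN, hdep⟩ := trdeg_step (ptf z) N (min n N) x hx hxs (min_le_right _ _) hno
  have hgood := good_of_approx hAppr hQS z him hcm x hx (fun i => hdep (Sum.inl i))
    (fun i => hdep (Sum.inr i)) happ (n + 1)
  obtain ⟨w, hw⟩ := full_all hn z him hcm hne (s := ((n + 1 : ℕ) : ℝ)) (by push_cast; linarith)
    hgood
  apply hno
  have hle : min n N + 1 ≤ n + 1 := by omega
  exact ⟨fun k => w (Fin.castLE hle k), hw.comp (Fin.castLE hle) (Fin.castLE_injective hle)⟩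

end Pool.Agent.Lib.MP_47914d_nt.Sn
end
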