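import Pool.Agent.Lib.MP_47914d_nt.Sn.Spec
import Pool.Agent.Lib.MP_47914d_nt.Liouville2
import Pool.Agent.Lib.MP_47914d_nt.InjFull

/-!
LOC: the elliptic points and the local inverse of the Klein invariant (MP_47914d_nt).
-/

set_option autoImplicit false

open Complex Filter Topology

namespace Pool.Agent.Lib.MP_47914d_nt.Sn.Loc

lemma Rc_I : Rc I = 0 := by
  have h := specRam.smulR 0 (-1) 1 0 I (by norm_num) (by norm_num)
  have h2 : ((((0 : ℤ) : ℂ) * I + ((-1 : ℤ) : ℂ)) / (((1 : ℤ) : ℂ) * I + ((0 : ℤ) : ℂ))) = I := by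
    push_cast
    rw [div_eq_iff (by simp [I_ne_zero])]
    linear_combination -I_mul_I
  rw [h2] at h
  have h3 : ((((1 : ℤ) : ℂ) * I + ((0 : ℤ) : ℂ)) ^ 6) = -1 := by
    push_cast
    rw [one_mul, add_zero, show (6 : ℕ) = 2 * 3 by norm_num, pow_mul, I_sq]
    norm_num
  rw [h3] at h
  have h4 : 2 * Rc I = 0 := by linear_combination h
  simpa using h4

lemma Jc_I : Jc I = 1728 := by
  have h := specRam.jinv I (by norm_num)
  have hd := specRam.disc I (by norm_num)
  rw [Rc_I] at h hd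
  have hQ : Qc I ^ 3 ≠ 0 := by simpa using hd
  have h2 : (Jc I - 1728) * Qc I ^ 3 = 0 := by linear_combination h
  rcases mul_eq_zero.mp h2 with h3 | h3
  · linear_combination h3
  · exact absurd h3 hQ

/-- The sixth root of unity in the upper half plane. -/
noncomputable def rho : ℂ := ⟨1 / 2, Real.sqrt 3 / 2⟩

lemma rho_im : 0 < rho.im := by
  simp only [rho]
  positivity

lemma rho_sq : rho ^ 2 = rho - 1 := by
  have h := Real.mul_self_sqrt (show (0 : ℝ) ≤ 3 by norm_num)
  apply Complex.ext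
  · simp only [rho, pow_two, Complex.mul_re, Complex.sub_re, Complex.one_re]
    nlinarith
  · simp only [rho, pow_two, Complex.mul_im, Complex.sub_im, Complex.one_im]
    ring

lemma rho_ne : rho ≠ 0 := by
  intro h
  have := rho_sq
  rw [h] at this
  norm_num at this

lemma Qc_rho : Qc rho = 0 := by
  have h := specRam.smulQ 1 (-1) 1 0 rho (by norm_num) rho_im
  have h2 : ((((1 : ℤ) : ℂ) * rho + ((-1 : ℤ) : ℂ)) / (((1 : ℤ) : ℂ) * rho + ((0 : ℤ) : ℂ)))
      = rho := by
    push_cast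
    rw [div_eq_iff (by simpa using rho_ne)]
    linear_combination -rho_sq
  rw [h2] at h
  have h3 : ((((1 : ℤ) : ℂ) * rho + ((0 : ℤ) : ℂ)) ^ 4) = -rho := by
    push_cast
    linear_combination (rho ^ 2 + rho) * rho_sq
  rw [h3] at h
  have h4 : (1 + rho) * Qc rho = 0 := by linear_combination h
  rcases mul_eq_zero.mp h4 with h5 | h5
  · exfalso
    have h6 : (1 + rho).re = 0 := by rw [h5]; rfl
    simp only [Complex.add_re, Complex.one_re, rho] at h6
    norm_num at h6
  · exact h5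

lemma Jc_rho : Jc rho = 0 := by
  have h := specRam.jinv rho rho_im
  have hd := specRam.disc rho rho_im
  rw [Qc_rho] at h hd
  have h2 : Jc rho * (0 ^ 3 - Rc rho ^ 2) = 0 := by rw [h]; ring
  rcases mul_eq_zero.mp h2 with h3 | h3
  · exact h3
  · exact absurd h3 hd

lemma Qc_ne {w : ℂ} (hw : 0 < w.im) (h0 : Jc w ≠ 0) : Qc w ≠ 0 := by
  intro hQ
  have h := specRam.jinv w hw
  have hd := specRam.disc w hw
  rw [hQ] at h hd
  have h2 : Jc w * (0 ^ 3 - Rc w ^ 2) = 0 := by rw [h]; ring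
  rcases mul_eq_zero.mp h2 with h3 | h3
  · exact h0 h3
  · exact hd h3

lemma Rc_ne {w : ℂ} (hw : 0 < w.im) (h0 : Jc w ≠ 1728) : Rc w ≠ 0 := by
  intro hR
  have h := specRam.jinv w hw
  have hd := specRam.disc w hw
  rw [hR] at h hd
  have hQ : Qc w ^ 3 ≠ 0 := by simpa using hd
  have h2 : (Jc w - 1728) * Qc w ^ 3 = 0 := by linear_combination h
  rcases mul_eq_zero.mp h2 with h3 | h3
  · exact h0 (by linear_combination h3)
  · exact hQ h3

lemma isOpen_H : IsOpen {w : ℂ | 0 < w.im} := isOpen_lt continuous_const Complex.continuous_im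

lemma hasDerivAt_Jc {w : ℂ} (hw : 0 < w.im) :
    HasDerivAt Jc (-(12 * 1728) * Qc w ^ 2 * Rc w / (Qc w ^ 3 - Rc w ^ 2)) w := by
  have hd := specRam.disc w hw
  have hQ := specRam.derivQ w hw
  have hR := specRam.derivR w hw
  have hnum : HasDerivAt (fun z => 1728 * Qc z ^ 3)
      (1728 * (3 * Qc w ^ 2 * (4 * (Pc w * Qc w - Rc w)))) w := by
    have := (hQ.pow 3).const_mul (1728 : ℂ)
    refine this.congr_deriv ?_
    push_cast
    ring
  have hden : HasDerivAt (fun z => Qc z ^ 3 - Rc z ^ 2)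
      (3 * Qc w ^ 2 * (4 * (Pc w * Qc w - Rc w)) - 2 * Rc w * (6 * (Pc w * Rc w - Qc w ^ 2))) w := by
    have := (hQ.pow 3).sub (hR.pow 2)
    refine this.congr_deriv ?_
    push_cast
    ring
  have hq := hnum.div hden hd
  have heq : Jc =ᶠ[𝓝 w] fun z => (1728 * Qc z ^ 3) / (Qc z ^ 3 - Rc z ^ 2) := by
    filter_upwards [isOpen_H.mem_nhds hw] with z hz
    rw [eq_div_iff (specRam.disc z hz)]
    exact specRam.jinv z hz
  refine (hq.congr_of_eventuallyEq heq).congr_deriv ?_
  field_simp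
  ring

lemma strict {w : ℂ} (hw : 0 < w.im) :
    HasStrictDerivAt Jc (-(12 * 1728) * Qc w ^ 2 * Rc w / (Qc w ^ 3 - Rc w ^ 2)) w := by
  have hdiff : DifferentiableOn ℂ Jc {w : ℂ | 0 < w.im} := fun z hz =>
    (hasDerivAt_Jc hz).differentiableAt.differentiableWithinAt
  have han : AnalyticAt ℂ Jc w := hdiff.analyticAt (isOpen_H.mem_nhds hw)
  have h := han.hasStrictFDerivAt.hasStrictDerivAt
  have h2 : fderiv ℂ Jc w 1 = -(12 * 1728) * Qc w ^ 2 * Rc w / (Qc w ^ 3 - Rc w ^ 2) := by
    have := (hasDerivAt_Jc hw).hasFDerivAt.fderiv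
    rw [this]
    simp
  rwa [h2] at h

end Pool.Agent.Lib.MP_47914d_nt.Sn.Loc

namespace Pool.Agent.Lib.MP_47914d_nt.Sn

open Loc

theorem specLoc : SpecLoc where
  cm := by
    intro w hw hcm
    have hinj := specInjFull specJ
    constructor
    · intro h0
      obtain ⟨a, b, c, d, hdet, h⟩ := hinj w rho hw rho_im (by rw [h0, Jc_rho])
      apply hcm
      refine ⟨a ^ 2 - a * c + c ^ 2, 2 * a * b - a * d - b * c + 2 * c * d,
        b ^ 2 - b * d + d ^ 2, Or.inl ?_, ?_⟩
      · intro h1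
        have ha : a = 0 ∧ c = 0 := by
          have h2 : (2 * a - c) ^ 2 + 3 * c ^ 2 = 0 := by linear_combination 4 * h1
          have hc : c = 0 := by nlinarith [sq_nonneg (2 * a - c), sq_nonneg c]
          subst hc
          refine ⟨by nlinarith [sq_nonneg a], rfl⟩
        rw [ha.1, ha.2] at hdet
        norm_num at hdet
      · push_cast
        linear_combination (-(c * w + d : ℂ) * rho + (c * w + d) - (a * w + b)) * h
          + (c * w + d : ℂ) ^ 2 * rho_sq
    · intro h0
      obtain ⟨a, b, c, d, hdet, h⟩ := hinj w I hw (by norm_num) (by rw [h0, Jc_I])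
      apply hcm
      refine ⟨a ^ 2 + c ^ 2, 2 * (a * b + c * d), b ^ 2 + d ^ 2, Or.inl ?_, ?_⟩
      · intro h1
        have ha : a = 0 := by nlinarith [sq_nonneg a, sq_nonneg c]
        have hc : c = 0 := by nlinarith [sq_nonneg a, sq_nonneg c]
        rw [ha, hc] at hdet
        norm_num at hdet
      · push_cast
        linear_combination (-(c * w + d : ℂ) * I - (a * w + b)) * h
          + (c * w + d : ℂ) ^ 2 * I_sq
  inv := by
    intro w hw h0 h1728
    have hs := strict hw
    have hne : -(12 * 1728) * Qc w ^ 2 * Rc w / (Qc w ^ 3 - Rc w ^ 2) ≠ 0 :=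
      div_ne_zero (mul_ne_zero (mul_ne_zero (by norm_num) (pow_ne_zero 2 (Qc_ne hw h0)))
        (Rc_ne hw h1728)) (specRam.disc w hw)
    set g : ℂ → ℂ := hs.localInverse _ _ _ hne with hg
    have hgd : HasStrictDerivAt g (-(12 * 1728) * Qc w ^ 2 * Rc w / (Qc w ^ 3 - Rc w ^ 2))⁻¹
        (Jc w) := hs.to_localInverse hne
    have hright : ∀ᶠ x in 𝓝 (Jc w), Jc (g x) = x := hs.eventually_right_inverse hne
    have hleft : g (Jc w) = w := (hs.eventually_left_inverse hne).self_of_nhds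
    have hO := hgd.hasDerivAt.isBigO_sub
    rw [hleft] at hO
    obtain ⟨C, hC, hb⟩ := hO.exists_pos
    rw [Asymptotics.isBigOWith_iff] at hb
    have him : ∀ᶠ x in 𝓝 (Jc w), 0 < (g x).im := by
      have hc : ContinuousAt g (Jc w) := hgd.hasDerivAt.continuousAt
      have : Tendsto g (𝓝 (Jc w)) (𝓝 w) := by
        have := hc.tendsto
        rwa [hleft] at this
      exact this.eventually (isOpen_H.mem_nhds hw)
    obtain ⟨r, hr, hball⟩ := Metric.eventually_nhds_iff.mp ((hright.and him).and hb)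
    refine ⟨C, r, hC, hr, fun η hη => ⟨g η, ?_, ?_, ?_⟩⟩
    · exact (hball (by rwa [dist_eq_norm])).1.2
    · exact (hball (by rwa [dist_eq_norm])).1.1
    · exact (hball (by rwa [dist_eq_norm])).2

end Pool.Agent.Lib.MP_47914d_nt.Sn
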