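import Pool.Agent.Lib.MP_47914d_nt.Sn.Spec

/-!
Module SIEG: the auxiliary polynomial.
-/

set_option autoImplicit false

open Complex Filter Topology Polynomial Finset
open scoped Real

attribute [local instance] Matrix.seminormedAddCommGroup

namespace Pool.Agent.Lib.MP_47914d_nt.Sn

namespace Sieg

/-- small values of real linear forms -/
lemma real_form {ι : Type} [Fintype ι] (v : ι → ℤ) (e : ι → ℝ) (Q : ℕ) (hQ : 1 ≤ Q) (P0 : ℝ)
    (hv : ∀ i, |(v i : ℝ)| ≤ P0) (h0 : ∑ i, ⌊(Q : ℝ) * e i⌋ * v i = 0) :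
    |∑ i, (v i : ℝ) * e i| ≤ Fintype.card ι * P0 / Q := by
  have hQ' : (0 : ℝ) < Q := by exact_mod_cast hQ
  rw [le_div_iff₀ hQ']
  have h1 : (∑ i, (v i : ℝ) * e i) * Q = ∑ i, (v i : ℝ) * Int.fract ((Q : ℝ) * e i) := by
    have h2 : ((∑ i, ⌊(Q : ℝ) * e i⌋ * v i : ℤ) : ℝ) = 0 := by rw [h0]; simp
    rw [Int.cast_sum] at h2
    rw [Finset.sum_mul, ← sub_eq_zero, ← Finset.sum_sub_distrib, ← h2]
    refine Finset.sum_congr rfl fun i _ => ?_
    have h3 := Int.self_sub_floor ((Q : ℝ) * e i)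
    rw [Int.cast_mul, ← h3]
    ring
  have h2 : |∑ i, (v i : ℝ) * e i| * Q = |(∑ i, (v i : ℝ) * e i) * Q| := by
    rw [abs_mul, abs_of_pos hQ']
  rw [h2, h1]
  refine (Finset.abs_sum_le_sum_abs _ _).trans ?_
  have h3 : ∀ i ∈ (univ : Finset ι), |(v i : ℝ) * Int.fract ((Q : ℝ) * e i)| ≤ P0 := by
    intro i _
    rw [abs_mul, abs_of_nonneg (Int.fract_nonneg ((Q : ℝ) * e i))]
    calc |(v i : ℝ)| * Int.fract ((Q : ℝ) * e i) ≤ |(v i : ℝ)| * 1 :=
          mul_le_mul_of_nonneg_left (Int.fract_lt_one _).le (abs_nonneg _)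
      _ ≤ P0 := by rw [mul_one]; exact hv i
  refine (Finset.sum_le_sum h3).trans ?_
  simp

lemma forms (T : ℕ) (hT : 1 ≤ T) {ι : Type} [Fintype ι] (hn : 2 * T < Fintype.card ι)
    (E : Fin T → ι → ℂ) (K : ℝ) (hK : 1 ≤ K) (hE : ∀ t i, ‖E t i‖ ≤ K) (Q : ℕ) (hQ : 1 ≤ Q) :
    ∃ v : ι → ℤ, v ≠ 0 ∧
      (∀ i, |(v i : ℝ)| ≤ (Fintype.card ι * (2 * Q * K)) ^
        ((2 * T : ℝ) / (Fintype.card ι - 2 * T))) ∧
      ∀ t, ‖∑ i, (v i : ℂ) * E t i‖ ≤ 2 * (Fintype.card ι * (Fintype.card ι * (2 * Q * K)) ^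
        ((2 * T : ℝ) / (Fintype.card ι - 2 * T)) / Q) := by
  classical
  have hQ' : (1 : ℝ) ≤ Q := by exact_mod_cast hQ
  have hn' : (0 : ℝ) < (Fintype.card ι : ℝ) - 2 * T := by
    have : (2 * T : ℝ) < Fintype.card ι := by exact_mod_cast hn
    linarith
  have hQK : 1 ≤ (Q : ℝ) * K := one_le_mul_of_one_le_of_one_le hQ' hK
  set A : Matrix (Fin T ⊕ Fin T) ι ℤ := Matrix.of (fun s i =>
    Sum.elim (fun t => ⌊(Q : ℝ) * (E t i).re⌋) (fun t => ⌊(Q : ℝ) * (E t i).im⌋) s) with hA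
  have hfl : ∀ y : ℝ, |y| ≤ K → |((⌊(Q : ℝ) * y⌋ : ℤ) : ℝ)| ≤ 2 * Q * K := by
    intro y hy
    have h1 : |(Q : ℝ) * y| ≤ Q * K := by
      rw [abs_mul, abs_of_nonneg (by linarith : (0 : ℝ) ≤ Q)]
      exact mul_le_mul_of_nonneg_left hy (by linarith)
    have h2 := Int.floor_le ((Q : ℝ) * y)
    have h3 := Int.lt_floor_add_one ((Q : ℝ) * y)
    rw [abs_le] at h1 ⊢
    constructor <;> linarith [h1.1, h1.2]
  have hAn : ‖A‖ ≤ 2 * Q * K := by
    rw [Matrix.norm_le_iff (by positivity)]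
    rintro (t | t) i
    · rw [Int.norm_eq_abs]
      exact hfl _ ((Complex.abs_re_le_norm _).trans (hE t i))
    · rw [Int.norm_eq_abs]
      exact hfl _ ((Complex.abs_im_le_norm _).trans (hE t i))
  have hcard : Fintype.card (Fin T ⊕ Fin T) = 2 * T := by
    rw [Fintype.card_sum, Fintype.card_fin]
    ring
  obtain ⟨v, hv0, hAv, hvn⟩ := Int.Matrix.exists_ne_zero_int_vec_norm_le A
    (by rw [hcard]; exact hn) (by rw [hcard]; omega)
  rw [hcard] at hvn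
  push_cast at hvn
  have hP : ∀ i, |(v i : ℝ)| ≤ (Fintype.card ι * (2 * Q * K)) ^
        ((2 * T : ℝ) / (Fintype.card ι - 2 * T)) := by
    intro i
    have h1 := norm_le_pi_norm v i
    rw [Int.norm_eq_abs] at h1
    refine h1.trans (hvn.trans ?_)
    refine Real.rpow_le_rpow (by positivity) ?_ (by positivity)
    refine mul_le_mul_of_nonneg_left (max_le ?_ hAn) (by positivity)
    linarith
  refine ⟨v, hv0, hP, fun t => ?_⟩
  have hrow : ∀ s, ∑ i, A s i * v i = 0 := fun s => congrFun hAv s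
  have h1 := real_form v (fun i => (E t i).re) Q hQ _ hP (hrow (Sum.inl t))
  have h2 := real_form v (fun i => (E t i).im) Q hQ _ hP (hrow (Sum.inr t))
  have e1 : (∑ i, (v i : ℂ) * E t i).re = ∑ i, (v i : ℝ) * (E t i).re := by
    rw [Complex.re_sum]
    refine Finset.sum_congr rfl fun i _ => ?_
    simp
  have e2 : (∑ i, (v i : ℂ) * E t i).im = ∑ i, (v i : ℝ) * (E t i).im := by
    rw [Complex.im_sum]
    refine Finset.sum_congr rfl fun i _ => ?_
    simp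
  refine (Complex.norm_le_abs_re_add_abs_im _).trans ?_
  rw [e1, e2]
  linarith

/-- coefficients -/
noncomputable def E (β x : ℂ) (t i j : ℕ) : ℂ :=
  PowerSeries.coeff t (phi β ^ i * PowerSeries.rescale x (phi β) ^ j)

lemma gam_eq (L : ℕ) (p : ℕ → ℕ → ℤ) (β x : ℂ) (t : ℕ) :
    gam L p β x t = ∑ i ∈ range (L + 1), ∑ j ∈ range (L + 1), (p i j : ℂ) * E β x t i j := by
  unfold gam gamS
  rw [map_sum]
  refine Finset.sum_congr rfl fun i _ => ?_
  rw [map_sum]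
  refine Finset.sum_congr rfl fun j _ => ?_
  rw [mul_assoc, PowerSeries.coeff_C_mul]
  rfl

lemma E_bound (hTay : SpecTay) (L : ℕ) (M : ℝ) (hM : 1 ≤ M) (β x : ℂ) (hβ : ‖β‖ ≤ M)
    (hx : ‖x‖ ≤ M) (t i j : ℕ) (hi : i ≤ L) (hj : j ≤ L) :
    ‖E β x t i j‖ ≤ (L + 1) ^ 2 * (12 * M ^ 2) ^ t := by
  have h := hTay.size L 1 M (fun i' j' => if i' = i ∧ j' = j then 1 else 0) t β x
    (by
      intro i' j'
      split_ifs <;> simp) hM hβ hx
  rw [gam_eq, Finset.sum_eq_single_of_mem i (Finset.mem_range.2 (by omega)),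
    Finset.sum_eq_single_of_mem j (Finset.mem_range.2 (by omega))] at h
  · simpa using h
  · intro j' _ hne
    simp [hne]
  · intro i' _ hne
    simp [hne]

lemma exp_one_ge_two : (2 : ℝ) ≤ Real.exp 1 := by
  have := Real.add_one_le_exp (1 : ℝ)
  linarith

lemma pow_nat_le_exp (a : ℝ) (b : ℝ) (h0 : 0 ≤ a) (h : a ≤ Real.exp b) (n : ℕ) :
    a ^ n ≤ Real.exp (b * n) := by
  rw [mul_comm, Real.exp_nat_mul]
  exact pow_le_pow_left₀ h0 h n

end Sieg

open Sieg in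
/-- SIEG -/
theorem specSieg (hLiou : SpecLiou) (hTay : SpecTay) : SpecSieg := by
  obtain ⟨c0, hL⟩ := hLiou
  intro M hM
  set m : ℕ := 12 * M ^ 2 with hm
  refine ⟨(c0 + 5 + (m + 3)) + 1, fun D L T hD hT hDL β x hβ hx hβD hxD => ?_⟩
  set c1 : ℕ := c0 + 5 + (m + 3) with hc1
  have hM' : (1 : ℝ) ≤ M := by exact_mod_cast hM
  have hD' : (2 : ℝ) ≤ D := by exact_mod_cast hD
  have hT' : (1 : ℝ) ≤ T := by exact_mod_cast hT
  have hDc0 : (1 : ℝ) ≤ (D : ℝ) ^ c0 := one_le_pow₀ (by linarith)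
  -- sizes of the parameters
  have hpos : 1 ≤ D ^ (c1 + 1) * T := Nat.one_le_iff_ne_zero.2
    (mul_ne_zero (pow_ne_zero _ (by omega)) (by omega))
  have hL1 : 1 ≤ L := by
    rcases Nat.eq_zero_or_pos L with h | h
    · rw [h] at hDL
      simp at hDL
      omega
    · exact h
  have hL1' : (1 : ℝ) ≤ L := by exact_mod_cast hL1
  have hlogL : 0 ≤ Real.log L := Real.log_nonneg hL1'
  set ℓ : ℝ := 1 + Real.log L with hℓd
  have hℓ : 1 ≤ ℓ := by linarith
  have hTℓ : 1 ≤ (T : ℝ) * ℓ := one_le_mul_of_one_le_of_one_le hT' hℓ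
  have hTle : (T : ℝ) ≤ T * ℓ := le_mul_of_one_le_right (by linarith) hℓ
  have hℓle : ℓ ≤ T * ℓ := le_mul_of_one_le_left (by linarith) hT'
  have hDL' : (D : ℝ) ^ (c1 + 1) * T ≤ (L : ℝ) ^ 2 := by exact_mod_cast hDL
  -- powers
  have hpow1 : (64 : ℝ) * (D : ℝ) ^ c0 ≤ (D : ℝ) ^ (c1 + 1) := by
    have h1 : (D : ℝ) ^ (c1 + 1) = (D : ℝ) ^ (6 + (m + 3)) * (D : ℝ) ^ c0 := by
      rw [← pow_add, hc1]
      congr 1
      ring
    rw [h1]
    refine mul_le_mul_of_nonneg_right ?_ (by positivity)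
    calc (64 : ℝ) = 2 ^ 6 := by norm_num
      _ ≤ (D : ℝ) ^ 6 := pow_le_pow_left₀ (by norm_num) hD' 6
      _ ≤ (D : ℝ) ^ (6 + (m + 3)) := pow_le_pow_right₀ (by linarith) (by omega)
  have hpow2 : (32 : ℝ) * (D : ℝ) ^ c0 ≤ (D : ℝ) ^ c1 := by
    have h1 : (D : ℝ) ^ c1 = (D : ℝ) ^ (5 + (m + 3)) * (D : ℝ) ^ c0 := by
      rw [← pow_add, hc1]
      congr 1
      ring
    rw [h1]
    refine mul_le_mul_of_nonneg_right ?_ (by positivity)
    calc (32 : ℝ) = 2 ^ 5 := by norm_num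
      _ ≤ (D : ℝ) ^ 5 := pow_le_pow_left₀ (by norm_num) hD' 5
      _ ≤ (D : ℝ) ^ (5 + (m + 3)) := pow_le_pow_right₀ (by linarith) (by omega)
  have hpow3 : ((6 : ℝ) + m) ≤ (D : ℝ) ^ c1 := by
    have h1 : 6 + m ≤ 2 ^ (m + 3) := by
      have : m < 2 ^ m := Nat.lt_two_pow_self
      have h2 : 2 ^ (m + 3) = 2 ^ m * 8 := by rw [pow_add]; norm_num
      omega
    have h1' : ((6 : ℝ) + m) ≤ 2 ^ (m + 3) := by exact_mod_cast h1
    calc ((6 : ℝ) + m) ≤ 2 ^ (m + 3) := h1'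
      _ ≤ (D : ℝ) ^ (m + 3) := pow_le_pow_left₀ (by norm_num) hD' _
      _ ≤ (D : ℝ) ^ c1 := pow_le_pow_right₀ (by linarith) (by omega)
  have hL2 : (T : ℝ) ≤ (L : ℝ) ^ 2 := by
    refine le_trans ?_ hDL'
    refine le_mul_of_one_le_left (by linarith) (one_le_pow₀ (by linarith))
  -- the exponents
  set Y : ℝ := (D : ℝ) ^ c1 * (T * ℓ) with hY
  have hY0 : 0 ≤ Y := by positivity
  set Q : ℕ := ⌈Real.exp Y⌉₊ with hQd
  have hQ1 : Real.exp Y ≤ Q := Nat.le_ceil _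
  have hexpY : 1 ≤ Real.exp Y := Real.one_le_exp hY0
  have hQ2 : (Q : ℝ) ≤ Real.exp (Y + 1) := by
    have h1 : (Q : ℝ) < Real.exp Y + 1 := Nat.ceil_lt_add_one (Real.exp_nonneg _)
    rw [Real.exp_add]
    nlinarith [exp_one_ge_two]
  have hQ : 1 ≤ Q := by
    have : (1 : ℝ) ≤ Q := hexpY.trans hQ1
    exact_mod_cast this
  -- the estimates
  have f0 : Real.exp ℓ = Real.exp 1 * L := by
    rw [hℓd, Real.exp_add, Real.exp_log (by linarith)]
  have f1 : ((L : ℝ) + 1) ^ 2 ≤ Real.exp (2 * ℓ) := by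
    have h1 : Real.exp (2 * ℓ) = Real.exp ℓ ^ 2 := by
      rw [← Real.exp_nat_mul]
      norm_num
    rw [h1, f0]
    refine pow_le_pow_left₀ (by positivity) ?_ 2
    nlinarith [exp_one_ge_two]
  have f2 : (12 * (M : ℝ) ^ 2) ^ T ≤ Real.exp (m * T) := by
    refine pow_nat_le_exp _ _ (by positivity) ?_ T
    have h1 : (12 * (M : ℝ) ^ 2) = (m : ℝ) := by rw [hm]; push_cast; ring
    rw [h1]
    linarith [Real.add_one_le_exp (m : ℝ)]
  have f3 : (T.factorial : ℝ) ≤ Real.exp (2 * (T * ℓ)) := by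
    have h1 : (T.factorial : ℝ) ≤ (T : ℝ) ^ T := by exact_mod_cast Nat.factorial_le_pow T
    have h2 : (T : ℝ) ≤ Real.exp (2 * ℓ) := by
      have h3 : (L : ℝ) ^ 2 ≤ (L + 1 : ℝ) ^ 2 := pow_le_pow_left₀ (by linarith) (by linarith) 2
      linarith
    refine h1.trans ((pow_nat_le_exp _ _ (by linarith) h2 T).trans (le_of_eq ?_))
    congr 1
    ring
  have f4 : ((T : ℝ) + 1) ≤ Real.exp T := Real.add_one_le_exp _
  have f5 : (6 : ℝ) ^ T ≤ Real.exp (2 * T) := by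
    refine pow_nat_le_exp _ _ (by norm_num) ?_ T
    have h1 : Real.exp 2 = Real.exp 1 ^ 2 := by
      rw [← Real.exp_nat_mul]
      norm_num
    rw [h1]
    have h2 := Real.exp_one_gt_d9
    nlinarith
  set n : ℕ := Fintype.card (Fin (L + 1) × Fin (L + 1)) with hnd
  have hn : (n : ℝ) = ((L : ℝ) + 1) ^ 2 := by
    rw [hnd, Fintype.card_prod, Fintype.card_fin]
    push_cast
    ring
  have hnL : (L : ℝ) ^ 2 ≤ n := by
    rw [hn]
    exact pow_le_pow_left₀ (by linarith) (by linarith) 2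
  have hn64 : 64 * (D : ℝ) ^ c0 * T ≤ n := by
    calc 64 * (D : ℝ) ^ c0 * T ≤ (D : ℝ) ^ (c1 + 1) * T :=
          mul_le_mul_of_nonneg_right hpow1 (by linarith)
      _ ≤ n := hDL'.trans hnL
  have hDT : (T : ℝ) ≤ (D : ℝ) ^ c0 * T := le_mul_of_one_le_left (by linarith) hDc0
  have hn2T : 32 * ((D : ℝ) ^ c0 * T) ≤ n - 2 * T := by linarith
  have hnpos : (0 : ℝ) < n - 2 * T := by linarith
  have hncard : 2 * T < n := by
    have : (2 * T : ℝ) < n := by linarith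
    exact_mod_cast this
  set K : ℝ := ((L : ℝ) + 1) ^ 2 * (12 * (M : ℝ) ^ 2) ^ T with hK
  have h12 : (1 : ℝ) ≤ 12 * (M : ℝ) ^ 2 := by nlinarith
  have hK1 : 1 ≤ K := by
    refine one_le_mul_of_one_le_of_one_le ?_ (one_le_pow₀ h12)
    exact one_le_pow₀ (by linarith)
  have hK2 : K ≤ Real.exp (2 * ℓ + m * T) := by
    rw [Real.exp_add]
    exact mul_le_mul f1 f2 (by positivity) (Real.exp_nonneg _)
  obtain ⟨v, hv0, hvP, hvE⟩ := forms T hT (ι := Fin (L + 1) × Fin (L + 1)) hncard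
    (fun t s => E β x t s.1 s.2) K hK1 (fun t s => by
      refine (E_bound hTay L M hM' β x hβ hx t s.1 s.2 (by have := s.1.2; omega)
        (by have := s.2.2; omega)).trans ?_
      refine mul_le_mul_of_nonneg_left ?_ (by positivity)
      exact pow_le_pow_right₀ h12 t.2.le) Q hQ
  rw [← hnd] at hvP hvE
  set κ : ℝ := (2 * T : ℝ) / (n - 2 * T) with hκ
  have hκ0 : 0 ≤ κ := by positivity
  have hκ1 : κ * (16 * (D : ℝ) ^ c0) ≤ 1 := by
    rw [hκ, div_mul_eq_mul_div, div_le_one hnpos]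
    linarith
  set P0 : ℝ := ((n : ℝ) * (2 * Q * K)) ^ κ with hP0
  set B : ℝ := κ * (Y + (6 + m) * (T * ℓ)) with hB
  have hB0 : 0 ≤ B := by positivity
  have hP0B : P0 ≤ Real.exp B := by
    have h1 : (n : ℝ) * (2 * Q * K) ≤ Real.exp (Y + (6 + m) * (T * ℓ)) := by
      have h2 : (n : ℝ) * (2 * Q * K) ≤
          Real.exp (2 * ℓ) * (Real.exp 1 * Real.exp (Y + 1) * Real.exp (2 * ℓ + m * T)) := by
        rw [hn]
        gcongr
        exact exp_one_ge_two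
      refine h2.trans ?_
      rw [← Real.exp_add, ← Real.exp_add, ← Real.exp_add, Real.exp_le_exp]
      have h3 : (m : ℝ) * T ≤ m * (T * ℓ) := mul_le_mul_of_nonneg_left hTle (by positivity)
      linarith
    rw [hP0, hB, mul_comm κ, Real.exp_mul]
    exact Real.rpow_le_rpow (by positivity) h1 hκ0
  have hP0nn : 0 ≤ P0 := by positivity
  have hBY : B ≤ κ * (2 * Y) := by
    refine mul_le_mul_of_nonneg_left ?_ hκ0
    have : (6 + (m : ℝ)) * (T * ℓ) ≤ Y := mul_le_mul_of_nonneg_right hpow3 (by linarith)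
    linarith
  have hBD : B * (D : ℝ) ^ c0 ≤ Y / 8 := by
    calc B * (D : ℝ) ^ c0 ≤ κ * (2 * Y) * (D : ℝ) ^ c0 :=
          mul_le_mul_of_nonneg_right hBY (by positivity)
      _ = (κ * (16 * (D : ℝ) ^ c0)) * (Y / 8) := by ring
      _ ≤ 1 * (Y / 8) := mul_le_mul_of_nonneg_right hκ1 (by positivity)
      _ = Y / 8 := one_mul _
  have hBY' : B ≤ Y / 8 := (le_mul_of_one_le_right hB0 hDc0).trans hBD
  have hYD : 32 * ((D : ℝ) ^ c0 * (T * ℓ)) ≤ Y := by
    rw [hY, ← mul_assoc]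
    exact mul_le_mul_of_nonneg_right hpow2 (by linarith)
  have hTℓD : (T : ℝ) * ℓ ≤ (D : ℝ) ^ c0 * (T * ℓ) := le_mul_of_one_le_left (by linarith) hDc0
  -- the polynomial
  set p : ℕ → ℕ → ℤ := fun i j => if h : i < L + 1 ∧ j < L + 1 then v (⟨i, h.1⟩, ⟨j, h.2⟩) else 0
    with hp
  have hpv : ∀ s : Fin (L + 1) × Fin (L + 1), p s.1 s.2 = v s := by
    intro s
    have h : (s.1 : ℕ) < L + 1 ∧ (s.2 : ℕ) < L + 1 := ⟨s.1.2, s.2.2⟩
    simp only [hp, dif_pos h]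
  have hpP : ∀ i j, |(p i j : ℝ)| ≤ P0 := by
    intro i j
    by_cases h : i < L + 1 ∧ j < L + 1
    · simp only [hp, dif_pos h]
      exact hvP _
    · simp only [hp, dif_neg h]
      simpa using hP0nn
  refine ⟨p, ?_, ?_, ?_⟩
  · obtain ⟨s, hs⟩ := Function.ne_iff.1 hv0
    refine ⟨s.1, s.2, by have := s.1.2; omega, by have := s.2.2; omega, ?_⟩
    rw [hpv]
    exact hs
  · intro i j
    refine (hpP i j).trans (hP0B.trans (Real.exp_le_exp.2 ?_))
    have h1 : Y ≤ (D : ℝ) ^ (c1 + 1) * (T * ℓ) := by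
      refine mul_le_mul_of_nonneg_right ?_ (by linarith)
      exact pow_le_pow_right₀ (by linarith) (by omega)
    have h2 : (D : ℝ) ^ (c1 + 1) * T * ℓ = (D : ℝ) ^ (c1 + 1) * (T * ℓ) := by ring
    rw [h2]
    linarith
  · intro t ht
    have hgam : gam L p β x t = ∑ s, (v s : ℂ) * E β x t s.1 s.2 := by
      rw [gam_eq, Fintype.sum_prod_type]
      rw [← Fin.sum_univ_eq_sum_range
        (fun i => ∑ j ∈ range (L + 1), (p i j : ℂ) * E β x t i j) (L + 1)]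
      refine Finset.sum_congr rfl fun i _ => ?_
      rw [← Fin.sum_univ_eq_sum_range (fun j => (p i j : ℂ) * E β x t i j) (L + 1)]
      refine Finset.sum_congr rfl fun j _ => ?_
      rw [← hpv (i, j)]
    have hsmall := hvE ⟨t, ht⟩
    simp only at hsmall
    rw [← hgam] at hsmall
    obtain ⟨R, hR1, hR2, hR3⟩ := hTay.poly L P0 p hpP t
    have htT : (t.factorial : ℝ) ≤ T.factorial := by
      exact_mod_cast Nat.factorial_le ht.le
    have htT1 : ((t : ℝ) + 1) ≤ T + 1 := by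
      have : (t : ℝ) ≤ T := by exact_mod_cast ht.le
      linarith
    have ht6 : (6 : ℝ) ^ t ≤ 6 ^ T := pow_le_pow_right₀ (by norm_num) ht.le
    have hcs : (coefSum R : ℝ) ≤ Real.exp (B + 7 * (T * ℓ)) := by
      refine hR2.trans ?_
      have h1 : ((L : ℝ) + 1) ^ 2 * P0 * (t.factorial * (t + 1) * 6 ^ t) ≤
          Real.exp (2 * ℓ) * Real.exp B *
            (Real.exp (2 * (T * ℓ)) * Real.exp T * Real.exp (2 * T)) := by
        gcongr
        · exact htT.trans f3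
        · exact htT1.trans f4
        · exact ht6.trans f5
      refine h1.trans ?_
      rw [← Real.exp_add, ← Real.exp_add, ← Real.exp_add, ← Real.exp_add, Real.exp_le_exp]
      linarith
    rcases hL D (2 * T) (B + 7 * (T * ℓ)) hD (by linarith) β x hβD hxD R
      (hR1.trans (by omega)) hcs with h0 | h0
    · rw [hR3] at h0
      rcases mul_eq_zero.1 h0 with h1 | h1
      · exact absurd h1 (by exact_mod_cast t.factorial_ne_zero)
      · exact h1
    · exfalso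
      rw [hR3, norm_mul, Complex.norm_natCast] at h0
      have h1 : (t.factorial : ℝ) * ‖gam L p β x t‖ ≤
          Real.exp (2 * (T * ℓ)) * (Real.exp 1 * (Real.exp (2 * ℓ) * Real.exp B / Real.exp Y)) := by
        refine mul_le_mul (htT.trans f3) (hsmall.trans ?_) (norm_nonneg _) (Real.exp_nonneg _)
        rw [hn]
        gcongr
        exact exp_one_ge_two
      have h2 := h0.trans h1
      rw [← Real.exp_add, ← Real.exp_sub, ← Real.exp_add, ← Real.exp_add, Real.exp_le_exp] at h2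
      push_cast at h2
      have h3 : (D : ℝ) ^ c0 * (2 * T + (B + 7 * (T * ℓ)) + 1) ≤
          B * (D : ℝ) ^ c0 + 10 * ((D : ℝ) ^ c0 * (T * ℓ)) := by
        have h4 : (2 * T + (B + 7 * (T * ℓ)) + 1 : ℝ) ≤ B + 10 * (T * ℓ) := by linarith
        calc (D : ℝ) ^ c0 * (2 * T + (B + 7 * (T * ℓ)) + 1) ≤
              (D : ℝ) ^ c0 * (B + 10 * (T * ℓ)) := mul_le_mul_of_nonneg_left h4 (by positivity)
          _ = _ := by ring
      linarith

end Pool.Agent.Lib.MP_47914d_nt.Sn
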