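import Pool.Agent.Lib.MP_47914d_nt.Sn.Spec
import Mathlib.RingTheory.Polynomial.Resultant.Basic
import Mathlib.RingTheory.Polynomial.GaussLemma

/-!
ZALG: elimination of one variable by the resultant (MP_47914d_nt).
-/

set_option autoImplicit false

open Polynomial Finset

namespace Pool.Agent.Lib.MP_47914d_nt.Sn.Zalg

/-- The ring homomorphism `X₀ ↦ C X`, `X₁ ↦ X`. -/
noncomputable def F : MvPolynomial (Fin 2) ℂ →+* ℂ[X][X] :=
  MvPolynomial.eval₂Hom ((C : ℂ[X] →+* ℂ[X][X]).comp (C : ℂ →+* ℂ[X])) ![C X, X]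

/-- The inverse. -/
noncomputable def G : ℂ[X][X] →+* MvPolynomial (Fin 2) ℂ :=
  Polynomial.eval₂RingHom (Polynomial.eval₂RingHom MvPolynomial.C (MvPolynomial.X 0))
    (MvPolynomial.X 1)

lemma FG (p : ℂ[X][X]) : F (G p) = p := by
  have h : F.comp G = RingHom.id _ := by
    apply Polynomial.ringHom_ext'
    · apply Polynomial.ringHom_ext'
      · ext a
        simp [F, G]
      · simp [F, G]
    · simp [F, G]
  exact congrArg (fun f => f p) h

lemma GF (p : MvPolynomial (Fin 2) ℂ) : G (F p) = p := by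
  have h : G.comp F = RingHom.id _ := by
    apply MvPolynomial.ringHom_ext
    · intro r
      simp [F, G]
    · intro i
      fin_cases i <;> simp [F, G]
  exact congrArg (fun f => f p) h

/-- The equivalence. -/
noncomputable def e : MvPolynomial (Fin 2) ℂ ≃+* ℂ[X][X] where
  toFun := F
  invFun := G
  left_inv := GF
  right_inv := FG
  map_mul' := map_mul F
  map_add' := map_add F

lemma G_C (R : ℂ[X]) : G (C R) = R.toMvPolynomial (0 : Fin 2) := by
  simp only [G, coe_eval₂RingHom, eval₂_C]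
  rw [Polynomial.toMvPolynomial]
  simp [Polynomial.aeval_def, MvPolynomial.algebraMap_eq]

lemma F_monomial (m : Fin 2 →₀ ℕ) (a : ℂ) :
    F (MvPolynomial.monomial m a) = C (C a * X ^ m 0) * X ^ m 1 := by
  simp only [F, MvPolynomial.coe_eval₂Hom, MvPolynomial.eval₂_monomial, RingHom.comp_apply]
  rw [Finsupp.prod_fintype _ _ (by simp)]
  simp [Fin.prod_univ_two, mul_assoc]

lemma F_eq (P : MvPolynomial (Fin 2) ℂ) :
    F P = ∑ m ∈ P.support, C (C (P.coeff m) * X ^ m 0) * X ^ m 1 := by
  conv_lhs => rw [P.as_sum, map_sum]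
  exact Finset.sum_congr rfl fun m _ => F_monomial m _

lemma deg_le {P : MvPolynomial (Fin 2) ℂ} {m : Fin 2 →₀ ℕ} (hm : m ∈ P.support) (i : Fin 2) :
    m i ≤ P.totalDegree := by
  have h := MvPolynomial.le_totalDegree hm
  have h2 : m i ≤ m.sum fun _ e => e := by
    by_cases hi : i ∈ m.support
    · exact Finset.single_le_sum (f := fun j => m j) (fun _ _ => Nat.zero_le _) hi
    · rw [Finsupp.notMem_support_iff.mp hi]
      exact Nat.zero_le _
  exact h2.trans h

lemma natDegree_F (P : MvPolynomial (Fin 2) ℂ) : (F P).natDegree ≤ P.totalDegree := by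
  rw [F_eq]
  apply Polynomial.natDegree_sum_le_of_forall_le
  intro m hm
  refine (natDegree_C_mul_X_pow_le _ _).trans (deg_le hm 1)

lemma coeff_F (P : MvPolynomial (Fin 2) ℂ) (k : ℕ) :
    ((F P).coeff k).natDegree ≤ P.totalDegree := by
  rw [F_eq, Polynomial.finsetSum_coeff]
  apply Polynomial.natDegree_sum_le_of_forall_le
  intro m hm
  rw [coeff_C_mul_X_pow]
  split_ifs
  · exact (natDegree_C_mul_X_pow_le _ _).trans (deg_le hm 0)
  · simp

/-- Degree of the resultant. -/
lemma natDegree_resultant (f g : ℂ[X][X]) (m n a b : ℕ) (hf : ∀ k, (f.coeff k).natDegree ≤ a)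
    (hg : ∀ k, (g.coeff k).natDegree ≤ b) :
    (resultant f g m n).natDegree ≤ m * b + n * a := by
  rw [resultant, Matrix.det_apply]
  apply Polynomial.natDegree_sum_le_of_forall_le
  intro σ _
  have h1 : (∏ i, sylvester f g m n (σ i) i).natDegree ≤ m * b + n * a := by
    refine (Polynomial.natDegree_prod_le _ _).trans ?_
    rw [Fin.sum_univ_add]
    have h2 : ∀ i : Fin m,
        (sylvester f g m n (σ (Fin.castAdd n i)) (Fin.castAdd n i)).natDegree ≤ b := by
      intro i
      simp only [sylvester, Matrix.of_apply, Fin.addCases_left]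
      split_ifs
      · exact hg _
      · simp
    have h3 : ∀ i : Fin n,
        (sylvester f g m n (σ (Fin.natAdd m i)) (Fin.natAdd m i)).natDegree ≤ a := by
      intro i
      simp only [sylvester, Matrix.of_apply, Fin.addCases_right]
      split_ifs
      · exact hf _
      · simp
    calc _ ≤ ∑ _i : Fin m, b + ∑ _i : Fin n, a :=
          Nat.add_le_add (Finset.sum_le_sum fun i _ => h2 i) (Finset.sum_le_sum fun i _ => h3 i)
      _ = m * b + n * a := by simp
  refine le_trans ?_ h1
  rcases Int.units_eq_one_or (Equiv.Perm.sign σ) with h | h <;> rw [h] <;> simp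

lemma coprime_of {K : Type*} [Field K] {p q : K[X]} (hp : Irreducible p) (h : ¬ p ∣ q) :
    IsCoprime p q := (hp.coprime_iff_not_dvd).mpr h

lemma resultant_ne' (K : Type) [Field K] [Algebra ℂ[X] K] [IsFractionRing ℂ[X] K]
    (f g : ℂ[X][X]) (hf : Irreducible f) (hd : f.natDegree ≠ 0)
    (hfg : ¬ f ∣ g) : resultant f g ≠ 0 := by
  intro h0
  have hg0 : g ≠ 0 := by
    rintro rfl
    exact hfg (dvd_zero f)
  have hinj : Function.Injective (algebraMap ℂ[X] K) :=
    IsFractionRing.injective ℂ[X] K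
  have hprim : f.IsPrimitive := hf.isPrimitive hd
  have hirr : Irreducible (f.map (algebraMap ℂ[X] K)) :=
    (hprim.irreducible_iff_irreducible_map_fraction_map).mp hf
  have hres : resultant (f.map (algebraMap ℂ[X] K))
      (g.map (algebraMap ℂ[X] K)) = 0 := by
    rw [natDegree_map_eq_of_injective hinj, natDegree_map_eq_of_injective hinj,
      resultant_map_map, h0, map_zero]
  rw [resultant_eq_zero_iff] at hres
  have hcop := hres.2
  have hdvd : f.map (algebraMap ℂ[X] K) ∣
      g.map (algebraMap ℂ[X] K) := by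
    by_contra hnd
    exact hcop (coprime_of hirr hnd)
  obtain ⟨q, hq⟩ := hdvd
  obtain ⟨b, hb, hb2⟩ := IsLocalization.integerNormalization_spec (nonZeroDivisors ℂ[X]) q
  have hmul : C b * g = f * IsLocalization.integerNormalization (nonZeroDivisors ℂ[X]) q := by
    apply Polynomial.map_injective _ hinj
    rw [Polynomial.map_mul, Polynomial.map_mul, hb2, hq, Polynomial.map_C, Algebra.smul_def]
    rw [IsScalarTower.algebraMap_apply ℂ[X] K K[X],
      Polynomial.algebraMap_eq]
    ring
  have hb0 : b ≠ 0 := nonZeroDivisors.ne_zero hb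
  have hpr : Prime f := hf.prime
  rcases hpr.dvd_or_dvd (Dvd.intro _ hmul.symm) with h | h
  · have hc : (C b : ℂ[X][X]) ≠ 0 := by simpa using hb0
    have := Polynomial.natDegree_le_of_dvd h hc
    rw [natDegree_C] at this
    omega
  · exact hfg h

lemma resultant_ne (f g : ℂ[X][X]) (hf : Irreducible f) (hd : f.natDegree ≠ 0)
    (hfg : ¬ f ∣ g) : resultant f g ≠ 0 :=
  resultant_ne' (FractionRing ℂ[X]) f g hf hd hfg

lemma pderiv_toMv (R : ℂ[X]) :
    MvPolynomial.pderiv 1 (R.toMvPolynomial (0 : Fin 2)) = 0 := by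
  induction R using Polynomial.induction_on' with
  | add p q hp hq => simp [hp, hq]
  | monomial n a =>
    rw [← C_mul_X_pow_eq_monomial]
    simp [Polynomial.toMvPolynomial, MvPolynomial.algebraMap_eq]

lemma natDegree_ne (P : MvPolynomial (Fin 2) ℂ) (h : MvPolynomial.pderiv 1 P ≠ 0) :
    (F P).natDegree ≠ 0 := by
  intro h0
  apply h
  rw [natDegree_eq_zero] at h0
  obtain ⟨R, hR⟩ := h0
  have hP : P = R.toMvPolynomial (0 : Fin 2) := by
    rw [← GF P, ← hR, G_C]
  rw [hP]
  exact pderiv_toMv R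

end Pool.Agent.Lib.MP_47914d_nt.Sn.Zalg

namespace Pool.Agent.Lib.MP_47914d_nt.Sn

open Zalg

theorem specZalg : SpecZalg := by
  intro P Q d hP hPQ hdP hdQ hp
  have hf : Irreducible (F P) := (MulEquiv.irreducible_iff (e : MvPolynomial (Fin 2) ℂ ≃* ℂ[X][X])).mpr hP
  have hd := natDegree_ne P hp
  have hfg : ¬ F P ∣ F Q := by
    rintro ⟨c, hc⟩
    apply hPQ
    refine ⟨G c, ?_⟩
    rw [← GF Q, hc, map_mul, GF]
  have hne := resultant_ne (F P) (F Q) hf hd hfg
  obtain ⟨p, q, -, -, hpq⟩ := exists_mul_add_mul_eq_C_resultant (F P) (F Q) le_rfl le_rfl (Or.inl hd)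
  refine ⟨G p, G q, resultant (F P) (F Q), hne, ?_, ?_⟩
  · refine (natDegree_resultant (F P) (F Q) _ _ d (2 * d + 1) (fun k => (coeff_F P k).trans hdP)
      (fun k => (coeff_F Q k).trans hdQ)).trans ?_
    have h1 : (F P).natDegree ≤ d := (natDegree_F P).trans hdP
    have h2 : (F Q).natDegree ≤ 2 * d + 1 := (natDegree_F Q).trans hdQ
    have h3 : 1 ≤ d := by omega
    calc (F P).natDegree * (2 * d + 1) + (F Q).natDegree * d
        ≤ d * (2 * d + 1) + (2 * d + 1) * d :=
          Nat.add_le_add (Nat.mul_le_mul_right _ h1) (Nat.mul_le_mul_right _ h2)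
      _ ≤ 6 * d ^ 2 := by nlinarith
  · rw [← G_C, ← hpq, map_add, map_mul, map_mul, GF, GF]
    ring

end Pool.Agent.Lib.MP_47914d_nt.Sn
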