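import Pool.Agent.Lib.MP_47914d_nt.Sn.Spec

section
/-!
SCHW: the Schwarz lemma for periodic functions with small Taylor coefficients.
-/
set_option autoImplicit false

open Complex Filter Topology Finset
open scoped Real

namespace Pool.Agent.Lib.MP_47914d_nt.Sn.Schw

/-- Taylor coefficients at `0`. -/
noncomputable def tc (n : ℕ) (f : ℂ → ℂ) : ℂ := iteratedDeriv n f 0 / n.factorial

lemma tc_congr {f g : ℂ → ℂ} (h : f =ᶠ[𝓝 0] g) (n : ℕ) : tc n f = tc n g := by
  unfold tc
  rw [h.iteratedDeriv_eq]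

lemma tc_add {f g : ℂ → ℂ} (hf : AnalyticAt ℂ f 0) (hg : AnalyticAt ℂ g 0) (n : ℕ) :
    tc n (fun z => f z + g z) = tc n f + tc n g := by
  unfold tc
  rw [iteratedDeriv_fun_add hf.contDiffAt hg.contDiffAt, add_div]

lemma tc_sum {ι : Type} (s : Finset ι) {f : ι → ℂ → ℂ} (hf : ∀ i ∈ s, AnalyticAt ℂ (f i) 0)
    (n : ℕ) : tc n (fun z => ∑ i ∈ s, f i z) = ∑ i ∈ s, tc n (f i) := by
  unfold tc
  rw [iteratedDeriv_fun_sum (fun i hi => (hf i hi).contDiffAt), Finset.sum_div]

lemma tc_smul (c : ℂ) (f : ℂ → ℂ) (_hf : AnalyticAt ℂ f 0) (n : ℕ) :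
    tc n (fun z => c * f z) = c * tc n f := by
  unfold tc
  rw [iteratedDeriv_const_mul_field, mul_div_assoc]

lemma tc_zero_of {h : ℂ → ℂ} (hh : AnalyticAt ℂ h 0) {t n : ℕ} (ht : t < n) :
    tc t (fun z => z ^ n * h z) = 0 := by
  have h1 : AnalyticAt ℂ (fun z : ℂ => z ^ n * h z) 0 := by fun_prop
  have h2 : (n : ℕ∞) ≤ analyticOrderAt (fun z : ℂ => z ^ n * h z) 0 := by
    rw [natCast_le_analyticOrderAt h1]
    exact ⟨h, hh, by simp⟩
  rw [natCast_le_analyticOrderAt_iff_iteratedDeriv_eq_zero h1] at h2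
  unfold tc
  rw [h2 t ht, zero_div]

lemma tc_taylor {f : ℂ → ℂ} (hf : AnalyticAt ℂ f 0) (n : ℕ) :
    ∃ F : ℂ → ℂ, AnalyticAt ℂ F 0 ∧
      f =ᶠ[𝓝 0] fun z => (∑ i ∈ range n, tc i f * z ^ i) + z ^ n * F z := by
  obtain ⟨F, hF, h⟩ := hf.exists_eventuallyEq_sum_add_pow_mul n
  refine ⟨F, hF, ?_⟩
  filter_upwards [h] with z hz
  rw [hz]
  congr 1
  refine Finset.sum_congr rfl fun i _ => ?_
  unfold tc
  simp only [smul_eq_mul]
  ring

lemma tc_pow (n m : ℕ) : tc n (fun z => z ^ m) = if n = m then 1 else 0 := by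
  unfold tc
  rw [iteratedDeriv_fun_pow_zero]
  split_ifs with h
  · rw [h, div_self]
    exact_mod_cast Nat.factorial_ne_zero m
  · simp

lemma tc_pow_mul {h : ℂ → ℂ} (hh : AnalyticAt ℂ h 0) (n : ℕ) :
    tc n (fun z => z ^ n * h z) = h 0 := by
  obtain ⟨F, hF, hT⟩ := tc_taylor hh 1
  have h1 : (fun z => z ^ n * h z) =ᶠ[𝓝 0] fun z => h 0 * z ^ n + z ^ (n + 1) * F z := by
    filter_upwards [hT] with z hz
    rw [hz]
    simp only [Finset.sum_range_one, pow_zero, mul_one, pow_one]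
    have : tc 0 h = h 0 := by simp [tc]
    rw [this]
    ring
  rw [tc_congr h1, tc_add (by fun_prop) (by fun_prop), tc_smul _ _ (by fun_prop), tc_pow,
    tc_zero_of hF (Nat.lt_succ_self n)]
  simp

lemma norm_tc_le {f : ℂ → ℂ} {R C : ℝ} (n : ℕ) (hR : 0 < R)
    (hf : ∀ z : ℂ, ‖z‖ ≤ R → DifferentiableAt ℂ f z) (hC : ∀ z : ℂ, ‖z‖ = R → ‖f z‖ ≤ C) :
    ‖tc n f‖ ≤ C / R ^ n := by
  have h1 : DiffContOnCl ℂ f (Metric.ball 0 R) := by
    apply DifferentiableOn.diffContOnCl
    intro z hz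
    have h2 := Metric.closure_ball_subset_closedBall hz
    exact (hf z (by simpa using h2)).differentiableWithinAt
  have h2 := norm_iteratedDeriv_le_of_forall_mem_sphere_norm_le n hR h1
    (fun z hz => hC z (by simpa using hz))
  unfold tc
  rw [norm_div, div_le_iff₀ (by simp; positivity)]
  refine h2.trans (le_of_eq ?_)
  simp
  ring

lemma geom_le {x : ℝ} (hx : 3 ≤ x) (T : ℕ) : ∑ t ∈ range T, 2 * x ^ t ≤ x ^ T := by
  induction T with
  | zero => simp
  | succ n ih =>
    rw [Finset.sum_range_succ]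
    have h1 : 0 ≤ x ^ n := by positivity
    have h2 : x ^ (n + 1) = x * x ^ n := by ring
    nlinarith

/-- First conversion: coefficients in `s = e ^ (2 π i u) - 1`. -/
lemma coeff_le {G g : ℂ → ℂ} (hG : Differentiable ℂ G)
    (hgG : g =ᶠ[𝓝 0] fun s => G (log (1 + s) / (2 * π * I))) {T : ℕ} {ε : ℝ} (hε : 0 ≤ ε)
    (hT : ∀ t < T, ‖tc t G‖ ≤ ε) {t : ℕ} (ht : t < T) : ‖tc t g‖ ≤ ε * 2 ^ (t + 1) := by
  obtain ⟨F, hF, hFG⟩ := tc_taylor (hG.analyticAt 0) T
  set l : ℂ → ℂ := fun s => log (1 + s) / (2 * π * I) with hl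
  have hl0 : l 0 = 0 := by simp [hl]
  have hla : AnalyticAt ℂ l 0 := by
    refine AnalyticAt.div ?_ (by fun_prop) (by simp [Real.pi_ne_zero])
    exact AnalyticAt.clog (by fun_prop) (by simp)
  obtain ⟨k, hk, hlk⟩ := tc_taylor hla 1
  have hl1 : l =ᶠ[𝓝 0] fun s => s * k s := by
    filter_upwards [hlk] with s hs
    rw [hs]
    have : tc 0 l = 0 := by simp [tc, hl0]
    simp [this]
  have hcomp : ∀ᶠ s in 𝓝 (0 : ℂ), G (l s) =
      (∑ i ∈ range T, tc i G * (l s) ^ i) + (l s) ^ T * F (l s) := by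
    have h1 : Tendsto l (𝓝 0) (𝓝 0) := by
      have := hla.continuousAt.tendsto
      rwa [hl0] at this
    exact h1.eventually hFG
  have hFl : AnalyticAt ℂ (fun s => F (l s)) 0 := by
    refine AnalyticAt.fun_comp ?_ hla
    rwa [hl0]
  have h2 : g =ᶠ[𝓝 0] fun s => (∑ i ∈ range T, tc i G * (l s) ^ i) +
      s ^ T * ((k s) ^ T * F (l s)) := by
    filter_upwards [hgG, hcomp, hl1] with s hs1 hs2 hs3
    rw [hs1]
    change G (l s) = _
    rw [hs2]
    congr 1
    rw [← mul_assoc, ← mul_pow]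
    congr 2
  have hkF : AnalyticAt ℂ (fun s => (k s) ^ T * F (l s)) 0 := (hk.fun_pow T).fun_mul hFl
  have hkF2 : AnalyticAt ℂ (fun s => s ^ T * ((k s) ^ T * F (l s))) 0 :=
    (analyticAt_id.fun_pow T).fun_mul hkF
  rw [tc_congr h2, tc_add (by fun_prop) hkF2, tc_zero_of hkF ht, add_zero,
    tc_sum _ (fun i _ => by fun_prop)]
  have h3 : ∀ i ∈ range T, ‖tc t (fun s => tc i G * (l s) ^ i)‖ ≤ ε * 2 ^ t * (1 / 2) ^ i := by
    intro i hi
    rw [tc_smul _ _ (by fun_prop), norm_mul]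
    have h4 : ‖tc t (fun s => (l s) ^ i)‖ ≤ (1 / 2) ^ i / (1 / 2) ^ t := by
      refine norm_tc_le t (by norm_num) ?_ ?_
      · intro z hz
        have h5 : (1 + z) ∈ slitPlane := by
          left
          have h6 := abs_re_le_norm z
          have h7 := neg_abs_le z.re
          simp only [add_re, one_re]
          linarith
        have h8 : DifferentiableAt ℂ l z := by
          refine DifferentiableAt.div_const ?_ _
          exact DifferentiableAt.clog (by fun_prop) h5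
        exact h8.pow i
      · intro z hz
        rw [norm_pow]
        refine pow_le_pow_left₀ (norm_nonneg _) ?_ i
        have h9 := norm_log_one_add_half_le_self (z := z) hz.le
        rw [hl]
        simp only [norm_div, norm_mul, norm_ofNat, norm_real, norm_I, mul_one,
          Real.norm_eq_abs, abs_of_pos Real.pi_pos]
        rw [div_le_iff₀ (by positivity)]
        have := Real.pi_gt_three
        rw [hz] at h9
        linarith
    have h5 := hT i (Finset.mem_range.mp hi)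
    have h6 : ((1 : ℝ) / 2) ^ i / (1 / 2) ^ t = 2 ^ t * (1 / 2) ^ i := by
      rw [one_div, inv_pow, inv_pow]
      field_simp
    rw [h6] at h4
    calc ‖tc i G‖ * ‖tc t (fun s => (l s) ^ i)‖ ≤ ε * (2 ^ t * (1 / 2) ^ i) :=
          mul_le_mul h5 h4 (norm_nonneg _) hε
      _ = _ := by ring
  refine (norm_sum_le_of_le _ h3).trans ?_
  rw [← Finset.mul_sum]
  have h7 : ∑ i ∈ range T, ((1 : ℝ) / 2) ^ i ≤ 2 := by
    have : ∀ n : ℕ, ∑ i ∈ range n, ((1 : ℝ) / 2) ^ i ≤ 2 - 2 * (1 / 2) ^ n := by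
      intro n
      induction n with
      | zero => norm_num
      | succ n ih =>
        rw [Finset.sum_range_succ]
        have h8 : ((1 : ℝ) / 2) ^ (n + 1) = (1 / 2) ^ n / 2 := by ring
        have h9 : (0 : ℝ) ≤ (1 / 2) ^ n := by positivity
        rw [h8]
        linarith
    have h8 := this T
    have h9 : (0 : ℝ) ≤ (1 / 2) ^ T := by positivity
    linarith
  calc ε * 2 ^ t * ∑ i ∈ range T, ((1 : ℝ) / 2) ^ i ≤ ε * 2 ^ t * 2 := by gcongr
    _ = _ := by ring

/-- Second conversion. -/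
lemma coeff_ge {G g : ℂ → ℂ} (hg : AnalyticAt ℂ g 0)
    (hgG : ∀ u, g (cexp (2 * π * I * u) - 1) = G u) (T : ℕ) :
    ‖tc T G‖ ≤ ∑ i ∈ range (T + 1), ‖tc i g‖ * (2 ^ i * 7 ^ T) := by
  obtain ⟨F, hF, hFg⟩ := tc_taylor hg (T + 1)
  set e : ℂ → ℂ := fun u => cexp (2 * π * I * u) - 1 with he
  have he0 : e 0 = 0 := by simp [he]
  have hea : AnalyticAt ℂ e 0 := by
    rw [he]
    fun_prop
  obtain ⟨k, hk, hek⟩ := tc_taylor hea 1
  have he1 : e =ᶠ[𝓝 0] fun s => s * k s := by
    filter_upwards [hek] with s hs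
    rw [hs]
    have : tc 0 e = 0 := by simp [tc, he0]
    simp [this]
  have hcomp : ∀ᶠ u in 𝓝 (0 : ℂ), g (e u) =
      (∑ i ∈ range (T + 1), tc i g * (e u) ^ i) + (e u) ^ (T + 1) * F (e u) := by
    have h1 : Tendsto e (𝓝 0) (𝓝 0) := by
      have := hea.continuousAt.tendsto
      rwa [he0] at this
    exact h1.eventually hFg
  have hFl : AnalyticAt ℂ (fun s => F (e s)) 0 := by
    refine AnalyticAt.fun_comp ?_ hea
    rwa [he0]
  have h2 : G =ᶠ[𝓝 0] fun s => (∑ i ∈ range (T + 1), tc i g * (e s) ^ i) +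
      s ^ (T + 1) * ((k s) ^ (T + 1) * F (e s)) := by
    filter_upwards [hcomp, he1] with s hs2 hs3
    rw [← hgG s]
    change g (e s) = _
    rw [hs2]
    congr 1
    rw [← mul_assoc, ← mul_pow]
    congr 2
  have hkF : AnalyticAt ℂ (fun s => (k s) ^ (T + 1) * F (e s)) 0 :=
    (hk.fun_pow (T + 1)).fun_mul hFl
  have hkF2 : AnalyticAt ℂ (fun s => s ^ (T + 1) * ((k s) ^ (T + 1) * F (e s))) 0 :=
    (analyticAt_id.fun_pow (T + 1)).fun_mul hkF
  rw [tc_congr h2, tc_add (by fun_prop) hkF2, tc_zero_of hkF (Nat.lt_succ_self T), add_zero,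
    tc_sum _ (fun i _ => by fun_prop)]
  refine norm_sum_le_of_le _ fun i hi => ?_
  rw [tc_smul _ _ (by fun_prop), norm_mul]
  refine mul_le_mul_of_nonneg_left ?_ (norm_nonneg _)
  have hpi := Real.pi_pos
  have h4 : ‖tc T (fun s => (e s) ^ i)‖ ≤ 2 ^ i / (1 / (2 * π)) ^ T := by
    refine norm_tc_le T (by positivity) ?_ ?_
    · intro z hz
      rw [he]
      fun_prop
    · intro z hz
      rw [norm_pow]
      refine pow_le_pow_left₀ (norm_nonneg _) ?_ i
      have h5 : ‖2 * (π : ℂ) * I * z‖ = 1 := by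
        simp only [norm_mul, norm_ofNat, norm_real, norm_I, mul_one, Real.norm_eq_abs,
          abs_of_pos hpi, hz]
        field_simp
      have h6 := norm_exp_sub_one_le h5.le
      rw [h5, mul_one] at h6
      exact h6
  refine h4.trans ?_
  rw [one_div, inv_pow, div_inv_eq_mul]
  have h7 : 2 * π ≤ 7 := by linarith [Real.pi_lt_d2]
  gcongr

/-- The bound on the circles. -/
lemma circ {g E : ℂ → ℂ} {T : ℕ} {M ε a : ℝ} (hε : 0 ≤ ε) (hM : 0 ≤ M) (ha : 2 ≤ a)
    (hc : ∀ t < T, ‖tc t g‖ ≤ ε * 2 ^ (t + 1)) {q : ℂ}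
    (hE : g (q - 1) = (∑ i ∈ range T, tc i g * (q - 1) ^ i) + (q - 1) ^ T * E (q - 1))
    (hg : ‖g (q - 1)‖ ≤ M) (hq : ‖q‖ = a ^ 2 ∨ ‖q‖ = (a ^ 2)⁻¹) :
    ‖E (q - 1) ^ 2 * q ^ T‖ ≤ (8 ^ T * (M * (a ^ T)⁻¹ + ε * a ^ T)) ^ 2 := by
  have ha0 : 0 < a := by linarith
  have ha1 : 1 ≤ a := by linarith
  have hsum : ∀ x : ℝ, 3 ≤ 2 * x → ‖q - 1‖ ≤ x →
      ‖∑ i ∈ range T, tc i g * (q - 1) ^ i‖ ≤ ε * (2 * x) ^ T := by
    intro x hx hqx
    have h1 : ∀ i ∈ range T, ‖tc i g * (q - 1) ^ i‖ ≤ ε * (2 * (2 * x) ^ i) := by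
      intro i hi
      rw [norm_mul, norm_pow]
      have h2 := hc i (Finset.mem_range.mp hi)
      have h3 : ‖q - 1‖ ^ i ≤ x ^ i := pow_le_pow_left₀ (norm_nonneg _) hqx i
      calc ‖tc i g‖ * ‖q - 1‖ ^ i ≤ (ε * 2 ^ (i + 1)) * x ^ i :=
            mul_le_mul h2 h3 (by positivity) (by positivity)
        _ = _ := by ring
    refine (norm_sum_le_of_le _ h1).trans ?_
    rw [← Finset.mul_sum]
    exact mul_le_mul_of_nonneg_left (geom_le hx T) hε
  have hmul : ∀ x : ℝ, 3 ≤ 2 * x → ‖q - 1‖ ≤ x →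
      ‖q - 1‖ ^ T * ‖E (q - 1)‖ ≤ M + ε * (2 * x) ^ T := by
    intro x hx hqx
    have h1 : (q - 1) ^ T * E (q - 1) = g (q - 1) - ∑ i ∈ range T, tc i g * (q - 1) ^ i := by
      rw [hE]; ring
    rw [← norm_pow, ← norm_mul, h1]
    exact (norm_sub_le _ _).trans (add_le_add hg (hsum x hx hqx))
  have hup : ‖q - 1‖ ≤ ‖q‖ + 1 := by
    have := norm_sub_le q 1
    simpa using this
  have hlow1 : ‖q‖ - 1 ≤ ‖q - 1‖ := by
    have := norm_sub_norm_le q 1
    simpa using this
  have hlow2 : 1 - ‖q‖ ≤ ‖q - 1‖ := by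
    have := norm_sub_norm_le 1 q
    rw [norm_sub_rev]
    simpa using this
  have haT : 0 < a ^ T := by positivity
  have haT1 : 1 ≤ a ^ T := one_le_pow₀ ha1
  have key : ∀ b : ℝ, 0 ≤ b → b ^ 2 = ‖q‖ ^ T →
      ‖E (q - 1)‖ * b ≤ 8 ^ T * (M * (a ^ T)⁻¹ + ε * a ^ T) →
      ‖E (q - 1) ^ 2 * q ^ T‖ ≤ (8 ^ T * (M * (a ^ T)⁻¹ + ε * a ^ T)) ^ 2 := by
    intro b hb hb2 h
    rw [norm_mul, norm_pow, norm_pow, ← hb2, ← mul_pow]
    exact pow_le_pow_left₀ (by positivity) h 2
  rcases hq with hq | hq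
  · refine key (a ^ T) haT.le (by rw [hq]; ring) ?_
    have h1 := hmul (2 * a ^ 2) (by nlinarith) (by nlinarith)
    have h2 : a ^ 2 / 2 ≤ ‖q - 1‖ := by nlinarith
    have h3 : (a ^ 2 / 2) ^ T ≤ ‖q - 1‖ ^ T := pow_le_pow_left₀ (by positivity) h2 T
    have h4 : (a ^ 2 / 2) ^ T * ‖E (q - 1)‖ ≤ M + ε * (2 * (2 * a ^ 2)) ^ T :=
      (mul_le_mul_of_nonneg_right h3 (norm_nonneg _)).trans h1
    have h5 : (a ^ 2 / 2) ^ T = a ^ T * a ^ T / 2 ^ T := by
      rw [div_pow]; ring
    have h6 : (2 * (2 * a ^ 2)) ^ T = 4 ^ T * (a ^ T * a ^ T) := by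
      rw [show 2 * (2 * a ^ 2) = 4 * (a * a) by ring, mul_pow, mul_pow]
    rw [h5, h6] at h4
    have h7 : a ^ T * ‖E (q - 1)‖ ≤ 2 ^ T * (M * (a ^ T)⁻¹ + ε * (4 ^ T * a ^ T)) := by
      have h8 : a ^ T * ‖E (q - 1)‖ = 2 ^ T * (a ^ T)⁻¹ * (a ^ T * a ^ T / 2 ^ T * ‖E (q - 1)‖) := by
        field_simp
      rw [h8]
      calc 2 ^ T * (a ^ T)⁻¹ * (a ^ T * a ^ T / 2 ^ T * ‖E (q - 1)‖)
          ≤ 2 ^ T * (a ^ T)⁻¹ * (M + ε * (4 ^ T * (a ^ T * a ^ T))) :=
            mul_le_mul_of_nonneg_left h4 (by positivity)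
        _ = _ := by field_simp
    have h9 : (8 : ℝ) ^ T = 2 ^ T * 4 ^ T := by
      rw [← mul_pow]; norm_num
    have h10 : (1 : ℝ) ≤ 4 ^ T := one_le_pow₀ (by norm_num)
    have h11 : 0 ≤ M * (a ^ T)⁻¹ := by positivity
    rw [mul_comm]
    refine h7.trans ?_
    rw [h9, mul_assoc]
    refine mul_le_mul_of_nonneg_left ?_ (by positivity)
    nlinarith
  · have hinv : (a ^ 2)⁻¹ ≤ 1 / 2 := by
      rw [inv_eq_one_div, div_le_div_iff₀ (by positivity) (by norm_num)]
      nlinarith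
    refine key ((a ^ T)⁻¹) (by positivity) (by rw [hq]; simp only [← inv_pow, ← pow_mul, mul_comm]) ?_
    have h1 := hmul 2 (by norm_num) (by rw [hq] at hup; linarith)
    have h2 : 1 / 2 ≤ ‖q - 1‖ := by rw [hq] at hlow2; linarith
    have h3 : (1 / 2) ^ T ≤ ‖q - 1‖ ^ T := pow_le_pow_left₀ (by positivity) h2 T
    have h4 : (1 / 2) ^ T * ‖E (q - 1)‖ ≤ M + ε * (2 * 2) ^ T :=
      (mul_le_mul_of_nonneg_right h3 (norm_nonneg _)).trans h1
    have h5 : ‖E (q - 1)‖ ≤ 2 ^ T * (M + ε * (2 * 2) ^ T) := by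
      have h6 : ‖E (q - 1)‖ = 2 ^ T * ((1 / 2) ^ T * ‖E (q - 1)‖) := by
        rw [one_div, inv_pow]
        field_simp
      rw [h6]
      exact mul_le_mul_of_nonneg_left h4 (by positivity)
    have h9 : (8 : ℝ) ^ T = 2 ^ T * 4 ^ T := by
      rw [← mul_pow]; norm_num
    have h10 : (1 : ℝ) ≤ 4 ^ T := one_le_pow₀ (by norm_num)
    have h11 : (a ^ T)⁻¹ ≤ a ^ T := (inv_le_one_of_one_le₀ haT1).trans haT1
    calc ‖E (q - 1)‖ * (a ^ T)⁻¹ ≤ 2 ^ T * (M + ε * (2 * 2) ^ T) * (a ^ T)⁻¹ :=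
          mul_le_mul_of_nonneg_right h5 (by positivity)
      _ = 2 ^ T * (M * (a ^ T)⁻¹ + ε * (4 ^ T * (a ^ T)⁻¹)) := by
          norm_num
          ring
      _ ≤ 2 ^ T * (4 ^ T * (M * (a ^ T)⁻¹) + ε * (4 ^ T * a ^ T)) := by
          have h12 : 0 ≤ M * (a ^ T)⁻¹ := by positivity
          exact mul_le_mul_of_nonneg_left (add_le_add (le_mul_of_one_le_left h12 h10)
            (mul_le_mul_of_nonneg_left (mul_le_mul_of_nonneg_left h11 (by positivity)) hε))
            (by positivity)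
      _ = _ := by rw [h9]; ring

lemma main {g : ℂ → ℂ} {T : ℕ} {M ε a : ℝ} (hε : 0 ≤ ε) (hM : 0 ≤ M) (ha : 2 ≤ a)
    (hgd : ∀ s : ℂ, 1 + s ≠ 0 → DifferentiableAt ℂ g s)
    (hc : ∀ t < T, ‖tc t g‖ ≤ ε * 2 ^ (t + 1))
    (hg : ∀ q : ℂ, ‖q‖ = a ^ 2 ∨ ‖q‖ = (a ^ 2)⁻¹ → ‖g (q - 1)‖ ≤ M) :
    ‖tc T g‖ ≤ 8 ^ T * (M * (a ^ T)⁻¹ + ε * a ^ T) := by
  have hga : AnalyticAt ℂ g 0 := by
    have hopen : IsOpen {s : ℂ | 1 + s ≠ 0} := isOpen_ne_fun (by fun_prop) (by fun_prop)
    have hd : DifferentiableOn ℂ g {s : ℂ | 1 + s ≠ 0} := fun s hs =>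
      (hgd s hs).differentiableWithinAt
    exact hd.analyticAt (hopen.mem_nhds (by simp))
  obtain ⟨F, hF, hFg⟩ := tc_taylor hga T
  have hF0 : tc T g = F 0 := by
    rw [tc_congr hFg, tc_add (by fun_prop) (by fun_prop), tc_pow_mul hF,
      tc_sum _ (fun i _ => by fun_prop)]
    rw [Finset.sum_eq_zero, zero_add]
    intro i hi
    rw [tc_smul _ _ (by fun_prop), tc_pow, if_neg, mul_zero]
    have := Finset.mem_range.mp hi
    omega
  set E : ℂ → ℂ := fun s => if s = 0 then F 0 else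
    (g s - ∑ i ∈ range T, tc i g * s ^ i) / s ^ T with hE
  have hE0 : E 0 = F 0 := by simp [hE]
  have hEs : ∀ s : ℂ, s ≠ 0 → E s = (g s - ∑ i ∈ range T, tc i g * s ^ i) / s ^ T := by
    intro s hs
    simp [hE, hs]
  have hEF : E =ᶠ[𝓝 0] F := by
    filter_upwards [hFg] with s hs
    by_cases h0 : s = 0
    · rw [h0, hE0]
    · rw [hEs s h0, hs]
      field_simp
      ring
  have hEd : ∀ s : ℂ, 1 + s ≠ 0 → DifferentiableAt ℂ E s := by
    intro s hs
    by_cases h0 : s = 0
    · rw [h0]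
      exact (hF.differentiableAt).congr_of_eventuallyEq hEF
    · have h1 : E =ᶠ[𝓝 s] fun s => (g s - ∑ i ∈ range T, tc i g * s ^ i) / s ^ T := by
        filter_upwards [isOpen_ne.mem_nhds h0] with z hz
        exact hEs z hz
      refine DifferentiableAt.congr_of_eventuallyEq ?_ h1
      refine DifferentiableAt.div ?_ (by fun_prop) (pow_ne_zero _ h0)
      exact (hgd s hs).sub (by fun_prop)
  have ha0 : 0 < a := by linarith
  have hinv : (a ^ 2)⁻¹ ≤ 1 / 2 := by
    rw [inv_eq_one_div, div_le_div_iff₀ (by positivity) (by norm_num)]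
    nlinarith
  set U : Set ℂ := {q : ℂ | (a ^ 2)⁻¹ < ‖q‖ ∧ ‖q‖ < a ^ 2} with hU
  have hUo : IsOpen U := (isOpen_lt continuous_const continuous_norm).inter
    (isOpen_lt continuous_norm continuous_const)
  have hUc : closure U ⊆ {q : ℂ | (a ^ 2)⁻¹ ≤ ‖q‖ ∧ ‖q‖ ≤ a ^ 2} := by
    refine closure_minimal (fun q hq => ⟨hq.1.le, hq.2.le⟩) ?_
    exact (isClosed_le continuous_const continuous_norm).inter
      (isClosed_le continuous_norm continuous_const)
  have hUf : ∀ q ∈ frontier U, ‖q‖ = a ^ 2 ∨ ‖q‖ = (a ^ 2)⁻¹ := by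
    intro q hq
    rw [hUo.frontier_eq] at hq
    have h1 := hUc hq.1
    have h2 := hq.2
    rcases h1.2.lt_or_eq with h3 | h3
    · right
      by_contra h4
      exact h2 ⟨lt_of_le_of_ne h1.1 (Ne.symm h4), h3⟩
    · left; exact h3
  have hUb : Bornology.IsBounded U := by
    refine (Metric.isBounded_ball (x := (0 : ℂ)) (r := a ^ 2)).subset fun q hq => ?_
    simpa using hq.2
  have hd : DiffContOnCl ℂ (fun q => E (q - 1) ^ 2 * q ^ T) U := by
    apply DifferentiableOn.diffContOnCl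
    intro q hq
    have h1 := hUc hq
    have h2 : q ≠ 0 := by
      intro h
      rw [h, Set.mem_ofPred_eq, norm_zero] at h1
      have : (0 : ℝ) < (a ^ 2)⁻¹ := by positivity
      linarith [h1.1]
    have h3 : DifferentiableAt ℂ E (q - 1) := hEd _ (by simpa using h2)
    have h4 : DifferentiableAt ℂ (fun q => E (q - 1)) q :=
      DifferentiableAt.fun_comp' q h3 (by fun_prop)
    exact ((h4.pow 2).mul (by fun_prop)).differentiableWithinAt
  have hmax := norm_le_of_forall_mem_frontier_norm_le hUb hd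
    (C := (8 ^ T * (M * (a ^ T)⁻¹ + ε * a ^ T)) ^ 2) (z := 1) ?_ ?_
  · simp only [sub_self, one_pow, mul_one, norm_pow] at hmax
    rw [hF0, ← hE0]
    exact (pow_le_pow_iff_left₀ (norm_nonneg _) (by positivity) (by norm_num)).mp hmax
  · intro q hq
    have h1 := hUf q hq
    refine circ hε hM ha hc ?_ (hg q h1) h1
    have h2 : q - 1 ≠ 0 := by
      intro h
      have h3 : q = 1 := by linear_combination h
      rw [h3, norm_one] at h1
      rcases h1 with h1 | h1
      · nlinarith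
      · linarith
    rw [hEs _ h2]
    field_simp
    ring
  · refine subset_closure ⟨?_, ?_⟩
    · rw [norm_one]; linarith
    · rw [norm_one]; nlinarith

end Pool.Agent.Lib.MP_47914d_nt.Sn.Schw

namespace Pool.Agent.Lib.MP_47914d_nt.Sn

open Schw in
/-- SCHW. -/
theorem specSchw : SpecSchw := by
  intro G T R M ε hG hper hR hε hM hT
  have hpi := Real.pi_pos
  have hpi3 := Real.pi_gt_three
  have hM0 : 0 ≤ M := by
    refine (norm_nonneg _).trans (hM ((R : ℂ) * I) ?_)
    simp only [mul_im, ofReal_re, I_im, mul_one, ofReal_im, I_re, mul_zero, add_zero]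
    exact abs_of_pos (by linarith)
  set g : ℂ → ℂ := fun s => Function.Periodic.cuspFunction 1 G (1 + s) with hg
  have hper' : Function.Periodic G (1 : ℝ) := by
    intro u
    simpa using hper u
  have hq : ∀ u : ℂ, Function.Periodic.qParam 1 u = cexp (2 * π * I * u) := by
    intro u
    simp [Function.Periodic.qParam]
  have hgG : ∀ u, g (cexp (2 * π * I * u) - 1) = G u := by
    intro u
    simp only [hg, add_sub_cancel]
    rw [← hq]
    exact Function.Periodic.eq_cuspFunction one_ne_zero hper' u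
  have hsurj : ∀ q : ℂ, q ≠ 0 → cexp (2 * π * I * (log q / (2 * π * I))) = q := by
    intro q h0
    rw [mul_div_cancel₀ _ two_pi_I_ne_zero, exp_log h0]
  have hgd : ∀ s : ℂ, 1 + s ≠ 0 → DifferentiableAt ℂ g s := by
    intro s hs
    have h1 := Function.Periodic.differentiableAt_cuspFunction (h := 1) one_ne_zero hper'
      (hG (log (1 + s) / (2 * π * I)))
    rw [hq, hsurj _ hs] at h1
    exact DifferentiableAt.fun_comp' s h1 (by fun_prop)
  have hgG' : g =ᶠ[𝓝 0] fun s => G (log (1 + s) / (2 * π * I)) := by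
    have hopen : IsOpen {s : ℂ | 1 + s ≠ 0} := isOpen_ne_fun (by fun_prop) (by fun_prop)
    filter_upwards [hopen.mem_nhds (show (0 : ℂ) ∈ {s : ℂ | 1 + s ≠ 0} by simp)] with s hs
    rw [← hgG, hsurj _ hs]
    ring_nf
  have hga : AnalyticAt ℂ g 0 := by
    have hopen : IsOpen {s : ℂ | 1 + s ≠ 0} := isOpen_ne_fun (by fun_prop) (by fun_prop)
    have hd : DifferentiableOn ℂ g {s : ℂ | 1 + s ≠ 0} := fun s hs =>
      (hgd s hs).differentiableWithinAt
    exact hd.analyticAt (hopen.mem_nhds (by simp))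
  have hT' : ∀ t < T, ‖tc t G‖ ≤ ε := hT
  have hc : ∀ t < T, ‖tc t g‖ ≤ ε * 2 ^ (t + 1) := fun t ht => coeff_le hG hgG' hε hT' ht
  set a : ℝ := Real.exp (π * R) with ha
  have ha2 : 2 ≤ a := by
    have := Real.add_one_le_exp (π * R)
    nlinarith
  have haT : Real.exp (π * R * T) = a ^ T := by
    rw [ha, ← Real.exp_nat_mul]
    ring_nf
  have haT' : Real.exp (-(π * R * T)) = (a ^ T)⁻¹ := by
    rw [Real.exp_neg, haT]
  have hgM : ∀ q : ℂ, ‖q‖ = a ^ 2 ∨ ‖q‖ = (a ^ 2)⁻¹ → ‖g (q - 1)‖ ≤ M := by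
    intro q hq1
    have ha0 : 0 < a := by linarith
    have h0 : q ≠ 0 := by
      intro h
      rw [h, norm_zero] at hq1
      rcases hq1 with h1 | h1
      · exact absurd h1.symm (by positivity)
      · exact absurd h1.symm (by positivity)
    rw [← hsurj q h0, hgG]
    apply hM
    set u := log q / (2 * π * I) with hu
    have h1 : ‖q‖ = Real.exp (-(2 * π * u.im)) := by
      rw [← hsurj q h0, norm_exp, ← hu]
      congr 1
      simp
    have h2 : a ^ 2 = Real.exp (2 * π * R) := by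
      rw [ha, ← Real.exp_nat_mul]
      congr 1
      push_cast
      ring
    rw [h1, h2, ← Real.exp_neg] at hq1
    have hR0 : 0 < R := by linarith
    rcases hq1 with h3 | h3
    · have h4 := Real.exp_injective h3
      have h5 : u.im = -R := by
        have : 2 * π * (u.im + R) = 0 := by linarith
        rcases mul_eq_zero.mp this with h6 | h6
        · exact absurd h6 (by positivity)
        · linarith
      rw [h5, abs_neg, abs_of_pos hR0]
    · have h4 := Real.exp_injective h3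
      have h5 : u.im = R := by
        have : 2 * π * (u.im - R) = 0 := by linarith
        rcases mul_eq_zero.mp this with h6 | h6
        · exact absurd h6 (by positivity)
        · linarith
      rw [h5, abs_of_pos hR0]
  have hmain := main hε hM0 ha2 hgd hc hgM
  have hge := coeff_ge hga hgG T
  change ‖tc T G‖ ≤ _
  rw [haT, haT']
  set B := M * (a ^ T)⁻¹ + ε * a ^ T with hB
  have haT1 : 1 ≤ a ^ T := one_le_pow₀ (by linarith)
  have hεB : ε ≤ B := by
    have h1 : 0 ≤ M * (a ^ T)⁻¹ := by positivity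
    nlinarith
  have hB0 : 0 ≤ B := hε.trans hεB
  refine hge.trans ?_
  rw [Finset.sum_range_succ]
  have h1 : ∀ i ∈ range T, ‖tc i g‖ * (2 ^ i * 7 ^ T) ≤ B * 7 ^ T * (2 * 4 ^ i) := by
    intro i hi
    have h2 := hc i (Finset.mem_range.mp hi)
    calc ‖tc i g‖ * (2 ^ i * 7 ^ T) ≤ (B * 2 ^ (i + 1)) * (2 ^ i * 7 ^ T) := by
          refine mul_le_mul_of_nonneg_right (h2.trans ?_) (by positivity)
          exact mul_le_mul_of_nonneg_right hεB (by positivity)
      _ = B * 7 ^ T * (2 * (2 * 2) ^ i) := by rw [mul_pow]; ring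
      _ = _ := by norm_num
  have h2 : ∑ i ∈ range T, ‖tc i g‖ * (2 ^ i * 7 ^ T) ≤ B * 7 ^ T * 4 ^ T := by
    refine (Finset.sum_le_sum h1).trans ?_
    rw [← Finset.mul_sum]
    exact mul_le_mul_of_nonneg_left (geom_le (by norm_num) T) (by positivity)
  have h3 : ‖tc T g‖ * (2 ^ T * 7 ^ T) ≤ B * 112 ^ T := by
    calc ‖tc T g‖ * (2 ^ T * 7 ^ T) ≤ (8 ^ T * B) * (2 ^ T * 7 ^ T) :=
          mul_le_mul_of_nonneg_right hmain (by positivity)
      _ = B * (8 * 2 * 7) ^ T := by rw [mul_pow, mul_pow]; ring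
      _ = _ := by norm_num
  have hexp1 : ∀ x : ℝ, 0 ≤ x → 1 + x ≤ Real.exp x := fun x _ => by
    linarith [Real.add_one_le_exp x]
  rcases Nat.eq_zero_or_pos T with h0 | h0
  · subst h0
    simp only [Finset.range_zero, Finset.sum_empty, zero_add, pow_zero, mul_one] at h3 ⊢
    simpa using h3
  · have h4 : (256 : ℝ) ^ T ≤ Real.exp (10 * T) := by
      have h5 : (256 : ℝ) ≤ Real.exp 10 := by
        have h6 : (2 : ℝ) ≤ Real.exp 1 := by linarith [Real.add_one_le_exp (1 : ℝ)]
        have h7 : (2 : ℝ) ^ 10 ≤ (Real.exp 1) ^ 10 := pow_le_pow_left₀ (by norm_num) h6 10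
        rw [← Real.exp_nat_mul] at h7
        norm_num at h7
        linarith
      calc (256 : ℝ) ^ T ≤ (Real.exp 10) ^ T := pow_le_pow_left₀ (by norm_num) h5 T
        _ = _ := by rw [← Real.exp_nat_mul]; ring_nf
    have h5 : (7 : ℝ) ^ T * 4 ^ T + 112 ^ T ≤ 256 ^ T := by
      have h6 : (7 : ℝ) ^ T * 4 ^ T ≤ 112 ^ T := by
        rw [← mul_pow]
        exact pow_le_pow_left₀ (by norm_num) (by norm_num) T
      have h7 : (2 : ℝ) * 112 ^ T ≤ 2 ^ T * 112 ^ T := by
        refine mul_le_mul_of_nonneg_right ?_ (by positivity)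
        calc (2 : ℝ) = 2 ^ 1 := by norm_num
          _ ≤ 2 ^ T := pow_le_pow_right₀ (by norm_num) h0
      have h8 : (2 : ℝ) ^ T * 112 ^ T ≤ 256 ^ T := by
        rw [← mul_pow]
        exact pow_le_pow_left₀ (by norm_num) (by norm_num) T
      linarith
    calc ∑ i ∈ range T, ‖tc i g‖ * (2 ^ i * 7 ^ T) + ‖tc T g‖ * (2 ^ T * 7 ^ T)
        ≤ B * 7 ^ T * 4 ^ T + B * 112 ^ T := add_le_add h2 h3
      _ = (7 ^ T * 4 ^ T + 112 ^ T) * B := by ring
      _ ≤ Real.exp (10 * T) * B := mul_le_mul_of_nonneg_right (h5.trans h4) hB0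

end Pool.Agent.Lib.MP_47914d_nt.Sn
end

section
/-!
TAY: the formal elliptic function.
-/
set_option autoImplicit false

open Complex Filter Topology Polynomial Finset
open scoped Real

namespace Pool.Agent.Lib.MP_47914d_nt.Sn.Tay

/-- The integral polynomial `s ! [v ^ s] φ`. -/
noncomputable def Ep (s : ℕ) : ℤ[X] := if Even s then Cp (s / 2) else 0

lemma Cp_zero : Cp 0 = 0 := by rw [Cp]

lemma Cp_one : Cp 1 = 2 := by rw [Cp]

lemma Cp_add_two (k : ℕ) : Cp (k + 2) = 4 * Cp (k + 1) + 6 * X * ∑ i ∈ range (k + 2),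
    ((2 * (k + 1)).choose (2 * i) : ℤ[X]) * Cp i * Cp (k + 1 - i) := by
  rw [Cp, Finset.sum_range]

lemma Ep_zero : Ep 0 = 0 := by simp [Ep, Cp_zero]

lemma Ep_two : Ep 2 = 2 := by simp [Ep, Cp_one]

lemma Ep_odd {s : ℕ} (h : ¬ Even s) : Ep s = 0 := by simp [Ep, h]

lemma sum_even {M : Type} [AddCommMonoid M] (F : ℕ → M) (hF : ∀ a, ¬ Even a → F a = 0) (m : ℕ) :
    ∑ a ∈ range (2 * m + 1), F a = ∑ i ∈ range (m + 1), F (2 * i) := by
  induction m with
  | zero => simp
  | succ m ih =>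
    rw [show 2 * (m + 1) + 1 = (2 * m + 1) + 1 + 1 by ring, Finset.sum_range_succ,
      Finset.sum_range_succ, ih, Finset.sum_range_succ _ (m + 1), hF (2 * m + 1) (by grind),
      add_zero]
    rfl

/-- The recursion for all indices. -/
lemma Ep_rec {n : ℕ} (hn : n ≠ 0) : Ep (n + 2) = 4 * Ep n + 6 * X * ∑ ab ∈ antidiagonal n,
    (n.choose ab.1 : ℤ[X]) * Ep ab.1 * Ep ab.2 := by
  by_cases he : Even n
  · obtain ⟨m, hm⟩ := he
    obtain ⟨k, rfl⟩ : ∃ k, m = k + 1 := ⟨m - 1, by omega⟩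
    have hn2 : n = 2 * (k + 1) := by omega
    subst hn2
    have h1 : Ep (2 * (k + 1) + 2) = Cp (k + 2) := by
      rw [Ep, if_pos (by exact ⟨k + 2, by ring⟩)]
      congr 1
      omega
    have h2 : Ep (2 * (k + 1)) = Cp (k + 1) := by
      rw [Ep, if_pos (by exact ⟨k + 1, by ring⟩)]
      congr 1
      omega
    rw [h1, h2, Cp_add_two, Finset.Nat.sum_antidiagonal_eq_sum_range_succ
      (fun a b => ((2 * (k + 1)).choose a : ℤ[X]) * Ep a * Ep b), Nat.succ_eq_add_one, sum_even]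
    · congr 2
      refine Finset.sum_congr rfl fun i hi => ?_
      have hi' := Finset.mem_range.mp hi
      have h3 : Ep (2 * i) = Cp i := by
        rw [Ep, if_pos (by exact ⟨i, by ring⟩)]
        congr 1
        omega
      have h4 : Ep (2 * (k + 1) - 2 * i) = Cp (k + 1 - i) := by
        rw [Ep, if_pos (by exact ⟨k + 1 - i, by omega⟩)]
        congr 1
        omega
      rw [h3, h4]
    · intro a ha
      rw [Ep_odd ha]
      simp
  · have h1 : Ep (n + 2) = 0 := Ep_odd (by grind)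
    rw [h1, Ep_odd he, Finset.sum_eq_zero]
    · simp
    · intro ab hab
      have h2 := Finset.HasAntidiagonal.mem_antidiagonal.mp hab
      by_cases h3 : Even ab.1
      · have h4 : ¬ Even ab.2 := by grind
        rw [Ep_odd h4, mul_zero]
      · rw [Ep_odd h3]
        simp

lemma coeff_phi (β : ℂ) (n : ℕ) :
    PowerSeries.coeff n (phi β) = aeval β (Ep n) / (n.factorial : ℂ) := by
  rw [phi, PowerSeries.coeff_mk, Ep]
  split_ifs <;> simp

lemma fac_coeff_phi (β : ℂ) (n : ℕ) :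
    (n.factorial : ℂ) * PowerSeries.coeff n (phi β) = aeval β (Ep n) := by
  rw [coeff_phi, mul_div_cancel₀]
  exact_mod_cast Nat.factorial_ne_zero n

lemma coeff_phi_zero (β : ℂ) : PowerSeries.coeff 0 (phi β) = 0 := by
  rw [coeff_phi, Ep_zero]; simp

lemma coeff_phi_one (β : ℂ) : PowerSeries.coeff 1 (phi β) = 0 := by
  rw [coeff_phi, Ep_odd (by decide)]; simp

lemma coeff_phi_two (β : ℂ) : PowerSeries.coeff 2 (phi β) = 1 := by
  rw [coeff_phi, Ep_two, map_ofNat]; simp

/-- The recursion for the coefficients. -/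
lemma coeff_rec (β : ℂ) {n : ℕ} (hn : n ≠ 0) :
    PowerSeries.coeff (n + 2) (phi β) * ((n + 2) * (n + 1)) =
      4 * PowerSeries.coeff n (phi β) + 6 * β * ∑ ab ∈ antidiagonal n,
        PowerSeries.coeff ab.1 (phi β) * PowerSeries.coeff ab.2 (phi β) := by
  have hf : (n.factorial : ℂ) ≠ 0 := by exact_mod_cast Nat.factorial_ne_zero n
  have h1 : ((n + 2).factorial : ℂ) = (n + 2) * (n + 1) * n.factorial := by
    rw [Nat.factorial_succ, Nat.factorial_succ]
    push_cast
    ring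
  have h2 := fac_coeff_phi β (n + 2)
  rw [Ep_rec hn, h1] at h2
  have h3 : aeval β (4 * Ep n + 6 * X * ∑ ab ∈ antidiagonal n,
      (n.choose ab.1 : ℤ[X]) * Ep ab.1 * Ep ab.2) = n.factorial *
      (4 * PowerSeries.coeff n (phi β) + 6 * β * ∑ ab ∈ antidiagonal n,
        PowerSeries.coeff ab.1 (phi β) * PowerSeries.coeff ab.2 (phi β)) := by
    simp only [map_add, map_mul, map_sum, aeval_X, map_natCast, map_ofNat]
    rw [← fac_coeff_phi, mul_add, mul_left_comm]
    congr 1
    rw [mul_left_comm, Finset.mul_sum _ _ (n.factorial : ℂ)]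
    congr 1
    refine Finset.sum_congr rfl fun ab hab => ?_
    have h4 := Finset.HasAntidiagonal.mem_antidiagonal.mp hab
    rw [← fac_coeff_phi, ← fac_coeff_phi]
    have h5 : (n.choose ab.1 : ℂ) * ab.1.factorial * ab.2.factorial = n.factorial := by
      rw [← h4, Nat.choose_symm_add]
      exact_mod_cast Nat.add_choose_mul_factorial_mul_factorial ab.1 ab.2
    rw [← h5]
    ring
  rw [h3] at h2
  refine mul_left_cancel₀ hf ?_
  linear_combination h2

lemma coeff_dd (f : PowerSeries ℂ) (n : ℕ) :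
    PowerSeries.coeff n (PowerSeries.derivative ℂ (PowerSeries.derivative ℂ f)) =
      PowerSeries.coeff (n + 2) f * ((n + 2) * (n + 1)) := by
  rw [PowerSeries.coeff_derivative, PowerSeries.coeff_derivative]
  push_cast
  ring

lemma coeff_rhs (β : ℂ) (f : PowerSeries ℂ) (n : ℕ) :
    PowerSeries.coeff n (2 + 4 * f + PowerSeries.C (6 * β) * f ^ 2) =
      (if n = 0 then 2 else 0) + 4 * PowerSeries.coeff n f + 6 * β * ∑ ab ∈ antidiagonal n,
        PowerSeries.coeff ab.1 f * PowerSeries.coeff ab.2 f := by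
  rw [map_add, map_add, PowerSeries.coeff_C_mul, pow_two]
  have h2 : (2 : PowerSeries ℂ) = PowerSeries.C 2 := (map_ofNat PowerSeries.C 2).symm
  have h4 : (4 : PowerSeries ℂ) = PowerSeries.C 4 := (map_ofNat PowerSeries.C 4).symm
  rw [h2, h4, PowerSeries.coeff_C, PowerSeries.coeff_C_mul, PowerSeries.coeff_mul]

lemma ode2 (β : ℂ) : PowerSeries.derivative ℂ (PowerSeries.derivative ℂ (phi β)) =
    2 + 4 * phi β + PowerSeries.C (6 * β) * phi β ^ 2 := by
  ext n
  rw [coeff_dd, coeff_rhs]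
  by_cases hn : n = 0
  · subst hn
    simp [coeff_phi_zero, coeff_phi_two]
  · rw [coeff_rec β hn, if_neg hn]
    ring

lemma uniq (β : ℂ) (f : PowerSeries ℂ) (h0 : PowerSeries.coeff 0 f = 0)
    (h1 : PowerSeries.coeff 1 f = 0)
    (hf : PowerSeries.derivative ℂ (PowerSeries.derivative ℂ f) =
      2 + 4 * f + PowerSeries.C (6 * β) * f ^ 2) : f = phi β := by
  ext n
  induction n using Nat.strong_induction_on with
  | _ n ih =>
    match n, ih with
    | 0, _ => rw [h0, coeff_phi_zero]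
    | 1, _ => rw [h1, coeff_phi_one]
    | n + 2, ih =>
      have e1 := congrArg (PowerSeries.coeff n) hf
      have e2 := congrArg (PowerSeries.coeff n) (ode2 β)
      rw [coeff_dd, coeff_rhs] at e1 e2
      have e3 : ∑ ab ∈ antidiagonal n, PowerSeries.coeff ab.1 f * PowerSeries.coeff ab.2 f =
          ∑ ab ∈ antidiagonal n, PowerSeries.coeff ab.1 (phi β) *
            PowerSeries.coeff ab.2 (phi β) := by
        refine Finset.sum_congr rfl fun ab hab => ?_
        have := Finset.HasAntidiagonal.mem_antidiagonal.mp hab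
        rw [ih ab.1 (by omega), ih ab.2 (by omega)]
      rw [e3, ih n (by omega), ← e2] at e1
      have h3 : ((n : ℂ) + 2) * (n + 1) ≠ 0 := by
        have : ((n + 2) * (n + 1) : ℕ) ≠ 0 := by positivity
        exact_mod_cast this
      exact mul_right_cancel₀ h3 e1

lemma ode1 (β : ℂ) : PowerSeries.derivative ℂ (phi β) ^ 2 =
    4 * phi β * (1 + phi β + PowerSeries.C β * phi β ^ 2) := by
  have hC : ∀ r : ℂ, PowerSeries.derivative ℂ (PowerSeries.C r : PowerSeries ℂ) = 0 :=
    fun r => PowerSeries.derivative_C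
  have h4 : (4 : PowerSeries ℂ) = PowerSeries.C 4 := (map_ofNat PowerSeries.C 4).symm
  have h6 : PowerSeries.C (6 * β) = 6 * (PowerSeries.C β : PowerSeries ℂ) := by
    rw [map_mul, map_ofNat]
  apply PowerSeries.derivative.ext
  · rw [pow_two, Derivation.leibniz, Derivation.leibniz, Derivation.leibniz, h4, hC, map_add,
      map_add, Derivation.leibniz, hC, pow_two, Derivation.leibniz, ode2, Derivation.map_one_eq_zero,
      h6, ← h4]
    simp only [smul_eq_mul]
    ring
  · have h0 : PowerSeries.constantCoeff (phi β) = 0 := by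
      rw [← PowerSeries.coeff_zero_eq_constantCoeff_apply, coeff_phi_zero]
    have h1 : PowerSeries.constantCoeff (PowerSeries.derivative ℂ (phi β)) = 0 := by
      rw [← PowerSeries.coeff_zero_eq_constantCoeff_apply, PowerSeries.coeff_derivative,
        coeff_phi_one, zero_mul]
    simp [h0, h1]

lemma norm_coeff_phi_le (β : ℂ) (n : ℕ) :
    ‖PowerSeries.coeff n (phi β)‖ ≤ (1 + 2 * ‖β‖) ^ n := by
  set M : ℝ := 1 + 2 * ‖β‖ with hM
  have hM1 : 1 ≤ M := by have := norm_nonneg β; linarith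
  have hM0 : 0 < M := by linarith
  induction n using Nat.strong_induction_on with
  | _ n ih =>
    match n, ih with
    | 0, _ => rw [coeff_phi_zero]; simp
    | 1, _ => rw [coeff_phi_one]; simp; linarith
    | 2, _ => rw [coeff_phi_two, norm_one]; exact one_le_pow₀ hM1
    | m + 1 + 2, ih =>
      have e1 := coeff_rec β (n := m + 1) (by omega)
      have hsum : ‖∑ ab ∈ antidiagonal (m + 1), PowerSeries.coeff ab.1 (phi β) *
          PowerSeries.coeff ab.2 (phi β)‖ ≤ m * M ^ (m + 1) := by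
        rw [Finset.Nat.sum_antidiagonal_eq_sum_range_succ
          (fun a b => PowerSeries.coeff a (phi β) * PowerSeries.coeff b (phi β)),
          Nat.succ_eq_add_one, Finset.sum_range_succ, Finset.sum_range_succ', coeff_phi_zero,
          Nat.sub_self, coeff_phi_zero, zero_mul, mul_zero, add_zero, add_zero]
        have h1 : ∀ a ∈ range m, ‖PowerSeries.coeff (a + 1) (phi β) *
            PowerSeries.coeff (m + 1 - (a + 1)) (phi β)‖ ≤ M ^ (m + 1) := by
          intro a ha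
          have ha' := Finset.mem_range.mp ha
          rw [norm_mul]
          calc _ ≤ M ^ (a + 1) * M ^ (m + 1 - (a + 1)) :=
                mul_le_mul (ih _ (by omega)) (ih _ (by omega)) (norm_nonneg _) (by positivity)
            _ = M ^ (m + 1) := by
                rw [← pow_add]
                congr 1
                omega
        refine (norm_sum_le_of_le _ h1).trans ?_
        simp
      have h2 := congrArg norm e1
      have h3 : ‖((m + 1 : ℕ) : ℂ) + 2‖ = (m : ℝ) + 3 := by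
        have : ((m + 1 : ℕ) : ℂ) + 2 = ((m + 3 : ℕ) : ℂ) := by push_cast; ring
        rw [this, norm_natCast]; push_cast; ring
      have h4 : ‖((m + 1 : ℕ) : ℂ) + 1‖ = (m : ℝ) + 2 := by
        have : ((m + 1 : ℕ) : ℂ) + 1 = ((m + 2 : ℕ) : ℂ) := by push_cast; ring
        rw [this, norm_natCast]; push_cast; ring
      rw [norm_mul, norm_mul, h3, h4] at h2
      have h5 : ‖4 * PowerSeries.coeff (m + 1) (phi β) + 6 * β * ∑ ab ∈ antidiagonal (m + 1),
          PowerSeries.coeff ab.1 (phi β) * PowerSeries.coeff ab.2 (phi β)‖ ≤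
          4 * M ^ (m + 1) + 3 * M * (m * M ^ (m + 1)) := by
        refine (norm_add_le _ _).trans (add_le_add ?_ ?_)
        · rw [norm_mul]
          have := ih (m + 1) (by omega)
          simpa using this
        · rw [norm_mul, norm_mul]
          have h6 : ‖(6 : ℂ)‖ * ‖β‖ ≤ 3 * M := by
            rw [norm_ofNat]
            linarith [norm_nonneg β]
          exact mul_le_mul h6 hsum (norm_nonneg _) (by positivity)
      have h6 : 4 * M ^ (m + 1) + 3 * M * (m * M ^ (m + 1)) ≤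
          M ^ (m + 1 + 2) * (((m : ℝ) + 3) * (m + 2)) := by
        have h7 : M ^ (m + 1) ≤ M ^ (m + 1 + 2) := pow_le_pow_right₀ hM1 (by omega)
        have h8 : M * M ^ (m + 1) ≤ M ^ (m + 1 + 2) := by
          rw [← pow_succ']
          exact pow_le_pow_right₀ hM1 (by omega)
        have hm : (0 : ℝ) ≤ m := Nat.cast_nonneg m
        have h9 : 0 < M ^ (m + 1 + 2) := by positivity
        nlinarith [mul_le_mul_of_nonneg_left h8 hm, mul_nonneg hm hm]
      have h10 : 0 < ((m : ℝ) + 3) * (m + 2) := by positivity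
      refine le_of_mul_le_mul_right ?_ h10
      rw [h2]
      exact h5.trans h6

lemma bound (β : ℂ) (i n : ℕ) :
    ‖PowerSeries.coeff n (phi β ^ i)‖ ≤ (2 * (1 + 2 * ‖β‖)) ^ n := by
  set M : ℝ := 1 + 2 * ‖β‖ with hM
  have hM1 : 1 ≤ M := by have := norm_nonneg β; linarith
  have hM0 : 0 < M := by linarith
  induction i generalizing n with
  | zero =>
    rw [pow_zero, PowerSeries.coeff_one]
    split_ifs with h
    · subst h; simp
    · rw [norm_zero]; positivity
  | succ i ih =>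
    rw [pow_succ, PowerSeries.coeff_mul, Finset.Nat.sum_antidiagonal_eq_sum_range_succ
      (fun a b => PowerSeries.coeff a (phi β ^ i) * PowerSeries.coeff b (phi β)),
      Nat.succ_eq_add_one, Finset.sum_range_succ, Nat.sub_self, coeff_phi_zero, mul_zero, add_zero]
    have h1 : ∀ a ∈ range n, ‖PowerSeries.coeff a (phi β ^ i) *
        PowerSeries.coeff (n - a) (phi β)‖ ≤ M ^ n * 2 ^ a := by
      intro a ha
      have ha' := Finset.mem_range.mp ha
      rw [norm_mul]
      calc _ ≤ (2 * M) ^ a * M ^ (n - a) :=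
            mul_le_mul (ih a) (norm_coeff_phi_le β _) (norm_nonneg _) (by positivity)
        _ = M ^ (a + (n - a)) * 2 ^ a := by rw [pow_add, mul_pow]; ring
        _ = M ^ n * 2 ^ a := by rw [Nat.add_sub_cancel' ha'.le]
    refine (norm_sum_le_of_le _ h1).trans ?_
    rw [← Finset.mul_sum]
    have h2 : ∀ n : ℕ, ∑ a ∈ range n, (2 : ℝ) ^ a ≤ 2 ^ n := by
      intro n
      rw [geom_sum_eq (by norm_num)]
      norm_num
    calc M ^ n * ∑ a ∈ range n, (2 : ℝ) ^ a ≤ M ^ n * 2 ^ n :=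
          mul_le_mul_of_nonneg_left (h2 n) (by positivity)
      _ = _ := by rw [mul_pow]; ring

/-! ### Polynomials with nonnegative coefficients -/

/-- Degree at most `n` and nonnegative coefficients. -/
def Good (n : ℕ) (F : ℤ[X]) : Prop := F.natDegree ≤ n ∧ ∀ k, 0 ≤ F.coeff k

lemma Good.mono {n m : ℕ} {F : ℤ[X]} (h : Good n F) (hnm : n ≤ m) : Good m F :=
  ⟨h.1.trans hnm, h.2⟩

lemma Good.add {n : ℕ} {F G : ℤ[X]} (hF : Good n F) (hG : Good n G) : Good n (F + G) := by
  refine ⟨natDegree_add_le_of_degree_le hF.1 hG.1, fun k => ?_⟩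
  rw [coeff_add]
  exact add_nonneg (hF.2 k) (hG.2 k)

lemma Good.mul {m n : ℕ} {F G : ℤ[X]} (hF : Good m F) (hG : Good n G) :
    Good (m + n) (F * G) := by
  refine ⟨natDegree_mul_le_of_le hF.1 hG.1, fun k => ?_⟩
  rw [coeff_mul]
  exact Finset.sum_nonneg fun x _ => mul_nonneg (hF.2 _) (hG.2 _)

lemma good_zero (n : ℕ) : Good n 0 := ⟨by simp, fun k => by simp⟩

lemma Good.sum {ι : Type} {n : ℕ} (s : Finset ι) (F : ι → ℤ[X]) (h : ∀ i ∈ s, Good n (F i)) :
    Good n (∑ i ∈ s, F i) := by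
  classical
  induction s using Finset.induction_on with
  | empty => simpa using good_zero n
  | insert a s ha ih =>
    rw [Finset.sum_insert ha]
    exact (h a (Finset.mem_insert_self a s)).add
      (ih fun i hi => h i (Finset.mem_insert_of_mem hi))

lemma good_natCast (c : ℕ) : Good 0 (c : ℤ[X]) := by
  refine ⟨by simp, fun k => ?_⟩
  have : (c : ℤ[X]) = C (c : ℤ) := by simp
  rw [this, coeff_C]
  split_ifs <;> positivity

lemma good_X : Good 1 (X : ℤ[X]) := by
  refine ⟨by simp, fun k => ?_⟩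
  rw [coeff_X]
  split_ifs <;> norm_num

lemma good_Cp (k : ℕ) : Good k (Cp k) := by
  induction k using Nat.strong_induction_on with
  | _ k ih =>
    match k, ih with
    | 0, _ => rw [Cp_zero]; exact good_zero 0
    | 1, _ => rw [Cp_one]; exact (good_natCast 2).mono (by omega)
    | k + 2, ih =>
      rw [Cp_add_two]
      have h4 : Good 0 (4 : ℤ[X]) := good_natCast 4
      have h6 : Good 0 (6 : ℤ[X]) := good_natCast 6
      refine Good.add ((h4.mul (ih (k + 1) (by omega))).mono (by omega)) ?_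
      refine ((h6.mul good_X).mul (Good.sum (n := k + 1) _ _ fun i hi => ?_)).mono (by omega)
      have hi' := Finset.mem_range.mp hi
      exact (((good_natCast _).mul (ih i (by omega))).mul (ih (k + 1 - i) (by omega))).mono
        (by omega)

lemma good_Ep (s : ℕ) : Good s (Ep s) := by
  rw [Ep]
  split_ifs
  · exact (good_Cp (s / 2)).mono (Nat.div_le_self s 2)
  · exact good_zero s

/-- The integral polynomial `a ! [v ^ a] φ ^ i`. -/
noncomputable def Dp : ℕ → ℕ → ℤ[X]
  | 0, a => if a = 0 then 1 else 0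
  | i + 1, a => ∑ rs ∈ antidiagonal a, (a.choose rs.1 : ℤ[X]) * Dp i rs.1 * Ep rs.2

lemma good_Dp (i a : ℕ) : Good a (Dp i a) := by
  induction i generalizing a with
  | zero =>
    rw [Dp]
    split_ifs
    · exact (good_natCast 1 |> fun h => by simpa using h : Good 0 (1 : ℤ[X])).mono (by omega)
    · exact good_zero a
  | succ i ih =>
    rw [Dp]
    refine Good.sum _ _ fun rs hrs => ?_
    have h := Finset.HasAntidiagonal.mem_antidiagonal.mp hrs
    exact (((good_natCast _).mul (ih rs.1)).mul (good_Ep rs.2)).mono (by omega)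

lemma fac_coeff_pow (β : ℂ) (i a : ℕ) :
    (a.factorial : ℂ) * PowerSeries.coeff a (phi β ^ i) = aeval β (Dp i a) := by
  induction i generalizing a with
  | zero =>
    rw [pow_zero, PowerSeries.coeff_one, Dp]
    split_ifs with h
    · subst h; simp
    · simp
  | succ i ih =>
    rw [pow_succ, PowerSeries.coeff_mul, Dp, map_sum, Finset.mul_sum]
    refine Finset.sum_congr rfl fun rs hrs => ?_
    have h4 := Finset.HasAntidiagonal.mem_antidiagonal.mp hrs
    rw [map_mul, map_mul, map_natCast, ← ih, ← fac_coeff_phi]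
    have h5 : (a.choose rs.1 : ℂ) * rs.1.factorial * rs.2.factorial = a.factorial := by
      rw [← h4, Nat.choose_symm_add]
      exact_mod_cast Nat.add_choose_mul_factorial_mul_factorial rs.1 rs.2
    rw [← h5]
    ring

lemma Good.aeval_nonneg {n : ℕ} {F : ℤ[X]} (hF : Good n F) {M : ℝ} (hM : 0 ≤ M) :
    0 ≤ aeval M F := by
  rw [aeval_eq_sum_range]
  refine Finset.sum_nonneg fun k _ => ?_
  rw [zsmul_eq_mul]
  have := hF.2 k
  positivity

lemma Good.norm_aeval {n : ℕ} {F : ℤ[X]} (hF : Good n F) {M : ℝ} (hM : 0 ≤ M) :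
    ‖aeval (M : ℂ) F‖ = aeval M F := by
  have h1 : aeval (M : ℂ) F = ((aeval M F : ℝ) : ℂ) := aeval_algebraMap_apply ℂ M F
  rw [h1, norm_real, Real.norm_eq_abs, abs_of_nonneg (hF.aeval_nonneg hM)]

lemma Good.lip {n : ℕ} {F : ℤ[X]} (hF : Good n F) {M : ℝ} (hM : 1 ≤ M) {β β' : ℂ}
    (hβ : ‖β‖ ≤ M) (hβ' : ‖β'‖ ≤ M) :
    ‖aeval β F - aeval β' F‖ ≤ n * aeval M F * ‖β - β'‖ := by
  have hM0 : 0 ≤ M := by linarith
  rw [aeval_eq_sum_range, aeval_eq_sum_range, aeval_eq_sum_range, ← Finset.sum_sub_distrib,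
    Finset.mul_sum, Finset.sum_mul]
  refine norm_sum_le_of_le _ fun k hk => ?_
  have hk' : k ≤ n := by
    have := Finset.mem_range.mp hk
    have := hF.1
    omega
  rw [← smul_sub, zsmul_eq_mul, zsmul_eq_mul, norm_mul]
  have h0 := hF.2 k
  have h1 : ‖((F.coeff k : ℤ) : ℂ)‖ = (F.coeff k : ℝ) := by
    rw [norm_intCast]
    exact_mod_cast abs_of_nonneg h0
  rw [h1]
  have h2 : ‖β ^ k - β' ^ k‖ ≤ k * M ^ k * ‖β - β'‖ := by
    rw [← (Commute.all β β').geom_sum₂_mul, norm_mul]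
    refine mul_le_mul_of_nonneg_right ?_ (norm_nonneg _)
    have h3 : ∀ i ∈ range k, ‖β ^ i * β' ^ (k - 1 - i)‖ ≤ M ^ k := by
      intro i hi
      have hi' := Finset.mem_range.mp hi
      rw [norm_mul, norm_pow, norm_pow]
      calc ‖β‖ ^ i * ‖β'‖ ^ (k - 1 - i) ≤ M ^ i * M ^ (k - 1 - i) := by gcongr
        _ = M ^ (i + (k - 1 - i)) := by rw [pow_add]
        _ ≤ M ^ k := pow_le_pow_right₀ hM (by omega)
    refine (norm_sum_le_of_le _ h3).trans ?_
    simp
  have h0' : (0 : ℝ) ≤ F.coeff k := by exact_mod_cast h0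
  have h3 : (k : ℝ) ≤ n := by exact_mod_cast hk'
  calc (F.coeff k : ℝ) * ‖β ^ k - β' ^ k‖ ≤ F.coeff k * (k * M ^ k * ‖β - β'‖) :=
        mul_le_mul_of_nonneg_left h2 h0'
    _ ≤ F.coeff k * (n * M ^ k * ‖β - β'‖) := by gcongr
    _ = _ := by ring

lemma norm_coeff_pow_le {β : ℂ} {M : ℝ} (hM : 1 ≤ M) (hβ : ‖β‖ ≤ M) (i a : ℕ) :
    ‖PowerSeries.coeff a (phi β ^ i)‖ ≤ (6 * M) ^ a := by
  refine (bound β i a).trans ?_
  have := norm_nonneg β
  exact pow_le_pow_left₀ (by positivity) (by linarith) a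

lemma aeval_Dp_le {M : ℝ} (hM : 1 ≤ M) (i a : ℕ) :
    aeval M (Dp i a) ≤ a.factorial * (6 * M) ^ a := by
  have hM0 : 0 ≤ M := by linarith
  rw [← (good_Dp i a).norm_aeval hM0, ← fac_coeff_pow, norm_mul, norm_natCast]
  refine mul_le_mul_of_nonneg_left ?_ (by positivity)
  exact norm_coeff_pow_le hM (by rw [norm_real, Real.norm_eq_abs, abs_of_nonneg hM0]) i a

lemma coeff_lip {M : ℝ} (hM : 1 ≤ M) {β β' : ℂ} (hβ : ‖β‖ ≤ M) (hβ' : ‖β'‖ ≤ M) (i a : ℕ) :
    ‖PowerSeries.coeff a (phi β ^ i) - PowerSeries.coeff a (phi β' ^ i)‖ ≤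
      a * (6 * M) ^ a * ‖β - β'‖ := by
  have hf : (0 : ℝ) < a.factorial := by exact_mod_cast Nat.factorial_pos a
  refine le_of_mul_le_mul_left ?_ hf
  have h1 := (good_Dp i a).lip hM hβ hβ'
  rw [← fac_coeff_pow, ← fac_coeff_pow, ← mul_sub, norm_mul, norm_natCast] at h1
  refine h1.trans ?_
  calc (a : ℝ) * aeval M (Dp i a) * ‖β - β'‖ ≤
        a * (a.factorial * (6 * M) ^ a) * ‖β - β'‖ := by
        gcongr
        exact aeval_Dp_le hM i a
    _ = _ := by ring

/-! ### Sums of absolute values of coefficients -/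

lemma coefSum_eq {P : MvPolynomial (Fin 2) ℤ} {s : Finset (Fin 2 →₀ ℕ)} (h : P.support ⊆ s) :
    coefSum P = ∑ m ∈ s, (P.coeff m).natAbs := by
  rw [coefSum]
  refine Finset.sum_subset h fun m _ hm => ?_
  rw [MvPolynomial.notMem_support_iff.mp hm]
  simp

lemma coefSum_add_le (P Q : MvPolynomial (Fin 2) ℤ) :
    coefSum (P + Q) ≤ coefSum P + coefSum Q := by
  classical
  rw [coefSum_eq (P := P) (s := P.support ∪ Q.support) Finset.subset_union_left,
    coefSum_eq (P := Q) (s := P.support ∪ Q.support) Finset.subset_union_right,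
    coefSum_eq (P := P + Q) (s := P.support ∪ Q.support) MvPolynomial.support_add,
    ← Finset.sum_add_distrib]
  refine Finset.sum_le_sum fun m _ => ?_
  rw [MvPolynomial.coeff_add]
  exact Int.natAbs_add_le _ _

lemma coefSum_zero : coefSum (0 : MvPolynomial (Fin 2) ℤ) = 0 := by simp [coefSum]

lemma coefSum_sum_le {ι : Type} (s : Finset ι) (F : ι → MvPolynomial (Fin 2) ℤ) :
    coefSum (∑ i ∈ s, F i) ≤ ∑ i ∈ s, coefSum (F i) := by
  classical
  induction s using Finset.induction_on with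
  | empty => simp [coefSum_zero]
  | insert a s ha ih =>
    rw [Finset.sum_insert ha, Finset.sum_insert ha]
    exact (coefSum_add_le _ _).trans (Nat.add_le_add_left ih _)

lemma coefSum_monomial_le (m : Fin 2 →₀ ℕ) (c : ℤ) :
    coefSum (MvPolynomial.monomial m c) ≤ c.natAbs := by
  classical
  rw [coefSum_eq (s := {m}) MvPolynomial.support_monomial_subset]
  simp

lemma coefSum_mul_le (P Q : MvPolynomial (Fin 2) ℤ) :
    coefSum (P * Q) ≤ coefSum P * coefSum Q := by
  have h1 : P * Q = ∑ m ∈ P.support, ∑ n ∈ Q.support,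
      MvPolynomial.monomial (m + n) (P.coeff m * Q.coeff n) := MvPolynomial.mul_def
  have h2 : coefSum P * coefSum Q = ∑ m ∈ P.support, ∑ n ∈ Q.support,
      (P.coeff m).natAbs * (Q.coeff n).natAbs := by
    rw [coefSum, coefSum, Finset.sum_mul_sum]
  rw [h1, h2]
  refine (coefSum_sum_le _ _).trans (Finset.sum_le_sum fun m _ => ?_)
  refine (coefSum_sum_le _ _).trans (Finset.sum_le_sum fun n _ => ?_)
  refine (coefSum_monomial_le _ _).trans (le_of_eq ?_)
  rw [Int.natAbs_mul]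

lemma coefSum_C_le (c : ℤ) : coefSum (MvPolynomial.C c : MvPolynomial (Fin 2) ℤ) ≤ c.natAbs :=
  coefSum_monomial_le 0 c

lemma coefSum_X_pow_le (i : Fin 2) (n : ℕ) : coefSum (MvPolynomial.X i ^ n) ≤ 1 := by
  rw [MvPolynomial.X_pow_eq_monomial]
  exact coefSum_monomial_le _ 1

lemma toMv_eq (F : ℤ[X]) : F.toMvPolynomial (0 : Fin 2) =
    ∑ k ∈ range (F.natDegree + 1), MvPolynomial.C (F.coeff k) * MvPolynomial.X 0 ^ k := by
  rw [Polynomial.toMvPolynomial, aeval_eq_sum_range]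
  refine Finset.sum_congr rfl fun k _ => ?_
  rw [MvPolynomial.smul_eq_C_mul]

lemma Good.coefSum_le {n : ℕ} {F : ℤ[X]} (hF : Good n F) :
    (coefSum (F.toMvPolynomial (0 : Fin 2)) : ℝ) ≤ aeval (1 : ℝ) F := by
  have h1 : coefSum (F.toMvPolynomial (0 : Fin 2)) ≤
      ∑ k ∈ range (F.natDegree + 1), (F.coeff k).natAbs := by
    rw [toMv_eq]
    refine (coefSum_sum_le _ _).trans (Finset.sum_le_sum fun k _ => ?_)
    calc _ ≤ _ := coefSum_mul_le _ _
      _ ≤ (F.coeff k).natAbs * 1 := Nat.mul_le_mul (coefSum_C_le _) (coefSum_X_pow_le _ _)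
      _ = _ := mul_one _
  rw [aeval_eq_sum_range]
  calc (coefSum (F.toMvPolynomial (0 : Fin 2)) : ℝ) ≤
        ((∑ k ∈ range (F.natDegree + 1), (F.coeff k).natAbs : ℕ) : ℝ) := by exact_mod_cast h1
    _ = _ := by
      rw [Nat.cast_sum]
      refine Finset.sum_congr rfl fun k _ => ?_
      rw [zsmul_eq_mul, one_pow, mul_one, Nat.cast_natAbs, abs_of_nonneg (hF.2 k)]

lemma Good.totalDegree_le {n : ℕ} {F : ℤ[X]} (hF : Good n F) :
    (F.toMvPolynomial (0 : Fin 2)).totalDegree ≤ n := by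
  rw [toMv_eq]
  refine MvPolynomial.totalDegree_finsetSum_le fun k hk => ?_
  refine (MvPolynomial.totalDegree_mul _ _).trans ?_
  rw [MvPolynomial.totalDegree_C, MvPolynomial.totalDegree_X_pow]
  have := Finset.mem_range.mp hk
  have := hF.1
  omega

/-! ### The Taylor coefficients -/

lemma gam_eq (L : ℕ) (p : ℕ → ℕ → ℤ) (β x : ℂ) (t : ℕ) :
    gam L p β x t = ∑ i ∈ range (L + 1), ∑ j ∈ range (L + 1), (p i j : ℂ) *
      ∑ ab ∈ antidiagonal t, PowerSeries.coeff ab.1 (phi β ^ i) *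
        (x ^ ab.2 * PowerSeries.coeff ab.2 (phi β ^ j)) := by
  rw [gam, gamS, map_sum]
  refine Finset.sum_congr rfl fun i _ => ?_
  rw [map_sum]
  refine Finset.sum_congr rfl fun j _ => ?_
  rw [mul_assoc, PowerSeries.coeff_C_mul, ← map_pow, PowerSeries.coeff_mul]
  congr 1
  refine Finset.sum_congr rfl fun ab _ => ?_
  rw [PowerSeries.coeff_rescale]

/-- The polynomial of `t ! gam t`. -/
noncomputable def Qp (L : ℕ) (p : ℕ → ℕ → ℤ) (t : ℕ) : MvPolynomial (Fin 2) ℤ :=
  ∑ i ∈ range (L + 1), ∑ j ∈ range (L + 1), ∑ ab ∈ antidiagonal t,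
    MvPolynomial.C (p i j * (t.choose ab.1 : ℤ)) * ((Dp i ab.1).toMvPolynomial 0 *
      (MvPolynomial.X 1 ^ ab.2 * (Dp j ab.2).toMvPolynomial 0))

lemma poly (L : ℕ) (P0 : ℝ) (p : ℕ → ℕ → ℤ) (hp : ∀ i j, |(p i j : ℝ)| ≤ P0) (t : ℕ) :
    ∃ Q : MvPolynomial (Fin 2) ℤ, Q.totalDegree ≤ 2 * t ∧
      (coefSum Q : ℝ) ≤ (L + 1) ^ 2 * P0 * (t.factorial * (t + 1) * 6 ^ t) ∧
      ∀ β x : ℂ, MvPolynomial.aeval ![β, x] Q = t.factorial * gam L p β x t := by
  refine ⟨Qp L p t, ?_, ?_, ?_⟩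
  · rw [Qp]
    refine MvPolynomial.totalDegree_finsetSum_le fun i _ =>
      MvPolynomial.totalDegree_finsetSum_le fun j _ =>
      MvPolynomial.totalDegree_finsetSum_le fun ab hab => ?_
    have h4 := Finset.HasAntidiagonal.mem_antidiagonal.mp hab
    have h1 := (good_Dp i ab.1).totalDegree_le
    have h2 := (good_Dp j ab.2).totalDegree_le
    have h3 : (MvPolynomial.X 1 ^ ab.2 : MvPolynomial (Fin 2) ℤ).totalDegree = ab.2 :=
      MvPolynomial.totalDegree_X_pow _ _
    refine (MvPolynomial.totalDegree_mul _ _).trans ?_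
    rw [MvPolynomial.totalDegree_C]
    have h5 := MvPolynomial.totalDegree_mul ((Dp i ab.1).toMvPolynomial (0 : Fin 2))
      (MvPolynomial.X 1 ^ ab.2 * (Dp j ab.2).toMvPolynomial 0)
    have h6 := MvPolynomial.totalDegree_mul (MvPolynomial.X 1 ^ ab.2 : MvPolynomial (Fin 2) ℤ)
      ((Dp j ab.2).toMvPolynomial 0)
    omega
  · have hterm : ∀ i j : ℕ, ∀ ab ∈ antidiagonal t,
        (coefSum (MvPolynomial.C (p i j * (t.choose ab.1 : ℤ)) *
          ((Dp i ab.1).toMvPolynomial 0 * (MvPolynomial.X 1 ^ ab.2 *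
            (Dp j ab.2).toMvPolynomial 0)) : MvPolynomial (Fin 2) ℤ) : ℝ) ≤
          P0 * (t.factorial * 6 ^ t) := by
      intro i j ab hab
      have h4 := Finset.HasAntidiagonal.mem_antidiagonal.mp hab
      have h1 := (good_Dp i ab.1).coefSum_le.trans (aeval_Dp_le le_rfl i ab.1)
      have h2 := (good_Dp j ab.2).coefSum_le.trans (aeval_Dp_le le_rfl j ab.2)
      have h3 : coefSum (MvPolynomial.C (p i j * (t.choose ab.1 : ℤ)) *
          ((Dp i ab.1).toMvPolynomial 0 * (MvPolynomial.X 1 ^ ab.2 *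
            (Dp j ab.2).toMvPolynomial 0)) : MvPolynomial (Fin 2) ℤ) ≤
          ((p i j).natAbs * t.choose ab.1) * (coefSum ((Dp i ab.1).toMvPolynomial (0 : Fin 2)) *
            (1 * coefSum ((Dp j ab.2).toMvPolynomial (0 : Fin 2)))) := by
        refine (coefSum_mul_le _ _).trans (Nat.mul_le_mul ?_ ?_)
        · refine (coefSum_C_le _).trans (le_of_eq ?_)
          rw [Int.natAbs_mul, Int.natAbs_natCast]
        · refine (coefSum_mul_le _ _).trans (Nat.mul_le_mul le_rfl ?_)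
          exact (coefSum_mul_le _ _).trans (Nat.mul_le_mul (coefSum_X_pow_le _ _) le_rfl)
      have h5 : ((p i j).natAbs : ℝ) ≤ P0 := by
        rw [Nat.cast_natAbs, Int.cast_abs]
        exact hp i j
      have h6 : (t.choose ab.1 : ℝ) * ab.1.factorial * ab.2.factorial = t.factorial := by
        rw [← h4, Nat.choose_symm_add]
        exact_mod_cast Nat.add_choose_mul_factorial_mul_factorial ab.1 ab.2
      have hP0 : 0 ≤ P0 := (abs_nonneg _).trans (hp 0 0)
      calc (coefSum (MvPolynomial.C (p i j * (t.choose ab.1 : ℤ)) *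
          ((Dp i ab.1).toMvPolynomial 0 * (MvPolynomial.X 1 ^ ab.2 *
            (Dp j ab.2).toMvPolynomial 0)) : MvPolynomial (Fin 2) ℤ) : ℝ) ≤
          (((p i j).natAbs * t.choose ab.1) * (coefSum ((Dp i ab.1).toMvPolynomial (0 : Fin 2)) *
            (1 * coefSum ((Dp j ab.2).toMvPolynomial (0 : Fin 2)))) : ℕ) := by
            exact_mod_cast h3
        _ = ((p i j).natAbs * t.choose ab.1) * (coefSum ((Dp i ab.1).toMvPolynomial (0 : Fin 2)) *
            coefSum ((Dp j ab.2).toMvPolynomial (0 : Fin 2))) := by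
            push_cast
            ring
        _ ≤ (P0 * t.choose ab.1) * ((ab.1.factorial * (6 * 1) ^ ab.1) *
            (ab.2.factorial * (6 * 1) ^ ab.2)) := by gcongr
        _ = P0 * ((t.choose ab.1 * ab.1.factorial * ab.2.factorial) * 6 ^ (ab.1 + ab.2)) := by
            rw [pow_add, mul_one]
            ring
        _ = P0 * (t.factorial * 6 ^ t) := by rw [h6, h4]
    have h1 : coefSum (Qp L p t) ≤ ∑ i ∈ range (L + 1), ∑ j ∈ range (L + 1),
        ∑ ab ∈ antidiagonal t, coefSum (MvPolynomial.C (p i j * (t.choose ab.1 : ℤ)) *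
          ((Dp i ab.1).toMvPolynomial 0 * (MvPolynomial.X 1 ^ ab.2 *
            (Dp j ab.2).toMvPolynomial 0)) : MvPolynomial (Fin 2) ℤ) := by
      rw [Qp]
      refine (coefSum_sum_le _ _).trans (Finset.sum_le_sum fun i _ => ?_)
      refine (coefSum_sum_le _ _).trans (Finset.sum_le_sum fun j _ => ?_)
      exact coefSum_sum_le _ _
    calc (coefSum (Qp L p t) : ℝ) ≤ ((∑ i ∈ range (L + 1), ∑ j ∈ range (L + 1),
        ∑ ab ∈ antidiagonal t, coefSum (MvPolynomial.C (p i j * (t.choose ab.1 : ℤ)) *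
          ((Dp i ab.1).toMvPolynomial 0 * (MvPolynomial.X 1 ^ ab.2 *
            (Dp j ab.2).toMvPolynomial 0)) : MvPolynomial (Fin 2) ℤ) : ℕ) : ℝ) := by
          exact_mod_cast h1
      _ ≤ ∑ i ∈ range (L + 1), ∑ j ∈ range (L + 1), ∑ ab ∈ antidiagonal t,
          P0 * (t.factorial * 6 ^ t) := by
          push_cast only [Nat.cast_sum]
          refine Finset.sum_le_sum fun i _ => Finset.sum_le_sum fun j _ =>
            Finset.sum_le_sum fun ab hab => hterm i j ab hab
      _ = _ := by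
          simp only [Finset.sum_const, Finset.card_range, Finset.Nat.card_antidiagonal,
            nsmul_eq_mul]
          push_cast
          ring
  · intro β x
    rw [gam_eq, Qp, map_sum, Finset.mul_sum]
    refine Finset.sum_congr rfl fun i _ => ?_
    rw [map_sum, Finset.mul_sum]
    refine Finset.sum_congr rfl fun j _ => ?_
    rw [map_sum, Finset.mul_sum, Finset.mul_sum]
    refine Finset.sum_congr rfl fun ab hab => ?_
    have h4 := Finset.HasAntidiagonal.mem_antidiagonal.mp hab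
    have h6 : (t.choose ab.1 : ℂ) * ab.1.factorial * ab.2.factorial = t.factorial := by
      rw [← h4, Nat.choose_symm_add]
      exact_mod_cast Nat.add_choose_mul_factorial_mul_factorial ab.1 ab.2
    have e0 : MvPolynomial.aeval ![β, x] (MvPolynomial.X 1 ^ ab.2 : MvPolynomial (Fin 2) ℤ) =
        x ^ ab.2 := by
      rw [map_pow, MvPolynomial.aeval_X]
      simp
    rw [map_mul (MvPolynomial.aeval ![β, x]), map_mul (MvPolynomial.aeval ![β, x]),
      map_mul (MvPolynomial.aeval ![β, x]), e0, MvPolynomial.aeval_C,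
      MvPolynomial.aeval_toMvPolynomial, MvPolynomial.aeval_toMvPolynomial]
    simp only [Matrix.cons_val_zero]
    rw [← fac_coeff_pow, ← fac_coeff_pow, ← h6]
    simp only [algebraMap_int_eq, eq_intCast, Int.cast_mul, Int.cast_natCast]
    ring

lemma succ_le_two_pow (t : ℕ) : (t : ℝ) + 1 ≤ 2 ^ t := by
  have := Nat.lt_two_pow_self (n := t)
  exact_mod_cast this

lemma size (L : ℕ) (P0 M : ℝ) (p : ℕ → ℕ → ℤ) (t : ℕ) (β x : ℂ)
    (hp : ∀ i j, |(p i j : ℝ)| ≤ P0) (hM : 1 ≤ M) (hβ : ‖β‖ ≤ M) (hx : ‖x‖ ≤ M) :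
    ‖gam L p β x t‖ ≤ (L + 1) ^ 2 * P0 * (12 * M ^ 2) ^ t := by
  have hP0 : 0 ≤ P0 := (abs_nonneg _).trans (hp 0 0)
  have hM0 : 0 ≤ M := by linarith
  have hin : ∀ i j : ℕ, ‖∑ ab ∈ antidiagonal t, PowerSeries.coeff ab.1 (phi β ^ i) *
      (x ^ ab.2 * PowerSeries.coeff ab.2 (phi β ^ j))‖ ≤ (12 * M ^ 2) ^ t := by
    intro i j
    have h1 : ∀ ab ∈ antidiagonal t, ‖PowerSeries.coeff ab.1 (phi β ^ i) *
      (x ^ ab.2 * PowerSeries.coeff ab.2 (phi β ^ j))‖ ≤ (6 * M ^ 2) ^ t := by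
      intro ab hab
      have h4 := Finset.HasAntidiagonal.mem_antidiagonal.mp hab
      rw [norm_mul, norm_mul, norm_pow]
      calc _ ≤ (6 * M) ^ ab.1 * (M ^ ab.2 * (6 * M) ^ ab.2) := by
            refine mul_le_mul (norm_coeff_pow_le hM hβ _ _) (mul_le_mul ?_
              (norm_coeff_pow_le hM hβ _ _) (norm_nonneg _) (by positivity))
              (by positivity) (by positivity)
            exact pow_le_pow_left₀ (norm_nonneg _) hx _
        _ = (6 * M) ^ (ab.1 + ab.2) * M ^ ab.2 := by rw [pow_add]; ring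
        _ ≤ (6 * M) ^ (ab.1 + ab.2) * M ^ t := by
            refine mul_le_mul_of_nonneg_left ?_ (by positivity)
            exact pow_le_pow_right₀ hM (by omega)
        _ = (6 * M ^ 2) ^ t := by
            rw [h4, ← mul_pow]
            congr 1
            ring
    refine (norm_sum_le_of_le _ h1).trans ?_
    rw [Finset.sum_const, Finset.Nat.card_antidiagonal, nsmul_eq_mul]
    push_cast
    calc ((t : ℝ) + 1) * (6 * M ^ 2) ^ t ≤ 2 ^ t * (6 * M ^ 2) ^ t :=
          mul_le_mul_of_nonneg_right (succ_le_two_pow t) (by positivity)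
      _ = _ := by rw [← mul_pow]; congr 1; ring
  rw [gam_eq]
  have h2 : ∀ i ∈ range (L + 1), ‖∑ j ∈ range (L + 1), (p i j : ℂ) *
      ∑ ab ∈ antidiagonal t, PowerSeries.coeff ab.1 (phi β ^ i) *
        (x ^ ab.2 * PowerSeries.coeff ab.2 (phi β ^ j))‖ ≤
      ∑ j ∈ range (L + 1), P0 * (12 * M ^ 2) ^ t := by
    intro i _
    refine norm_sum_le_of_le _ fun j _ => ?_
    rw [norm_mul, norm_intCast]
    exact mul_le_mul (hp i j) (hin i j) (norm_nonneg _) hP0
  refine (norm_sum_le_of_le _ h2).trans (le_of_eq ?_)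
  simp only [Finset.sum_const, Finset.card_range, nsmul_eq_mul]
  push_cast
  ring

lemma lip (L : ℕ) (P0 M : ℝ) (p : ℕ → ℕ → ℤ) (t : ℕ) (β x β' x' : ℂ)
    (hp : ∀ i j, |(p i j : ℝ)| ≤ P0) (hM : 1 ≤ M) (hβ : ‖β‖ ≤ M) (hx : ‖x‖ ≤ M)
    (hβ' : ‖β'‖ ≤ M) (hx' : ‖x'‖ ≤ M) :
    ‖gam L p β x t - gam L p β' x' t‖ ≤
      (L + 1) ^ 2 * P0 * (100 * M ^ 2) ^ t * (‖β - β'‖ + ‖x - x'‖) := by
  have hP0 : 0 ≤ P0 := (abs_nonneg _).trans (hp 0 0)
  have hM0 : 0 ≤ M := by linarith
  set δ := ‖β - β'‖ + ‖x - x'‖ with hδ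
  have hδ0 : 0 ≤ δ := by positivity
  have hin : ∀ i j : ℕ, ‖(∑ ab ∈ antidiagonal t, PowerSeries.coeff ab.1 (phi β ^ i) *
      (x ^ ab.2 * PowerSeries.coeff ab.2 (phi β ^ j))) - ∑ ab ∈ antidiagonal t,
        PowerSeries.coeff ab.1 (phi β' ^ i) *
      (x' ^ ab.2 * PowerSeries.coeff ab.2 (phi β' ^ j))‖ ≤ (100 * M ^ 2) ^ t * δ := by
    intro i j
    rw [← Finset.sum_sub_distrib]
    have h1 : ∀ ab ∈ antidiagonal t, ‖PowerSeries.coeff ab.1 (phi β ^ i) *
      (x ^ ab.2 * PowerSeries.coeff ab.2 (phi β ^ j)) - PowerSeries.coeff ab.1 (phi β' ^ i) *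
      (x' ^ ab.2 * PowerSeries.coeff ab.2 (phi β' ^ j))‖ ≤ t * (6 * M ^ 2) ^ t * δ := by
      intro ab hab
      have h4 := Finset.HasAntidiagonal.mem_antidiagonal.mp hab
      set a := ab.1
      set b := ab.2
      have e1 := coeff_lip hM hβ hβ' i a
      have e2 := coeff_lip hM hβ hβ' j b
      have e3 := norm_coeff_pow_le hM hβ j b
      have e4 := norm_coeff_pow_le hM hβ' i a
      have e5 : ‖x‖ ^ b ≤ M ^ b := pow_le_pow_left₀ (norm_nonneg _) hx _
      have e6 : ‖x'‖ ^ b ≤ M ^ b := pow_le_pow_left₀ (norm_nonneg _) hx' _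
      have e7 : ‖x ^ b - x' ^ b‖ ≤ b * M ^ b * ‖x - x'‖ := by
        have hg : Good b ((X : ℤ[X]) ^ b) := by
          refine ⟨by simp, fun k => ?_⟩
          rw [coeff_X_pow]
          split_ifs <;> norm_num
        have := hg.lip hM hx hx'
        simpa using this
      have hsplit : PowerSeries.coeff a (phi β ^ i) *
          (x ^ b * PowerSeries.coeff b (phi β ^ j)) - PowerSeries.coeff a (phi β' ^ i) *
          (x' ^ b * PowerSeries.coeff b (phi β' ^ j)) =
          (PowerSeries.coeff a (phi β ^ i) - PowerSeries.coeff a (phi β' ^ i)) *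
            (x ^ b * PowerSeries.coeff b (phi β ^ j)) +
          PowerSeries.coeff a (phi β' ^ i) * ((x ^ b - x' ^ b) *
            PowerSeries.coeff b (phi β ^ j)) +
          PowerSeries.coeff a (phi β' ^ i) * (x' ^ b * (PowerSeries.coeff b (phi β ^ j) -
            PowerSeries.coeff b (phi β' ^ j))) := by ring
      rw [hsplit]
      have f1 : ‖(PowerSeries.coeff a (phi β ^ i) - PowerSeries.coeff a (phi β' ^ i)) *
            (x ^ b * PowerSeries.coeff b (phi β ^ j))‖ ≤
          (a * (6 * M) ^ a * ‖β - β'‖) * (M ^ b * (6 * M) ^ b) := by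
        rw [norm_mul, norm_mul, norm_pow]
        exact mul_le_mul e1 (mul_le_mul e5 e3 (norm_nonneg _) (by positivity)) (by positivity)
          (by positivity)
      have f2 : ‖PowerSeries.coeff a (phi β' ^ i) * ((x ^ b - x' ^ b) *
            PowerSeries.coeff b (phi β ^ j))‖ ≤
          (6 * M) ^ a * ((b * M ^ b * ‖x - x'‖) * (6 * M) ^ b) := by
        rw [norm_mul, norm_mul]
        exact mul_le_mul e4 (mul_le_mul e7 e3 (norm_nonneg _) (by positivity)) (by positivity)
          (by positivity)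
      have f3 : ‖PowerSeries.coeff a (phi β' ^ i) * (x' ^ b * (PowerSeries.coeff b (phi β ^ j) -
            PowerSeries.coeff b (phi β' ^ j)))‖ ≤
          (6 * M) ^ a * (M ^ b * (b * (6 * M) ^ b * ‖β - β'‖)) := by
        rw [norm_mul, norm_mul, norm_pow]
        exact mul_le_mul e4 (mul_le_mul e6 e2 (norm_nonneg _) (by positivity)) (by positivity)
          (by positivity)
      refine (norm_add₃_le).trans ((add_le_add (add_le_add f1 f2) f3).trans ?_)
      have g1 : (6 * M) ^ a * (M ^ b * (6 * M) ^ b) ≤ (6 * M ^ 2) ^ t := by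
        calc (6 * M) ^ a * (M ^ b * (6 * M) ^ b) = (6 * M) ^ (a + b) * M ^ b := by
              rw [pow_add]; ring
          _ ≤ (6 * M) ^ (a + b) * M ^ t := by
            refine mul_le_mul_of_nonneg_left ?_ (by positivity)
            exact pow_le_pow_right₀ hM (by omega)
          _ = (6 * M ^ 2) ^ t := by
            rw [h4, ← mul_pow]
            congr 1
            ring
      have hab' : (a : ℝ) + b = t := by exact_mod_cast h4
      have hb0 : (0 : ℝ) ≤ b := Nat.cast_nonneg _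
      have ha0 : (0 : ℝ) ≤ a := Nat.cast_nonneg _
      have hbt : (b : ℝ) ≤ t := by linarith
      calc (a * (6 * M) ^ a * ‖β - β'‖) * (M ^ b * (6 * M) ^ b) +
            (6 * M) ^ a * ((b * M ^ b * ‖x - x'‖) * (6 * M) ^ b) +
            (6 * M) ^ a * (M ^ b * (b * (6 * M) ^ b * ‖β - β'‖)) =
            ((6 * M) ^ a * (M ^ b * (6 * M) ^ b)) * ((a + b) * ‖β - β'‖ + b * ‖x - x'‖) := by
            ring
        _ ≤ (6 * M ^ 2) ^ t * (t * ‖β - β'‖ + t * ‖x - x'‖) := by
            rw [hab']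
            refine mul_le_mul g1 ?_ (by positivity) (by positivity)
            gcongr
        _ = _ := by rw [hδ]; ring
    refine (norm_sum_le_of_le _ h1).trans ?_
    rw [Finset.sum_const, Finset.Nat.card_antidiagonal, nsmul_eq_mul]
    push_cast
    have h5 := succ_le_two_pow t
    have h6 : (t : ℝ) ≤ 2 ^ t := by linarith
    calc ((t : ℝ) + 1) * (t * (6 * M ^ 2) ^ t * δ) ≤ 2 ^ t * (2 ^ t * (6 * M ^ 2) ^ t * δ) := by
          gcongr
      _ = (2 * 2 * (6 * M ^ 2)) ^ t * δ := by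
          rw [mul_pow (2 * 2 : ℝ), mul_pow (2 : ℝ) 2]
          ring
      _ ≤ (100 * M ^ 2) ^ t * δ := by
          refine mul_le_mul_of_nonneg_right ?_ hδ0
          refine pow_le_pow_left₀ (by positivity) ?_ t
          nlinarith [sq_nonneg M]
  rw [gam_eq, gam_eq, ← Finset.sum_sub_distrib]
  have h2 : ∀ i ∈ range (L + 1), ‖(∑ j ∈ range (L + 1), (p i j : ℂ) *
      ∑ ab ∈ antidiagonal t, PowerSeries.coeff ab.1 (phi β ^ i) *
        (x ^ ab.2 * PowerSeries.coeff ab.2 (phi β ^ j))) - ∑ j ∈ range (L + 1), (p i j : ℂ) *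
      ∑ ab ∈ antidiagonal t, PowerSeries.coeff ab.1 (phi β' ^ i) *
        (x' ^ ab.2 * PowerSeries.coeff ab.2 (phi β' ^ j))‖ ≤
      ∑ j ∈ range (L + 1), P0 * ((100 * M ^ 2) ^ t * δ) := by
    intro i _
    rw [← Finset.sum_sub_distrib]
    refine norm_sum_le_of_le _ fun j _ => ?_
    rw [← mul_sub, norm_mul, norm_intCast]
    exact mul_le_mul (hp i j) (hin i j) (norm_nonneg _) hP0
  refine (norm_sum_le_of_le _ h2).trans (le_of_eq ?_)
  simp only [Finset.sum_const, Finset.card_range, nsmul_eq_mul]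
  push_cast
  ring

end Pool.Agent.Lib.MP_47914d_nt.Sn.Tay

namespace Pool.Agent.Lib.MP_47914d_nt.Sn

/-- TAY. -/
theorem specTay : SpecTay where
  ode2 := Tay.ode2
  ode1 := Tay.ode1
  uniq := Tay.uniq
  bound := Tay.bound
  poly := Tay.poly
  size := Tay.size
  lip := Tay.lip

end Pool.Agent.Lib.MP_47914d_nt.Sn
end

section
/-!
Module THETA: a theta function vanishing at `1/2` and not at `0`.
-/
set_option autoImplicit false

open Complex Filter Topology
open scoped Real

namespace Pool.Agent.Lib.MP_47914d_nt.Sn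

namespace Theta

/-- `∏ (1 + q ^ n x)`. -/
noncomputable def P (q x : ℂ) : ℂ := ∏' n : ℕ, (1 + q ^ n * x)

lemma summ (q x : ℂ) (hq : ‖q‖ < 1) : Summable fun n : ℕ => ‖q ^ n * x‖ := by
  have : Summable fun n : ℕ => ‖q‖ ^ n * ‖x‖ :=
    (summable_geometric_of_lt_one (norm_nonneg _) hq).mul_right _
  refine this.congr fun n => ?_
  rw [norm_mul, norm_pow]

lemma mult (q x : ℂ) (hq : ‖q‖ < 1) : Multipliable fun n : ℕ => 1 + q ^ n * x :=
  multipliable_one_add_of_summable (summ q x hq)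

lemma rec (q x : ℂ) (hq : ‖q‖ < 1) : P q x = (1 + x) * P q (q * x) := by
  have h : (fun n : ℕ => 1 + q ^ (n + 1) * x) = fun n : ℕ => 1 + q ^ n * (q * x) := by
    funext n; ring
  have hm : Multipliable fun n : ℕ => 1 + q ^ (n + 1) * x := by
    rw [h]; exact mult q (q * x) hq
  have := tprod_eq_zero_mul' (f := fun n : ℕ => 1 + q ^ n * x) hm
  rw [P, this, h, P]
  simp

lemma ne_zero (q x : ℂ) (hq : ‖q‖ < 1) (hx : ∀ n : ℕ, 1 + q ^ n * x ≠ 0) : P q x ≠ 0 :=
  tprod_one_add_ne_zero_of_summable hx (summ q x hq)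

lemma diff (q : ℂ) (hq : ‖q‖ < 1) : Differentiable ℂ (P q) := by
  have h1 : HasProdLocallyUniformlyOn (fun (n : ℕ) (x : ℂ) => 1 + q ^ n * x)
      (fun x => ∏' n : ℕ, (1 + q ^ n * x)) Set.univ := by
    apply hasProdLocallyUniformlyOn_of_forall_compact isOpen_univ
    intro K _ hcK
    obtain ⟨R, hR⟩ := hcK.isBounded.exists_norm_le
    have hs : Summable fun n : ℕ => ‖q‖ ^ n * R :=
      (summable_geometric_of_lt_one (norm_nonneg _) hq).mul_right _
    refine hs.hasProdUniformlyOn_nat_one_add hcK (.of_forall fun n x hx ↦ ?_)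
      (fun _ ↦ by fun_prop)
    rw [norm_mul, norm_pow]
    exact mul_le_mul_of_nonneg_left (hR x hx) (by positivity)
  have h2 := h1.differentiableOn (.of_forall fun _ ↦ by
    simpa [Finset.prod_fn] using DifferentiableOn.finsetProd (fun _ _ ↦ by fun_prop)) isOpen_univ
  exact differentiableOn_univ.1 h2

end Theta

theorem specTheta : SpecTheta := by
  intro w hw
  set q : ℂ := cexp (2 * π * I * w) with hqdef
  have hq : ‖q‖ < 1 := by
    rw [hqdef, Complex.norm_exp]
    have : (2 * π * I * w : ℂ).re = -(2 * π * w.im) := by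
      simp
    rw [this]
    have := Real.pi_pos
    rw [Real.exp_lt_one_iff]
    nlinarith [mul_pos Real.pi_pos hw]
  have hq0 : q ≠ 0 := Complex.exp_ne_zero _
  refine ⟨fun u => Theta.P q (cexp (2 * π * I * u)) * Theta.P q (q * cexp (-(2 * π * I * u))),
    ?_, ?_, ?_, ?_, ?_⟩
  · have h1 : Differentiable ℂ (Theta.P q) := Theta.diff q hq
    have h2 : Differentiable ℂ fun u : ℂ => cexp (2 * π * I * u) := by fun_prop
    have h3 : Differentiable ℂ fun u : ℂ => q * cexp (-(2 * π * I * u)) := by fun_prop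
    exact (h1.comp h2).mul (h1.comp h3)
  · intro u
    have h1 : cexp (2 * π * I * (u + 1)) = cexp (2 * π * I * u) := by
      rw [mul_add, mul_one, Complex.exp_add, Complex.exp_two_pi_mul_I, mul_one]
    have h2 : cexp (-(2 * π * I * (u + 1))) = cexp (-(2 * π * I * u)) := by
      rw [Complex.exp_neg, h1, Complex.exp_neg]
    simp only [h1, h2]
  · intro u
    set x := cexp (2 * π * I * u) with hx
    have hx0 : x ≠ 0 := Complex.exp_ne_zero _
    have h1 : cexp (2 * π * I * (u + w)) = q * x := by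
      rw [mul_add, Complex.exp_add, mul_comm]
    have h2 : cexp (-(2 * π * I * (u + w))) = q⁻¹ * x⁻¹ := by
      rw [Complex.exp_neg, h1, mul_inv]
    have h3 : cexp (-(2 * π * I * u)) = x⁻¹ := by
      rw [Complex.exp_neg]
    simp only [h1, h2, h3]
    have h4 : q * (q⁻¹ * x⁻¹) = x⁻¹ := by field_simp
    rw [h4, Theta.rec q x hq, Theta.rec q x⁻¹ hq]
    field_simp
    ring
  · have h1 : cexp (2 * π * I * (1 / 2)) = -1 := by
      rw [show (2 * π * I * (1 / 2) : ℂ) = π * I by ring, Complex.exp_pi_mul_I]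
    simp only [h1]
    rw [Theta.rec q (-1) hq]
    simp
  · have hn : ∀ n : ℕ, ∀ m : ℕ, 1 ≤ m ∨ m = 0 → 1 + q ^ m ≠ 0 := by
      intro n m _ h
      have h1 : q ^ m = -1 := by linear_combination h
      have h2 : ‖q‖ ^ m = 1 := by rw [← norm_pow, h1]; simp
      rcases Nat.eq_zero_or_pos m with rfl | hm
      · norm_num at h
      · have : ‖q‖ ^ m < 1 := pow_lt_one₀ (norm_nonneg _) hq (by omega)
        linarith
    have h0 : cexp (2 * π * I * 0) = 1 := by simp
    have h0' : cexp (-(2 * π * I * 0)) = 1 := by simp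
    simp only [h0, h0']
    refine mul_ne_zero (Theta.ne_zero q 1 hq fun n => ?_) (Theta.ne_zero q (q * 1) hq fun n => ?_)
    · rw [mul_one]; exact hn 0 n (by omega)
    · rw [mul_one, ← pow_succ]; exact hn 0 (n + 1) (by omega)

end Pool.Agent.Lib.MP_47914d_nt.Sn
end

section
/-!
Module WEI: values of the Weierstrass function.
-/
set_option autoImplicit false

open Complex Filter Topology
open scoped Real

namespace Pool.Agent.Lib.MP_47914d_nt.Sn

namespace Wei

/-- A doubly periodic meromorphic function without poles is constant. -/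
theorem const_of_order (L : PeriodPair) (h : ℂ → ℂ) (hm : ∀ x, MeromorphicAt h x)
    (ho : ∀ x, 0 ≤ meromorphicOrderAt h x) (hp : ∀ x, ∀ l ∈ L.lattice, h (x + l) = h x) :
    ∃ K : ℂ, ∀ x, h =ᶠ[𝓝[≠] x] fun _ => K := by
  have h1 : ∀ x, ∃ g : ℂ → ℂ, AnalyticAt ℂ g x ∧ h =ᶠ[𝓝[≠] x] g :=
    fun x => ((hm x).meromorphicOrderAt_nonneg_iff).1 (ho x)
  choose g hg1 hg2 using h1
  set H : ℂ → ℂ := fun x => g x x with hH
  have hlim : ∀ x, Tendsto h (𝓝[≠] x) (𝓝 (H x)) := by
    intro x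
    have h2 : Tendsto (g x) (𝓝[≠] x) (𝓝 (g x x)) :=
      (hg1 x).continuousAt.tendsto.mono_left nhdsWithin_le_nhds
    exact h2.congr' (hg2 x).symm
  have key : ∀ x, H =ᶠ[𝓝 x] g x := by
    intro x
    have e1 : ∀ᶠ y in 𝓝[≠] x, AnalyticAt ℂ (g x) y :=
      (hg1 x).eventually_analyticAt.filter_mono nhdsWithin_le_nhds
    have e2 : ∀ᶠ y in 𝓝[≠] x, ∀ᶠ z in 𝓝[≠] x, True := by simp
    have e3 : ∀ᶠ y in 𝓝[≠] x, ∀ᶠ z in 𝓝[{x}ᶜ] y, h z = g x z :=
      eventually_eventually_nhdsWithin.2 (hg2 x)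
    have e4 : ∀ᶠ y in 𝓝[≠] x, H y = g x y := by
      filter_upwards [e1, e3, self_mem_nhdsWithin] with y h1 h3 hy
      have h4 : 𝓝[{x}ᶜ] y = 𝓝 y := isOpen_compl_singleton.nhdsWithin_eq hy
      rw [h4] at h3
      have h5 : Tendsto h (𝓝[≠] y) (𝓝 (g x y)) := by
        have h6 : Tendsto (g x) (𝓝[≠] y) (𝓝 (g x y)) :=
          h1.continuousAt.tendsto.mono_left nhdsWithin_le_nhds
        refine h6.congr' ?_
        filter_upwards [h3.filter_mono nhdsWithin_le_nhds] with z hz using hz.symm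
      exact tendsto_nhds_unique (hlim y) h5
    have e5 : ∀ᶠ y in 𝓝 x, y ≠ x → H y = g x y := eventually_nhdsWithin_iff.1 e4
    filter_upwards [e5] with y hy
    by_cases hyx : y = x
    · rw [hyx]
    · exact hy hyx
  have hper : ∀ x, ∀ l ∈ L.lattice, H (x + l) = H x := by
    intro x l hl
    have h2 : Tendsto (fun y => y + l) (𝓝[≠] x) (𝓝[≠] (x + l)) := by
      refine tendsto_nhdsWithin_iff.2 ⟨?_, ?_⟩
      · have : Tendsto (fun y : ℂ => y + l) (𝓝 x) (𝓝 (x + l)) :=
          (continuous_add_const l).tendsto x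
        exact this.mono_left nhdsWithin_le_nhds
      · filter_upwards [self_mem_nhdsWithin] with y hy
        simpa using hy
    have h3 : Tendsto (fun y => h (y + l)) (𝓝[≠] x) (𝓝 (H (x + l))) := (hlim (x + l)).comp h2
    have h4 : Tendsto h (𝓝[≠] x) (𝓝 (H (x + l))) := by
      refine h3.congr fun y => hp y l hl
    exact tendsto_nhds_unique h4 (hlim x)
  have hd : Differentiable ℂ H := fun x =>
    ((hg1 x).congr (key x).symm).differentiableAt
  have hb : ∀ x, H x = H 0 := by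
    intro x
    exact hd.apply_eq_apply_of_bounded (IsZLattice.isCompact_range_of_periodic L.lattice _
      hd.continuous fun z w hw => hper z w hw).isBounded x 0
  refine ⟨H 0, fun x => ?_⟩
  filter_upwards [hg2 x, (key x).filter_mono nhdsWithin_le_nhds] with y h1 h2
  rw [h1, ← h2, hb y]

/-- `℘ - e`. -/
noncomputable def f (L : PeriodPair) (e : ℂ) : ℂ → ℂ := fun u => L.weierstrassP u - e

lemma mero (L : PeriodPair) (e : ℂ) (x : ℂ) : MeromorphicAt (f L e) x :=
  (L.meromorphic_weierstrassP x).sub (MeromorphicAt.const e x)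

lemma per (L : PeriodPair) (e : ℂ) (x : ℂ) (l : ℂ) (hl : l ∈ L.lattice) :
    f L e (x + l) = f L e x := by
  have := L.weierstrassP_add_coe x ⟨l, hl⟩
  simp only [f]
  rw [← this]

lemma ana (L : PeriodPair) (e : ℂ) (x : ℂ) (hx : x ∉ L.lattice) : AnalyticAt ℂ (f L e) x :=
  (L.analyticOnNhd_weierstrassP x hx).sub analyticAt_const

lemma ord_lattice (L : PeriodPair) (e : ℂ) (x : ℂ) (hx : x ∈ L.lattice) :
    meromorphicOrderAt (f L e) x = -2 := by
  have h0 : f L e = L.weierstrassP + fun _ => -e := by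
    funext u; simp [f, sub_eq_add_neg]
  have h1 := L.order_weierstrassP x hx
  rw [h0, ← h1]
  refine meromorphicOrderAt_add_eq_left_of_lt (MeromorphicAt.const (-e) x) ?_
  rw [h1]
  have : (0 : WithTop ℤ) ≤ meromorphicOrderAt (fun _ : ℂ => -e) x :=
    AnalyticAt.meromorphicOrderAt_nonneg analyticAt_const
  refine lt_of_lt_of_le ?_ this
  decide

lemma ord_nonneg (L : PeriodPair) (e : ℂ) (x : ℂ) (hx : x ∉ L.lattice) :
    0 ≤ meromorphicOrderAt (f L e) x := (ana L e x hx).meromorphicOrderAt_nonneg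

lemma ord_two (L : PeriodPair) (e : ℂ) (x : ℂ) (hx : x ∉ L.lattice)
    (h0 : L.weierstrassP x = e) (h1 : L.derivWeierstrassP x = 0) :
    2 ≤ meromorphicOrderAt (f L e) x := by
  have ha := ana L e x hx
  rw [ha.meromorphicOrderAt_eq]
  have h2 : (2 : ℕ) ≤ analyticOrderAt (f L e) x := by
    rw [natCast_le_analyticOrderAt_iff_iteratedDeriv_eq_zero ha]
    intro i hi
    interval_cases i
    · simp [f, h0]
    · rw [iteratedDeriv_one]
      have : deriv (f L e) x = deriv L.weierstrassP x := by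
        change deriv (fun u => L.weierstrassP u - e) x = _
        rw [deriv_sub_const]
      rw [this, L.deriv_weierstrassP, h1]
  have h3 := ENat.monotone_map_iff.mpr (Nat.mono_cast (α := ℤ)) h2
  simpa using h3

theorem surj (L : PeriodPair) (a : ℂ) : ∃ u, u ∉ L.lattice ∧ L.weierstrassP u = a := by
  by_contra hcon
  push Not at hcon
  have hinv : ∀ x, meromorphicOrderAt (f L a)⁻¹ x = - meromorphicOrderAt (f L a) x :=
    fun x => meromorphicOrderAt_inv
  have h0 : ∀ x, x ∉ L.lattice → meromorphicOrderAt (f L a) x = 0 := by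
    intro x hx
    have ha := ana L a x hx
    rw [ha.meromorphicOrderAt_eq]
    have : analyticOrderAt (f L a) x = 0 := by
      rw [ha.analyticOrderAt_eq_zero]
      exact sub_ne_zero.2 (hcon x hx)
    rw [this]; simp
  have hord : ∀ x, 0 ≤ meromorphicOrderAt (f L a)⁻¹ x := by
    intro x
    rw [hinv]
    by_cases hx : x ∈ L.lattice
    · rw [ord_lattice L a x hx]; decide
    · rw [h0 x hx]; simp
  obtain ⟨K, hK⟩ := const_of_order L (f L a)⁻¹ (fun x => (mero L a x).inv) hord (by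
    intro x l hl
    simp only [Pi.inv_apply]
    rw [per L a x l hl])
  have hK0 : K = 0 := by
    have h1 : Tendsto (f L a)⁻¹ (𝓝[≠] (0 : ℂ)) (𝓝 0) := by
      refine tendsto_zero_of_meromorphicOrderAt_pos ?_
      rw [hinv, ord_lattice L a 0 (zero_mem _)]
      decide
    have h2 : Tendsto (f L a)⁻¹ (𝓝[≠] (0 : ℂ)) (𝓝 K) :=
      tendsto_const_nhds.congr' (hK 0).symm
    exact tendsto_nhds_unique h2 h1
  have h3 : meromorphicOrderAt (f L a)⁻¹ (L.ω₁ / 2) = ⊤ := by
    rw [meromorphicOrderAt_eq_top_iff]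
    filter_upwards [hK (L.ω₁ / 2)] with y hy
    rw [hy, hK0]
  rw [hinv, h0 _ L.ω₁_div_two_notMem_lattice] at h3
  simp at h3

theorem root (L : PeriodPair) (e p : ℂ) (hp : p ∉ L.lattice) (he : L.weierstrassP p = e)
    (hr : 4 * e ^ 3 - L.g₂ * e - L.g₃ = 0) :
    (∀ u, u ∉ L.lattice → (L.weierstrassP u = e ↔ u - p ∈ L.lattice)) ∧
    ∃ K : ℂ, K ≠ 0 ∧ ∀ u, u ∉ L.lattice → u - p ∉ L.lattice →
      (L.weierstrassP u - e) * (L.weierstrassP (u - p) - e) = K := by
  have hd : L.derivWeierstrassP p = 0 := by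
    have := L.derivWeierstrassP_sq p hp
    rw [he, hr] at this
    exact pow_eq_zero_iff (two_ne_zero) |>.1 this
  have hmer : ∀ x, MeromorphicAt (fun u => f L e (u - p)) x := by
    intro x
    have hg : AnalyticAt ℂ (fun u : ℂ => u - p) x := by fun_prop
    exact MeromorphicAt.comp_analyticAt (f := f L e) (g := fun u : ℂ => u - p)
      (mero L e (x - p)) hg
  have hcomp : ∀ x, meromorphicOrderAt (fun u => f L e (u - p)) x =
      meromorphicOrderAt (f L e) (x - p) := by
    intro x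
    exact meromorphicOrderAt_comp_sub_const_eq_meromorphicOrderAt (f := f L e) (c := p) (x := x)
  have hmul : ∀ x, meromorphicOrderAt (f L e * fun u => f L e (u - p)) x =
      meromorphicOrderAt (f L e) x + meromorphicOrderAt (f L e) (x - p) := by
    intro x
    rw [meromorphicOrderAt_mul (mero L e x) (hmer x), hcomp]
  have hval : ∀ x, x - p ∈ L.lattice → L.weierstrassP x = e ∧ L.derivWeierstrassP x = 0 := by
    intro x hx
    have h1 := L.weierstrassP_add_coe p ⟨x - p, hx⟩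
    have h2 := L.derivWeierstrassP_add_coe p ⟨x - p, hx⟩
    simp only [add_sub_cancel] at h1 h2
    exact ⟨h1.trans he, h2.trans hd⟩
  have hval' : ∀ x, x ∈ L.lattice → L.weierstrassP (x - p) = e ∧
      L.derivWeierstrassP (x - p) = 0 := by
    intro x hx
    have h1 := L.weierstrassP_add_coe (-p) ⟨x, hx⟩
    have h2 := L.derivWeierstrassP_add_coe (-p) ⟨x, hx⟩
    simp only [neg_add_eq_sub] at h1 h2
    rw [h1, h2, L.weierstrassP_neg, L.derivWeierstrassP_neg, he, hd]
    simp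
  have hnot : ∀ x, x ∈ L.lattice → x - p ∉ L.lattice := by
    intro x hx h
    exact hp (by simpa using sub_mem hx h)
  have hord : ∀ x, 0 ≤ meromorphicOrderAt (f L e * fun u => f L e (u - p)) x := by
    intro x
    rw [hmul]
    by_cases hx : x ∈ L.lattice
    · have h1 := ord_two L e (x - p) (hnot x hx) (hval' x hx).1 (hval' x hx).2
      rw [ord_lattice L e x hx]
      calc (0 : WithTop ℤ) = -2 + 2 := by decide
        _ ≤ _ := by gcongr
    · by_cases hx' : x - p ∈ L.lattice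
      · have h1 := ord_two L e x hx (hval x hx').1 (hval x hx').2
        rw [ord_lattice L e (x - p) hx']
        calc (0 : WithTop ℤ) = 2 + -2 := by decide
          _ ≤ _ := by gcongr
      · exact add_nonneg (ord_nonneg L e x hx) (ord_nonneg L e _ hx')
  obtain ⟨K, hK⟩ := const_of_order L (f L e * fun u => f L e (u - p))
    (fun x => (mero L e x).mul (hmer x)) hord (by
    intro x l hl
    simp only [Pi.mul_apply]
    rw [per L e x l hl, show x + l - p = (x - p) + l by ring, per L e (x - p) l hl])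
  have hK0 : K ≠ 0 := by
    intro hK0
    have h1 : meromorphicOrderAt (f L e * fun u => f L e (u - p)) 0 = ⊤ := by
      rw [meromorphicOrderAt_eq_top_iff]
      filter_upwards [hK 0] with y hy
      rw [hy, hK0]
    rw [hmul, ord_lattice L e 0 (zero_mem _)] at h1
    have h2 : meromorphicOrderAt (f L e) (0 - p) ≠ ⊤ := by
      refine MeromorphicOn.meromorphicOrderAt_ne_top_of_isPreconnected
        (U := Set.univ) (fun x _ => mero L e x) isPreconnected_univ (x := (0 : ℂ))
        (Set.mem_univ _) (Set.mem_univ _) ?_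
      rw [ord_lattice L e 0 (zero_mem _)]
      decide
    rcases WithTop.add_eq_top.1 h1 with h | h
    · exact absurd h (by decide)
    · exact h2 h
  have hval2 : ∀ u, u ∉ L.lattice → u - p ∉ L.lattice →
      (L.weierstrassP u - e) * (L.weierstrassP (u - p) - e) = K := by
    intro u hu hu'
    have hc : ContinuousAt (f L e * fun u => f L e (u - p)) u := by
      refine ContinuousAt.mul (ana L e u hu).continuousAt ?_
      have h3 := (ana L e (u - p) hu').continuousAt
      exact ContinuousAt.comp (f := fun u => u - p) h3 (by fun_prop)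
    have h3 : Tendsto (f L e * fun u => f L e (u - p)) (𝓝[≠] u)
        (𝓝 ((f L e * fun u => f L e (u - p)) u)) := hc.tendsto.mono_left nhdsWithin_le_nhds
    have h4 : Tendsto (f L e * fun u => f L e (u - p)) (𝓝[≠] u) (𝓝 K) :=
      tendsto_const_nhds.congr' (hK u).symm
    exact tendsto_nhds_unique h3 h4
  refine ⟨fun u hu => ⟨fun h => ?_, fun h => (hval u h).1⟩, K, hK0, hval2⟩
  by_contra hu'
  have := hval2 u hu hu'
  rw [h, sub_self, zero_mul] at this
  exact hK0 this.symm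

end Wei

theorem specWei : SpecWei where
  surj := Wei.surj
  root := fun L e p hp he hr _ => Wei.root L e p hp he hr

end Pool.Agent.Lib.MP_47914d_nt.Sn
end

section
set_option autoImplicit false
open Complex Filter Topology Polynomial Finset
open scoped Real

namespace Pool.Agent.Lib.MP_47914d_nt.Sn
namespace Zero

/-- Chain rule for power series. -/
lemma chain (P : MvPolynomial (Fin 2) ℂ) (f g : PowerSeries ℂ) :
    PowerSeries.derivative ℂ (MvPolynomial.aeval ![f, g] P) =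
      MvPolynomial.aeval ![f, g] (MvPolynomial.pderiv 0 P) * PowerSeries.derivative ℂ f +
      MvPolynomial.aeval ![f, g] (MvPolynomial.pderiv 1 P) * PowerSeries.derivative ℂ g := by
  induction P using MvPolynomial.induction_on with
  | C a =>
    have : MvPolynomial.aeval ![f, g] (MvPolynomial.C a) = PowerSeries.C a := by
      rw [MvPolynomial.aeval_C]; rfl
    rw [this]
    simp
  | add p q hp hq =>
    simp only [map_add, hp, hq]; ring
  | mul_X p i hp =>
    fin_cases i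
    · simp [hp, Derivation.leibniz, MvPolynomial.pderiv_X]
      ring
    · simp [hp, Derivation.leibniz, MvPolynomial.pderiv_X]
      ring

lemma derivative_rescale (x : ℂ) (f : PowerSeries ℂ) :
    PowerSeries.derivative ℂ (PowerSeries.rescale x f) =
      PowerSeries.C x * PowerSeries.rescale x (PowerSeries.derivative ℂ f) := by
  ext n
  simp only [PowerSeries.coeff_derivative, PowerSeries.coeff_rescale, PowerSeries.coeff_C_mul]
  ring

lemma order_phi (β : ℂ) : (phi β).order = 2 := by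
  have h := (PowerSeries.order_eq_nat (φ := phi β) (n := 2)).2
  refine h ⟨?_, ?_⟩
  · have : aeval β (2 : ℤ[X]) = (2 : ℂ) := map_ofNat _ 2
    simp [phi, Cp, this]
  · intro i hi
    interval_cases i
    · simp [phi, Cp]
    · simp [phi]

lemma order_rescale (x : ℂ) (hx : x ≠ 0) (f : PowerSeries ℂ) (n : ℕ) (h : f.order = n) :
    (PowerSeries.rescale x f).order = n := by
  rw [PowerSeries.order_eq_nat] at h ⊢
  refine ⟨?_, fun i hi => ?_⟩
  · rw [PowerSeries.coeff_rescale]
    exact mul_ne_zero (pow_ne_zero _ hx) h.1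
  · rw [PowerSeries.coeff_rescale, h.2 i hi, mul_zero]

lemma order_aeval_le (f : PowerSeries ℂ) (hf : f.order = 2) :
    ∀ (n : ℕ) (R : ℂ[X]), R ≠ 0 → R.natDegree ≤ n →
      (aeval f R).order ≤ ((2 * n : ℕ) : ℕ∞) := by
  have hc : PowerSeries.constantCoeff f = 0 := by
    have := PowerSeries.coeff_of_lt_order (φ := f) 0 (by rw [hf]; norm_num)
    simpa using this
  intro n
  induction n with
  | zero =>
    intro R hR hd
    have : R = C (R.coeff 0) := eq_C_of_natDegree_le_zero hd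
    have h0 : R.coeff 0 ≠ 0 := by
      intro h; rw [h] at this; simp at this; exact hR this
    rw [this, aeval_C]
    refine (PowerSeries.order_le 0 ?_).trans (by simp)
    have : algebraMap ℂ (PowerSeries ℂ) (R.coeff 0) = PowerSeries.C (R.coeff 0) := rfl
    rw [this]; simpa using h0
  | succ n ih =>
    intro R hR hd
    by_cases h0 : R.coeff 0 = 0
    · obtain ⟨R', rfl⟩ : X ∣ R := X_dvd_iff.2 h0
      have hR' : R' ≠ 0 := by rintro rfl; simp at hR
      rw [natDegree_X_mul hR'] at hd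
      rw [map_mul, aeval_X, PowerSeries.order_mul, hf]
      have := ih R' hR' (by omega)
      calc 2 + (aeval f R').order ≤ 2 + ((2 * n : ℕ) : ℕ∞) := by gcongr
        _ = ((2 * (n + 1) : ℕ) : ℕ∞) := by push_cast; ring
    · refine (PowerSeries.order_le 0 ?_).trans (by simp)
      have h2 : (PowerSeries.constantCoeff (R := ℂ)).comp (algebraMap ℂ (PowerSeries ℂ)) =
          RingHom.id ℂ := by
        ext a
        simp
      have h1 : PowerSeries.constantCoeff (aeval f R) = R.coeff 0 := by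
        rw [aeval_def, hom_eval₂, hc, h2, eval₂_id, ← coeff_zero_eq_eval_zero]
      simpa [PowerSeries.coeff_zero_eq_constantCoeff, h1] using h0

/-- A polynomial whose derivative in the variable `j` vanishes is a polynomial in the other
variable `i`. -/
lemma exists_of_pderiv_eq_zero (i j : Fin 2) (hij : i ≠ j) (P : MvPolynomial (Fin 2) ℂ)
    (h : MvPolynomial.pderiv j P = 0) :
    ∃ R : ℂ[X], R.natDegree ≤ P.totalDegree ∧ P = R.toMvPolynomial i := by
  classical
  have h0 : ∀ m ∈ P.support, m j = 0 := by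
    intro m hm
    by_contra hj
    have h1 := congrArg (MvPolynomial.coeff (m - Finsupp.single j 1)) h
    rw [MvPolynomial.coeff_pderiv, MvPolynomial.coeff_zero] at h1
    have h2 : m - Finsupp.single j 1 + Finsupp.single j 1 = m := by
      refine tsub_add_cancel_of_le ?_
      intro k
      by_cases hk : k = j
      · subst hk; simp; omega
      · simp [Ne.symm hk]
    rw [h2] at h1
    rcases mul_eq_zero.1 h1 with h3 | h3
    · exact (MvPolynomial.mem_support_iff.1 hm) h3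
    · exact Nat.cast_add_one_ne_zero _ h3
  refine ⟨∑ m ∈ P.support, Polynomial.monomial (m i) (P.coeff m), ?_, ?_⟩
  · refine Polynomial.natDegree_sum_le_of_forall_le _ _ (fun m hm => ?_)
    refine (Polynomial.natDegree_monomial_le _).trans ?_
    exact (Finsupp.le_degree i m).trans (MvPolynomial.le_totalDegree hm)
  · rw [map_sum]
    conv_lhs => rw [MvPolynomial.as_sum P]
    refine Finset.sum_congr rfl fun m hm => ?_
    have hm' : m = Finsupp.single i (m i) := by
      ext k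
      have hk : k = i ∨ k = j := by
        fin_cases i <;> fin_cases j <;> fin_cases k <;> simp_all
      rcases hk with rfl | rfl
      · simp
      · simp [h0 m hm, hij]
    rw [← Polynomial.C_mul_X_pow_eq_monomial, map_mul, map_pow, Polynomial.toMvPolynomial_C,
      Polynomial.toMvPolynomial_X]
    conv_lhs => rw [hm']
    rw [MvPolynomial.C_mul_X_pow_eq_monomial, ← hm']

lemma totalDegree_pderiv_lt (i : Fin 2) (P : MvPolynomial (Fin 2) ℂ)
    (h : MvPolynomial.pderiv i P ≠ 0) :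
    (MvPolynomial.pderiv i P).totalDegree + 1 ≤ P.totalDegree := by
  classical
  have key : ∀ m ∈ (MvPolynomial.pderiv i P).support, m.degree + 1 ≤ P.totalDegree := by
    intro m hm
    have h1 : P.coeff (m + Finsupp.single i 1) ≠ 0 := by
      intro h2
      rw [MvPolynomial.mem_support_iff, MvPolynomial.coeff_pderiv, h2, zero_mul] at hm
      exact hm rfl
    have h2 := MvPolynomial.le_totalDegree (MvPolynomial.mem_support_iff.2 h1)
    have h3 : (m + Finsupp.single i 1).degree = m.degree + 1 := by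
      rw [map_add, Finsupp.degree_single]
    rw [← h3]
    exact h2
  obtain ⟨m0, hm0⟩ := MvPolynomial.support_nonempty.2 h
  have hpos := key m0 hm0
  have : (MvPolynomial.pderiv i P).totalDegree ≤ P.totalDegree - 1 := by
    refine Finset.sup_le fun m hm => ?_
    have := key m hm
    change m.degree ≤ _
    omega
  omega

/-- `4 X (1 + X + β X ^ 2)` in the variable `i`. -/
noncomputable def gg (β : ℂ) (i : Fin 2) : MvPolynomial (Fin 2) ℂ :=
  4 * MvPolynomial.X i * (1 + MvPolynomial.X i + MvPolynomial.C β * MvPolynomial.X i ^ 2)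

/-- The product of the two derivatives as a polynomial. -/
noncomputable def QQ (β ξ : ℂ) (P : MvPolynomial (Fin 2) ℂ) : MvPolynomial (Fin 2) ℂ :=
  (MvPolynomial.pderiv 0 P) ^ 2 * gg β 0 -
    MvPolynomial.C (ξ ^ 2) * (MvPolynomial.pderiv 1 P) ^ 2 * gg β 1

/-- The power series of `P(φ(v), φ(ξ v))`. -/
noncomputable def FF (β ξ : ℂ) (P : MvPolynomial (Fin 2) ℂ) : PowerSeries ℂ :=
  MvPolynomial.aeval ![phi β, PowerSeries.rescale ξ (phi β)] P

lemma totalDegree_gg (β : ℂ) (i : Fin 2) : (gg β i).totalDegree ≤ 3 := by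
  unfold gg
  have h4 : (4 : MvPolynomial (Fin 2) ℂ) = MvPolynomial.C 4 := (map_ofNat _ 4).symm
  have h1 : (4 * MvPolynomial.X i : MvPolynomial (Fin 2) ℂ).totalDegree ≤ 1 := by
    refine (MvPolynomial.totalDegree_mul _ _).trans ?_
    rw [h4, MvPolynomial.totalDegree_C, MvPolynomial.totalDegree_X]
  have h2 : (1 + MvPolynomial.X i + MvPolynomial.C β * MvPolynomial.X i ^ 2 :
      MvPolynomial (Fin 2) ℂ).totalDegree ≤ 2 := by
    refine (MvPolynomial.totalDegree_add _ _).trans (max_le ?_ ?_)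
    · refine (MvPolynomial.totalDegree_add _ _).trans (max_le ?_ ?_)
      · simp
      · rw [MvPolynomial.totalDegree_X]; norm_num
    · refine (MvPolynomial.totalDegree_mul _ _).trans ?_
      rw [MvPolynomial.totalDegree_C, MvPolynomial.totalDegree_X_pow]
  exact (MvPolynomial.totalDegree_mul _ _).trans (by omega)

lemma totalDegree_QQ (β ξ : ℂ) (P : MvPolynomial (Fin 2) ℂ)
    (h1 : MvPolynomial.pderiv 1 P ≠ 0) : (QQ β ξ P).totalDegree ≤ 2 * P.totalDegree + 1 := by
  have hd1 := totalDegree_pderiv_lt 1 P h1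
  have hd0 : (MvPolynomial.pderiv 0 P).totalDegree + 1 ≤ P.totalDegree := by
    by_cases h0 : MvPolynomial.pderiv 0 P = 0
    · rw [h0, MvPolynomial.totalDegree_zero]; omega
    · exact totalDegree_pderiv_lt 0 P h0
  unfold QQ
  refine (MvPolynomial.totalDegree_sub _ _).trans (max_le ?_ ?_)
  · refine (MvPolynomial.totalDegree_mul _ _).trans ?_
    have := MvPolynomial.totalDegree_pow (MvPolynomial.pderiv 0 P) 2
    have := totalDegree_gg β 0
    omega
  · refine (MvPolynomial.totalDegree_mul _ _).trans ?_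
    have h2 := MvPolynomial.totalDegree_mul (MvPolynomial.C (ξ ^ 2)) ((MvPolynomial.pderiv 1 P) ^ 2)
    rw [MvPolynomial.totalDegree_C] at h2
    have := MvPolynomial.totalDegree_pow (MvPolynomial.pderiv 1 P) 2
    have := totalDegree_gg β 1
    omega

lemma FF_mul (β ξ : ℂ) (P Q : MvPolynomial (Fin 2) ℂ) : FF β ξ (P * Q) = FF β ξ P * FF β ξ Q :=
  map_mul _ _ _

/-- `F' G = Q(φ(v), φ(ξ v))`. -/
lemma FF_QQ (hT : SpecTay) (β ξ : ℂ) (P : MvPolynomial (Fin 2) ℂ) :
    ∃ G : PowerSeries ℂ, FF β ξ (QQ β ξ P) = PowerSeries.derivative ℂ (FF β ξ P) * G := by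
  set f := phi β with hf
  refine ⟨FF β ξ (MvPolynomial.pderiv 0 P) * PowerSeries.derivative ℂ f -
    FF β ξ (MvPolynomial.pderiv 1 P) * PowerSeries.derivative ℂ (PowerSeries.rescale ξ f), ?_⟩
  have h1 := hT.ode1 β
  rw [← hf] at h1
  have h2 : PowerSeries.derivative ℂ (PowerSeries.rescale ξ f) ^ 2 =
      PowerSeries.C (ξ ^ 2) * (4 * PowerSeries.rescale ξ f * (1 + PowerSeries.rescale ξ f +
        PowerSeries.C β * PowerSeries.rescale ξ f ^ 2)) := by
    rw [derivative_rescale, mul_pow, ← map_pow (PowerSeries.rescale ξ), h1]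
    have : PowerSeries.rescale ξ (PowerSeries.C β) = PowerSeries.C β := by
      ext n
      rw [PowerSeries.coeff_rescale, PowerSeries.coeff_C]
      split_ifs with h
      · rw [h]; simp
      · simp
    simp only [map_mul, map_add, map_one, map_pow, this, map_ofNat]
  have hC : ∀ a : ℂ, FF β ξ (MvPolynomial.C a) = PowerSeries.C a := by
    intro a
    unfold FF
    rw [MvPolynomial.aeval_C]; rfl
  have hX0 : FF β ξ (MvPolynomial.X 0) = f := by simp [FF, hf]
  have hX1 : FF β ξ (MvPolynomial.X 1) = PowerSeries.rescale ξ f := by simp [FF, hf]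
  have h3 : FF β ξ (QQ β ξ P) = FF β ξ (MvPolynomial.pderiv 0 P) ^ 2 *
      (4 * f * (1 + f + PowerSeries.C β * f ^ 2)) -
      PowerSeries.C (ξ ^ 2) * FF β ξ (MvPolynomial.pderiv 1 P) ^ 2 *
      (4 * PowerSeries.rescale ξ f * (1 + PowerSeries.rescale ξ f +
        PowerSeries.C β * PowerSeries.rescale ξ f ^ 2)) := by
    rw [← hC, ← hC, ← hX1, ← hX0]
    unfold QQ gg FF
    simp only [map_mul, map_add, map_one, map_pow, map_sub, map_ofNat]
  rw [h3, ← h1]
  have h4 : PowerSeries.derivative ℂ (FF β ξ P) = FF β ξ (MvPolynomial.pderiv 0 P) *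
      PowerSeries.derivative ℂ f + FF β ξ (MvPolynomial.pderiv 1 P) *
      PowerSeries.derivative ℂ (PowerSeries.rescale ξ f) := chain P _ _
  rw [h4]
  linear_combination ((FF β ξ (MvPolynomial.pderiv 1 P)) ^ 2) * h2

lemma X_pow_dvd_derivative (n : ℕ) (f : PowerSeries ℂ) (h : PowerSeries.X ^ (n + 1) ∣ f) :
    PowerSeries.X ^ n ∣ PowerSeries.derivative ℂ f := by
  rw [PowerSeries.X_pow_dvd_iff] at h ⊢
  intro m hm
  rw [PowerSeries.coeff_derivative, h (m + 1) (by omega), zero_mul]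

lemma order_two (hT : SpecTay) (hZ : SpecZalg) (β ξ : ℂ) (P : MvPolynomial (Fin 2) ℂ)
    (hP : Irreducible P) (h1 : MvPolynomial.pderiv 1 P ≠ 0) (hnd : ¬ P ∣ QQ β ξ P) :
    ¬ PowerSeries.X ^ (12 * P.totalDegree ^ 2 + 2) ∣ FF β ξ P := by
  intro hdvd
  set d := P.totalDegree with hd
  obtain ⟨U, V, R, hR0, hRd, hUV⟩ := hZ P (QQ β ξ P) d hP hnd le_rfl
    (by simpa [hd] using totalDegree_QQ β ξ P h1) h1
  obtain ⟨G, hG⟩ := FF_QQ hT β ξ P
  have h2 : PowerSeries.X ^ (12 * d ^ 2 + 1) ∣ aeval (phi β) R := by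
    have h3 : aeval (phi β) R = FF β ξ (R.toMvPolynomial (0 : Fin 2)) := by
      simp [FF]
    rw [h3, ← hUV]
    have h4 : FF β ξ (U * P + V * QQ β ξ P) = FF β ξ U * FF β ξ P +
        FF β ξ V * (PowerSeries.derivative ℂ (FF β ξ P) * G) := by
      rw [← hG, ← FF_mul, ← FF_mul]; exact map_add _ _ _
    rw [h4]
    refine dvd_add ?_ ?_
    · exact ((pow_dvd_pow _ (by omega)).trans hdvd).mul_left _
    · exact ((X_pow_dvd_derivative _ _ hdvd).mul_right _).mul_left _
  have h5 := order_aeval_le (phi β) (order_phi β) (6 * d ^ 2) R hR0 hRd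
  have h6 : ((12 * d ^ 2 + 1 : ℕ) : ℕ∞) ≤ (aeval (phi β) R).order := by
    refine PowerSeries.nat_le_order _ _ (fun i hi => ?_)
    exact (PowerSeries.X_pow_dvd_iff.1 h2) i hi
  have h7 := h6.trans h5
  have h8 : 12 * d ^ 2 + 1 ≤ 2 * (6 * d ^ 2) := by exact_mod_cast h7
  omega

lemma order_le_of_not_dvd (f : PowerSeries ℂ) (n : ℕ) (h : ¬ PowerSeries.X ^ (n + 1) ∣ f) :
    f.order ≤ (n : ℕ∞) := by
  by_contra hlt
  rw [not_le] at hlt
  refine h (PowerSeries.X_pow_dvd_iff.2 fun m hm => ?_)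
  refine PowerSeries.coeff_of_lt_order m (lt_of_le_of_lt ?_ hlt)
  exact_mod_cast Nat.lt_succ_iff.1 hm

lemma totalDegree_pos_of_irreducible (P : MvPolynomial (Fin 2) ℂ) (hP : Irreducible P) :
    1 ≤ P.totalDegree := by
  by_contra h
  have h0 : P.totalDegree = 0 := by omega
  rw [MvPolynomial.totalDegree_eq_zero_iff_eq_C] at h0
  have hne : P.coeff 0 ≠ 0 := by
    intro h1
    rw [h1] at h0
    rw [map_zero] at h0
    exact hP.ne_zero h0
  refine hP.not_isUnit ?_
  rw [h0]
  exact (isUnit_iff_ne_zero.2 hne).map _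

lemma order_total (hT : SpecTay) (hZ : SpecZalg) (β ξ : ℂ) (hξ : ξ ≠ 0)
    (P : MvPolynomial (Fin 2) ℂ) : P ≠ 0 →
    (∀ P' : MvPolynomial (Fin 2) ℂ, P' ∣ P → Irreducible P' → MvPolynomial.pderiv 0 P' ≠ 0 →
      MvPolynomial.pderiv 1 P' ≠ 0 → ¬ P' ∣ QQ β ξ P') →
    (FF β ξ P).order ≤ ((13 * P.totalDegree ^ 2 : ℕ) : ℕ∞) := by
  classical
  have hirr : ∀ P : MvPolynomial (Fin 2) ℂ, Irreducible P →
      (MvPolynomial.pderiv 0 P ≠ 0 → MvPolynomial.pderiv 1 P ≠ 0 → ¬ P ∣ QQ β ξ P) →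
      (FF β ξ P).order ≤ ((13 * P.totalDegree ^ 2 : ℕ) : ℕ∞) := by
    intro P hP hg
    have hd := totalDegree_pos_of_irreducible P hP
    have hd2 : P.totalDegree ≤ P.totalDegree ^ 2 := by nlinarith
    by_cases h1 : MvPolynomial.pderiv 1 P = 0
    · obtain ⟨R, hR, hPR⟩ := exists_of_pderiv_eq_zero 0 1 (by decide) P h1
      have hR0 : R ≠ 0 := by
        rintro rfl
        rw [map_zero] at hPR
        exact hP.ne_zero hPR
      have h2 : FF β ξ P = aeval (phi β) R := by
        conv_lhs => rw [hPR]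
        simp [FF]
      rw [h2]
      refine (order_aeval_le (phi β) (order_phi β) P.totalDegree R hR0 hR).trans ?_
      exact_mod_cast (by omega : 2 * P.totalDegree ≤ 13 * P.totalDegree ^ 2)
    · by_cases h0 : MvPolynomial.pderiv 0 P = 0
      · obtain ⟨R, hR, hPR⟩ := exists_of_pderiv_eq_zero 1 0 (by decide) P h0
        have hR0 : R ≠ 0 := by
          rintro rfl
          rw [map_zero] at hPR
          exact hP.ne_zero hPR
        have h2 : FF β ξ P = aeval (PowerSeries.rescale ξ (phi β)) R := by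
          conv_lhs => rw [hPR]
          simp [FF]
        rw [h2]
        refine (order_aeval_le _ (order_rescale ξ hξ _ 2 (order_phi β))
          P.totalDegree R hR0 hR).trans ?_
        exact_mod_cast (by omega : 2 * P.totalDegree ≤ 13 * P.totalDegree ^ 2)
      · have h2 := order_two hT hZ β ξ P hP h1 (hg h0 h1)
        refine (order_le_of_not_dvd _ _ h2).trans ?_
        exact_mod_cast (by omega : 12 * P.totalDegree ^ 2 + 1 ≤ 13 * P.totalDegree ^ 2)
  induction P using WfDvdMonoid.induction_on_irreducible with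
  | zero => intro h; exact absurd rfl h
  | unit u hu =>
    intro _ _
    have : IsUnit (FF β ξ u) := hu.map (MvPolynomial.aeval ![phi β, PowerSeries.rescale ξ (phi β)])
    rw [PowerSeries.order_zero_of_unit this]
    exact zero_le
  | mul a i ha hi ih =>
    intro hne hg
    have h1 := ih ha (fun P' h => hg P' (h.mul_left _))
    have h2 := hirr i hi (hg i (dvd_mul_right _ _) hi)
    rw [FF_mul, PowerSeries.order_mul, MvPolynomial.totalDegree_mul_of_isDomain hi.ne_zero ha]
    refine (add_le_add h2 h1).trans ?_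
    have : 13 * i.totalDegree ^ 2 + 13 * a.totalDegree ^ 2 ≤
        13 * (i.totalDegree + a.totalDegree) ^ 2 := by
      nlinarith [Nat.zero_le (i.totalDegree * a.totalDegree)]
    exact_mod_cast this

/-- The polynomial `∑ p i j X ^ i Y ^ j`. -/
noncomputable def PP (L : ℕ) (p : ℕ → ℕ → ℤ) : MvPolynomial (Fin 2) ℂ :=
  ∑ i ∈ range (L + 1), ∑ j ∈ range (L + 1),
    MvPolynomial.C (p i j : ℂ) * MvPolynomial.X 0 ^ i * MvPolynomial.X 1 ^ j

lemma FF_PP (L : ℕ) (p : ℕ → ℕ → ℤ) (β ξ : ℂ) : FF β ξ (PP L p) = gamS L p β ξ := by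
  unfold FF PP gamS
  simp only [map_sum, map_mul, map_pow, MvPolynomial.aeval_X]
  refine Finset.sum_congr rfl fun i _ => Finset.sum_congr rfl fun j _ => ?_
  rw [MvPolynomial.aeval_C]
  rfl

lemma totalDegree_PP (L : ℕ) (p : ℕ → ℕ → ℤ) : (PP L p).totalDegree ≤ 2 * L := by
  unfold PP
  refine MvPolynomial.totalDegree_finsetSum_le (fun i hi => ?_)
  refine MvPolynomial.totalDegree_finsetSum_le (fun j hj => ?_)
  rw [Finset.mem_range] at hi hj
  refine (MvPolynomial.totalDegree_mul _ _).trans ?_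
  have h1 := MvPolynomial.totalDegree_mul (MvPolynomial.C (p i j : ℂ)) (MvPolynomial.X (0 : Fin 2) ^ i)
  rw [MvPolynomial.totalDegree_C, MvPolynomial.totalDegree_X_pow] at h1
  rw [MvPolynomial.totalDegree_X_pow]
  omega

lemma degreeOf_PP (L : ℕ) (p : ℕ → ℕ → ℤ) : (PP L p).degreeOf 1 ≤ L := by
  unfold PP
  refine (MvPolynomial.degreeOf_sum_le _ _ _).trans (Finset.sup_le fun i _ => ?_)
  refine (MvPolynomial.degreeOf_sum_le _ _ _).trans (Finset.sup_le fun j hj => ?_)
  rw [Finset.mem_range] at hj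
  refine (MvPolynomial.degreeOf_mul_le _ _ _).trans ?_
  have h1 := MvPolynomial.degreeOf_mul_le 1 (MvPolynomial.C (p i j : ℂ))
    (MvPolynomial.X (0 : Fin 2) ^ i)
  have h2 : MvPolynomial.degreeOf 1 (MvPolynomial.X (0 : Fin 2) ^ i : MvPolynomial (Fin 2) ℂ) = 0 := by
    have := MvPolynomial.degreeOf_pow_le (1 : Fin 2) (MvPolynomial.X (0 : Fin 2) : MvPolynomial (Fin 2) ℂ) i
    rw [MvPolynomial.degreeOf_X_of_ne (by decide)] at this
    omega
  have h3 : MvPolynomial.degreeOf 1 (MvPolynomial.X (1 : Fin 2) ^ j : MvPolynomial (Fin 2) ℂ) ≤ j := by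
    have := MvPolynomial.degreeOf_pow_le (1 : Fin 2) (MvPolynomial.X (1 : Fin 2) : MvPolynomial (Fin 2) ℂ) j
    rw [MvPolynomial.degreeOf_X_self] at this
    omega
  rw [MvPolynomial.degreeOf_C, h2] at h1
  omega

lemma PP_ne_zero (L : ℕ) (p : ℕ → ℕ → ℤ) (h : ∃ i j, i ≤ L ∧ j ≤ L ∧ p i j ≠ 0) : PP L p ≠ 0 := by
  classical
  obtain ⟨i, j, hi, hj, hp⟩ := h
  intro h0
  have h1 := congrArg (MvPolynomial.coeff (Finsupp.single 0 i + Finsupp.single 1 j)) h0
  have h2 : ∀ i' j' : ℕ, MvPolynomial.C (p i' j' : ℂ) * MvPolynomial.X (0 : Fin 2) ^ i' *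
      MvPolynomial.X 1 ^ j' =
      MvPolynomial.monomial (Finsupp.single 0 i' + Finsupp.single 1 j') (p i' j' : ℂ) := by
    intro i' j'
    rw [MvPolynomial.C_mul_X_pow_eq_monomial, MvPolynomial.X_pow_eq_monomial,
      MvPolynomial.monomial_mul, mul_one]
  unfold PP at h1
  simp only [h2, MvPolynomial.coeff_sum, MvPolynomial.coeff_monomial, MvPolynomial.coeff_zero] at h1
  have h3 : ∀ i' j' : ℕ, (Finsupp.single (0 : Fin 2) i' + Finsupp.single 1 j' =
      Finsupp.single 0 i + Finsupp.single 1 j) ↔ (i' = i ∧ j' = j) := by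
    intro i' j'
    constructor
    · intro h
      have ha := DFunLike.congr_fun h 0
      have hb := DFunLike.congr_fun h 1
      simp at ha hb
      exact ⟨ha, hb⟩
    · rintro ⟨rfl, rfl⟩; rfl
  simp only [h3] at h1
  rw [Finset.sum_eq_single i, Finset.sum_eq_single j] at h1
  · simp at h1
    exact hp h1
  · intro b _ hb
    rw [if_neg (by tauto)]
  · intro hb
    exact absurd (Finset.mem_range.2 (by omega)) hb
  · intro b _ hb
    refine Finset.sum_eq_zero fun c _ => ?_
    rw [if_neg (by tauto)]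
  · intro hb
    exact absurd (Finset.mem_range.2 (by omega)) hb

/-- There is an exceptional irreducible factor. -/
lemma exists_bad (hT : SpecTay) (hZ : SpecZalg) (β ξ : ℂ) (hξ : ξ ≠ 0) (L : ℕ)
    (p : ℕ → ℕ → ℤ) (h : ∃ i j, i ≤ L ∧ j ≤ L ∧ p i j ≠ 0)
    (hv : ∀ t ≤ 64 * L ^ 2, gam L p β ξ t = 0) :
    ∃ P : MvPolynomial (Fin 2) ℂ, Irreducible P ∧ P.degreeOf 1 ≤ L ∧
      MvPolynomial.pderiv 0 P ≠ 0 ∧ MvPolynomial.pderiv 1 P ≠ 0 ∧ P ∣ QQ β ξ P := by
  by_contra hcon
  push Not at hcon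
  have h0 := PP_ne_zero L p h
  have h1 := order_total hT hZ β ξ hξ (PP L p) h0 (by
    intro P' hdvd hirr ha hb hc
    refine hcon P' hirr ?_ ha hb hc
    obtain ⟨Q, hQ⟩ := hdvd
    have hQ0 : Q ≠ 0 := by rintro rfl; rw [mul_zero] at hQ; exact h0 hQ
    have := MvPolynomial.degreeOf_mul_eq (n := (1 : Fin 2)) hirr.ne_zero hQ0
    rw [← hQ] at this
    have := degreeOf_PP L p
    omega)
  have h2 : ((64 * L ^ 2 + 1 : ℕ) : ℕ∞) ≤ (FF β ξ (PP L p)).order := by
    refine PowerSeries.nat_le_order _ _ (fun i hi => ?_)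
    rw [FF_PP]
    exact hv i (by omega)
  have h3 : 64 * L ^ 2 + 1 ≤ 13 * (PP L p).totalDegree ^ 2 := by exact_mod_cast h2.trans h1
  have h4 := totalDegree_PP L p
  nlinarith

end Zero
end Pool.Agent.Lib.MP_47914d_nt.Sn
end
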