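import Pool.Agent.Lib.MP_47914d_nt.Sn.Spec
import Pool.Agent.Lib.MP_47914d_nt.JFormula
import Pool.Agent.Lib.MP_47914d_nt.Sn.Fin
import Pool.Agent.Lib.MP_47914d_nt.Sn.Root
import Pool.Agent.Lib.MP_47914d_nt.Sn.Appr
import Pool.Agent.Lib.MP_47914d_nt.Sn.Zero1
import Pool.Agent.Lib.MP_47914d_nt.Sn.Sieg
import Pool.Agent.Lib.MP_47914d_nt.Sn.EllW
import Pool.Agent.Lib.MP_47914d_nt.Sn.Zalg
import Pool.Agent.Lib.MP_47914d_nt.Sn.Loc
import Pool.Agent.Lib.MP_47914d_nt.Sn.Zero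

section
/-!
JG: the Klein invariant in terms of the invariants of a period pair.
-/
set_option autoImplicit false

open Complex

namespace Pool.Agent.Lib.MP_47914d_nt.Sn

theorem JG.G_eq (L : PeriodPair) (n : ℕ) :
    L.G n = ∑' p : ℤ × ℤ, 1 / ((p.1 : ℂ) * L.ω₂ + (p.2 : ℂ) * L.ω₁) ^ n := by
  rw [PeriodPair.G, ← L.latticeEquivProd.symm.toEquiv.tsum_eq,
    ← (Equiv.prodComm ℤ ℤ).tsum_eq]
  refine tsum_congr fun p => ?_
  have h : ((L.latticeEquivProd.symm (p.2, p.1) : L.lattice) : ℂ) =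
      (p.1 : ℂ) * L.ω₂ + (p.2 : ℂ) * L.ω₁ := by
    rw [L.latticeEquiv_symm_apply]
    ring
  rw [← h, one_div]
  rfl

theorem JG.term (a b c : ℂ) (hc : c ≠ 0) (p : ℤ × ℤ) (n : ℕ) :
    c ^ n * (1 / ((p.1 : ℂ) * (c * a) + (p.2 : ℂ) * (c * b)) ^ n) =
      1 / ((p.1 : ℂ) * a + (p.2 : ℂ) * b) ^ n := by
  have : (p.1 : ℂ) * (c * a) + (p.2 : ℂ) * (c * b) = c * ((p.1 : ℂ) * a + (p.2 : ℂ) * b) := by
    ring
  rw [this, mul_pow, one_div, mul_inv, ← mul_assoc, mul_inv_cancel₀ (pow_ne_zero n hc), one_mul,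
    one_div]

theorem JG.G_scale (L L' : PeriodPair) (c : ℂ) (hc : c ≠ 0) (h1 : L'.ω₁ = c * L.ω₁)
    (h2 : L'.ω₂ = c * L.ω₂) (n : ℕ) : c ^ n * L'.G n = L.G n := by
  rw [JG.G_eq, JG.G_eq, ← tsum_mul_left]
  refine tsum_congr fun p => ?_
  rw [h1, h2, JG.term _ _ _ hc]

theorem JG.G_tau (L : PeriodPair) (h1 : L.ω₁ ≠ 0) (n : ℕ) :
    L.ω₁ ^ n * L.G n = ∑' p : ℤ × ℤ, 1 / ((p.1 : ℂ) * (L.ω₂ / L.ω₁) + (p.2 : ℂ)) ^ n := by
  rw [JG.G_eq, ← tsum_mul_left]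
  refine tsum_congr fun p => ?_
  have h := JG.term (L.ω₂ / L.ω₁) 1 L.ω₁ h1 p n
  rw [mul_div_cancel₀ _ h1, mul_one, mul_one] at h
  exact h

theorem JG.exists_scale (L : PeriodPair) (c : ℂ) (hc : c ≠ 0) :
    ∃ L' : PeriodPair, L'.ω₁ = c * L.ω₁ ∧ L'.ω₂ = c * L.ω₂ := by
  refine ⟨⟨c * L.ω₁, c * L.ω₂, ?_⟩, rfl, rfl⟩
  rw [LinearIndependent.pair_iff]
  intro s t hst
  refine LinearIndependent.pair_iff.mp L.indep s t ?_
  have h : c * (s • L.ω₁ + t • L.ω₂) = 0 := by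
    rw [← hst, Complex.real_smul, Complex.real_smul, Complex.real_smul, Complex.real_smul]
    ring
  exact (mul_eq_zero.mp h).resolve_left hc

theorem specJG : SpecJG where
  j := by
    intro L h1 him h0 h1728
    have e4 := JG.G_tau L h1 4
    have e6 := JG.G_tau L h1 6
    have hj := specFormula (L.ω₂ / L.ω₁) him
    rw [jFormula, ← e4, ← e6] at hj
    set G4 := L.G 4 with hG4
    set G6 := L.G 6 with hG6
    set w := L.ω₁ with hw
    have hw12 : w ^ 12 ≠ 0 := pow_ne_zero _ h1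
    have hA : (60 * (w ^ 4 * G4)) ^ 3 = w ^ 12 * L.g₂ ^ 3 := by
      rw [PeriodPair.g₂, ← hG4]; ring
    have hB : (60 * (w ^ 4 * G4)) ^ 3 - 27 * (140 * (w ^ 6 * G6)) ^ 2 =
        w ^ 12 * (L.g₂ ^ 3 - 27 * L.g₃ ^ 2) := by
      rw [PeriodPair.g₂, PeriodPair.g₃, ← hG4, ← hG6]; ring
    rw [hB, hA, mul_left_comm, mul_div_mul_left _ _ hw12] at hj
    have hd : L.g₂ ^ 3 - 27 * L.g₃ ^ 2 ≠ 0 := by
      intro h
      rw [h, div_zero] at hj
      exact h0 hj.symm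
    have hmul : Jc (L.ω₂ / w) * (L.g₂ ^ 3 - 27 * L.g₃ ^ 2) = 1728 * L.g₂ ^ 3 := by
      rw [← hj, div_mul_cancel₀ _ hd]
    refine ⟨?_, ?_, hd, hmul⟩
    · intro h
      rw [h] at hj
      apply h0
      rw [← hj]
      ring
    · intro h
      apply h1728
      rw [h] at hmul hd
      have h2 : L.g₂ ^ 3 ≠ 0 := by
        intro h'
        apply hd
        rw [h']
        ring
      have : (Jc (L.ω₂ / w) - 1728) * L.g₂ ^ 3 = 0 := by linear_combination hmul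
      exact sub_eq_zero.mp ((mul_eq_zero.mp this).resolve_right h2)
  scale := by
    intro L c hc
    obtain ⟨L', h1, h2⟩ := JG.exists_scale L c hc
    refine ⟨L', h1, h2, ?_, ?_⟩
    · have := JG.G_scale L L' c hc h1 h2 4
      rw [PeriodPair.g₂, PeriodPair.g₂]
      linear_combination 60 * this
    · have := JG.G_scale L L' c hc h1 h2 6
      rw [PeriodPair.g₃, PeriodPair.g₃]
      linear_combination 140 * this

end Pool.Agent.Lib.MP_47914d_nt.Sn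
end

section
/-!
Schneider's theorem over Liouville fields (MP_47914d_nt): all modules but the zero estimate.
-/
set_option autoImplicit false

namespace Pool.Agent.Lib.MP_47914d_nt.Sn

theorem specQS_of (hZ : SpecZero) : SpecQS :=
  specQS specLiou specTay specBeta (specSieg specLiou specTay) (specLat specWei specJG specTay)
    (specEllW specWei specJG specTay specTheta) (specAn specSchw) hZ specLoc

end Pool.Agent.Lib.MP_47914d_nt.Sn
end

section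
/-!
Schneider's theorem over Liouville fields (MP_47914d_nt).
-/
set_option autoImplicit false

open Complex Filter Topology

namespace Pool.Agent.Lib.MP_47914d_nt.Sn

theorem specQS_all : SpecQS := specQS_of (specZero specTay specZalg)

theorem main_all {n N : ℕ} (hn : 0 < n) (z : Fin n → ℂ)
    (him : ∀ i, 0 < (z i).im)
    (hcm : ∀ i, ¬ ∃ a b c : ℤ, (a ≠ 0 ∨ b ≠ 0 ∨ c ≠ 0) ∧
      (a : ℂ) * z i ^ 2 + (b : ℂ) * z i + (c : ℂ) = 0)
    (hne : ∀ i k, i ≠ k → ¬ ∃ a b c d : ℚ, 0 < a * d - b * c ∧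
      z k * ((c : ℂ) * z i + (d : ℂ)) = (a : ℂ) * z i + (b : ℂ))
    (x : Fin N → ℂ) (hx : AlgebraicIndependent ℚ x)
    (hxs : ∀ i, IsAlgebraic (Algebra.adjoin ℚ (Set.range (ptf z))) (x i))
    (happ : ∀ A H₀ : ℕ, ∃ H : ℕ, H₀ ≤ H ∧ ∃ ξ : Fin N → ℂ, ∀ i, AlgB (ξ i) H ∧
      ‖x i - ξ i‖ < Real.exp (-(H : ℝ) ^ A)) :
    ∃ w : Fin (min n N + 1) → Fin n ⊕ Fin n, AlgebraicIndependent ℚ (fun m => ptf z (w m)) :=
  main_fin (specAppr specRoot) specQS_all hn z him hcm hne x hx hxs happ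

end Pool.Agent.Lib.MP_47914d_nt.Sn
end
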