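import Pool.Agent.Lib.MP_47914d_nt.Sn.Zero1

section
set_option autoImplicit false
open Complex Filter Topology Polynomial Finset
open scoped Real

namespace Pool.Agent.Lib.MP_47914d_nt.Sn
namespace Zero

lemma not_dvd_pderiv (i : Fin 2) (P : MvPolynomial (Fin 2) ℂ) (h : MvPolynomial.pderiv i P ≠ 0) :
    ¬ P ∣ MvPolynomial.pderiv i P := by
  intro hd
  have h1 := MvPolynomial.totalDegree_le_of_dvd_of_isDomain hd h
  have h2 := totalDegree_pderiv_lt i P h
  omega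

lemma degreeOf_pos (P : MvPolynomial (Fin 2) ℂ) (h : MvPolynomial.pderiv 1 P ≠ 0) :
    1 ≤ P.degreeOf 1 := by
  by_contra hlt
  have h0 : P.degreeOf 1 = 0 := by omega
  refine h (MvPolynomial.pderiv_eq_zero_of_notMem_vars ?_)
  rw [MvPolynomial.mem_vars_iff_degreeOf_ne_zero, h0]
  exact not_not_intro rfl

lemma degreeOf_gg (β : ℂ) : (gg β 0).degreeOf 1 = 0 := by
  have hX : MvPolynomial.degreeOf 1 (MvPolynomial.X (0 : Fin 2) : MvPolynomial (Fin 2) ℂ) = 0 :=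
    MvPolynomial.degreeOf_X_of_ne (by decide)
  have h4 : (4 : MvPolynomial (Fin 2) ℂ) = MvPolynomial.C 4 := (map_ofNat _ 4).symm
  have h1 : (1 : MvPolynomial (Fin 2) ℂ) = MvPolynomial.C 1 := (map_one _).symm
  have hX2 := MvPolynomial.degreeOf_pow_le (1 : Fin 2) (MvPolynomial.X (0 : Fin 2) : MvPolynomial (Fin 2) ℂ) 2
  unfold gg
  have e1 := MvPolynomial.degreeOf_mul_le (1 : Fin 2) (4 : MvPolynomial (Fin 2) ℂ) (MvPolynomial.X 0)
  have e2 := MvPolynomial.degreeOf_mul_le (1 : Fin 2) (MvPolynomial.C β) (MvPolynomial.X (0 : Fin 2) ^ 2)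
  have e3 := MvPolynomial.degreeOf_add_le (1 : Fin 2) (1 : MvPolynomial (Fin 2) ℂ) (MvPolynomial.X 0)
  have e4 := MvPolynomial.degreeOf_add_le (1 : Fin 2) (1 + MvPolynomial.X 0 : MvPolynomial (Fin 2) ℂ)
    (MvPolynomial.C β * MvPolynomial.X 0 ^ 2)
  have e5 := MvPolynomial.degreeOf_mul_le (1 : Fin 2) (4 * MvPolynomial.X 0 : MvPolynomial (Fin 2) ℂ)
    (1 + MvPolynomial.X 0 + MvPolynomial.C β * MvPolynomial.X 0 ^ 2)
  rw [h4] at e1 e5 ⊢
  rw [h1] at e3 e4 e5 ⊢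
  rw [MvPolynomial.degreeOf_C] at e1 e2 e3
  rw [hX] at e1 e3 hX2
  omega

lemma gg_ne_zero (β : ℂ) : gg β 0 ≠ 0 := by
  intro h
  have h1 : gg β 0 = (4 * X * (1 + X + C β * X ^ 2) : ℂ[X]).toMvPolynomial (0 : Fin 2) := by
    unfold gg
    simp only [map_mul, map_add, map_one, map_pow, map_ofNat, Polynomial.toMvPolynomial_C,
      Polynomial.toMvPolynomial_X]
  rw [h1, ← map_zero (Polynomial.toMvPolynomial (0 : Fin 2))] at h
  have h2 := Polynomial.toMvPolynomial_injective _ h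
  have h3 := congrArg (Polynomial.eval 0) (congrArg Polynomial.derivative h2)
  simp at h3

lemma exists_point (β : ℂ) (P : MvPolynomial (Fin 2) ℂ) (hP : Irreducible P)
    (h0 : MvPolynomial.pderiv 0 P ≠ 0) (h1 : MvPolynomial.pderiv 1 P ≠ 0) :
    ∃ x : Fin 2 → ℂ, MvPolynomial.aeval x P = 0 ∧
      MvPolynomial.aeval x (MvPolynomial.pderiv 0 P) ≠ 0 ∧ MvPolynomial.aeval x (gg β 0) ≠ 0 := by
  have hprime : Prime P := hP.prime
  have hn : ¬ P ∣ MvPolynomial.pderiv 0 P * gg β 0 := by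
    intro hd
    rcases hprime.dvd_or_dvd hd with h | h
    · exact not_dvd_pderiv 0 P h0 h
    · obtain ⟨Q, hQ⟩ := h
      have hQ0 : Q ≠ 0 := by
        rintro rfl
        rw [mul_zero] at hQ
        exact gg_ne_zero β hQ
      have h2 := MvPolynomial.degreeOf_mul_eq (n := (1 : Fin 2)) hP.ne_zero hQ0
      rw [← hQ, degreeOf_gg] at h2
      have := degreeOf_pos P h1
      omega
  have hI : (Ideal.span {P}).IsPrime := (Ideal.span_singleton_prime hP.ne_zero).2 hprime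
  have hV := MvPolynomial.IsPrime.vanishingIdeal_zeroLocus (K := ℂ) (Ideal.span {P})
  have h2 : MvPolynomial.pderiv 0 P * gg β 0 ∉
      MvPolynomial.vanishingIdeal ℂ (MvPolynomial.zeroLocus ℂ (Ideal.span {P})) := by
    rw [hV, Ideal.mem_span_singleton]; exact hn
  rw [MvPolynomial.mem_vanishingIdeal_iff] at h2
  push Not at h2
  obtain ⟨x, hx, hne⟩ := h2
  rw [map_mul] at hne
  refine ⟨x, ?_, left_ne_zero_of_mul hne, right_ne_zero_of_mul hne⟩
  exact hx P (Ideal.mem_span_singleton_self P)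

/-- The polynomial `P(x, Y)`. -/
noncomputable def uni (x : ℂ) (P : MvPolynomial (Fin 2) ℂ) : ℂ[X] :=
  MvPolynomial.aeval ![C x, X] P

lemma eval_uni (x y : ℂ) (P : MvPolynomial (Fin 2) ℂ) :
    (uni x P).eval y = MvPolynomial.aeval ![x, y] P := by
  unfold uni
  induction P using MvPolynomial.induction_on with
  | C a => simp
  | add p q hp hq => simp [hp, hq]
  | mul_X p i hp => fin_cases i <;> simp [hp]

lemma natDegree_uni (x : ℂ) (P : MvPolynomial (Fin 2) ℂ) :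
    (uni x P).natDegree ≤ P.degreeOf 1 := by
  classical
  unfold uni
  rw [MvPolynomial.aeval_def, MvPolynomial.eval₂_eq']
  refine Polynomial.natDegree_sum_le_of_forall_le _ _ (fun m hm => ?_)
  rw [Fin.prod_univ_two]
  have h1 := MvPolynomial.le_degreeOf_of_mem_support 1 hm
  have h2 : (algebraMap ℂ ℂ[X] (P.coeff m) * (((![C x, X] : Fin 2 → ℂ[X]) 0) ^ m 0 *
      ((![C x, X] : Fin 2 → ℂ[X]) 1) ^ m 1)) = C (P.coeff m * x ^ m 0) * X ^ m 1 := by
    simp only [Matrix.cons_val_zero, Matrix.cons_val_one, map_mul, map_pow]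
    change C (P.coeff m) * _ = _
    ring
  rw [h2]
  exact (Polynomial.natDegree_C_mul_X_pow_le _ _).trans h1

lemma uni_ne_zero (x : ℂ) (P : MvPolynomial (Fin 2) ℂ) (hP : Irreducible P)
    (h1 : MvPolynomial.pderiv 1 P ≠ 0) : uni x P ≠ 0 := by
  intro h0
  have key : ∀ Q : MvPolynomial (Fin 2) ℂ, (MvPolynomial.X 0 - MvPolynomial.C x) ∣
      Q - (uni x Q).toMvPolynomial (1 : Fin 2) := by
    intro Q
    unfold uni
    induction Q using MvPolynomial.induction_on with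
    | C a =>
      have : (C a : ℂ[X]).toMvPolynomial (1 : Fin 2) = MvPolynomial.C a := by simp
      have h2 : MvPolynomial.aeval ![C x, X] (MvPolynomial.C a) = (C a : ℂ[X]) := by
        rw [MvPolynomial.aeval_C]; rfl
      rw [h2, this, sub_self]
      exact dvd_zero _
    | add p q hp hq =>
      rw [map_add, map_add]
      have := dvd_add hp hq
      convert this using 1
      ring
    | mul_X p i hp =>
      fin_cases i
      · simp only [map_mul, MvPolynomial.aeval_X, Fin.zero_eta, Matrix.cons_val_zero,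
          Polynomial.toMvPolynomial_C]
        obtain ⟨w, hw⟩ := hp
        refine ⟨w * MvPolynomial.X 0 +
          (MvPolynomial.aeval ![C x, X] p : ℂ[X]).toMvPolynomial (1 : Fin 2), ?_⟩
        linear_combination (MvPolynomial.X 0) * hw
      · have e : (![C x, X] : Fin 2 → ℂ[X]) 1 = X := rfl
        simp only [map_mul, MvPolynomial.aeval_X, Fin.mk_one, e, Polynomial.toMvPolynomial_X]
        obtain ⟨w, hw⟩ := hp
        refine ⟨w * MvPolynomial.X 1, ?_⟩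
        linear_combination (MvPolynomial.X 1) * hw
  have h2 := key P
  rw [h0, map_zero, sub_zero] at h2
  obtain ⟨W, hW⟩ := h2
  rcases hP.isUnit_or_isUnit hW with hu | hu
  · have h3 := hu.map (MvPolynomial.aeval (![x, 0] : Fin 2 → ℂ))
    simp at h3
  · have h4 : ∃ w : ℂ, W = MvPolynomial.C w := by
      have := MvPolynomial.isUnit_iff_totalDegree_of_isReduced.1 hu
      exact ⟨_, MvPolynomial.totalDegree_eq_zero_iff_eq_C.1 this.2⟩
    obtain ⟨w, rfl⟩ := h4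
    refine h1 ?_
    rw [hW]
    simp [Derivation.leibniz, MvPolynomial.pderiv_X]

/-- Pigeonhole for the values of `φ`. -/
lemma exists_eq (x : ℂ) (P : MvPolynomial (Fin 2) ℂ) (hP : Irreducible P)
    (h1 : MvPolynomial.pderiv 1 P ≠ 0) (L : ℕ) (hL : P.degreeOf 1 ≤ L) (y : ℕ → ℂ)
    (hy : ∀ n ≤ L, MvPolynomial.aeval ![x, y n] P = 0) :
    ∃ n n' : ℕ, n < n' ∧ n' ≤ L ∧ y n = y n' := by
  classical
  by_contra hcon
  push Not at hcon
  have hinj : Set.InjOn y (Finset.range (L + 1)) := by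
    intro a ha b hb hab
    rw [Finset.coe_range, Set.mem_Iio] at ha hb
    rcases lt_trichotomy a b with h | h | h
    · exact absurd hab (hcon a b h (by omega))
    · exact h
    · exact absurd hab.symm (hcon b a h (by omega))
  have h2 : (Finset.range (L + 1)).image y ⊆ (uni x P).roots.toFinset := by
    intro z hz
    rw [Finset.mem_image] at hz
    obtain ⟨n, hn, rfl⟩ := hz
    rw [Multiset.mem_toFinset, Polynomial.mem_roots (uni_ne_zero x P hP h1), Polynomial.IsRoot.def,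
      eval_uni]
    exact hy n (by rw [Finset.mem_range] at hn; omega)
  have h3 := Finset.card_le_card h2
  rw [Finset.card_image_of_injOn hinj, Finset.card_range] at h3
  have h4 := (Multiset.toFinset_card_le (uni x P).roots).trans (Polynomial.card_roots' _)
  have h5 := natDegree_uni x P
  omega

/-- Chain rule. -/
lemma hasDerivAt_eval (P : MvPolynomial (Fin 2) ℂ) (f g : ℂ → ℂ) (f' g' v : ℂ)
    (hf : HasDerivAt f f' v) (hg : HasDerivAt g g' v) :
    HasDerivAt (fun u => MvPolynomial.aeval ![f u, g u] P)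
      (MvPolynomial.aeval ![f v, g v] (MvPolynomial.pderiv 0 P) * f' +
        MvPolynomial.aeval ![f v, g v] (MvPolynomial.pderiv 1 P) * g') v := by
  induction P using MvPolynomial.induction_on with
  | C a => simpa using hasDerivAt_const v a
  | add p q hp hq =>
    simp only [map_add]
    exact (hp.fun_add hq).congr_deriv (by ring)
  | mul_X p i hp =>
    fin_cases i
    · simp only [map_mul, MvPolynomial.aeval_X, Fin.zero_eta, Matrix.cons_val_zero]
      refine (hp.fun_mul hf).congr_deriv ?_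
      simp [Derivation.leibniz, MvPolynomial.pderiv_X]
      ring
    · have e : ∀ a b : ℂ, (![a, b] : Fin 2 → ℂ) 1 = b := fun _ _ => rfl
      simp only [map_mul, MvPolynomial.aeval_X, Fin.mk_one, e]
      refine (hp.fun_mul hg).congr_deriv ?_
      simp [Derivation.leibniz, MvPolynomial.pderiv_X]
      ring

end Zero
end Pool.Agent.Lib.MP_47914d_nt.Sn
end

section
set_option autoImplicit false
open Complex Filter Topology Polynomial Finset
open scoped Real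

namespace Pool.Agent.Lib.MP_47914d_nt.Sn
namespace Zero

variable {β τ c : ℂ} {φ : ℂ → ℂ} {S : Set ℂ}

lemma ana1 (hE : EllF β τ c φ S) (c1 v : ℂ) (h : v + c1 ∉ S) :
    AnalyticAt ℂ (fun u => φ (u + c1)) v :=
  AnalyticAt.comp_of_eq (hE.ana _ h) (by fun_prop) rfl

lemma ana2 (hE : EllF β τ c φ S) (ξ c2 v : ℂ) (h : ξ * v + c2 ∉ S) :
    AnalyticAt ℂ (fun u => φ (ξ * u + c2)) v :=
  AnalyticAt.comp_of_eq (hE.ana _ h) (by fun_prop) rfl

lemma anaF (hE : EllF β τ c φ S) (ξ c1 c2 v : ℂ) (h1 : v + c1 ∉ S) (h2 : ξ * v + c2 ∉ S)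
    (P : MvPolynomial (Fin 2) ℂ) :
    AnalyticAt ℂ (fun u => MvPolynomial.aeval ![φ (u + c1), φ (ξ * u + c2)] P) v := by
  refine AnalyticAt.aeval_mvPolynomial (f := fun u => ![φ (u + c1), φ (ξ * u + c2)])
    (fun i => ?_) P
  fin_cases i
  · exact ana1 hE c1 v h1
  · exact ana2 hE ξ c2 v h2

lemma local_zero (hE : EllF β τ c φ S) (ξ : ℂ) (P M : MvPolynomial (Fin 2) ℂ)
    (hM : QQ β ξ P = P * M) (c1 c2 : ℂ) (hc1 : c1 ∉ S) (hc2 : c2 ∉ S)
    (h0 : MvPolynomial.aeval ![φ c1, φ c2] P = 0)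
    (hb : MvPolynomial.aeval ![φ c1, φ c2] (MvPolynomial.pderiv 0 P) * deriv φ c1 -
      ξ * MvPolynomial.aeval ![φ c1, φ c2] (MvPolynomial.pderiv 1 P) * deriv φ c2 ≠ 0) :
    ∀ᶠ v in 𝓝 (0 : ℂ), MvPolynomial.aeval ![φ (v + c1), φ (ξ * v + c2)] P = 0 := by
  set F : ℂ → ℂ := fun v => MvPolynomial.aeval ![φ (v + c1), φ (ξ * v + c2)] P with hF
  set b : ℂ → ℂ := fun v =>
    MvPolynomial.aeval ![φ (v + c1), φ (ξ * v + c2)] (MvPolynomial.pderiv 0 P) *
      deriv φ (v + c1) -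
    ξ * MvPolynomial.aeval ![φ (v + c1), φ (ξ * v + c2)] (MvPolynomial.pderiv 1 P) *
      deriv φ (ξ * v + c2) with hbdef
  set Mv : ℂ → ℂ := fun v => MvPolynomial.aeval ![φ (v + c1), φ (ξ * v + c2)] M with hMv
  have hS1 : (0 : ℂ) + c1 ∉ S := by rwa [zero_add]
  have hS2 : ξ * 0 + c2 ∉ S := by rwa [mul_zero, zero_add]
  have hFa : AnalyticAt ℂ F 0 := anaF hE ξ c1 c2 0 hS1 hS2 P
  have hMa : AnalyticAt ℂ Mv 0 := anaF hE ξ c1 c2 0 hS1 hS2 M
  have hba : AnalyticAt ℂ b 0 := by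
    refine AnalyticAt.sub (AnalyticAt.mul (anaF hE ξ c1 c2 0 hS1 hS2 _) ?_)
      (AnalyticAt.mul (AnalyticAt.mul analyticAt_const (anaF hE ξ c1 c2 0 hS1 hS2 _)) ?_)
    · exact AnalyticAt.comp_of_eq (g := deriv φ) (f := fun v => v + c1) (hE.ana _ hS1).deriv
        (by fun_prop) rfl
    · exact AnalyticAt.comp_of_eq (g := deriv φ) (f := fun v => ξ * v + c2)
        (hE.ana _ hS2).deriv (by fun_prop) rfl
  have hev1 : ∀ᶠ v in 𝓝 (0 : ℂ), v + c1 ∉ S := by
    have : ContinuousAt (fun v : ℂ => v + c1) 0 := by fun_prop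
    exact this.eventually_mem (hE.closed.isOpen_compl.mem_nhds hS1)
  have hev2 : ∀ᶠ v in 𝓝 (0 : ℂ), ξ * v + c2 ∉ S := by
    have : ContinuousAt (fun v : ℂ => ξ * v + c2) 0 := by fun_prop
    exact this.eventually_mem (hE.closed.isOpen_compl.mem_nhds hS2)
  have hid : (deriv F * b) =ᶠ[𝓝 0] (Mv * F) := by
    filter_upwards [hev1, hev2] with v h1 h2
    have hd1 : HasDerivAt (fun u => φ (u + c1)) (deriv φ (v + c1)) v := by
      have := (hE.ana _ h1).differentiableAt.hasDerivAt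
      simpa using HasDerivAt.comp_add_const v c1 this
    have hd2 : HasDerivAt (fun u => φ (ξ * u + c2)) (deriv φ (ξ * v + c2) * ξ) v := by
      have e1 := (hE.ana _ h2).differentiableAt.hasDerivAt
      have e2 : HasDerivAt (fun u : ℂ => ξ * u + c2) ξ v := by
        simpa using ((hasDerivAt_id v).const_mul ξ).add_const c2
      exact HasDerivAt.comp v e1 e2
    have hd := hasDerivAt_eval P _ _ _ _ v hd1 hd2
    have hdF : deriv F v = _ := hd.deriv
    have ho1 := hE.ode _ h1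
    have ho2 := hE.ode _ h2
    have hQ := congrArg (MvPolynomial.aeval ![φ (v + c1), φ (ξ * v + c2)]) hM
    rw [map_mul] at hQ
    have hQ2 : MvPolynomial.aeval ![φ (v + c1), φ (ξ * v + c2)] (QQ β ξ P) =
        MvPolynomial.aeval ![φ (v + c1), φ (ξ * v + c2)] (MvPolynomial.pderiv 0 P) ^ 2 *
          (4 * φ (v + c1) * (1 + φ (v + c1) + β * φ (v + c1) ^ 2)) -
        ξ ^ 2 * MvPolynomial.aeval ![φ (v + c1), φ (ξ * v + c2)] (MvPolynomial.pderiv 1 P) ^ 2 *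
          (4 * φ (ξ * v + c2) * (1 + φ (ξ * v + c2) + β * φ (ξ * v + c2) ^ 2)) := by
      unfold QQ gg
      simp
    rw [hQ2, ← ho1, ← ho2] at hQ
    rw [Pi.mul_apply, Pi.mul_apply, hdF]
    simp only [hbdef, hMv, hF]
    linear_combination hQ
  by_contra hcon
  have htop : analyticOrderAt F 0 ≠ ⊤ := by
    intro h
    exact hcon (analyticOrderAt_eq_top.1 h)
  have hF0 : F 0 = 0 := by
    simp only [hF, zero_add, mul_zero]
    exact h0
  have hd := hFa.analyticOrderAt_deriv_add_one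
  have hs : (fun x => F x - F 0) = F := by
    funext x; rw [hF0, sub_zero]
  rw [hs] at hd
  have hb0 : analyticOrderAt b 0 = 0 := by
    rw [hba.analyticOrderAt_eq_zero]
    simp only [hbdef, zero_add, mul_zero]
    exact hb
  have h1 := analyticOrderAt_congr hid
  rw [analyticOrderAt_mul hFa.deriv hba, analyticOrderAt_mul hMa hFa, hb0, add_zero] at h1
  obtain ⟨n, hn⟩ := ENat.ne_top_iff_exists.1 htop
  rw [← hn] at hd h1
  cases hdo : analyticOrderAt (deriv F) 0 with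
  | top => rw [hdo] at hd; simp at hd
  | coe m =>
    rw [hdo] at hd h1
    have h2 : m + 1 = n := by exact_mod_cast hd
    have h3 : (n : ℕ∞) ≤ m := by rw [h1]; exact le_add_self
    have h4 : n ≤ m := by exact_mod_cast h3
    omega

lemma isConn {T : Set ℂ} (hT : T.Countable) : IsPreconnected Tᶜ :=
  (hT.isConnected_compl_of_one_lt_rank (by simp)).isPreconnected

lemma countable_pre1 (hE : EllF β τ c φ S) (c1 : ℂ) : {v : ℂ | v + c1 ∈ S}.Countable :=
  hE.count.preimage (add_left_injective c1)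

lemma countable_pre2 (hE : EllF β τ c φ S) (ξ c2 : ℂ) (hξ : ξ ≠ 0) :
    {v : ℂ | ξ * v + c2 ∈ S}.Countable := by
  refine hE.count.preimage (f := fun v => ξ * v + c2) ?_
  intro a b hab
  simpa [hξ] using hab

lemma closed_pre1 (hE : EllF β τ c φ S) (c1 : ℂ) : IsClosed {v : ℂ | v + c1 ∈ S} :=
  hE.closed.preimage (f := fun v : ℂ => v + c1) (by fun_prop)

lemma closed_pre2 (hE : EllF β τ c φ S) (ξ c2 : ℂ) : IsClosed {v : ℂ | ξ * v + c2 ∈ S} :=
  hE.closed.preimage (f := fun v : ℂ => ξ * v + c2) (by fun_prop)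

/-- The relation holds along a translated curve. -/
lemma exists_curve (hE : EllF β τ c φ S) (ξ : ℂ) (hξ : ξ ≠ 0) (P : MvPolynomial (Fin 2) ℂ)
    (hP : Irreducible P) (h0 : MvPolynomial.pderiv 0 P ≠ 0) (h1 : MvPolynomial.pderiv 1 P ≠ 0)
    (hQ : P ∣ QQ β ξ P) :
    ∃ c1 c2 : ℂ, ∀ v : ℂ, v + c1 ∉ S → ξ * v + c2 ∉ S →
      MvPolynomial.aeval ![φ (v + c1), φ (ξ * v + c2)] P = 0 := by
  obtain ⟨M, hM⟩ := hQ
  obtain ⟨x, hx, hx0, hxg⟩ := exists_point β P hP h0 h1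
  obtain ⟨c1, hc1, hφ1⟩ := hE.surj (x 0)
  obtain ⟨c2, hc2, hφ2⟩ := hE.surj (x 1)
  have hxx : x = ![φ c1, φ c2] := by
    ext i; fin_cases i
    · exact hφ1.symm
    · exact hφ2.symm
  rw [hxx] at hx hx0 hxg
  -- derivative at `c1`
  have hd1 : deriv φ c1 ≠ 0 := by
    intro h
    have h2 := hE.ode c1 hc1
    rw [h] at h2
    apply hxg
    have : MvPolynomial.aeval ![φ c1, φ c2] (gg β 0) =
        4 * φ c1 * (1 + φ c1 + β * φ c1 ^ 2) := by
      unfold gg; simp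
    rw [this, ← h2]; ring
  -- choice of the sign
  have hsgn : ∃ c3 : ℂ, c3 ∉ S ∧ φ c3 = φ c2 ∧
      MvPolynomial.aeval ![φ c1, φ c2] (MvPolynomial.pderiv 0 P) * deriv φ c1 -
      ξ * MvPolynomial.aeval ![φ c1, φ c2] (MvPolynomial.pderiv 1 P) * deriv φ c3 ≠ 0 := by
    by_cases hb : MvPolynomial.aeval ![φ c1, φ c2] (MvPolynomial.pderiv 0 P) * deriv φ c1 -
      ξ * MvPolynomial.aeval ![φ c1, φ c2] (MvPolynomial.pderiv 1 P) * deriv φ c2 = 0
    · refine ⟨-c2, fun h => hc2 (by simpa using hE.neg _ h), hE.even c2, ?_⟩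
      have hd2 : deriv φ (-c2) = - deriv φ c2 := by
        have e1 : (fun u => φ (-u)) = φ := funext hE.even
        have e2 := deriv_comp_neg φ c2
        rw [e1] at e2
        rw [e2, neg_neg]
      rw [hd2]
      intro hb2
      have : 2 * (MvPolynomial.aeval ![φ c1, φ c2] (MvPolynomial.pderiv 0 P) * deriv φ c1) = 0 := by
        linear_combination hb + hb2
      rcases mul_eq_zero.1 this with h | h
      · norm_num at h
      · rcases mul_eq_zero.1 h with h | h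
        · exact hx0 h
        · exact hd1 h
    · exact ⟨c2, hc2, rfl, hb⟩
  obtain ⟨c3, hc3, hφ3, hb⟩ := hsgn
  rw [← hφ3] at hx hb
  have hloc := local_zero hE ξ P M hM c1 c3 hc1 hc3 hx hb
  refine ⟨c1, c3, ?_⟩
  set T : Set ℂ := {v | v + c1 ∈ S} ∪ {v | ξ * v + c3 ∈ S} with hT
  have hTc : T.Countable := (countable_pre1 hE c1).union (countable_pre2 hE ξ c3 hξ)
  have hana : AnalyticOnNhd ℂ
      (fun u => MvPolynomial.aeval ![φ (u + c1), φ (ξ * u + c3)] P) Tᶜ := by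
    intro v hv
    rw [hT, Set.mem_compl_iff, Set.mem_union, not_or] at hv
    exact anaF hE ξ c1 c3 v hv.1 hv.2 P
  have h00 : (0 : ℂ) ∈ Tᶜ := by
    rw [hT, Set.mem_compl_iff, Set.mem_union, not_or]
    simpa using ⟨hc1, hc3⟩
  have := hana.eqOn_zero_of_preconnected_of_eventuallyEq_zero (isConn hTc) h00 hloc
  intro v hv1 hv2
  exact this (by rw [hT, Set.mem_compl_iff, Set.mem_union, not_or]; exact ⟨hv1, hv2⟩)

lemma lat_neg {v : ℂ} (h : v ∈ Lat τ c) : -v ∈ Lat τ c := by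
  obtain ⟨m, n, rfl⟩ := h
  exact ⟨-m, -n, by push_cast; ring⟩

lemma lat_nsmul {v : ℂ} (h : v ∈ Lat τ c) (k : ℕ) : (k : ℂ) * v ∈ Lat τ c := by
  obtain ⟨m, n, rfl⟩ := h
  exact ⟨k * m, k * n, by push_cast; ring⟩

/-- Almost periods are periods. -/
lemma mem_lat (hE : EllF β τ c φ S)
    (T : Set ℂ) (hT : T.Countable) (h : ℂ) (hper : ∀ u, u ∉ T → φ u = φ (u + h)) :
    h ∈ Lat τ c := by
  have h0L : (0 : ℂ) ∈ Lat τ c := ⟨0, 0, by simp⟩
  have h0S : (0 : ℂ) ∉ S := hE.latS 0 h0L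
  have hφ0 : φ 0 = 0 := (hE.zero 0 h0S).2 h0L
  set U : Set ℂ := (T ∪ {0})ᶜ with hU
  have hdense : Dense U := (hT.union (Set.countable_singleton 0)).dense_compl ℂ
  have hne : (𝓝[U] (0 : ℂ)).NeBot := mem_closure_iff_nhdsWithin_neBot.1 (hdense 0)
  have hcont : Tendsto φ (𝓝[U] 0) (𝓝 0) := by
    have := (hE.ana 0 h0S).continuousAt.tendsto
    rw [hφ0] at this
    exact this.mono_left nhdsWithin_le_nhds
  have hcont2 : Tendsto (fun u => φ (u + h)) (𝓝[U] 0) (𝓝 0) := by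
    refine hcont.congr' ?_
    filter_upwards [self_mem_nhdsWithin] with u hu
    exact hper u (fun hT' => hu (Or.inl hT'))
  by_cases hS : h ∈ S
  · exfalso
    have h1 : Tendsto (fun u : ℂ => u + h) (𝓝[U] 0) (𝓝[≠] h) := by
      rw [tendsto_nhdsWithin_iff]
      constructor
      · have : Tendsto (fun u : ℂ => u + h) (𝓝 0) (𝓝 (0 + h)) := by
          exact (continuous_id.add continuous_const).tendsto 0
        rw [zero_add] at this
        exact this.mono_left nhdsWithin_le_nhds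
      · filter_upwards [self_mem_nhdsWithin] with u hu
        intro h2
        refine hu (Or.inr ?_)
        simpa using h2
    have h2 := (hE.pole h hS).comp h1
    have h3 := hcont2.norm
    rw [norm_zero] at h3
    exact not_tendsto_nhds_of_tendsto_atTop h2 _ h3
  · have h1 : Tendsto (fun u => φ (u + h)) (𝓝[U] 0) (𝓝 (φ h)) := by
      have h2 : ContinuousAt (fun u : ℂ => φ (u + h)) 0 := by
        refine ContinuousAt.comp (g := φ) (f := fun u : ℂ => u + h) ?_ (by fun_prop)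
        rw [zero_add]
        exact (hE.ana h hS).continuousAt
      have h3 := h2.tendsto
      simp only [zero_add] at h3
      exact h3.mono_left nhdsWithin_le_nhds
    exact (hE.zero h hS).1 (tendsto_nhds_unique h1 hcont2)

/-- For every period `ω` some `k ξ ω`, `1 ≤ k ≤ L`, is a period. -/
lemma exists_mult (hE : EllF β τ c φ S) (ξ : ℂ) (hξ : ξ ≠ 0)
    (P : MvPolynomial (Fin 2) ℂ) (hP : Irreducible P) (h0 : MvPolynomial.pderiv 0 P ≠ 0)
    (h1 : MvPolynomial.pderiv 1 P ≠ 0) (hQ : P ∣ QQ β ξ P) (L : ℕ) (hL : P.degreeOf 1 ≤ L)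
    (ω : ℂ) (hω : ω ∈ Lat τ c) :
    ∃ k : ℕ, 1 ≤ k ∧ k ≤ L ∧ (k : ℂ) * (ξ * ω) ∈ Lat τ c := by
  obtain ⟨c1, c2, hcurve⟩ := exists_curve hE ξ hξ P hP h0 h1 hQ
  -- the exceptional set
  set T : Set ℂ := {v | v + c1 ∈ S} ∪ ⋃ n ∈ Finset.range (L + 1),
    {v | ξ * v + (c2 + (n : ℂ) * (ξ * ω)) ∈ S} with hT
  have hTc : T.Countable := (countable_pre1 hE c1).union
    (Set.Countable.biUnion (Finset.countable_toSet _) fun n _ => countable_pre2 hE ξ _ hξ)
  have hTcl : IsClosed T := (closed_pre1 hE c1).union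
    (Set.Finite.isClosed_biUnion (Finset.finite_toSet _) fun n _ => closed_pre2 hE ξ _)
  have hmem : ∀ v, v ∉ T → v + c1 ∉ S ∧ ∀ n ≤ L, ξ * v + (c2 + (n : ℂ) * (ξ * ω)) ∉ S := by
    intro v hv
    rw [hT, Set.mem_union, not_or] at hv
    refine ⟨hv.1, fun n hn h => hv.2 ?_⟩
    rw [Set.mem_iUnion₂]
    exact ⟨n, Finset.mem_range.2 (by omega), h⟩
  have hpig : ∀ v, v ∉ T → ∃ n n' : ℕ, n < n' ∧ n' ≤ L ∧
      φ (ξ * v + (c2 + (n : ℂ) * (ξ * ω))) = φ (ξ * v + (c2 + (n' : ℂ) * (ξ * ω))) := by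
    intro v hv
    obtain ⟨hv1, hv2⟩ := hmem v hv
    refine exists_eq (φ (v + c1)) P hP h1 L hL
      (fun n => φ (ξ * v + (c2 + (n : ℂ) * (ξ * ω)))) (fun n hn => ?_)
    have h2 := hcurve (v + n * ω) ?_ ?_
    · have e1 : φ (v + n * ω + c1) = φ (v + c1) := by
        have := hE.per (v + c1) (n * ω) (lat_nsmul hω n)
        rw [← this]; congr 1; ring
      have e2 : ξ * (v + n * ω) + c2 = ξ * v + (c2 + (n : ℂ) * (ξ * ω)) := by ring
      rw [e1, e2] at h2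
      exact h2
    · intro h3
      apply hv1
      have := hE.perS _ _ (lat_neg (lat_nsmul hω n)) h3
      convert this using 1
      ring
    · have e2 : ξ * (v + n * ω) + c2 = ξ * v + (c2 + (n : ℂ) * (ξ * ω)) := by ring
      rw [e2]
      exact hv2 n hn
  -- one pair works on an open set
  obtain ⟨z0, hz0⟩ : (Tᶜ).Nonempty := (hTc.dense_compl ℂ).nonempty
  have hana : ∀ n n' : ℕ, n ≤ L → n' ≤ L → AnalyticOnNhd ℂ (fun v =>
      φ (ξ * v + (c2 + (n : ℂ) * (ξ * ω))) - φ (ξ * v + (c2 + (n' : ℂ) * (ξ * ω)))) Tᶜ := by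
    intro n n' hn hn' v hv
    exact (ana2 hE ξ _ v ((hmem v hv).2 n hn)).sub (ana2 hE ξ _ v ((hmem v hv).2 n' hn'))
  have hpair : ∃ n n' : ℕ, n < n' ∧ n' ≤ L ∧ ∀ᶠ v in 𝓝 z0,
      φ (ξ * v + (c2 + (n : ℂ) * (ξ * ω))) - φ (ξ * v + (c2 + (n' : ℂ) * (ξ * ω))) = 0 := by
    by_contra hcon
    push Not at hcon
    have hev : ∀ n ∈ Finset.range (L + 1), ∀ n' ∈ Finset.range (L + 1), n < n' →
        ∀ᶠ v in 𝓝[≠] z0, φ (ξ * v + (c2 + (n : ℂ) * (ξ * ω))) -
          φ (ξ * v + (c2 + (n' : ℂ) * (ξ * ω))) ≠ 0 := by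
      intro n hn n' hn' hlt
      rw [Finset.mem_range] at hn hn'
      rcases (hana n n' (by omega) (by omega) z0 hz0).eventually_eq_zero_or_eventually_ne_zero
        with h | h
      · exact absurd h (Filter.not_eventually.2 (hcon n n' hlt (by omega)))
      · exact h
    have hev2 : ∀ᶠ v in 𝓝[≠] z0, ∀ n ∈ Finset.range (L + 1), ∀ n' ∈ Finset.range (L + 1),
        n < n' → φ (ξ * v + (c2 + (n : ℂ) * (ξ * ω))) -
          φ (ξ * v + (c2 + (n' : ℂ) * (ξ * ω))) ≠ 0 := by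
      rw [Filter.eventually_all_finset]
      intro n hn
      rw [Filter.eventually_all_finset]
      intro n' hn'
      by_cases hlt : n < n'
      · filter_upwards [hev n hn n' hn' hlt] with v hv _ using hv
      · exact Filter.Eventually.of_forall fun v h => absurd h hlt
    have hev3 : ∀ᶠ v in 𝓝[≠] z0, v ∉ T :=
      (hTcl.isOpen_compl.eventually_mem hz0).filter_mono nhdsWithin_le_nhds
    obtain ⟨v, hv1, hv2⟩ := (hev2.and hev3).exists
    obtain ⟨n, n', hlt, hle, heq⟩ := hpig v hv2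
    exact hv1 n (Finset.mem_range.2 (by omega)) n' (Finset.mem_range.2 (by omega)) hlt
      (sub_eq_zero.2 heq)
  obtain ⟨n, n', hlt, hle, hev⟩ := hpair
  have hall := (hana n n' (by omega) hle).eqOn_zero_of_preconnected_of_eventuallyEq_zero
    (isConn hTc) hz0 hev
  refine ⟨n' - n, by omega, by omega, ?_⟩
  refine mem_lat hE ((fun v => ξ * v + (c2 + (n : ℂ) * (ξ * ω))) '' T) (hTc.image _) _ ?_
  intro u hu
  set v : ℂ := (u - (c2 + (n : ℂ) * (ξ * ω))) / ξ with hv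
  have huv : ξ * v + (c2 + (n : ℂ) * (ξ * ω)) = u := by
    rw [hv]; field_simp; ring
  have hvT : v ∉ T := fun h => hu ⟨v, h, huv⟩
  have h2 := hall hvT
  have h3 := sub_eq_zero.1 h2
  rw [huv] at h3
  rw [h3]
  congr 1
  rw [← huv]
  rw [Nat.cast_sub hlt.le]
  ring

/-- The final computation: `k₁ ξ` and `k₂ ξ τ` in `ℤ + ℤ τ`. -/
lemma quad (τ ξ : ℂ) (K L : ℕ) (hτ : 0 < τ.im) (hξ : ξ.im ≠ 0) (hξK : ‖ξ‖ ≤ K) (hτK : ‖τ‖ ≤ K)
    (hKτ : 1 ≤ K * τ.im) (k1 k2 : ℕ) (hk1 : 1 ≤ k1) (hk1L : k1 ≤ L) (hk2 : 1 ≤ k2)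
    (hk2L : k2 ≤ L) (a b d e : ℤ) (h1 : (k1 : ℂ) * ξ = a + b * τ)
    (h2 : (k2 : ℂ) * (ξ * τ) = d + e * τ) : QuadHeight τ (4 * L ^ 2 * K ^ 4) := by
  have hK0 : (0 : ℝ) ≤ K := Nat.cast_nonneg _
  have hL0 : (0 : ℝ) ≤ L := Nat.cast_nonneg _
  have hk1' : (k1 : ℝ) ≤ L := by exact_mod_cast hk1L
  have hk2' : (k2 : ℝ) ≤ L := by exact_mod_cast hk2L
  have hk1p : (1 : ℝ) ≤ k1 := by exact_mod_cast hk1
  have hk2p : (1 : ℝ) ≤ k2 := by exact_mod_cast hk2
  have hτim : τ.im ≤ K := (Complex.im_le_norm τ).trans hτK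
  have hK1 : (1 : ℝ) ≤ K := by
    by_contra h
    push Not at h
    have hKn : K = 0 := by
      have : K < 1 := by exact_mod_cast h
      omega
    rw [hKn] at hKτ
    norm_num at hKτ
  -- bound for `b`
  have hb_im : (k1 : ℝ) * ξ.im = b * τ.im := by
    have := congrArg Complex.im h1
    simpa using this
  have hb0 : b ≠ 0 := by
    rintro rfl
    simp at hb_im
    rcases hb_im with h | h
    · omega
    · exact hξ h
  have hξim : |ξ.im| ≤ K := (Complex.abs_im_le_norm ξ).trans hξK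
  have hbb : |(b : ℝ)| ≤ L * K ^ 2 := by
    have e1 : |(b : ℝ)| * τ.im = k1 * |ξ.im| := by
      rw [← abs_of_pos hτ, ← abs_mul, ← hb_im, abs_mul, abs_of_nonneg (by positivity : (0:ℝ) ≤ k1)]
    have e2 : |(b : ℝ)| ≤ |(b : ℝ)| * (K * τ.im) := by
      nlinarith [abs_nonneg (b : ℝ)]
    calc |(b : ℝ)| ≤ |(b : ℝ)| * (K * τ.im) := e2
      _ = K * (k1 * |ξ.im|) := by rw [← e1]; ring
      _ ≤ K * (L * K) := by gcongr
      _ = L * K ^ 2 := by ring
  have haa : |(a : ℝ)| ≤ 2 * L * K ^ 3 := by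
    have e1 : (a : ℂ) = k1 * ξ - b * τ := by rw [h1]; ring
    have e2 : |(a : ℝ)| = ‖(a : ℂ)‖ := by
      rw [Complex.norm_intCast]
    rw [e2, e1]
    calc ‖(k1 : ℂ) * ξ - b * τ‖ ≤ ‖(k1 : ℂ) * ξ‖ + ‖(b : ℂ) * τ‖ := norm_sub_le _ _
      _ = k1 * ‖ξ‖ + |(b : ℝ)| * ‖τ‖ := by
        rw [norm_mul, norm_mul, Complex.norm_natCast, Complex.norm_intCast]
      _ ≤ L * K + (L * K ^ 2) * K := by gcongr
      _ ≤ 2 * L * K ^ 3 := by
        have : (K : ℝ) ≤ K ^ 3 := by nlinarith [sq_nonneg ((K : ℝ) - 1), mul_nonneg hK0 hK0]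
        nlinarith [mul_le_mul_of_nonneg_left this hL0]
  -- bound for `e`
  have he_im : (k2 : ℝ) * (ξ * τ).im = e * τ.im := by
    have := congrArg Complex.im h2
    have h3 : ((k2 : ℂ) * (ξ * τ)).im = k2 * (ξ * τ).im := by
      rw [Complex.mul_im]; simp
    rw [h3] at this
    rw [this]; simp
  have hξτ : ‖ξ * τ‖ ≤ K ^ 2 := by
    rw [norm_mul]
    calc ‖ξ‖ * ‖τ‖ ≤ K * K := by gcongr
      _ = K ^ 2 := by ring
  have hξτim : |(ξ * τ).im| ≤ K ^ 2 := (Complex.abs_im_le_norm _).trans hξτ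
  have hee : |(e : ℝ)| ≤ L * K ^ 3 := by
    have e1 : |(e : ℝ)| * τ.im = k2 * |(ξ * τ).im| := by
      rw [← abs_of_pos hτ, ← abs_mul, ← he_im, abs_mul, abs_of_nonneg (by positivity : (0:ℝ) ≤ k2)]
    have e2 : |(e : ℝ)| ≤ |(e : ℝ)| * (K * τ.im) := by
      nlinarith [abs_nonneg (e : ℝ)]
    calc |(e : ℝ)| ≤ |(e : ℝ)| * (K * τ.im) := e2
      _ = K * (k2 * |(ξ * τ).im|) := by rw [← e1]; ring
      _ ≤ K * (L * K ^ 2) := by gcongr
      _ = L * K ^ 3 := by ring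
  have hdd : |(d : ℝ)| ≤ 2 * L * K ^ 4 := by
    have e1 : (d : ℂ) = k2 * (ξ * τ) - e * τ := by rw [h2]; ring
    have e2 : |(d : ℝ)| = ‖(d : ℂ)‖ := by
      rw [Complex.norm_intCast]
    rw [e2, e1]
    calc ‖(k2 : ℂ) * (ξ * τ) - e * τ‖ ≤ ‖(k2 : ℂ) * (ξ * τ)‖ + ‖(e : ℂ) * τ‖ := norm_sub_le _ _
      _ = k2 * ‖ξ * τ‖ + |(e : ℝ)| * ‖τ‖ := by
        rw [norm_mul (k2 : ℂ), norm_mul (e : ℂ), Complex.norm_natCast, Complex.norm_intCast]
      _ ≤ L * K ^ 2 + (L * K ^ 3) * K := by gcongr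
      _ ≤ 2 * L * K ^ 4 := by
        have : (K : ℝ) ^ 2 ≤ K ^ 4 := pow_le_pow_right₀ hK1 (by norm_num)
        nlinarith [mul_le_mul_of_nonneg_left this hL0]
  have hKK : (K : ℝ) ^ 3 ≤ K ^ 4 := pow_le_pow_right₀ hK1 (by norm_num)
  have hKK2 : (K : ℝ) ^ 2 ≤ K ^ 4 := pow_le_pow_right₀ hK1 (by norm_num)
  refine ⟨k2 * b, k2 * a - k1 * e, -(k1 * d), Or.inl ?_, ?_, ?_, ?_, ?_⟩
  · exact mul_ne_zero (by exact_mod_cast (by omega : k2 ≠ 0)) hb0
  · have : (|((k2 : ℤ) * b : ℤ)| : ℝ) ≤ ((4 * L ^ 2 * K ^ 4 : ℕ) : ℝ) := by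
      push_cast
      rw [abs_mul, abs_of_nonneg (by positivity : (0:ℝ) ≤ k2)]
      calc (k2 : ℝ) * |(b : ℝ)| ≤ L * (L * K ^ 2) := by gcongr
        _ ≤ 4 * L ^ 2 * K ^ 4 := by nlinarith [mul_le_mul_of_nonneg_left hKK2 (mul_nonneg hL0 hL0), mul_nonneg (mul_nonneg hL0 hL0) (pow_nonneg hK0 4)]
    exact_mod_cast this
  · have : (|((k2 : ℤ) * a - (k1 : ℤ) * e : ℤ)| : ℝ) ≤ ((4 * L ^ 2 * K ^ 4 : ℕ) : ℝ) := by
      push_cast
      calc |(k2 : ℝ) * a - k1 * e| ≤ |(k2 : ℝ) * a| + |(k1 : ℝ) * e| := abs_sub _ _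
        _ = k2 * |(a : ℝ)| + k1 * |(e : ℝ)| := by
          rw [abs_mul, abs_mul, abs_of_nonneg (by positivity : (0:ℝ) ≤ k2),
            abs_of_nonneg (by positivity : (0:ℝ) ≤ k1)]
        _ ≤ L * (2 * L * K ^ 3) + L * (L * K ^ 3) := by gcongr
        _ ≤ 4 * L ^ 2 * K ^ 4 := by nlinarith [mul_le_mul_of_nonneg_left hKK (mul_nonneg hL0 hL0), mul_nonneg (mul_nonneg hL0 hL0) (pow_nonneg hK0 4)]
    exact_mod_cast this
  · have : (|(-((k1 : ℤ) * d) : ℤ)| : ℝ) ≤ ((4 * L ^ 2 * K ^ 4 : ℕ) : ℝ) := by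
      push_cast
      rw [abs_neg, abs_mul, abs_of_nonneg (by positivity : (0:ℝ) ≤ k1)]
      calc (k1 : ℝ) * |(d : ℝ)| ≤ L * (2 * L * K ^ 4) := by gcongr
        _ ≤ 4 * L ^ 2 * K ^ 4 := by nlinarith [mul_nonneg (mul_nonneg hL0 hL0) (pow_nonneg hK0 4)]
    exact_mod_cast this
  · push_cast
    linear_combination ((k2 : ℂ) * τ) * (-h1) + (k1 : ℂ) * h2

end Zero

/-- The zero estimate. -/
theorem specZero (hT : SpecTay) (hZ : SpecZalg) : SpecZero := by
  intro β τ c φ S hτ hc hE ξ K L p hξ hξK hτK hKτ hL hp hv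
  have hξ0 : ξ ≠ 0 := by rintro rfl; simp at hξ
  obtain ⟨P, hP, hPL, h0, h1, hQ⟩ := Zero.exists_bad hT hZ β ξ hξ0 L p hp hv
  have hc1 : c ∈ Lat τ c := ⟨1, 0, by push_cast; ring⟩
  have hc2 : c * τ ∈ Lat τ c := ⟨0, 1, by push_cast; ring⟩
  obtain ⟨k1, hk1, hk1L, a, b, hab⟩ := Zero.exists_mult hE ξ hξ0 P hP h0 h1 hQ L hPL c hc1
  obtain ⟨k2, hk2, hk2L, d, e, hde⟩ := Zero.exists_mult hE ξ hξ0 P hP h0 h1 hQ L hPL _ hc2
  refine Zero.quad τ ξ K L hτ hξ hξK hτK hKτ k1 k2 hk1 hk1L hk2 hk2L a b d e ?_ ?_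
  · apply mul_left_cancel₀ hc
    linear_combination hab
  · apply mul_left_cancel₀ hc
    linear_combination hde

end Pool.Agent.Lib.MP_47914d_nt.Sn
end
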